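import Mathlib

/-!
# Chebyshev's upper bound for prime ideals (job BK-Cheb)

`K` is any number field.

Proof.  Let `P` be a nonzero prime ideal with `absNorm P ≤ N`.  `(absNorm P : 𝓞 K) ∈ P`
(`Ideal.absNorm_mem`), `absNorm P ≥ 2`, so there is a rational prime `p ∣ absNorm P` with
`(p : 𝓞 K) ∈ P` (`P` is prime, `absNorm P` is a product of primes; induction `Nat.recOnMul` or
`Nat.primeFactorsList`), i.e. `P ∣ span {(p : 𝓞 K)}`, and `p ≤ absNorm P ≤ N`.
For a rational prime `p`: the product of the distinct `P ∈ T` with `P ∣ span {p}` divides `span {p}`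
(`Finset.prod_primes_dvd`; different primes of `Ideal (𝓞 K)` are not associated), whose norm is
`p ^ finrank ℚ K` (`Ideal.absNorm_span_singleton`, `Algebra.norm_algebraMap` or
`Algebra.norm_natCast`), so `∏ absNorm P ∣ p ^ finrank ℚ K` and `∑ log (absNorm P) ≤
finrank ℚ K * log p`.
Sum over the primes `p ≤ N`: `∑_{P ∈ T} log (absNorm P) ≤ ∑_{p ≤ N} ∑_{P ∈ T, P ∣ (p)} log (absNorm P)
≤ finrank ℚ K * θ(N) ≤ finrank ℚ K * log 4 * N` (`Chebyshev.theta_le_log4_mul_x`).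
-/

open NumberField Module

namespace Pool.Agent.H14.BK

theorem cheb_prime_mem {K : Type*} [Field K] [NumberField K] (P : Ideal (𝓞 K)) (hP : P.IsPrime) :
    ∀ n : ℕ, n ≠ 0 → ((n : ℕ) : 𝓞 K) ∈ P → ∃ p : ℕ, p.Prime ∧ p ∣ n ∧ ((p : ℕ) : 𝓞 K) ∈ P := by
  intro n
  induction n using Nat.strong_induction_on with
  | _ n ih =>
    intro hn hmem
    rcases eq_or_ne n 1 with h1 | h1
    · subst h1
      exfalso
      apply hP.ne_top
      rw [Ideal.eq_top_iff_one]
      simpa using hmem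
    · have hp := Nat.minFac_prime h1
      obtain ⟨m, hm⟩ := Nat.minFac_dvd n
      have hm0 : m ≠ 0 := by
        rintro rfl
        rw [mul_zero] at hm
        exact hn hm
      have hmem' : ((n.minFac : ℕ) : 𝓞 K) * ((m : ℕ) : 𝓞 K) ∈ P := by
        rw [← Nat.cast_mul, ← hm]
        exact hmem
      rcases hP.mem_or_mem hmem' with h | h
      · exact ⟨n.minFac, hp, Nat.minFac_dvd n, h⟩
      · have hlt : m < n := by
          calc m < n.minFac * m := lt_mul_left (Nat.pos_of_ne_zero hm0) hp.one_lt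
            _ = n := hm.symm
        obtain ⟨p, h2, h3, h4⟩ := ih m hlt hm0 h
        exact ⟨p, h2, h3.trans ⟨n.minFac, by rw [mul_comm]; exact hm⟩, h4⟩

theorem exists_under_prime {K : Type*} [Field K] [NumberField K] (P : Ideal (𝓞 K)) (hP : Prime P) :
    ∃ p : ℕ, p.Prime ∧ p ∣ Ideal.absNorm P ∧ P ∣ Ideal.span {((p : ℕ) : 𝓞 K)} := by
  have hP' : P.IsPrime := Ideal.isPrime_of_prime hP
  have h0 : Ideal.absNorm P ≠ 0 := by
    rw [Ne, Ideal.absNorm_eq_zero_iff]
    exact hP.ne_zero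
  obtain ⟨p, h1, h2, h3⟩ := cheb_prime_mem P hP' _ h0 (Ideal.absNorm_mem P)
  exact ⟨p, h1, h2, Ideal.dvd_span_singleton.2 h3⟩

theorem sum_log_above {K : Type*} [Field K] [NumberField K] (p : ℕ) (hp : p.Prime)
    (T : Finset (Ideal (𝓞 K))) (hT : ∀ P ∈ T, Prime P ∧ P ∣ Ideal.span {((p : ℕ) : 𝓞 K)}) :
    ∑ P ∈ T, Real.log (Ideal.absNorm P : ℝ) ≤ (finrank ℚ K : ℝ) * Real.log p := by
  have h1 : ∏ P ∈ T, P ∣ Ideal.span {((p : ℕ) : 𝓞 K)} :=
    Finset.prod_primes_dvd _ (fun P hP => (hT P hP).1) (fun P hP => (hT P hP).2)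
  have h2 := map_dvd Ideal.absNorm h1
  have h3 : Ideal.absNorm (Ideal.span {((p : ℕ) : 𝓞 K)}) = p ^ finrank ℚ K := by
    rw [Ideal.absNorm_span_singleton]
    have : ((p : ℕ) : 𝓞 K) = algebraMap ℤ (𝓞 K) (p : ℤ) := by simp
    rw [this, Algebra.norm_algebraMap, RingOfIntegers.rank, Int.natAbs_pow, Int.natAbs_natCast]
  rw [h3, map_prod] at h2
  have hpos : ∀ P ∈ T, (Ideal.absNorm P : ℝ) ≠ 0 := by
    intro P hP
    have : Ideal.absNorm P ≠ 0 := by
      rw [Ne, Ideal.absNorm_eq_zero_iff]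
      exact (hT P hP).1.ne_zero
    exact_mod_cast this
  rw [← Real.log_prod hpos, ← Real.log_pow]
  apply Real.log_le_log
  · have : 0 < ∏ P ∈ T, Ideal.absNorm P := by
      apply Nat.pos_of_ne_zero
      rw [Finset.prod_ne_zero_iff]
      intro P hP
      have := hpos P hP
      exact_mod_cast this
    exact_mod_cast this
  · exact_mod_cast Nat.le_of_dvd (pow_pos hp.pos _) h2

theorem chebyshev_ideals {K : Type*} [Field K] [NumberField K] (N : ℕ) (T : Finset (Ideal (𝓞 K)))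
    (hT : ∀ P ∈ T, Prime P ∧ Ideal.absNorm P ≤ N) :
    ∑ P ∈ T, Real.log (Ideal.absNorm P : ℝ) ≤ (finrank ℚ K : ℝ) * Real.log 4 * N := by
  classical
  have hex : ∀ P : Ideal (𝓞 K), ∃ p : ℕ, Prime P →
      (p.Prime ∧ p ∣ Ideal.absNorm P ∧ P ∣ Ideal.span {((p : ℕ) : 𝓞 K)}) := by
    intro P
    by_cases hP : Prime P
    · obtain ⟨p, hp⟩ := exists_under_prime P hP
      exact ⟨p, fun _ => hp⟩
    · exact ⟨0, fun h => absurd h hP⟩
  choose u hu using hex
  have hmaps : ∀ P ∈ T, u P ∈ (Finset.Ioc 0 N).filter Nat.Prime := by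
    intro P hP
    obtain ⟨h1, h2⟩ := hT P hP
    obtain ⟨h3, h4, -⟩ := hu P h1
    rw [Finset.mem_filter, Finset.mem_Ioc]
    refine ⟨⟨h3.pos, ?_⟩, h3⟩
    refine (Nat.le_of_dvd ?_ h4).trans h2
    apply Nat.pos_of_ne_zero
    rw [Ne, Ideal.absNorm_eq_zero_iff]
    exact h1.ne_zero
  rw [← Finset.sum_fiberwise_of_maps_to hmaps]
  have h1 : ∀ p ∈ (Finset.Ioc 0 N).filter Nat.Prime,
      ∑ P ∈ T.filter (fun P => u P = p), Real.log (Ideal.absNorm P : ℝ) ≤
        (finrank ℚ K : ℝ) * Real.log p := by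
    intro p hp
    rw [Finset.mem_filter] at hp
    apply sum_log_above p hp.2
    intro P hP
    rw [Finset.mem_filter] at hP
    have h2 := (hT P hP.1).1
    have h3 := (hu P h2).2.2
    rw [hP.2] at h3
    exact ⟨h2, h3⟩
  refine (Finset.sum_le_sum h1).trans ?_
  rw [← Finset.mul_sum, mul_assoc]
  apply mul_le_mul_of_nonneg_left _ (Nat.cast_nonneg _)
  have h2 := Chebyshev.theta_le_log4_mul_x (x := (N : ℝ)) (Nat.cast_nonneg _)
  unfold Chebyshev.theta at h2
  rw [Nat.floor_natCast] at h2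
  exact h2

end Pool.Agent.H14.BK
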