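import Pool.Agent.H14.BK.KDef

/-!
# Complex conjugation in an imaginary quadratic field

Proofs.

`exists_tau`.  `K / ℚ` is Galois (degree `2`, characteristic `0`: `IsQuadraticExtension`), so
`conj ∘ σ : K →+* ℂ` and `σ` have the same range and there is an automorphism of `K` with
`σ ∘ τ = conj ∘ σ`.  Shortest in Mathlib: `NumberField.IsCMField.ofCMExtension ℚ K` (with
`Algebra.IsQuadraticExtension ℚ K := ⟨h2⟩`), `IsCMField.complexConj K`,
`IsCMField.complexEmbedding_complexConj`, and `RingOfIntegers.mapRingEquiv`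
(see `IsCMField.ringOfIntegersComplexConj`).

`tau_tau`: `σ` and the inclusion `𝓞 K → K` are injective.  `map_tau_tau`: `Ideal.map_map`, or
`Ideal.mem_map_of_equiv`.  `mem_map_tau`: `Ideal.mem_map_of_equiv` and injectivity.

`absNorm_map_tau`: `Ideal.absNorm J = Nat.card (𝓞 K ⧸ J)` (`Ideal.absNorm_apply`,
`Submodule.cardQuot_apply`), and `Ideal.quotientEquiv J (J.map τ) τ rfl`.

`exists_delta`: with `b = ibasis h2` and `discr_eq` (`H92/CG/QuadField.lean`):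
`δ₀ = b 0 * τ (b 1) - τ (b 0) * b 1` has `σ δ₀ = 2 i Im (σ b₀ conj σ b₁)`, whose square is `D < 0` and
whose absolute value is `√|D|`; take `δ = ± δ₀`.
-/


open NumberField Module
open scoped nonZeroDivisors ComplexConjugate

namespace Pool.Agent.H14.BK

variable {K : Type*} [Field K] [NumberField K]

theorem exists_tau [IsTotallyComplex K] (h2 : finrank ℚ K = 2) (σ : K →+* ℂ) :
    ∃ τ : 𝓞 K ≃+* 𝓞 K, IsTau σ τ := by
  haveI : Algebra.IsQuadraticExtension ℚ K := ⟨h2⟩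
  haveI : IsCMField K := IsCMField.ofCMExtension ℚ K
  refine ⟨(IsCMField.ringOfIntegersComplexConj K).toRingEquiv, fun x => ?_⟩
  exact IsCMField.complexEmbedding_complexConj K σ (x : K)

theorem tau_tau {σ : K →+* ℂ} {τ : 𝓞 K ≃+* 𝓞 K} (hτ : IsTau σ τ) (x : 𝓞 K) : τ (τ x) = x := by
  apply RingOfIntegers.ext
  apply σ.injective
  rw [hτ, hτ, Complex.conj_conj]

theorem map_tau_tau {σ : K →+* ℂ} {τ : 𝓞 K ≃+* 𝓞 K} (hτ : IsTau σ τ) (J : Ideal (𝓞 K)) :
    (J.map τ).map τ = J := by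
  ext x
  rw [Ideal.mem_map_of_equiv]
  constructor
  · rintro ⟨y, hy, rfl⟩
    rw [Ideal.mem_map_of_equiv] at hy
    obtain ⟨z, hz, rfl⟩ := hy
    rwa [tau_tau hτ]
  · intro hx
    refine ⟨τ x, ?_, tau_tau hτ x⟩
    rw [Ideal.mem_map_of_equiv]
    exact ⟨x, hx, rfl⟩

theorem mem_map_tau (τ : 𝓞 K ≃+* 𝓞 K) (J : Ideal (𝓞 K)) (x : 𝓞 K) : τ x ∈ J.map τ ↔ x ∈ J := by
  rw [Ideal.mem_map_of_equiv]
  constructor
  · rintro ⟨y, hy, hyx⟩
    rwa [← τ.injective hyx]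
  · intro hx
    exact ⟨x, hx, rfl⟩

theorem absNorm_map_tau (τ : 𝓞 K ≃+* 𝓞 K) (J : Ideal (𝓞 K)) :
    Ideal.absNorm (J.map τ) = Ideal.absNorm J := by
  rw [Ideal.absNorm_apply, Ideal.absNorm_apply, Submodule.cardQuot_apply,
    Submodule.cardQuot_apply]
  exact Nat.card_congr (Ideal.quotientEquiv J (J.map τ) τ rfl).symm.toEquiv

/-- the square root of the discriminant, up to sign -/
theorem conj_delta0 [IsTotallyComplex K] (h2 : finrank ℚ K = 2) {σ : K →+* ℂ} {τ : 𝓞 K ≃+* 𝓞 K} (hτ : IsTau σ τ)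
    {δ₀ : 𝓞 K} (hδ₀ : δ₀ = Pool.Agent.H92.CG.ibasis h2 0 * τ (Pool.Agent.H92.CG.ibasis h2 1) -
      τ (Pool.Agent.H92.CG.ibasis h2 0) * Pool.Agent.H92.CG.ibasis h2 1) :
    σ (δ₀ : K) = Complex.I * (rD K : ℝ) ∨ σ ((-δ₀ : 𝓞 K) : K) = Complex.I * (rD K : ℝ) := by
  have hd := Pool.Agent.H92.CG.discr_eq h2 σ
  set w := σ (Pool.Agent.H92.CG.ibasis h2 0 : 𝓞 K) with hw
  set z := σ (Pool.Agent.H92.CG.ibasis h2 1 : 𝓞 K) with hz
  have h1 : σ (δ₀ : K) = Complex.I * ((2 * (w * conj z).im : ℝ) : ℂ) := by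
    rw [hδ₀]
    simp only [map_sub, map_mul]
    rw [hτ, hτ]
    change w * conj z - conj w * z = _
    apply Complex.ext
    · simp
    · simp
      ring
  have h3 : rD K = 2 * |(w * conj z).im| := by
    unfold rD
    rw [hd]
    have h4 : |-4 * (w * conj z).im ^ 2| = (2 * |(w * conj z).im|) ^ 2 := by
      rw [abs_mul, abs_neg, abs_of_pos (by norm_num : (0 : ℝ) < 4), abs_of_nonneg (sq_nonneg _),
        mul_pow, sq_abs]
      ring
    rw [h4, Real.sqrt_sq (by positivity)]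
  rcases le_or_gt 0 (w * conj z).im with h4 | h4
  · left
    rw [h1, h3, abs_of_nonneg h4]
  · right
    have h5 : σ ((-δ₀ : 𝓞 K) : K) = - σ (δ₀ : K) := by
      rw [← map_neg]
      rfl
    rw [h5, h1, h3, abs_of_neg h4]
    push_cast
    ring

theorem exists_delta [IsTotallyComplex K] (h2 : finrank ℚ K = 2) (σ : K →+* ℂ) :
    ∃ δ : 𝓞 K, σ (δ : K) = Complex.I * (rD K : ℝ) := by
  obtain ⟨τ, hτ⟩ := exists_tau h2 σ
  rcases conj_delta0 h2 hτ rfl with h | h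
  · exact ⟨_, h⟩
  · exact ⟨_, h⟩

end Pool.Agent.H14.BK
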