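import Pool.Agent.H14.BK.Conj

/-!
# The product of an ideal and its conjugate

`mul_map_tau`: `J * J.map τ = (N J)`.
Both sides are multiplicative in `J` (`Ideal.map_mul`, `map_mul` of `absNorm`,
`Ideal.span_singleton_mul_span_singleton`); for `J = ⊥`: trivial; so by
`UniqueFactorizationMonoid.induction_on_prime` (or `Ideal.prod_normalizedFactors_eq_self`) only primes
`J = 𝔮 ≠ ⊥` are needed.  Let `ℓ` be the rational prime with `ℓ ∈ 𝔮`; `𝔮 ∣ (ℓ)`, `N (ℓ) = ℓ²` (`h2`: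
`Ideal.absNorm_span_singleton` and `Algebra.norm_algebraMap`, or `norm_int_eq` of
`H92/CG/QuadField.lean` with `σ ℓ = ℓ`), so `N 𝔮 = ℓ` or `ℓ²` and `(ℓ) = 𝔮 𝔟`.
* `N 𝔮 = ℓ²`: `N 𝔟 = 1`, `𝔮 = (ℓ)`, `𝔮.map τ = (τ ℓ) = (ℓ)`, product `(ℓ²)`.
* `N 𝔮 = ℓ`: `N 𝔟 = ℓ`, so `𝔟` is prime (`Ideal.isPrime_of_irreducible_absNorm`).  Write
  `𝔮' = 𝔮.map τ`, `𝔟' = 𝔟.map τ`; `(ℓ) = 𝔮' 𝔟'`.  If `𝔮' ≠ 𝔮`: `𝔮' ∣ 𝔮 𝔟`, so `𝔮' ∣ 𝔟`, and both are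
  maximal, `𝔮' = 𝔟`.  If `𝔮' = 𝔮`: claim `𝔟 = 𝔮`.  Otherwise `𝔟' ≠ 𝔮' = 𝔮`, `𝔟' ∣ 𝔮 𝔟`, so
  `𝔟' = 𝔟`.  Choose `x ∈ 𝔮`, `x ∉ 𝔟` (both maximal and different).  `x * τ x` is the image of an
  integer `n` (`σ (x τ x) = ‖σ x‖² = norm_int_eq`, so `x * τ x = (Algebra.norm ℤ x : 𝓞 K)` by
  injectivity of `σ`), `n ∈ 𝔮 ∩ ℤ = ℓ ℤ`, so `n ∈ (ℓ) ⊆ 𝔟`, hence `x ∈ 𝔟` or `τ x ∈ 𝔟`, i.e.
  `x ∈ 𝔟' = 𝔟`: contradiction in both cases.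
-/


open NumberField Module
open scoped nonZeroDivisors ComplexConjugate

namespace Pool.Agent.H14.BK

variable {K : Type*} [Field K] [NumberField K]

theorem conjM_norm [IsTotallyComplex K] (h2 : finrank ℚ K = 2) {σ : K →+* ℂ}
    {τ : 𝓞 K ≃+* 𝓞 K} (hτ : IsTau σ τ) (x : 𝓞 K) :
    ((Algebra.norm ℤ x : ℤ) : 𝓞 K) = x * τ x := by
  apply RingOfIntegers.ext
  apply σ.injective
  have h1 : (((Algebra.norm ℤ x : ℤ) : 𝓞 K) : K) = ((Algebra.norm ℤ x : ℤ) : K) := by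
    push_cast
    rfl
  have h3 : ((x * τ x : 𝓞 K) : K) = (x : K) * ((τ x : 𝓞 K) : K) := rfl
  rw [h1, h3, map_mul, hτ x, map_intCast, Complex.mul_conj, Complex.normSq_eq_norm_sq]
  have h4 := Pool.Agent.H92.CG.norm_int_eq h2 σ x
  rw [← h4]
  push_cast
  rfl

theorem conjM_le [IsTotallyComplex K] (h2 : finrank ℚ K = 2) {σ : K →+* ℂ}
    {τ : 𝓞 K ≃+* 𝓞 K} (hτ : IsTau σ τ) (J : Ideal (𝓞 K)) :
    Ideal.span {((Ideal.absNorm J : ℕ) : 𝓞 K)} ≤ J * J.map τ := by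
  have h1 : Ideal.span {((Ideal.absNorm J : ℕ) : 𝓞 K)} =
      (Ideal.relNorm ℤ J).map (algebraMap ℤ (𝓞 K)) := by
    rw [Ideal.relNorm_int, Ideal.map_span, Set.image_singleton]
    congr 2
    simp
  rw [h1, Ideal.map_relNorm, Ideal.span_le]
  rintro _ ⟨x, hx, rfl⟩
  rw [Function.comp_apply, Algebra.intNorm_eq_norm]
  have h3 : (algebraMap ℤ (𝓞 K)) (Algebra.norm ℤ x) = x * τ x := by
    rw [← conjM_norm h2 hτ x]
    rfl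
  rw [h3]
  exact Ideal.mul_mem_mul hx (Ideal.mem_map_of_mem τ hx)

theorem mul_map_tau [IsTotallyComplex K] (h2 : finrank ℚ K = 2) {σ : K →+* ℂ}
    {τ : 𝓞 K ≃+* 𝓞 K} (hτ : IsTau σ τ) (J : Ideal (𝓞 K)) :
    J * J.map τ = Ideal.span {((Ideal.absNorm J : ℕ) : 𝓞 K)} := by
  by_cases hJ : J = ⊥
  · subst hJ
    simp
  · have h1 := conjM_le h2 hτ J
    have h3 : Ideal.absNorm (Ideal.span {((Ideal.absNorm J : ℕ) : 𝓞 K)}) =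
        Ideal.absNorm J ^ 2 := by
      rw [Ideal.absNorm_span_natCast, RingOfIntegers.rank, h2]
    have h4 : Ideal.absNorm (J * J.map τ) = Ideal.absNorm J ^ 2 := by
      rw [map_mul, absNorm_map_tau, pow_two]
    obtain ⟨C, hC⟩ := Ideal.dvd_iff_le.2 h1
    have h5 : Ideal.absNorm J ≠ 0 := by rwa [Ne, Ideal.absNorm_eq_zero_iff]
    have h6 := congrArg Ideal.absNorm hC
    rw [map_mul, h3, h4] at h6
    have h7 : Ideal.absNorm C = 1 := by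
      have h8 : Ideal.absNorm J ^ 2 * Ideal.absNorm C = Ideal.absNorm J ^ 2 * 1 := by
        rw [mul_one]
        exact h6.symm
      exact Nat.eq_of_mul_eq_mul_left (pow_pos (Nat.pos_of_ne_zero h5) 2) h8
    rw [Ideal.absNorm_eq_one_iff] at h7
    rw [hC, h7, Ideal.mul_top]

end Pool.Agent.H14.BK
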