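import Pool.Agent.H14.BK.Conj

/-!
# Residues modulo a prime ideal of prime norm

`exists_nat`: `𝓞 K ⧸ 𝔭` has `q = N 𝔭` elements, `q` prime, so as an additive group it is cyclic,
generated by `1 ≠ 0`: the map `ZMod q → 𝓞 K ⧸ 𝔭` is injective (a ring homomorphism from a field, `q` is
`0` in the quotient by `Ideal.absNorm_mem`) and so bijective.

`int_mem`: `𝔭 ∩ ℤ = q ℤ`: the same injectivity (`q ∈ 𝔭`, `1 ∉ 𝔭`, `q` prime).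

`delta_not_mem`: if `δ ∈ 𝔭` then `q = N 𝔭 ∣ N ((δ)) = |D|` (`Ideal.absNorm_dvd_absNorm_of_le`,
`norm_sq_eq_absNorm` of `H92/CG/Partial.lean`: `‖σ δ‖² = |D| ≠ 0`), so `q ≤ |D|`.

`tau_ne`: suppose `𝔭.map τ = 𝔭`.  By `exists_nat` `b i ≡ n i mod 𝔭`, so `τ (b i) ≡ n i mod 𝔭`
(`τ (n i) = n i`), so `δ₀ ≡ n₀ n₁ - n₀ n₁ = 0 mod 𝔭`, contrary to `delta_not_mem`.
-/


open NumberField Module
open scoped nonZeroDivisors ComplexConjugate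

namespace Pool.Agent.H14.BK

variable {K : Type*} [Field K] [NumberField K]

theorem conjP_ne_top {𝔭 : Ideal (𝓞 K)} (hq : (Ideal.absNorm 𝔭).Prime) : 𝔭 ≠ ⊤ := by
  intro h
  rw [h, Ideal.absNorm_top] at hq
  exact Nat.not_prime_one hq

theorem exists_nat {𝔭 : Ideal (𝓞 K)} (hq : (Ideal.absNorm 𝔭).Prime) (x : 𝓞 K) :
    ∃ n : ℕ, n < Ideal.absNorm 𝔭 ∧ x - (n : 𝓞 K) ∈ 𝔭 := by
  haveI := Fact.mk hq
  have hcard : Nat.card (𝓞 K ⧸ 𝔭) = Ideal.absNorm 𝔭 := by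
    rw [Ideal.absNorm_apply, Submodule.cardQuot_apply]
  haveI : Nontrivial (𝓞 K ⧸ 𝔭) := Ideal.Quotient.nontrivial_iff.mpr (conjP_ne_top hq)
  have h1 : Ideal.Quotient.mk 𝔭 x ∈ AddSubgroup.zmultiples (1 : 𝓞 K ⧸ 𝔭) :=
    mem_zmultiples_of_prime_card hcard one_ne_zero
  rw [AddSubgroup.mem_zmultiples_iff] at h1
  obtain ⟨k, hk⟩ := h1
  have hqpos : (0 : ℤ) < (Ideal.absNorm 𝔭 : ℕ) := by exact_mod_cast hq.pos
  have hmod0 := Int.emod_nonneg k hqpos.ne'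
  have hmodlt := Int.emod_lt_of_pos k hqpos
  refine ⟨(k % ((Ideal.absNorm 𝔭 : ℕ) : ℤ)).toNat, ?_, ?_⟩
  · omega
  · have hcast : (((k % ((Ideal.absNorm 𝔭 : ℕ) : ℤ)).toNat : ℕ) : 𝓞 K) =
        ((k % ((Ideal.absNorm 𝔭 : ℕ) : ℤ) : ℤ) : 𝓞 K) := by
      rw [← Int.cast_natCast, Int.toNat_of_nonneg hmod0]
    have hxk : x - (k : 𝓞 K) ∈ 𝔭 := by
      rw [← Ideal.Quotient.eq, map_intCast, ← hk]
      simp
    have hkn : (k : 𝓞 K) - ((k % ((Ideal.absNorm 𝔭 : ℕ) : ℤ) : ℤ) : 𝓞 K) ∈ 𝔭 := by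
      have h3 : (k : ℤ) - k % ((Ideal.absNorm 𝔭 : ℕ) : ℤ) =
          ((Ideal.absNorm 𝔭 : ℕ) : ℤ) * (k / ((Ideal.absNorm 𝔭 : ℕ) : ℤ)) := by
        have := Int.emod_add_mul_ediv k ((Ideal.absNorm 𝔭 : ℕ) : ℤ)
        linarith
      rw [← Int.cast_sub, h3, Int.cast_mul, Int.cast_natCast]
      exact 𝔭.mul_mem_right _ (Ideal.absNorm_mem 𝔭)
    rw [hcast]
    have h4 : x - ((k % ((Ideal.absNorm 𝔭 : ℕ) : ℤ) : ℤ) : 𝓞 K) = (x - (k : 𝓞 K)) +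
        ((k : 𝓞 K) - ((k % ((Ideal.absNorm 𝔭 : ℕ) : ℤ) : ℤ) : 𝓞 K)) := by ring
    rw [h4]
    exact 𝔭.add_mem hxk hkn

theorem int_mem {𝔭 : Ideal (𝓞 K)} (hq : (Ideal.absNorm 𝔭).Prime) (n : ℤ) :
    (n : 𝓞 K) ∈ 𝔭 ↔ ((Ideal.absNorm 𝔭 : ℕ) : ℤ) ∣ n := by
  constructor
  · intro hn
    by_contra hdvd
    have hp : Prime ((Ideal.absNorm 𝔭 : ℕ) : ℤ) := Nat.prime_iff_prime_int.mp hq
    have hcop : IsCoprime ((Ideal.absNorm 𝔭 : ℕ) : ℤ) n :=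
      (hp.irreducible.coprime_iff_not_dvd).mpr hdvd
    obtain ⟨a, b, hab⟩ := hcop
    apply conjP_ne_top hq
    rw [Ideal.eq_top_iff_one]
    have h1 : (1 : 𝓞 K) = (a : 𝓞 K) * ((Ideal.absNorm 𝔭 : ℕ) : 𝓞 K) + (b : 𝓞 K) * (n : 𝓞 K) := by
      have := congrArg (fun t : ℤ => (t : 𝓞 K)) hab
      push_cast at this
      exact this.symm
    rw [h1]
    exact 𝔭.add_mem (𝔭.mul_mem_left _ (Ideal.absNorm_mem 𝔭)) (𝔭.mul_mem_left _ hn)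
  · rintro ⟨m, rfl⟩
    rw [Int.cast_mul, Int.cast_natCast]
    exact 𝔭.mul_mem_right _ (Ideal.absNorm_mem 𝔭)

theorem delta_not_mem [IsTotallyComplex K] (h2 : finrank ℚ K = 2) {σ : K →+* ℂ} {δ : 𝓞 K}
    (hδ : σ (δ : K) = Complex.I * (rD K : ℝ)) {𝔭 : Ideal (𝓞 K)}
    (hD : |discr K| < (Ideal.absNorm 𝔭 : ℤ)) : δ ∉ 𝔭 := by
  intro hmem
  have h1 : Ideal.absNorm 𝔭 ∣ Ideal.absNorm (Ideal.span {δ}) :=
    Ideal.absNorm_dvd_absNorm_of_le ((Ideal.span_singleton_le_iff_mem 𝔭).mpr hmem)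
  have h3 := Pool.Agent.H92.CG.norm_sq_eq_absNorm h2 σ δ
  rw [hδ, norm_mul, Complex.norm_I, one_mul, Complex.norm_real, Real.norm_eq_abs, sq_abs] at h3
  unfold rD at h3
  rw [Real.sq_sqrt (abs_nonneg _)] at h3
  have h4 : |discr K| = (Ideal.absNorm (Ideal.span {δ}) : ℤ) := by
    have h5 : ((|discr K| : ℤ) : ℝ) = ((Ideal.absNorm (Ideal.span {δ}) : ℤ) : ℝ) := by
      rw [Int.cast_abs, h3]
      norm_cast
    exact_mod_cast h5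
  have h6 : 0 < |discr K| := abs_pos.mpr (discr_ne_zero K)
  have h7 : Ideal.absNorm 𝔭 ≤ Ideal.absNorm (Ideal.span {δ}) := by
    apply Nat.le_of_dvd _ h1
    rw [h4] at h6
    exact_mod_cast h6
  have h8 : (Ideal.absNorm 𝔭 : ℤ) ≤ (Ideal.absNorm (Ideal.span {δ}) : ℤ) := by exact_mod_cast h7
  linarith

theorem tau_ne [IsTotallyComplex K] (h2 : finrank ℚ K = 2) {σ : K →+* ℂ} {τ : 𝓞 K ≃+* 𝓞 K}
    (hτ : IsTau σ τ) {𝔭 : Ideal (𝓞 K)} (hq : (Ideal.absNorm 𝔭).Prime)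
    (hD : |discr K| < (Ideal.absNorm 𝔭 : ℤ)) : 𝔭.map τ ≠ 𝔭 := by
  intro heq
  set b := Pool.Agent.H92.CG.ibasis (K := K) h2 with hb
  obtain ⟨n0, -, h0⟩ := exists_nat hq (b 0)
  obtain ⟨n1, -, h1⟩ := exists_nat hq (b 1)
  have ht : ∀ (x : 𝓞 K) (n : ℕ), x - (n : 𝓞 K) ∈ 𝔭 → τ x - (n : 𝓞 K) ∈ 𝔭 := by
    intro x n hx
    have h3 := (mem_map_tau τ 𝔭 (x - (n : 𝓞 K))).mpr hx
    rw [heq, map_sub, map_natCast] at h3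
    exact h3
  have ht0 := ht _ _ h0
  have ht1 := ht _ _ h1
  have hmem : b 0 * τ (b 1) - τ (b 0) * b 1 ∈ 𝔭 := by
    have h3 : b 0 * τ (b 1) - τ (b 0) * b 1 =
        b 0 * (τ (b 1) - (n1 : 𝓞 K)) + (n1 : 𝓞 K) * (b 0 - (n0 : 𝓞 K)) -
        (τ (b 0) * (b 1 - (n1 : 𝓞 K)) + (n1 : 𝓞 K) * (τ (b 0) - (n0 : 𝓞 K))) := by ring
    rw [h3]
    exact 𝔭.sub_mem (𝔭.add_mem (𝔭.mul_mem_left _ ht1) (𝔭.mul_mem_left _ h0))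
      (𝔭.add_mem (𝔭.mul_mem_left _ h1) (𝔭.mul_mem_left _ ht0))
  rcases conj_delta0 h2 hτ rfl with h | h
  · exact delta_not_mem h2 h hD hmem
  · exact delta_not_mem h2 h hD (𝔭.neg_mem hmem)

end Pool.Agent.H14.BK
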