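import Pool.Agent.H14.BK.Lat
import Pool.Agent.H92.CG.Partial

/-!
# The number of ideals of bounded norm in an imaginary quadratic field (job BK-Count)

Let `w = Nat.card (𝓞 K)ˣ` and `D = √|discr K|`.

Proof of `card_class`.  Choose `J` with `mk0 J = c⁻¹` (`ClassGroup.mk0_surjective`), an embedding
`σ : K →+* ℂ` (`Classical.arbitrary`/`NumberField.Embeddings` nonempty), `A, β, E` from
`exists_form h2 σ J` (`H92/CG/Reduced.lean`) and `e` from `exists_equiv c J` (`H92/CG/Partial.lean`).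
For `p = (I, u)` and `x = e p`: `absNorm (span {x}) = absNorm I * absNorm J` and
`‖σ x‖² = absNorm (span {x})` (`norm_sq_eq_absNorm`), so with `x = E v`:
`qf A β v = 2 ‖σ x‖² / (N J · D) = 2 N I / D`.  Hence for `N ≥ 1`
`w * #{I ∈ c : N I ≤ N} = #{v ≠ 0 : qf A β v ≤ 2 N / D} = #{v : qf A β v ≤ 2 N / D} - 1`
(`E 0 = 0`, `qf A β 0 = 0`), and `card_qf_le` with `T = 2 N / D` gives
`#{I ∈ c : N I ≤ N} = (1 / w) (2 π N / D + O(1 + √N))`.  For `N = 0` the set is empty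
(`absNorm I ≠ 0` for `I ≠ 0`).  `1 + √N ≤ 2 √N` for `N ≥ 1`.

Proof of `card_ideals`: sum over the finitely many classes; `κ = 2 π h / (w D)`,
`h = Nat.card (ClassGroup (𝓞 K))`.
-/

open NumberField Module
open scoped nonZeroDivisors

namespace Pool.Agent.H14.BK

open Pool.Agent.H92.CG

variable {K : Type*} [Field K] [NumberField K]

theorem count_qf_zero (A β : ℝ) : qf A β 0 = 0 := by
  simp [qf]

/-- the number of points of the ellipse, with and without the origin -/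
theorem count_remove {A : ℝ} (hA : 0 < A) (β T : ℝ) (hT : 0 ≤ T) :
    Nat.card {v : ℤ × ℤ // qf A β v ≤ T} =
      Nat.card {v : ℤ × ℤ // v ≠ 0 ∧ qf A β v ≤ T} + 1 := by
  have hfin := finite_qf_le hA β T
  have h1 : {v : ℤ × ℤ | qf A β v ≤ T} =
      insert (0 : ℤ × ℤ) {v : ℤ × ℤ | v ≠ 0 ∧ qf A β v ≤ T} := by
    ext v
    simp only [Set.mem_ofPred_eq, Set.mem_insert_iff]
    by_cases hv : v = 0
    · rw [hv, count_qf_zero]
      simp [hT]
    · simp [hv]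
  have h2 : (0 : ℤ × ℤ) ∉ {v : ℤ × ℤ | v ≠ 0 ∧ qf A β v ≤ T} := fun h => h.1 rfl
  have h3 : {v : ℤ × ℤ | v ≠ 0 ∧ qf A β v ≤ T}.Finite := hfin.subset fun v hv => hv.2
  have h4 := Set.ncard_insert_of_notMem h2 h3
  rw [← h1] at h4
  exact h4

theorem count_equiv [IsTotallyComplex K] (h2 : finrank ℚ K = 2) (σ : K →+* ℂ)
    (c : ClassGroup (𝓞 K)) (J : (Ideal (𝓞 K))⁰) (hJ : ClassGroup.mk0 J = c⁻¹) {A β : ℝ}
    (E : ℤ × ℤ ≃ (J : Ideal (𝓞 K))) (hE0 : E 0 = 0)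
    (hE : ∀ v, 2 * ‖σ (E v : 𝓞 K)‖ ^ 2 /
      ((Ideal.absNorm (J : Ideal (𝓞 K)) : ℝ) * √|((discr K : ℤ) : ℝ)|) = qf A β v) (N : ℕ) :
    Nat.card {I : (Ideal (𝓞 K))⁰ // ClassGroup.mk0 I = c ∧
        Ideal.absNorm (I : Ideal (𝓞 K)) ≤ N} * Nat.card (𝓞 K)ˣ =
      Nat.card {v : ℤ × ℤ // v ≠ 0 ∧ qf A β v ≤ 2 * N / √|((discr K : ℤ) : ℝ)|} := by
  set D : ℝ := √|((discr K : ℤ) : ℝ)| with hD
  have hDpos : 0 < D := by
    apply Real.sqrt_pos.2
    rw [abs_pos]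
    exact_mod_cast discr_ne_zero K
  have hNpos : 0 < (Ideal.absNorm (J : Ideal (𝓞 K)) : ℝ) := by
    have : Ideal.absNorm (J : Ideal (𝓞 K)) ≠ 0 := by
      rw [Ne, Ideal.absNorm_eq_zero_iff]
      exact nonZeroDivisors.coe_ne_zero J
    positivity
  obtain ⟨e, he⟩ := exists_equiv c J hJ
  rw [← Nat.card_prod]
  -- from pairs (ideal, unit) to elements
  have e1 : {I : (Ideal (𝓞 K))⁰ // ClassGroup.mk0 I = c ∧
      Ideal.absNorm (I : Ideal (𝓞 K)) ≤ N} × (𝓞 K)ˣ ≃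
      {p : {I : (Ideal (𝓞 K))⁰ // ClassGroup.mk0 I = c} × (𝓞 K)ˣ //
        Ideal.absNorm (p.1.1 : Ideal (𝓞 K)) ≤ N} :=
    ((Equiv.subtypeSubtypeEquivSubtypeInter (fun I : (Ideal (𝓞 K))⁰ => ClassGroup.mk0 I = c)
      (fun I => Ideal.absNorm (I : Ideal (𝓞 K)) ≤ N)).symm.prodCongr (Equiv.refl _)).trans
      (Equiv.prodSubtypeFstEquivSubtypeProd
        (p := fun I : {I : (Ideal (𝓞 K))⁰ // ClassGroup.mk0 I = c} =>
          Ideal.absNorm (I.1 : Ideal (𝓞 K)) ≤ N)).symm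
  have hcond : ∀ p : {I : (Ideal (𝓞 K))⁰ // ClassGroup.mk0 I = c} × (𝓞 K)ˣ,
      Ideal.absNorm (p.1.1 : Ideal (𝓞 K)) ≤ N ↔
        qf A β (E.symm (e p : {x : (J : Ideal (𝓞 K)) // x ≠ 0}).1) ≤ 2 * N / D := by
    intro p
    rw [← hE, Equiv.apply_symm_apply, norm_sq_eq_absNorm h2 σ, he p, map_mul]
    have h7 : (2 * (((Ideal.absNorm (p.1.1 : Ideal (𝓞 K)) *
        Ideal.absNorm (J : Ideal (𝓞 K)) : ℕ)) : ℝ) /
        ((Ideal.absNorm (J : Ideal (𝓞 K)) : ℝ) * D)) =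
        2 * (Ideal.absNorm (p.1.1 : Ideal (𝓞 K)) : ℝ) / D := by
      push_cast
      field_simp
    rw [h7, div_le_div_iff_of_pos_right hDpos, mul_le_mul_iff_right₀ (by norm_num : (0 : ℝ) < 2),
      Nat.cast_le]
  have e2 : {p : {I : (Ideal (𝓞 K))⁰ // ClassGroup.mk0 I = c} × (𝓞 K)ˣ //
        Ideal.absNorm (p.1.1 : Ideal (𝓞 K)) ≤ N} ≃
      {x : {x : (J : Ideal (𝓞 K)) // x ≠ 0} // qf A β (E.symm x.1) ≤ 2 * N / D} :=
    e.subtypeEquiv hcond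
  have e3 : {x : {x : (J : Ideal (𝓞 K)) // x ≠ 0} // qf A β (E.symm x.1) ≤ 2 * N / D} ≃
      {x : (J : Ideal (𝓞 K)) // x ≠ 0 ∧ qf A β (E.symm x) ≤ 2 * N / D} :=
    Equiv.subtypeSubtypeEquivSubtypeInter (fun x : (J : Ideal (𝓞 K)) => x ≠ 0)
      (fun x => qf A β (E.symm x) ≤ 2 * N / D)
  have e4 : {x : (J : Ideal (𝓞 K)) // x ≠ 0 ∧ qf A β (E.symm x) ≤ 2 * N / D} ≃
      {v : ℤ × ℤ // v ≠ 0 ∧ qf A β v ≤ 2 * N / D} :=
    E.symm.subtypeEquiv (fun x => by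
      refine and_congr ?_ Iff.rfl
      rw [not_iff_not]
      constructor
      · intro h
        rw [h, ← hE0, Equiv.symm_apply_apply]
      · intro h
        rw [← E.apply_symm_apply x, h, hE0])
  exact Nat.card_congr (((e1.trans e2).trans e3).trans e4)

theorem card_class [IsTotallyComplex K] (h2 : finrank ℚ K = 2) (c : ClassGroup (𝓞 K)) :
    ∃ C : ℝ, 0 ≤ C ∧ ∀ N : ℕ,
      |(Nat.card {I : (Ideal (𝓞 K))⁰ // ClassGroup.mk0 I = c ∧
          Ideal.absNorm (I : Ideal (𝓞 K)) ≤ N} : ℝ) -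
        2 * Real.pi / (Nat.card (𝓞 K)ˣ * √|((discr K : ℤ) : ℝ)|) * N| ≤ C * √(N : ℝ) := by
  have hfin := units_finite (K := K) h2
  obtain ⟨J, hJ⟩ := ClassGroup.mk0_surjective c⁻¹
  have hJ0 : (J : Ideal (𝓞 K)) ≠ ⊥ := nonZeroDivisors.coe_ne_zero J
  let σ : K →+* ℂ := Classical.arbitrary _
  obtain ⟨A, β, E, hA, -, hE, hE0, -⟩ := exists_form h2 σ (J : Ideal (𝓞 K)) hJ0
  obtain ⟨C, hC, hcard⟩ := card_qf_le hA β
  set D : ℝ := √|((discr K : ℤ) : ℝ)| with hD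
  have hDpos : 0 < D := by
    apply Real.sqrt_pos.2
    rw [abs_pos]
    exact_mod_cast discr_ne_zero K
  set w : ℕ := Nat.card (𝓞 K)ˣ with hw
  have hw1 : 1 ≤ w := Nat.card_pos
  have hwR : (1 : ℝ) ≤ w := by exact_mod_cast hw1
  refine ⟨C * (1 + √(2 / D)) + 1, by positivity, fun N => ?_⟩
  rcases Nat.eq_zero_or_pos N with rfl | hN
  · have h0 : Nat.card {I : (Ideal (𝓞 K))⁰ // ClassGroup.mk0 I = c ∧
        Ideal.absNorm (I : Ideal (𝓞 K)) ≤ 0} = 0 := by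
      have : IsEmpty {I : (Ideal (𝓞 K))⁰ // ClassGroup.mk0 I = c ∧
          Ideal.absNorm (I : Ideal (𝓞 K)) ≤ 0} := by
        refine ⟨fun I => ?_⟩
        have h1 := I.2.2
        rw [Nat.le_zero, Ideal.absNorm_eq_zero_iff] at h1
        exact nonZeroDivisors.coe_ne_zero I.1 h1
      exact Nat.card_of_isEmpty
    rw [h0]
    simp
  · have hNR : (1 : ℝ) ≤ N := by exact_mod_cast hN
    have hsN : 1 ≤ √(N : ℝ) := Real.one_le_sqrt.2 hNR
    have h1 := count_equiv h2 σ c J hJ E hE0 hE N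
    rw [← hD, ← hw] at h1
    set S : ℕ := Nat.card {I : (Ideal (𝓞 K))⁰ // ClassGroup.mk0 I = c ∧
          Ideal.absNorm (I : Ideal (𝓞 K)) ≤ N} with hS
    have hTpos : (0 : ℝ) < 2 * N / D := by positivity
    have h3 := hcard (2 * N / D) hTpos
    rw [count_remove hA β (2 * N / D) hTpos.le, ← h1] at h3
    push_cast at h3
    have hsT : √(2 * N / D) = √(2 / D) * √(N : ℝ) := by
      rw [← Real.sqrt_mul (by positivity)]
      congr 1
      ring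
    have hCs : C * (1 + √(2 * N / D)) ≤ C * (1 + √(2 / D)) * √(N : ℝ) := by
      rw [hsT, mul_assoc]
      refine mul_le_mul_of_nonneg_left ?_ hC
      nlinarith [Real.sqrt_nonneg (2 / D)]
    have h4 : |(S : ℝ) * w - Real.pi * (2 * N / D)| ≤
        (C * (1 + √(2 / D)) + 1) * √(N : ℝ) := by
      have h5 : (S : ℝ) * w - Real.pi * (2 * N / D) =
          ((S : ℝ) * w + 1 - Real.pi * (2 * N / D)) - 1 := by ring
      rw [h5]
      calc |((S : ℝ) * w + 1 - Real.pi * (2 * N / D)) - 1| ≤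
          |(S : ℝ) * w + 1 - Real.pi * (2 * N / D)| + |(1 : ℝ)| := abs_sub _ _
        _ ≤ C * (1 + √(2 / D)) * √(N : ℝ) + √(N : ℝ) := by
            rw [abs_one]
            linarith
        _ = _ := by ring
    have h6 : (S : ℝ) * w - Real.pi * (2 * N / D) =
        w * ((S : ℝ) - 2 * Real.pi / (w * D) * N) := by
      field_simp
    rw [h6, abs_mul, abs_of_nonneg (by linarith : (0 : ℝ) ≤ w)] at h4
    refine le_trans ?_ h4
    exact le_mul_of_one_le_left (abs_nonneg _) hwR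

theorem count_finite (N : ℕ) :
    Finite {I : (Ideal (𝓞 K))⁰ // Ideal.absNorm (I : Ideal (𝓞 K)) ≤ N} :=
  (Ideal.finite_setOfPred_absNorm_le₀ (S := 𝓞 K) N).to_subtype

theorem count_sum (N : ℕ) :
    Nat.card {I : (Ideal (𝓞 K))⁰ // Ideal.absNorm (I : Ideal (𝓞 K)) ≤ N} =
      ∑ c : ClassGroup (𝓞 K), Nat.card {I : (Ideal (𝓞 K))⁰ // ClassGroup.mk0 I = c ∧
          Ideal.absNorm (I : Ideal (𝓞 K)) ≤ N} := by
  have hf := count_finite (K := K) N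
  have hfc : ∀ c : ClassGroup (𝓞 K), Finite {I : (Ideal (𝓞 K))⁰ // ClassGroup.mk0 I = c ∧
          Ideal.absNorm (I : Ideal (𝓞 K)) ≤ N} := by
    intro c
    have h1 : {I : (Ideal (𝓞 K))⁰ | ClassGroup.mk0 I = c ∧
          Ideal.absNorm (I : Ideal (𝓞 K)) ≤ N}.Finite :=
      (Ideal.finite_setOfPred_absNorm_le₀ (S := 𝓞 K) N).subset fun I hI => hI.2
    exact h1.to_subtype
  rw [← Nat.card_sigma]
  refine Nat.card_congr ?_
  exact
    { toFun := fun I => ⟨ClassGroup.mk0 I.1, ⟨I.1, rfl, I.2⟩⟩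
      invFun := fun x => ⟨x.2.1, x.2.2.2⟩
      left_inv := fun I => rfl
      right_inv := fun x => by
        obtain ⟨c, I, hI, hN⟩ := x
        subst hI
        rfl }

theorem card_ideals (K : Type*) [Field K] [NumberField K] [IsTotallyComplex K]
    (h2 : finrank ℚ K = 2) :
    ∃ κ C : ℝ, 0 < κ ∧ 0 ≤ C ∧ ∀ N : ℕ,
      |(Nat.card {I : (Ideal (𝓞 K))⁰ // Ideal.absNorm (I : Ideal (𝓞 K)) ≤ N} : ℝ) - κ * N| ≤
        C * √(N : ℝ) := by
  have hfin := units_finite (K := K) h2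
  choose C hC hcard using fun c : ClassGroup (𝓞 K) => card_class (K := K) h2 c
  have hDpos : 0 < √|((discr K : ℤ) : ℝ)| := by
    apply Real.sqrt_pos.2
    rw [abs_pos]
    exact_mod_cast discr_ne_zero K
  have hw1 : 0 < Nat.card (𝓞 K)ˣ := Nat.card_pos
  have hwR : (0 : ℝ) < Nat.card (𝓞 K)ˣ := by exact_mod_cast hw1
  have hh : (0 : ℝ) < Fintype.card (ClassGroup (𝓞 K)) := by
    exact_mod_cast Fintype.card_pos
  refine ⟨Fintype.card (ClassGroup (𝓞 K)) *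
    (2 * Real.pi / (Nat.card (𝓞 K)ˣ * √|((discr K : ℤ) : ℝ)|)), ∑ c, C c, ?_,
    Finset.sum_nonneg fun c _ => hC c, fun N => ?_⟩
  · have := Real.pi_pos
    positivity
  · rw [count_sum, Nat.cast_sum]
    have h1 : (∑ c : ClassGroup (𝓞 K), (Nat.card {I : (Ideal (𝓞 K))⁰ // ClassGroup.mk0 I = c ∧
          Ideal.absNorm (I : Ideal (𝓞 K)) ≤ N} : ℝ)) -
        Fintype.card (ClassGroup (𝓞 K)) *
          (2 * Real.pi / (Nat.card (𝓞 K)ˣ * √|((discr K : ℤ) : ℝ)|)) * N =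
        ∑ c : ClassGroup (𝓞 K), ((Nat.card {I : (Ideal (𝓞 K))⁰ // ClassGroup.mk0 I = c ∧
          Ideal.absNorm (I : Ideal (𝓞 K)) ≤ N} : ℝ) -
          2 * Real.pi / (Nat.card (𝓞 K)ˣ * √|((discr K : ℤ) : ℝ)|) * N) := by
      rw [Finset.sum_sub_distrib, Finset.sum_const, Finset.card_univ, nsmul_eq_mul]
      ring
    rw [h1, Finset.sum_mul]
    refine (Finset.abs_sum_le_sum_abs _ _).trans (Finset.sum_le_sum fun c _ => hcard c N)

end Pool.Agent.H14.BK
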