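import Mathlib

/-!
# Ray class characters modulo a prime ideal: definitions
-/

open NumberField
open scoped nonZeroDivisors

namespace Pool.Agent.H14.BK

variable {K : Type*} [Field K] [NumberField K]

/-- `χ` is a ray class character modulo the prime ideal `𝔭`: a completely multiplicative function
on the ideals of the ring of integers which vanishes exactly at the ideals divisible by `𝔭` and is
`1` at the principal ideals `(a)` with `a ≡ 1 mod 𝔭`. -/
structure IsRay (𝔭 : Ideal (𝓞 K)) (χ : Ideal (𝓞 K) →*₀ ℂ) : Prop where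
  zero : ∀ I, χ I = 0 ↔ 𝔭 ∣ I
  one : ∀ a : 𝓞 K, a - 1 ∈ 𝔭 → χ (Ideal.span {a}) = 1

/-- `χ` is ramified at `𝔭`: it is nontrivial on the principal ideals prime to `𝔭`. -/
def Ramified (𝔭 : Ideal (𝓞 K)) (χ : Ideal (𝓞 K) →*₀ ℂ) : Prop :=
  ∃ a : 𝓞 K, a ∉ 𝔭 ∧ χ (Ideal.span {a}) ≠ 1

/-- `L` is the `L`-function of `χ`: it is entire, and for `Re s > 1` it is the (unconditionally
convergent) sum of `χ(I) N(I)^(-s)` over the nonzero ideals `I` of the ring of integers. -/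
def IsRayL (χ : Ideal (𝓞 K) →*₀ ℂ) (L : ℂ → ℂ) : Prop :=
  Differentiable ℂ L ∧ ∀ s : ℂ, 1 < s.re → HasSum (fun I : (Ideal (𝓞 K))⁰ =>
    χ (I : Ideal (𝓞 K)) * ((Ideal.absNorm (I : Ideal (𝓞 K)) : ℕ) : ℂ) ^ (-s)) (L s)

end Pool.Agent.H14.BK
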