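import Mathlib

/-!
# From pairs to exceptional sets
-/

namespace Pool.Agent.H14.BK

open Finset

theorem exceptional {α : Type*} (good : α → α → Prop) (hsymm : ∀ x y, good x y → good y x)
    (U : Finset α) (c Q ε : ℝ) (hQ : 1 ≤ Q) (hε : 0 < ε)
    (hmain : ∀ A B : Finset α, A ⊆ U → B ⊆ U → Q ^ (2 + ε) ≤ (A.card : ℝ) * (B.card : ℝ) ^ 2 →
      ∀ S : Finset (α × α), (∀ x ∈ A ×ˢ B, good x.1 x.2 → x ∈ S) →
        c * ((A.card : ℝ) * B.card) ≤ S.card)
    (A : Finset α) (hA : A ⊆ U) (E : Finset α) (hEU : E ⊆ U)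
    (hE : ∀ y ∈ E, ∃ T : Finset α, (∀ x ∈ A, good x y → x ∈ T) ∧ (T.card : ℝ) < c * A.card) :
    (E.card : ℝ) ≤ min (Q ^ (1 + ε) / √(A.card : ℝ)) (Q ^ (2 + ε) / (A.card : ℝ) ^ 2) := by
  classical
  have hQ0 : 0 < Q := by linarith
  -- the sets of good partners
  have hT : ∀ y ∈ E, ((A.filter (fun x => good x y)).card : ℝ) < c * A.card := by
    intro y hy
    obtain ⟨T', h1, h2⟩ := hE y hy
    refine lt_of_le_of_lt ?_ h2
    have : A.filter (fun x => good x y) ⊆ T' := by
      intro x hx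
      rw [Finset.mem_filter] at hx
      exact h1 x hx.1 hx.2
    exact_mod_cast Finset.card_le_card this
  rcases A.eq_empty_or_nonempty with hA0 | hA0
  · have hb : E = ∅ := by
      rw [Finset.eq_empty_iff_forall_notMem]
      intro y hy
      have := hT y hy
      rw [hA0] at this
      simp at this
    rw [hb, hA0]
    simp
  have hA1 : (0 : ℝ) < A.card := by exact_mod_cast hA0.card_pos
  have hsum : E.Nonempty → c * ((A.card : ℝ) * E.card) ≤
      ∑ y ∈ E, ((A.filter (fun x => good x y)).card : ℝ) → False := by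
    intro hne h1
    have h3 : ∑ y ∈ E, ((A.filter (fun x => good x y)).card : ℝ) < ∑ _y ∈ E, c * (A.card : ℝ) :=
      Finset.sum_lt_sum_of_nonempty hne fun y hy => hT y hy
    rw [Finset.sum_const, nsmul_eq_mul] at h3
    nlinarith
  have hne : ∀ x : ℝ, 0 < x → x < E.card → E.Nonempty := by
    intro x hx hx2
    rw [← Finset.card_pos]
    have : (0 : ℝ) < E.card := hx.trans hx2
    exact_mod_cast this
  refine le_min ?_ ?_
  · by_contra hcon
    push Not at hcon
    have hs : 0 < √(A.card : ℝ) := Real.sqrt_pos.mpr hA1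
    have hpos : 0 < Q ^ (1 + ε) / √(A.card : ℝ) := by positivity
    have hcon2 := (div_lt_iff₀ hs).mp hcon
    have hAB : Q ^ (2 + ε) ≤ (A.card : ℝ) * (E.card : ℝ) ^ 2 := by
      calc Q ^ (2 + ε) ≤ Q ^ ((1 + ε) * (2 : ℕ)) := by
            apply Real.rpow_le_rpow_of_exponent_le hQ
            push_cast
            linarith
        _ = (Q ^ (1 + ε)) ^ 2 := by rw [Real.rpow_mul_natCast hQ0.le]
        _ ≤ ((E.card : ℝ) * √(A.card : ℝ)) ^ 2 := by gcongr
        _ = (A.card : ℝ) * (E.card : ℝ) ^ 2 := by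
            rw [mul_pow, Real.sq_sqrt (Nat.cast_nonneg _)]
            ring
    have h1 := hmain A E hA hEU hAB ((A ×ˢ E).filter (fun x => good x.1 x.2))
      (fun x hx hg => Finset.mem_filter.mpr ⟨hx, hg⟩)
    refine hsum (hne _ hpos hcon) (h1.trans (le_of_eq ?_))
    rw [Finset.card_filter, Finset.sum_product_right]
    push_cast
    refine Finset.sum_congr rfl fun y _ => ?_
    rw [Finset.card_filter]
    push_cast
    rfl
  · by_contra hcon
    push Not at hcon
    have hs : 0 < (A.card : ℝ) ^ 2 := by positivity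
    have hpos : 0 < Q ^ (2 + ε) / (A.card : ℝ) ^ 2 := by positivity
    have hcon2 := (div_lt_iff₀ hs).mp hcon
    have h1 := hmain E A hEU hA hcon2.le ((E ×ˢ A).filter (fun x => good x.1 x.2))
      (fun x hx hg => Finset.mem_filter.mpr ⟨hx, hg⟩)
    have h2 : c * ((A.card : ℝ) * E.card) = c * ((E.card : ℝ) * A.card) := by ring
    refine hsum (hne _ hpos hcon) ((le_of_eq h2).trans (h1.trans (le_of_eq ?_)))
    rw [Finset.card_filter, Finset.sum_product]
    push_cast
    refine Finset.sum_congr rfl fun y _ => ?_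
    rw [Finset.card_filter]
    push_cast
    refine Finset.sum_congr rfl fun x _ => ?_
    have : good y x ↔ good x y := ⟨hsymm _ _, hsymm _ _⟩
    simp only [this]

end Pool.Agent.H14.BK
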