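import Pool.Agent.H14.BK.FeC

/-!
# The functional equation

`fe_main`.  `gauss_sum` gives `g` with `‖g‖ = √q`.  Put `W = g χ((δ)) conj χ(τ 𝔭) / √q`; `‖W‖ = 1`:
`δ ∉ 𝔭` (`delta_not_mem`), `𝔭 ∤ τ 𝔭` (both are prime, `tau_ne`), `ray_norm`.  Sum `fe_class` over
`c` (`sum_class` on both sides, and `Equiv.sum_comp (Equiv.mulRight d⁻¹)`):
`TI χ R t = (W / t) conj (∑_I χ(τ I) exp (-2 π N I / (R t))) = (W / t) conj (TI χ R (1 / t))`
(`I ↦ τ I` is an involution of the ideals preserving the norm, `absNorm_map_tau`).  Replace `t` by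
`1 / t`.
-/


open NumberField Module
open scoped nonZeroDivisors ComplexConjugate
open Pool.Agent.H92.CG

namespace Pool.Agent.H14.BK

variable {K : Type*} [Field K] [NumberField K]

theorem fem_sum [IsTotallyComplex K] (h2 : finrank ℚ K = 2) (f : Ideal (𝓞 K) → ℂ)
    (hf0 : f ⊥ = 0) (hf1 : ∀ I, ‖f I‖ ≤ 1) {R t : ℝ} (hR : 0 < R) (ht : 0 < t) :
    ∑ c : ClassGroup (𝓞 K), GC c f R t = ∑' I : Ideal (𝓞 K),
      f I * ((Real.exp (-(2 * Real.pi * t * (Ideal.absNorm I : ℝ) / R)) : ℝ) : ℂ) := by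
  classical
  have hpi := Real.pi_pos
  refine sum_class _ (by rw [hf0, zero_mul]) ?_
  have h1 := summable_exp (K := K) h2 (c := 2 * Real.pi * t / R) (by positivity)
  refine Summable.of_norm_bounded h1 fun 𝔞 => ?_
  simp only [norm_mul, Complex.norm_real, Real.norm_of_nonneg (Real.exp_pos _).le]
  have h3 : -(2 * Real.pi * t * (Ideal.absNorm 𝔞 : ℝ) / R) =
      -(2 * Real.pi * t / R * (Ideal.absNorm 𝔞 : ℝ)) := by ring
  rw [h3]
  exact mul_le_of_le_one_left (Real.exp_pos _).le (hf1 𝔞)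

theorem fe_main [IsTotallyComplex K] (h2 : finrank ℚ K = 2) {𝔭 : Ideal (𝓞 K)} (h𝔭 : Prime 𝔭)
    (hq : (Ideal.absNorm 𝔭).Prime) (hD : |discr K| < (Ideal.absNorm 𝔭 : ℤ))
    {χ : Ideal (𝓞 K) →*₀ ℂ} (hχ : IsRay 𝔭 χ) (hr : Ramified 𝔭 χ) :
    ∃ ω : ℂ, ‖ω‖ = 1 ∧ ∀ t : ℝ, 0 < t →
      TI χ (RR 𝔭) (1 / t) = ω * t * conj (TI χ (RR 𝔭) t) := by
  obtain ⟨σ⟩ : Nonempty (K →+* ℂ) := inferInstance
  obtain ⟨τ, hτ⟩ := exists_tau h2 σ
  obtain ⟨δ, hδ⟩ := exists_delta h2 σ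
  obtain ⟨g, hg2, hg⟩ := gauss_sum h𝔭 hq hχ hr
  obtain ⟨d, hd⟩ := exists_inC (K := K) (I := 𝔭) h𝔭.ne_zero
  have hq0 : (0 : ℝ) < (Ideal.absNorm 𝔭 : ℝ) := by exact_mod_cast hq.pos
  have hsq : 0 < √(Ideal.absNorm 𝔭 : ℝ) := Real.sqrt_pos.2 hq0
  have hR : 0 < RR 𝔭 := mul_pos rD_pos hsq
  have hPt : Prime (𝔭.map τ) := by
    have h0 : 𝔭.map τ ≠ ⊥ := by
      intro h
      have h1 := absNorm_map_tau τ 𝔭
      rw [h, Ideal.absNorm_bot] at h1
      rw [← h1] at hq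
      exact Nat.not_prime_zero hq
    refine Ideal.prime_of_isPrime h0 (Ideal.isPrime_of_irreducible_absNorm ?_)
    rw [absNorm_map_tau]
    exact hq
  have hndvd : ¬ 𝔭 ∣ 𝔭.map τ := by
    intro h
    have h1 := (h𝔭.associated_of_dvd hPt h)
    rw [associated_iff_eq] at h1
    exact tau_ne h2 hτ hq hD h1.symm
  have hδn : ‖χ (Ideal.span {δ})‖ = 1 := by
    apply ray_norm h𝔭 hχ
    rw [Ideal.dvd_span_singleton]
    exact delta_not_mem h2 hδ hD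
  have hPn : ‖χ (𝔭.map τ)‖ = 1 := ray_norm h𝔭 hχ hndvd
  have hgn : ‖g‖ = √(Ideal.absNorm 𝔭 : ℝ) := by
    rw [← hg2, Real.sqrt_sq (norm_nonneg _)]
  set W : ℂ := g * χ (Ideal.span {δ}) * conj (χ (𝔭.map τ)) / (√(Ideal.absNorm 𝔭 : ℝ) : ℝ) with hW
  have hWn : ‖W‖ = 1 := by
    rw [hW, norm_div, norm_mul, norm_mul, hδn, RCLike.norm_conj, hPn, hgn, Complex.norm_real,
      Real.norm_of_nonneg hsq.le, mul_one, mul_one, div_self hsq.ne']
  have key : ∀ t : ℝ, 0 < t → TI χ (RR 𝔭) t = W / t * conj (TI χ (RR 𝔭) (1 / t)) := by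
    intro t ht
    have h1 := fem_sum (K := K) h2 (fun I => χ I) (map_zero χ) (ray_norm_le h𝔭 hχ) hR ht
    have h3 := fem_sum (K := K) h2 (fun I => χ (I.map τ))
      (by rw [Ideal.map_bot, ← Ideal.zero_eq_bot, map_zero])
      (fun I => ray_norm_le h𝔭 hχ _) hR (t := 1 / t) (by positivity)
    let E : Ideal (𝓞 K) ≃ Ideal (𝓞 K) :=
      { toFun := fun I => I.map τ
        invFun := fun I => I.map τ
        left_inv := fun I => map_tau_tau hτ I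
        right_inv := fun I => map_tau_tau hτ I }
    have h4 : (∑' I : Ideal (𝓞 K), χ (I.map τ) *
        ((Real.exp (-(2 * Real.pi * (1 / t) * (Ideal.absNorm I : ℝ) / RR 𝔭)) : ℝ) : ℂ)) =
        TI χ (RR 𝔭) (1 / t) := by
      unfold TI
      rw [← E.tsum_eq (fun I : Ideal (𝓞 K) => χ I *
        ((Real.exp (-(2 * Real.pi * (1 / t) * (Ideal.absNorm I : ℝ) / RR 𝔭)) : ℝ) : ℂ))]
      refine tsum_congr fun I => ?_
      change _ = χ (I.map τ) * ((Real.exp (-(2 * Real.pi * (1 / t) *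
        (Ideal.absNorm (I.map τ) : ℝ) / RR 𝔭)) : ℝ) : ℂ)
      rw [absNorm_map_tau]
    have h5 : ∑ c : ClassGroup (𝓞 K), GC c (fun I => χ I) (RR 𝔭) t =
        W / t * conj (∑ c : ClassGroup (𝓞 K), GC c (fun I => χ (I.map τ)) (RR 𝔭) (1 / t)) := by
      rw [← Equiv.sum_comp (Equiv.mulRight d⁻¹)
        (fun c => GC c (fun I => χ (I.map τ)) (RR 𝔭) (1 / t)), map_sum, Finset.mul_sum]
      refine Finset.sum_congr rfl fun c _ => ?_
      rw [fe_class h2 hτ hδ h𝔭 hq hD hχ hg hd c ht, Equiv.coe_mulRight]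
      congr 1
      rw [hW, Complex.ofReal_mul, div_div]
    rw [h3, h4] at h5
    rw [← h5, h1]
    rfl
  refine ⟨W, hWn, fun t ht => ?_⟩
  have h1 := key (1 / t) (by positivity)
  rw [one_div_one_div] at h1
  rw [h1]
  congr 1
  push_cast
  rw [div_div_eq_mul_div, div_one]

end Pool.Agent.H14.BK
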