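import Pool.Agent.H14.BK.GauA

/-!
# Gauss sums of ramified ray class characters

`gauss_sum`.  `q = N 𝔭` is prime.  By `int_mem` and `ray_congr` `χ((n))` depends only on the integer
`n mod q` and is `0` exactly for `q ∣ n`.  So there is `χ₀ : MulChar (ZMod q) ℂ` with
`χ₀ (n : ZMod q) = χ((n))` for integers `n` (e.g. define it by `a ↦ χ ((a.val))`; multiplicativity
from `ray_congr`).  `χ₀ ≠ 1`: there is `a ∉ 𝔭` with `χ((a)) ≠ 1`, and `a ≡ n mod 𝔭` (`exists_nat`).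
`g = gaussSum χ₀ ZMod.stdAddChar = ∑_{a mod q} χ₀(a) exp (2 π i a / q)`.
* `q ∤ b`: `∑_a χ₀(a) ψ(a b) = χ₀(b)⁻¹ g` (`gaussSum_mulShift`), `χ₀(b)⁻¹ = conj χ₀(b)`.
* `q ∣ b`: `∑_a χ₀(a) = 0` (`MulChar.sum_eq_zero_of_ne_one`), and `conj χ₀(b) = 0`.
* `‖g‖² = q`: `gaussSum_mul_gaussSum_eq_card` (`g(χ₀) g(χ₀⁻¹, ψ⁻¹) = q`) and
  `g(χ₀⁻¹, ψ⁻¹) = conj g(χ₀)`; or directly: `∑_{b mod q} |g conj χ₀(b)|² = (q - 1) |g|²` and, by
  expanding the squares and orthogonality of the additive characters, it is `q (q - 1)`.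
Sums over `Finset.range q` and over `ZMod q`: `ZMod.stdAddChar_coe`, `Finset.sum_bij`
or `(ZMod.finEquiv ..)`, `Fin.sum_univ_eq_sum_range`; `Nat.card`/`NeZero q` instance from `hq`.
-/


open NumberField Module
open scoped nonZeroDivisors ComplexConjugate

namespace Pool.Agent.H14.BK

variable {K : Type*} [Field K] [NumberField K]

lemma gau_int {𝔭 : Ideal (𝓞 K)} (h𝔭 : Prime 𝔭) (hq : (Ideal.absNorm 𝔭).Prime)
    {χ : Ideal (𝓞 K) →*₀ ℂ} (hχ : IsRay 𝔭 χ) {m n : ℤ}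
    (h : ((m : ℤ) : ZMod (Ideal.absNorm 𝔭)) = ((n : ℤ) : ZMod (Ideal.absNorm 𝔭))) :
    χ (Ideal.span {(m : 𝓞 K)}) = χ (Ideal.span {(n : 𝓞 K)}) := by
  refine ray_congr h𝔭 hχ ?_
  have h1 : ((Ideal.absNorm 𝔭 : ℕ) : ℤ) ∣ m - n := by
    rw [← ZMod.intCast_zmod_eq_zero_iff_dvd]
    push_cast
    rw [h, sub_self]
  have h2 := (int_mem hq (m - n)).2 h1
  push_cast at h2
  exact h2

/-- the restriction of a ray class character to the integers -/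
noncomputable def gauChar {𝔭 : Ideal (𝓞 K)} (h𝔭 : Prime 𝔭) (hq : (Ideal.absNorm 𝔭).Prime)
    {χ : Ideal (𝓞 K) →*₀ ℂ} (hχ : IsRay 𝔭 χ) : MulChar (ZMod (Ideal.absNorm 𝔭)) ℂ where
  toFun a := χ (Ideal.span {((a.val : ℤ) : 𝓞 K)})
  map_one' := by
    have : Fact (Ideal.absNorm 𝔭).Prime := ⟨hq⟩
    have h : χ (Ideal.span {(((1 : ZMod (Ideal.absNorm 𝔭)).val : ℤ) : 𝓞 K)}) =
        χ (Ideal.span {((1 : ℤ) : 𝓞 K)}) := by
      refine gau_int h𝔭 hq hχ ?_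
      push_cast
      rw [ZMod.natCast_zmod_val]
    rw [h]
    refine hχ.one _ ?_
    rw [Int.cast_one, sub_self]
    exact 𝔭.zero_mem
  map_mul' a b := by
    have : Fact (Ideal.absNorm 𝔭).Prime := ⟨hq⟩
    have h : χ (Ideal.span {(((a * b).val : ℤ) : 𝓞 K)}) =
        χ (Ideal.span {(((a.val : ℤ) * (b.val : ℤ) : ℤ) : 𝓞 K)}) := by
      refine gau_int h𝔭 hq hχ ?_
      push_cast
      rw [ZMod.natCast_zmod_val, ZMod.natCast_zmod_val, ZMod.natCast_zmod_val]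
    rw [h, ← map_mul, Ideal.span_singleton_mul_span_singleton, Int.cast_mul]
  map_nonunit' a ha := by
    have : Fact (Ideal.absNorm 𝔭).Prime := ⟨hq⟩
    have h0 : a = 0 := by
      by_contra h
      exact ha (isUnit_iff_ne_zero.2 h)
    change χ (Ideal.span {((a.val : ℤ) : 𝓞 K)}) = 0
    rw [h0, ZMod.val_zero, (hχ.zero _), Ideal.dvd_span_singleton]
    simp

lemma gauChar_int {𝔭 : Ideal (𝓞 K)} (h𝔭 : Prime 𝔭) (hq : (Ideal.absNorm 𝔭).Prime)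
    {χ : Ideal (𝓞 K) →*₀ ℂ} (hχ : IsRay 𝔭 χ) (n : ℤ) :
    gauChar h𝔭 hq hχ (n : ZMod (Ideal.absNorm 𝔭)) = χ (Ideal.span {(n : 𝓞 K)}) := by
  have : Fact (Ideal.absNorm 𝔭).Prime := ⟨hq⟩
  change χ (Ideal.span {((((n : ZMod (Ideal.absNorm 𝔭)).val : ℕ) : ℤ) : 𝓞 K)}) = _
  refine gau_int h𝔭 hq hχ ?_
  push_cast
  rw [ZMod.natCast_zmod_val]

lemma gauChar_ne_one {𝔭 : Ideal (𝓞 K)} (h𝔭 : Prime 𝔭) (hq : (Ideal.absNorm 𝔭).Prime)
    {χ : Ideal (𝓞 K) →*₀ ℂ} (hχ : IsRay 𝔭 χ) (hr : Ramified 𝔭 χ) :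
    gauChar h𝔭 hq hχ ≠ 1 := by
  have : Fact (Ideal.absNorm 𝔭).Prime := ⟨hq⟩
  obtain ⟨a, ha, ha1⟩ := hr
  obtain ⟨n, _, hn⟩ := exists_nat hq a
  intro h
  apply ha1
  have h1 : χ (Ideal.span {a}) = χ (Ideal.span {((n : ℤ) : 𝓞 K)}) := by
    refine ray_congr h𝔭 hχ ?_
    push_cast
    exact hn
  rw [h1, ← gauChar_int h𝔭 hq hχ, h]
  refine MulChar.one_apply ?_
  rw [isUnit_iff_ne_zero, Ne, ZMod.intCast_zmod_eq_zero_iff_dvd, ← int_mem hq]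
  intro h2
  apply ha
  have h3 := 𝔭.add_mem hn h2
  push_cast at h3
  rwa [sub_add_cancel] at h3

lemma gau_range {q : ℕ} [NeZero q] (f : ZMod q → ℂ) :
    ∑ a ∈ Finset.range q, f (a : ZMod q) = ∑ x : ZMod q, f x := by
  refine Finset.sum_bij (fun a _ => (a : ZMod q)) (fun _ _ => Finset.mem_univ _) ?_ ?_
    (fun _ _ => rfl)
  · intro a ha b hb hab
    have h := congrArg ZMod.val hab
    rwa [ZMod.val_natCast_of_lt (Finset.mem_range.1 ha),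
      ZMod.val_natCast_of_lt (Finset.mem_range.1 hb)] at h
  · intro x _
    exact ⟨x.val, Finset.mem_range.2 (ZMod.val_lt x), ZMod.natCast_zmod_val x⟩

theorem gauss_sum {𝔭 : Ideal (𝓞 K)} (h𝔭 : Prime 𝔭) (hq : (Ideal.absNorm 𝔭).Prime)
    {χ : Ideal (𝓞 K) →*₀ ℂ} (hχ : IsRay 𝔭 χ) (hr : Ramified 𝔭 χ) :
    ∃ g : ℂ, ‖g‖ ^ 2 = (Ideal.absNorm 𝔭 : ℝ) ∧ ∀ b : ℤ,
      ∑ a ∈ Finset.range (Ideal.absNorm 𝔭), χ (Ideal.span {(a : 𝓞 K)}) *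
        Complex.exp (2 * Real.pi * Complex.I * (a * b / (Ideal.absNorm 𝔭 : ℕ))) =
      g * conj (χ (Ideal.span {(b : 𝓞 K)})) := by
  have : Fact (Ideal.absNorm 𝔭).Prime := ⟨hq⟩
  have hne := gauChar_ne_one h𝔭 hq hχ hr
  set χ₀ := gauChar h𝔭 hq hχ with hχ₀
  set ψ : AddChar (ZMod (Ideal.absNorm 𝔭)) ℂ := ZMod.stdAddChar with hψ
  refine ⟨gaussSum χ₀ ψ, ?_, ?_⟩
  · have h1 := gaussSum_mul_gaussSum_eq_card hne (ZMod.isPrimitive_stdAddChar (Ideal.absNorm 𝔭))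
    rw [← hψ, ← star_gaussSum_eq, ZMod.card] at h1
    have h2 : ((‖gaussSum χ₀ ψ‖ ^ 2 : ℝ) : ℂ) = ((Ideal.absNorm 𝔭 : ℝ) : ℂ) := by
      have h3 := Complex.mul_conj' (gaussSum χ₀ ψ)
      rw [← starRingEnd_apply, h3] at h1
      push_cast
      exact h1
    exact_mod_cast h2
  · intro b
    have h1 : ∀ a ∈ Finset.range (Ideal.absNorm 𝔭), χ (Ideal.span {(a : 𝓞 K)}) *
        Complex.exp (2 * Real.pi * Complex.I * (a * b / (Ideal.absNorm 𝔭 : ℕ))) =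
        χ₀ ((a : ℕ) : ZMod (Ideal.absNorm 𝔭)) *
          ψ.mulShift (b : ZMod (Ideal.absNorm 𝔭)) ((a : ℕ) : ZMod (Ideal.absNorm 𝔭)) := by
      intro a _
      have h2 := gauChar_int h𝔭 hq hχ (a : ℤ)
      push_cast at h2
      rw [hχ₀, h2, AddChar.mulShift_apply]
      congr 1
      have h3 := ZMod.stdAddChar_coe (N := Ideal.absNorm 𝔭) (b * a)
      push_cast at h3
      rw [hψ, h3]
      congr 1
      ring
    rw [Finset.sum_congr rfl h1, gau_range (fun x => χ₀ x *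
      ψ.mulShift (b : ZMod (Ideal.absNorm 𝔭)) x)]
    change gaussSum χ₀ (ψ.mulShift (b : ZMod (Ideal.absNorm 𝔭))) = _
    have h4 : conj (χ (Ideal.span {(b : 𝓞 K)})) = χ₀⁻¹ (b : ZMod (Ideal.absNorm 𝔭)) := by
      rw [← MulChar.star_apply', hχ₀, gauChar_int h𝔭 hq hχ b]
      rfl
    rw [h4]
    by_cases hb : (b : ZMod (Ideal.absNorm 𝔭)) = 0
    · rw [hb, MulChar.map_zero, mul_zero]
      have h5 : ψ.mulShift (0 : ZMod (Ideal.absNorm 𝔭)) = 1 := AddChar.mulShift_zero ψ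
      rw [h5]
      exact gaussSum_one_right hne
    · have h5 := gaussSum_mulShift_eq χ₀ ψ (Units.mk0 _ hb)
      rw [Units.val_mk0] at h5
      rw [h5, mul_comm]

end Pool.Agent.H14.BK
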