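import Pool.Agent.H14.BK.Pois
import Pool.Agent.H14.BK.Gau

/-!
# Cosets of `J 𝔭` in `J`

1. `coset`: `J` and `𝔭` are coprime, `x₁ + π₀ = 1` with `x₁ ∈ J`, `π₀ ∈ 𝔭`; `L = J ⊓ 𝔭`
   (`Ideal.mul_eq_inf_of_coprime`).  `Fin q × L → J`, `(a, y) ↦ a x₁ + y` is bijective: for `x ∈ J`
   there is exactly one `a < q` with `x - a ∈ 𝔭` (`exists_nat`; unique by `int_mem`), and
   `a x₁ - a ∈ 𝔭`, so `x - a x₁ ∈ J ⊓ 𝔭`.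
-/


open NumberField Module
open scoped nonZeroDivisors ComplexConjugate
open Pool.Agent.H92.CG

namespace Pool.Agent.H14.BK

variable {K : Type*} [Field K] [NumberField K]

theorem coset {𝔭 J : Ideal (𝓞 K)} (h𝔭 : Prime 𝔭) (hq : (Ideal.absNorm 𝔭).Prime)
    (hJp : ¬ 𝔭 ∣ J) :
    ∃ (x₁ : 𝓞 K) (e : Fin (Ideal.absNorm 𝔭) × (J * 𝔭 : Ideal (𝓞 K)) ≃ J), x₁ ∈ J ∧ x₁ - 1 ∈ 𝔭 ∧
      ∀ (a : Fin (Ideal.absNorm 𝔭)) (y : (J * 𝔭 : Ideal (𝓞 K))),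
        ((e (a, y) : J) : 𝓞 K) = ((a : ℕ) : 𝓞 K) * x₁ + (y : 𝓞 K) := by
  have hmax : 𝔭.IsMaximal := (Ideal.isPrime_of_prime h𝔭).isMaximal h𝔭.ne_zero
  have hcop : J ⊔ 𝔭 = ⊤ := by
    rw [sup_comm]
    exact hmax.out.2 _ (left_lt_sup.2 (fun h => hJp (Ideal.dvd_iff_le.2 h)))
  have hmul : J * 𝔭 = J ⊓ 𝔭 := Ideal.mul_eq_inf_of_coprime hcop
  obtain ⟨x₁, hx₁, π₀, hπ₀, hsum⟩ := Submodule.mem_sup.1 (hcop ▸ Submodule.mem_top : (1 : 𝓞 K) ∈ J ⊔ 𝔭)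
  have hx₁1 : x₁ - 1 ∈ 𝔭 := by
    have : x₁ - 1 = -π₀ := by rw [← hsum]; ring
    rw [this]; exact neg_mem hπ₀
  have hmem : ∀ z : 𝓞 K, z ∈ J * 𝔭 ↔ z ∈ J ∧ z ∈ 𝔭 := by
    intro z; rw [hmul]; exact Submodule.mem_inf
  let f : Fin (Ideal.absNorm 𝔭) × (J * 𝔭 : Ideal (𝓞 K)) → J := fun p =>
    ⟨((p.1 : ℕ) : 𝓞 K) * x₁ + (p.2 : 𝓞 K),
      add_mem (Ideal.mul_mem_left _ _ hx₁) ((hmem _).1 p.2.2).1⟩
  have hf : ∀ p, ((f p : J) : 𝓞 K) = ((p.1 : ℕ) : 𝓞 K) * x₁ + (p.2 : 𝓞 K) := fun p => rfl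
  have hinj : Function.Injective f := by
    rintro ⟨a, y⟩ ⟨b, z⟩ h
    have h1 : ((a : ℕ) : 𝓞 K) * x₁ + (y : 𝓞 K) = ((b : ℕ) : 𝓞 K) * x₁ + (z : 𝓞 K) :=
      congrArg Subtype.val h
    have h2 : ((((a : ℕ) : ℤ) - ((b : ℕ) : ℤ) : ℤ) : 𝓞 K) ∈ 𝔭 := by
      have h3 : ((((a : ℕ) : ℤ) - ((b : ℕ) : ℤ) : ℤ) : 𝓞 K)
          = ((z : 𝓞 K) - (y : 𝓞 K)) - (((a : ℕ) : 𝓞 K) - ((b : ℕ) : 𝓞 K)) * (x₁ - 1) := by
        push_cast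
        linear_combination h1
      rw [h3]
      exact sub_mem (sub_mem ((hmem _).1 z.2).2 ((hmem _).1 y.2).2) (Ideal.mul_mem_left _ _ hx₁1)
    rw [int_mem hq] at h2
    have ha := a.2
    have hb := b.2
    have hab : (a : ℕ) = (b : ℕ) := by
      have h4 : ((a : ℕ) : ℤ) - ((b : ℕ) : ℤ) = 0 := by
        apply Int.eq_zero_of_abs_lt_dvd h2
        rw [abs_lt]
        constructor <;> omega
      omega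
    have hab' : a = b := Fin.ext hab
    subst hab'
    have h5 : (y : 𝓞 K) = (z : 𝓞 K) := by linear_combination h1
    rw [Subtype.ext h5]
  have hsurj : Function.Surjective f := by
    rintro ⟨x, hx⟩
    obtain ⟨n, hn, hxn⟩ := exists_nat hq x
    have hy : x - (n : 𝓞 K) * x₁ ∈ J * 𝔭 := by
      rw [hmem]
      refine ⟨sub_mem hx (Ideal.mul_mem_left _ _ hx₁), ?_⟩
      have h3 : x - (n : 𝓞 K) * x₁ = (x - (n : 𝓞 K)) - (n : 𝓞 K) * (x₁ - 1) := by ring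
      rw [h3]
      exact sub_mem hxn (Ideal.mul_mem_left _ _ hx₁1)
    refine ⟨(⟨n, hn⟩, ⟨x - (n : 𝓞 K) * x₁, hy⟩), ?_⟩
    apply Subtype.ext
    rw [hf]
    ring
  exact ⟨x₁, Equiv.ofBijective f ⟨hinj, hsurj⟩, hx₁, hx₁1, fun a y => rfl⟩

end Pool.Agent.H14.BK
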