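import Pool.Agent.H14.BK.KDef

/-!
# Summability over the ideals

Proofs.

`summable_rpow`: for `I = ⊥` the term is `0 ^ (-s) = 0`.  `exists_partial` (`H92/CG/Classes.lean`)
gives for each class `c` summability over `{I : (Ideal (𝓞 K))⁰ // mk0 I = c}` of
`(N I : ℂ) ^ (-s)`, hence of its norm `(N I : ℝ) ^ (-s)` (`Complex.norm_natCast_cpow_of_pos`);
there are finitely many classes (as in `isClassGroupL_of_partial`, `H92/CG/LFun.lean`).

`summable_exp`: `exp (-(c x)) ≤ C x ^ (-2)` for `x ≥ 1`, and one more term `I = ⊥`.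
-/


open NumberField Module
open scoped nonZeroDivisors ComplexConjugate
open Pool.Agent.H92.CG

namespace Pool.Agent.H14.BK

variable {K : Type*} [Field K] [NumberField K]

theorem summable_rpow [IsTotallyComplex K] (h2 : finrank ℚ K = 2) {s : ℝ} (hs : 1 < s) :
    Summable fun I : Ideal (𝓞 K) => (Ideal.absNorm I : ℝ) ^ (-s) := by
  classical
  obtain ⟨ζ, -, hsum, -, -⟩ := exists_partial (K := K) h2
  have hs' : 1 < ((s : ℝ) : ℂ).re := by simpa using hs
  have h1 : ∀ c : ClassGroup (𝓞 K), Summable (Set.indicator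
      {I : (Ideal (𝓞 K))⁰ | ClassGroup.mk0 I = c}
      (fun I => (Ideal.absNorm (I : Ideal (𝓞 K)) : ℝ) ^ (-s))) := by
    intro c
    have h3 := (hsum c s hs').summable.norm
    rw [← summable_subtype_iff_indicator]
    refine h3.congr fun I => ?_
    have hI : 0 < Ideal.absNorm ((I.1 : (Ideal (𝓞 K))⁰) : Ideal (𝓞 K)) := by
      rw [Nat.pos_iff_ne_zero, Ne, Ideal.absNorm_eq_zero_iff]
      exact nonZeroDivisors.coe_ne_zero I.1
    rw [Complex.norm_natCast_cpow_of_pos hI]
    simp
  have h4 : Summable (fun I : (Ideal (𝓞 K))⁰ =>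
      (Ideal.absNorm (I : Ideal (𝓞 K)) : ℝ) ^ (-s)) := by
    have h5 := summable_sum (s := (Finset.univ : Finset (ClassGroup (𝓞 K)))) fun c _ => h1 c
    refine h5.congr fun I => ?_
    rw [Finset.sum_eq_single (ClassGroup.mk0 I)]
    · rw [Set.indicator_of_mem]
      exact rfl
    · intro c _ hc
      rw [Set.indicator_of_notMem]
      exact fun h => hc h.symm
    · simp
  refine (Function.Injective.summable_iff
    (g := fun I : (Ideal (𝓞 K))⁰ => (I : Ideal (𝓞 K))) Subtype.val_injective ?_).1 h4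
  intro I hI
  have hb : I = ⊥ := by
    by_contra h
    exact hI ⟨⟨I, mem_nonZeroDivisors_of_ne_zero h⟩, rfl⟩
  have hs0 : -s ≠ 0 := by linarith
  rw [hb, Ideal.absNorm_bot, Nat.cast_zero, Real.zero_rpow hs0]

theorem summable_exp [IsTotallyComplex K] (h2 : finrank ℚ K = 2) {c : ℝ} (hc : 0 < c) :
    Summable fun I : Ideal (𝓞 K) => Real.exp (-(c * (Ideal.absNorm I : ℝ))) := by
  classical
  have h1 := (summable_rpow (K := K) h2 (s := 2) (by norm_num)).mul_left (2 / c ^ 2)
  have h3 : Summable (fun I : Ideal (𝓞 K) => if I = ⊥ then (1 : ℝ) else 0) :=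
    (hasSum_ite_eq (⊥ : Ideal (𝓞 K)) (1 : ℝ)).summable
  refine Summable.of_nonneg_of_le (fun I => (Real.exp_pos _).le) (fun I => ?_) (h1.add h3)
  by_cases hI : I = ⊥
  · rw [if_pos hI, hI, Ideal.absNorm_bot, Nat.cast_zero, mul_zero, neg_zero, Real.exp_zero,
      Real.zero_rpow (by norm_num)]
    simp
  · rw [if_neg hI, add_zero]
    have hN : 0 < (Ideal.absNorm I : ℝ) := absNorm_pos hI
    set x : ℝ := (Ideal.absNorm I : ℝ) with hx
    have h4 := Real.quadratic_le_exp_of_nonneg (x := c * x) (by positivity)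
    have h5 : (c * x) ^ 2 / 2 ≤ Real.exp (c * x) := by
      have : 0 < c * x := by positivity
      linarith
    rw [Real.exp_neg, Real.rpow_neg hN.le, Real.rpow_two]
    calc (Real.exp (c * x))⁻¹ ≤ ((c * x) ^ 2 / 2)⁻¹ := inv_anti₀ (by positivity) h5
      _ = 2 / c ^ 2 * (x ^ 2)⁻¹ := by field_simp

end Pool.Agent.H14.BK
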