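import Pool.Agent.H14.BK.UnfA
import Pool.Agent.H14.BK.UnfS

/-!
# Sums over the ideals of a class and sums over the elements of an ideal

Proof.

`tsum_class`: `exists_equiv` (`H92/CG/Partial.lean`) gives
`e : {I // mk0 I = c} × (𝓞 K)ˣ ≃ {x : J // x ≠ 0}` with `(e (I, u)) = I J`.  As `F ⊥ = 0` the left
side is the sum over `{x : J // x ≠ 0}` (`tsum_subtype_eq_of_support_subset`), by `Equiv.tsum_eq` the
sum over the pairs `(I, u)` of `F (I J)`; the family `(I, u) ↦ F (I J)` is summable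
(`I ↦ I J` is injective on ideals as `J ≠ ⊥`, and the group of units is finite, `units_finite`), so
it is `∑' I, ∑ u, F (I J) = w ∑' I, F (I J)`; and the sum over the subtype `{I // mk0 I = c}` is the
sum over all ideals of `if InC c I then F (I J) else 0` (e.g. the injective map
`{I // mk0 I = c} → Ideal (𝓞 K)`, `Function.Injective.tsum_eq`).
-/


open NumberField Module
open scoped nonZeroDivisors ComplexConjugate
open Pool.Agent.H92.CG

namespace Pool.Agent.H14.BK

variable {K : Type*} [Field K] [NumberField K]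

open Classical in
theorem tsum_class [IsTotallyComplex K] (h2 : finrank ℚ K = 2) {c : ClassGroup (𝓞 K)}
    {J : Ideal (𝓞 K)} (hJ : InC c⁻¹ J) (F : Ideal (𝓞 K) → ℂ) (h0 : F ⊥ = 0) (hF : Summable F) :
    ∑' x : J, F (Ideal.span {(x : 𝓞 K)}) = (Nat.card (𝓞 K)ˣ : ℂ) *
      ∑' I : Ideal (𝓞 K), (if InC c I then F (I * J) else 0) := by
  obtain ⟨hJ0, hJc⟩ := hJ
  have hfin := units_finite (K := K) h2
  have : Fintype (𝓞 K)ˣ := Fintype.ofFinite _
  obtain ⟨e, he⟩ := exists_equiv c ⟨J, mem_nonZeroDivisors_of_ne_zero hJ0⟩ hJc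
  -- the family on the ideals of the class
  let G : {I : (Ideal (𝓞 K))⁰ // ClassGroup.mk0 I = c} → ℂ := fun I =>
    F ((I.1 : Ideal (𝓞 K)) * J)
  have hinj : Function.Injective
      (fun I : {I : (Ideal (𝓞 K))⁰ // ClassGroup.mk0 I = c} => (I.1 : Ideal (𝓞 K)) * J) := by
    intro I I' h
    exact Subtype.ext (Subtype.ext (mul_right_cancel₀ hJ0 h))
  have hGs : Summable G := hF.comp_injective hinj
  have e1 : ∑' x : J, F (Ideal.span {(x : 𝓞 K)}) =
      ∑' x : {x : J | x ≠ 0}, F (Ideal.span {((x : J) : 𝓞 K)}) := by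
    refine (tsum_subtype_eq_of_support_subset (s := {x : J | x ≠ 0})
      (f := fun x : J => F (Ideal.span {(x : 𝓞 K)})) ?_).symm
    intro x hx
    change x ≠ 0
    rintro rfl
    apply hx
    change F (Ideal.span {((0 : J) : 𝓞 K)}) = 0
    rw [← h0]
    congr 1
    simp
  have e2 : ∑' x : {x : J | x ≠ 0}, F (Ideal.span {((x : J) : 𝓞 K)}) =
      ∑' p : {I : (Ideal (𝓞 K))⁰ // ClassGroup.mk0 I = c} × (𝓞 K)ˣ, G p.1 * 1 := by
    refine (e.tsum_eq (fun x : {x : J // x ≠ 0} =>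
      F (Ideal.span {((x : J) : 𝓞 K)}))).symm.trans ?_
    refine tsum_congr fun p => ?_
    have h1 : F (Ideal.span {((e p : J) : 𝓞 K)}) = F ((p.1.1 : Ideal (𝓞 K)) * J) :=
      congrArg F (he p)
    rw [mul_one]
    exact h1
  have hs1 : Summable fun _ : (𝓞 K)ˣ => ‖(1 : ℂ)‖ := (hasSum_fintype _).summable
  have e3 := tsum_mul_tsum_of_summable_norm hGs.norm hs1
  have e4 : ∑' I : {I : (Ideal (𝓞 K))⁰ // ClassGroup.mk0 I = c}, G I =
      ∑' I : Ideal (𝓞 K), (if InC c I then F (I * J) else 0) := by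
    have hφ : Function.Injective (fun I : {I : (Ideal (𝓞 K))⁰ // ClassGroup.mk0 I = c} =>
        (I.1 : Ideal (𝓞 K))) := fun I I' h => Subtype.ext (Subtype.ext h)
    rw [← hφ.tsum_eq (f := fun I : Ideal (𝓞 K) => if InC c I then F (I * J) else 0)]
    · refine tsum_congr fun I => ?_
      have hI : InC c (I.1 : Ideal (𝓞 K)) := by
        exact ⟨nonZeroDivisors.coe_ne_zero I.1, I.2⟩
      rw [if_pos hI]
    · intro I hI
      by_cases h : InC c I
      · obtain ⟨h1, h3⟩ := h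
        exact ⟨⟨⟨I, mem_nonZeroDivisors_of_ne_zero h1⟩, h3⟩, rfl⟩
      · exact absurd (if_neg h) hI
  have e5 : ∑' _ : (𝓞 K)ˣ, (1 : ℂ) = (Nat.card (𝓞 K)ˣ : ℂ) := by
    rw [tsum_fintype, Finset.sum_const, Finset.card_univ, nsmul_eq_mul, mul_one,
      Nat.card_eq_fintype_card]
  rw [e1, e2, ← e3, e4, e5, mul_comm]

end Pool.Agent.H14.BK
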