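import Pool.Agent.H14.BK.Pois
import Pool.Agent.H14.BK.Unf

/-!
# The ideals of a ray class

`part_equiv`.  Choose `I₀` with `rcl I₀ = u` (`rcl_surj`); `¬ 𝔭 ∣ I₀`.  `exists_inv`: `J` with
`rcl I₀ * rcl J = 1`; so `¬ 𝔭 ∣ J` (`rcl_eq_zero_iff`), `J ≠ ⊥`.  `J` and `𝔭` are coprime (`𝔭`
maximal), so `J * 𝔭 = J ⊓ 𝔭` (`Ideal.mul_eq_inf_of_coprime`) and there are `α₀ ∈ J`, `π₀ ∈ 𝔭` with
`α₀ + π₀ = 1`.  For `y ∈ J * 𝔭` put `α = α₀ + y ∈ J`, `α ≡ 1 mod 𝔭`, and `e y = I` with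
`I * J = (α)` (`Ideal.dvd_span_singleton`); `rcl (α) = 1` (`RayRel` with `1, α`), so
`rcl I = (rcl J)⁻¹ = u`.
* Injective: `(α) = (α')` gives `α' = ε α` with a unit `ε`; `ε ≡ 1 mod 𝔭`
  (`α' - α = (ε - 1) α ∈ 𝔭`, `α ∉ 𝔭`).  If `ε ≠ 1` then `N 𝔭 ∣ N((ε - 1)) = ‖σ ε - 1‖² ≤ 4`
  (`‖σ ε‖ = 1`: `‖σ ε‖² = N((ε)) = 1`), contrary to `5 ≤ N 𝔭`.
* Surjective: let `rcl I = u`.  Then `rcl (I * J) = 1 = rcl 1`, so `(a) I J = (b)` with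
  `a, b ∉ 𝔭`, `a - b ∈ 𝔭` (`rcl_eq_iff`, `RayRel`; the first alternative is impossible).  `b ∈ (a)`,
  `b = a α`, cancel `(a)`: `I J = (α)`, and `a (α - 1) = b - a ∈ 𝔭` so `α - 1 ∈ 𝔭`;
  `y = α - α₀ ∈ J ⊓ 𝔭`.
* `N I N J = N((α)) = ‖σ α‖²`.
-/


open NumberField Module
open scoped nonZeroDivisors ComplexConjugate
open Pool.Agent.H92.CG

namespace Pool.Agent.H14.BK

variable {K : Type*} [Field K] [NumberField K]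

/-- a unit that is `1` modulo a prime ideal of norm at least `5` is `1` -/
theorem partB_unit [IsTotallyComplex K] (h2 : finrank ℚ K = 2) (σ : K →+* ℂ) {𝔭 : Ideal (𝓞 K)}
    (h5 : 5 ≤ Ideal.absNorm 𝔭) (ε : (𝓞 K)ˣ) (h : (ε : 𝓞 K) - 1 ∈ 𝔭) : (ε : 𝓞 K) = 1 := by
  by_contra hne
  have h1 : (ε : 𝓞 K) - 1 ≠ 0 := sub_ne_zero.2 hne
  have h3 : Ideal.absNorm 𝔭 ∣ Ideal.absNorm (Ideal.span {(ε : 𝓞 K) - 1}) :=
    Ideal.absNorm_dvd_absNorm_of_le (by rw [Ideal.span_singleton_le_iff_mem]; exact h)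
  have h4 : Ideal.absNorm (Ideal.span {(ε : 𝓞 K) - 1}) ≠ 0 := by
    rw [Ne, Ideal.absNorm_eq_zero_iff, Ideal.span_singleton_eq_bot]
    exact h1
  have h6 := Nat.le_of_dvd (Nat.pos_of_ne_zero h4) h3
  have h7 : ‖σ ((ε : 𝓞 K) : K)‖ = 1 := by
    have h8 := norm_sq_eq_absNorm h2 σ (ε : 𝓞 K)
    rw [Ideal.span_singleton_eq_top.2 ε.isUnit, Ideal.absNorm_top, Nat.cast_one] at h8
    have h9 : 0 ≤ ‖σ ((ε : 𝓞 K) : K)‖ := norm_nonneg _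
    nlinarith
  have h10 : ‖σ (((ε : 𝓞 K) - 1 : 𝓞 K) : K)‖ ≤ 2 := by
    have e1 : σ (((ε : 𝓞 K) - 1 : 𝓞 K) : K) = σ ((ε : 𝓞 K) : K) - 1 := by
      rw [← map_one σ, ← map_sub]
      congr 1
    rw [e1]
    refine (norm_sub_le _ _).trans ?_
    rw [h7, norm_one]
    norm_num
  have h11 := norm_sq_eq_absNorm h2 σ ((ε : 𝓞 K) - 1)
  have h12 : (5 : ℝ) ≤ (Ideal.absNorm (Ideal.span {(ε : 𝓞 K) - 1}) : ℝ) := by
    exact_mod_cast h5.trans h6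
  rw [← h11] at h12
  have h13 : 0 ≤ ‖σ (((ε : 𝓞 K) - 1 : 𝓞 K) : K)‖ := norm_nonneg _
  nlinarith

theorem part_equiv [IsTotallyComplex K] (h2 : finrank ℚ K = 2) (σ : K →+* ℂ) {𝔭 : Ideal (𝓞 K)}
    (h𝔭 : Prime 𝔭) (h5 : 5 ≤ Ideal.absNorm 𝔭) {u : RW 𝔭 h𝔭} (hu : u ≠ 0) :
    ∃ (J : Ideal (𝓞 K)) (α₀ : 𝓞 K)
      (e : (J * 𝔭 : Ideal (𝓞 K)) ≃ {I : Ideal (𝓞 K) // rcl 𝔭 h𝔭 I = u}), J ≠ ⊥ ∧
      ∀ y, (Ideal.absNorm (e y).1 : ℝ) * (Ideal.absNorm J : ℝ) =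
        ‖σ ((y : 𝓞 K) : K) + σ (α₀ : K)‖ ^ 2 := by
  classical
  have hP := Ideal.isPrime_of_prime h𝔭
  have hmax : 𝔭.IsMaximal := hP.isMaximal h𝔭.ne_zero
  have hone : (1 : 𝓞 K) ∉ 𝔭 := fun h1 => hP.ne_top ((Ideal.eq_top_iff_one 𝔭).mpr h1)
  have hone' : ¬ 𝔭 ∣ 1 := fun h3 => h𝔭.not_isUnit (isUnit_of_dvd_one h3)
  obtain ⟨I₀, hI₀⟩ := rcl_surj u
  have hI₀' : ¬ 𝔭 ∣ I₀ := by
    rw [← rcl_eq_zero_iff (h𝔭 := h𝔭), hI₀]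
    exact hu
  obtain ⟨J, hJ⟩ := exists_inv h𝔭 I₀ hI₀'
  have hJ' : ¬ 𝔭 ∣ J := by
    intro h
    rw [(rcl_eq_zero_iff (h𝔭 := h𝔭) J).2 h, mul_zero] at hJ
    exact zero_ne_one hJ
  have hJ0 : J ≠ 0 := by
    rintro rfl
    exact hJ' (dvd_zero 𝔭)
  have hcop : J ⊔ 𝔭 = ⊤ := hmax.out.2 _ (right_lt_sup.2 fun h => hJ' (Ideal.dvd_iff_le.2 h))
  have hinf : J * 𝔭 = J ⊓ 𝔭 := Ideal.mul_eq_inf_of_coprime hcop
  obtain ⟨α₀, hα₀, π₀, hπ₀, hαπ⟩ : ∃ α₀ ∈ J, ∃ π₀ ∈ 𝔭, α₀ + π₀ = 1 :=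
    Submodule.mem_sup.1 (hcop ▸ Submodule.mem_top (x := (1 : 𝓞 K)))
  have hle1 : J * 𝔭 ≤ J := Ideal.mul_le_left
  have hle2 : J * 𝔭 ≤ 𝔭 := Ideal.mul_le_right
  have hαJ : ∀ y : (J * 𝔭 : Ideal (𝓞 K)), α₀ + (y : 𝓞 K) ∈ J := fun y =>
    J.add_mem hα₀ (hle1 y.2)
  have hα1 : ∀ y : (J * 𝔭 : Ideal (𝓞 K)), α₀ + (y : 𝓞 K) - 1 ∈ 𝔭 := fun y => by
    have e : α₀ + (y : 𝓞 K) - 1 = (y : 𝓞 K) - π₀ := by rw [← hαπ]; ring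
    rw [e]
    exact 𝔭.sub_mem (hle2 y.2) hπ₀
  have hαp : ∀ y : (J * 𝔭 : Ideal (𝓞 K)), α₀ + (y : 𝓞 K) ∉ 𝔭 := fun y h => by
    apply hone
    have := 𝔭.sub_mem h (hα1 y)
    rwa [sub_sub_cancel] at this
  choose g hg using fun y : (J * 𝔭 : Ideal (𝓞 K)) => Ideal.dvd_span_singleton.2 (hαJ y)
  have hgu : ∀ y, rcl 𝔭 h𝔭 (g y) = u := by
    intro y
    have h1 : rcl 𝔭 h𝔭 (Ideal.span {α₀ + (y : 𝓞 K)}) = 1 := by
      rw [← rcl_one, rcl_eq_iff]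
      refine Or.inr ⟨?_, hone', 1, α₀ + (y : 𝓞 K), hone, hαp y, ?_, ?_⟩
      · rw [Ideal.dvd_span_singleton]
        exact hαp y
      · rw [← neg_sub]
        exact 𝔭.neg_mem (hα1 y)
      · rw [Ideal.span_singleton_one, Ideal.top_mul, mul_one]
    rw [hg y, rcl_mul] at h1
    calc rcl 𝔭 h𝔭 (g y) = (rcl 𝔭 h𝔭 I₀ * rcl 𝔭 h𝔭 J) * rcl 𝔭 h𝔭 (g y) := by rw [hJ, one_mul]
      _ = rcl 𝔭 h𝔭 I₀ * (rcl 𝔭 h𝔭 J * rcl 𝔭 h𝔭 (g y)) := mul_assoc _ _ _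
      _ = u := by rw [h1, mul_one, hI₀]
  let f : (J * 𝔭 : Ideal (𝓞 K)) → {I : Ideal (𝓞 K) // rcl 𝔭 h𝔭 I = u} := fun y => ⟨g y, hgu y⟩
  have hinj : Function.Injective f := by
    intro y y' hyy
    have h1 : g y = g y' := congrArg Subtype.val hyy
    have h3 : Ideal.span {α₀ + (y : 𝓞 K)} = Ideal.span {α₀ + (y' : 𝓞 K)} := by
      rw [hg y, hg y', h1]
    rw [Ideal.span_singleton_eq_span_singleton] at h3
    obtain ⟨ε, hε⟩ := h3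
    have h4 : ((ε : 𝓞 K) - 1) * (α₀ + (y : 𝓞 K)) ∈ 𝔭 := by
      have e : ((ε : 𝓞 K) - 1) * (α₀ + (y : 𝓞 K)) = (α₀ + (y' : 𝓞 K) - 1) - (α₀ + (y : 𝓞 K) - 1) := by
        rw [← hε]; ring
      rw [e]
      exact 𝔭.sub_mem (hα1 y') (hα1 y)
    have h6 : (ε : 𝓞 K) - 1 ∈ 𝔭 := (hP.mem_or_mem h4).resolve_right (hαp y)
    have h7 := partB_unit h2 σ h5 ε h6
    rw [h7, mul_one] at hε
    exact Subtype.ext (add_left_cancel hε)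
  have hsurj : Function.Surjective f := by
    rintro ⟨I, hI⟩
    have h1 : rcl 𝔭 h𝔭 (I * J) = rcl 𝔭 h𝔭 1 := by
      rw [rcl_mul, hI, ← hI₀, hJ, rcl_one]
    rw [rcl_eq_iff] at h1
    rcases h1 with ⟨_, h3⟩ | ⟨_, _, a, b, ha, hb, hab, h3⟩
    · exact absurd h3 hone'
    · rw [mul_one] at h3
      have h4 : b ∈ Ideal.span {a} := by
        have : b ∈ Ideal.span {b} := Ideal.mem_span_singleton_self b
        rw [← h3] at this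
        exact Ideal.mul_le_left this
      obtain ⟨α, hα⟩ := Ideal.mem_span_singleton'.1 h4
      have ha0 : Ideal.span {a} ≠ (0 : Ideal (𝓞 K)) := by
        intro h
        rw [Ideal.zero_eq_bot, Ideal.span_singleton_eq_bot] at h
        rw [h] at ha
        exact ha 𝔭.zero_mem
      have h6 : I * J = Ideal.span {α} := by
        apply mul_left_cancel₀ ha0
        rw [h3, ← hα, Ideal.span_singleton_mul_span_singleton, mul_comm]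
      have h7 : α - 1 ∈ 𝔭 := by
        have e : a * (α - 1) = -(a - b) := by rw [← hα]; ring
        have h8 : a * (α - 1) ∈ 𝔭 := by
          rw [e]; exact 𝔭.neg_mem hab
        exact (hP.mem_or_mem h8).resolve_left ha
      have h8 : α ∈ J := by
        have : α ∈ Ideal.span {α} := Ideal.mem_span_singleton_self α
        rw [← h6] at this
        exact Ideal.mul_le_right this
      have h9 : α - α₀ ∈ J * 𝔭 := by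
        rw [hinf]
        refine ⟨J.sub_mem h8 hα₀, ?_⟩
        have e : α - α₀ = (α - 1) + π₀ := by rw [← hαπ]; ring
        show α - α₀ ∈ 𝔭
        rw [e]
        exact 𝔭.add_mem h7 hπ₀
      refine ⟨⟨α - α₀, h9⟩, Subtype.ext ?_⟩
      show g ⟨α - α₀, h9⟩ = I
      have h10 := hg ⟨α - α₀, h9⟩
      have h11 : α₀ + ((⟨α - α₀, h9⟩ : (J * 𝔭 : Ideal (𝓞 K))) : 𝓞 K) = α := by
        show α₀ + (α - α₀) = α
        ring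
      rw [h11, ← h6, mul_comm I J] at h10
      exact (mul_left_cancel₀ hJ0 h10).symm
  refine ⟨J, α₀, Equiv.ofBijective f ⟨hinj, hsurj⟩, hJ0, fun y => ?_⟩
  have h1 := norm_sq_eq_absNorm h2 σ (α₀ + (y : 𝓞 K))
  have h3 : σ ((α₀ + (y : 𝓞 K) : 𝓞 K) : K) = σ ((y : 𝓞 K) : K) + σ (α₀ : K) := by
    rw [← map_add, add_comm]
    congr 1
  rw [h3, hg y, map_mul] at h1
  rw [h1]
  show (Ideal.absNorm (g y) : ℝ) * (Ideal.absNorm J : ℝ) = _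
  push_cast
  ring

end Pool.Agent.H14.BK
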