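import Pool.Agent.H14.BK.PartA
import Pool.Agent.H14.BK.PartB

/-!
# Partial theta series of the ray classes near zero

`RR 𝔭 = √(|D| N 𝔭) = rD K * √(N 𝔭)`.

`part_main`.  By `part_equiv` and `Equiv.tsum_eq` (and `tsum` over a subtype = `tsum` of an
indicator), with `L = J * 𝔭`, `N L = N J N 𝔭`, `q = N 𝔭`, `t' = √q t`:
`2 π t N(e y) / R = π t' q_L (σ y + σ α₀)`, so
`∑_{I ∈ u} exp (-2 π t N I / R) = ∑_{y ∈ L} exp (-π t' q_L (σ y + σ α₀)) =`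
`(1 / t') ∑_{y ∈ L} e (om L (σ y) (σ α₀)) exp (-π q_L (σ y) / t')` by `poisson_ideal`.  The term
`y = 0` is `1 / t' = (1 / √q) / t`; the others are at most `(1 / t') C₀ exp (-c / t')` in absolute
value by `unif_bound` (`1 / t' ≥ 1`).  Take `C ≥ 1, C₀, 1 / c`.
-/


open NumberField Module
open scoped nonZeroDivisors ComplexConjugate
open Pool.Agent.H92.CG

namespace Pool.Agent.H14.BK

variable {K : Type*} [Field K] [NumberField K]

/-- `√(|D| N 𝔭)` -/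
noncomputable def RR (𝔭 : Ideal (𝓞 K)) : ℝ := rD K * √(Ideal.absNorm 𝔭 : ℝ)

open Classical in
theorem part_main [IsTotallyComplex K] (h2 : finrank ℚ K = 2) :
    ∃ C : ℝ, 1 ≤ C ∧ ∀ (𝔭 : Ideal (𝓞 K)) (h𝔭 : Prime 𝔭), 5 ≤ Ideal.absNorm 𝔭 →
      ∀ u : RW 𝔭 h𝔭, u ≠ 0 → ∀ t : ℝ, 0 < t → t * √(Ideal.absNorm 𝔭 : ℝ) ≤ 1 →
      |(∑' I : Ideal (𝓞 K), if rcl 𝔭 h𝔭 I = u then
          Real.exp (-(2 * Real.pi * t * (Ideal.absNorm I : ℝ) / RR 𝔭)) else 0) -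
        (1 / √(Ideal.absNorm 𝔭 : ℝ)) / t| ≤
      C / (√(Ideal.absNorm 𝔭 : ℝ) * t) *
        Real.exp (-(1 / (C * √(Ideal.absNorm 𝔭 : ℝ) * t))) := by
  obtain ⟨σ⟩ : Nonempty (K →+* ℂ) := inferInstance
  obtain ⟨c, C₀, hc, hC₀, hunif⟩ := unif_bound h2 σ
  refine ⟨max 1 (max C₀ (1 / c)), le_max_left _ _, fun 𝔭 h𝔭 h5 u hu t ht htq => ?_⟩
  set C : ℝ := max 1 (max C₀ (1 / c)) with hC
  have hC1 : 1 ≤ C := le_max_left _ _
  have hCC : C₀ ≤ C := (le_max_left _ _).trans (le_max_right _ _)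
  have hCc : 1 / c ≤ C := (le_max_right _ _).trans (le_max_right _ _)
  obtain ⟨J, α₀, e, hJ, he⟩ := part_equiv h2 σ h𝔭 h5 hu
  have hpi := Real.pi_pos
  have hrD : 0 < rD K := rD_pos
  have hq0 : (0 : ℝ) < (Ideal.absNorm 𝔭 : ℝ) := by
    exact_mod_cast lt_of_lt_of_le (by norm_num) h5
  set Q : ℝ := √(Ideal.absNorm 𝔭 : ℝ) with hQ
  have hsq : 0 < Q := Real.sqrt_pos.2 hq0
  have hss : Q * Q = (Ideal.absNorm 𝔭 : ℝ) := Real.mul_self_sqrt hq0.le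
  have hNJ := absNorm_pos hJ
  have hL0 : J * 𝔭 ≠ ⊥ := mul_ne_zero hJ h𝔭.ne_zero
  have hNL : (Ideal.absNorm (J * 𝔭) : ℝ) = (Ideal.absNorm J : ℝ) * (Ideal.absNorm 𝔭 : ℝ) := by
    rw [map_mul]
    push_cast
    rfl
  have ht' : 0 < Q * t := mul_pos hsq ht
  -- the series is the theta series of a coset
  have hS : (∑' I : Ideal (𝓞 K), if rcl 𝔭 h𝔭 I = u then
          Real.exp (-(2 * Real.pi * t * (Ideal.absNorm I : ℝ) / RR 𝔭)) else 0) =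
      ∑' y : (J * 𝔭 : Ideal (𝓞 K)),
        Real.exp (-Real.pi * (Q * t) * qJ (J * 𝔭) (σ (y : 𝓞 K) + σ (α₀ : K))) := by
    have h1 := tsum_subtype {I : Ideal (𝓞 K) | rcl 𝔭 h𝔭 I = u}
      (fun I : Ideal (𝓞 K) => Real.exp (-(2 * Real.pi * t * (Ideal.absNorm I : ℝ) / RR 𝔭)))
    have h3 : (∑' I : Ideal (𝓞 K), if rcl 𝔭 h𝔭 I = u then
          Real.exp (-(2 * Real.pi * t * (Ideal.absNorm I : ℝ) / RR 𝔭)) else 0) =
        ∑' I : Ideal (𝓞 K), Set.indicator {I : Ideal (𝓞 K) | rcl 𝔭 h𝔭 I = u}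
          (fun I : Ideal (𝓞 K) => Real.exp (-(2 * Real.pi * t * (Ideal.absNorm I : ℝ) / RR 𝔭))) I := by
      refine tsum_congr fun I => ?_
      rw [Set.indicator_apply]
      rfl
    rw [h3, ← h1]
    refine (e.tsum_eq (fun I : {I : Ideal (𝓞 K) // rcl 𝔭 h𝔭 I = u} =>
      Real.exp (-(2 * Real.pi * t * (Ideal.absNorm (I : Ideal (𝓞 K)) : ℝ) / RR 𝔭)))).symm.trans ?_
    refine tsum_congr fun y => ?_
    have h4 := he y
    have h5 : (Ideal.absNorm (e y).1 : ℝ) =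
        ‖σ ((y : 𝓞 K) : K) + σ (α₀ : K)‖ ^ 2 / (Ideal.absNorm J : ℝ) := by
      rw [← h4, mul_div_cancel_right₀ _ hNJ.ne']
    rw [h5, qJ, hNL, RR, ← hQ, ← hss]
    congr 1
    field_simp
  rw [hS]
  have hP := poisson_ideal h2 σ hL0 ht' (σ (α₀ : K))
  set G : (J * 𝔭 : Ideal (𝓞 K)) → ℂ := fun y =>
    Complex.exp (2 * Real.pi * Complex.I * (om (J * 𝔭) (σ (y : 𝓞 K)) (σ (α₀ : K)) : ℝ)) *
        ((Real.exp (-Real.pi * (1 / (Q * t)) * qJ (J * 𝔭) (σ (y : 𝓞 K))) : ℝ) : ℂ) with hG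
  have hGn : ∀ y, ‖G y‖ = Real.exp (-Real.pi * (1 / (Q * t)) * qJ (J * 𝔭) (σ (y : 𝓞 K))) := by
    intro y
    rw [hG]
    simp only [norm_mul, Complex.norm_real, Real.norm_of_nonneg (Real.exp_pos _).le]
    have h6 : (2 * Real.pi * Complex.I * (om (J * 𝔭) (σ (y : 𝓞 K)) (σ (α₀ : K)) : ℝ) : ℂ) =
        ((2 * Real.pi * om (J * 𝔭) (σ (y : 𝓞 K)) (σ (α₀ : K)) : ℝ) : ℂ) * Complex.I := by
      push_cast
      ring
    rw [h6, Complex.norm_exp_ofReal_mul_I, one_mul]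
  have hsr := summable_qJ h2 σ hL0 (t := 1 / (Q * t)) (by positivity) 0
  simp only [add_zero] at hsr
  have hGs : Summable G := Summable.of_norm (by simpa only [hGn] using hsr)
  have hG0 : G 0 = 1 := by
    rw [hG]
    simp [om, qJ]
  have hsplit : ∑' y, G y = 1 + ∑' y, (if y = 0 then 0 else G y) := by
    rw [hGs.tsum_eq_add_tsum_ite 0, hG0]
  have hite : ∀ y : (J * 𝔭 : Ideal (𝓞 K)), ‖(if y = 0 then 0 else G y)‖ =
      (if (y : 𝓞 K) = 0 then 0 else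
        Real.exp (-Real.pi * (1 / (Q * t)) * qJ (J * 𝔭) (σ (y : 𝓞 K)))) := by
    intro y
    by_cases hy : y = 0
    · rw [if_pos hy, if_pos (by rw [hy]; rfl), norm_zero]
    · rw [if_neg hy, if_neg (fun h : (y : 𝓞 K) = 0 => hy (Subtype.ext h)), hGn]
  have hsum2 : Summable fun y : (J * 𝔭 : Ideal (𝓞 K)) => ‖(if y = 0 then 0 else G y)‖ := by
    refine Summable.of_nonneg_of_le (fun y => norm_nonneg _) (fun y => ?_) hsr
    rw [hite]
    split_ifs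
    · exact (Real.exp_pos _).le
    · exact le_refl _
  have htail : ‖∑' y, (if y = 0 then 0 else G y)‖ ≤ C₀ * Real.exp (-(c * (1 / (Q * t)))) := by
    refine (norm_tsum_le_tsum_norm hsum2).trans ?_
    rw [tsum_congr hite]
    refine hunif _ hL0 _ ?_
    rw [le_div_iff₀ ht', one_mul, mul_comm]
    exact htq
  have hdiff : ((∑' y : (J * 𝔭 : Ideal (𝓞 K)),
        Real.exp (-Real.pi * (Q * t) * qJ (J * 𝔭) (σ (y : 𝓞 K) + σ (α₀ : K))) -
          1 / Q / t : ℝ) : ℂ) = (1 / (Q * t) : ℂ) * ∑' y, (if y = 0 then 0 else G y) := by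
    rw [Complex.ofReal_sub, hP]
    rw [hsplit]
    have hQ0 : (Q : ℂ) ≠ 0 := by exact_mod_cast hsq.ne'
    have ht0 : (t : ℂ) ≠ 0 := by exact_mod_cast ht.ne'
    push_cast
    field_simp
    ring
  rw [← Real.norm_eq_abs, ← Complex.norm_real, hdiff, norm_mul]
  have h8 : ‖(1 / (Q * t) : ℂ)‖ = 1 / (Q * t) := by
    rw [← Complex.ofReal_mul, ← Complex.ofReal_one, ← Complex.ofReal_div, Complex.norm_real,
      Real.norm_of_nonneg (by positivity)]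
  rw [h8]
  have h9 : Real.exp (-(c * (1 / (Q * t)))) ≤ Real.exp (-(1 / (C * Q * t))) := by
    rw [Real.exp_le_exp, neg_le_neg_iff]
    have h10 : 1 / C ≤ c := by
      rw [div_le_iff₀ (by linarith)]
      rw [div_le_iff₀ hc] at hCc
      linarith
    calc 1 / (C * Q * t) = 1 / C * (1 / (Q * t)) := by
          field_simp
      _ ≤ c * (1 / (Q * t)) := by gcongr
  calc 1 / (Q * t) * ‖∑' y, (if y = 0 then 0 else G y)‖ ≤
        1 / (Q * t) * (C₀ * Real.exp (-(c * (1 / (Q * t))))) := by gcongr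
    _ ≤ 1 / (Q * t) * (C * Real.exp (-(1 / (C * Q * t)))) := by gcongr
    _ = _ := by ring

end Pool.Agent.H14.BK
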