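import Pool.Agent.H14.BK.FeJ
import Pool.Agent.H14.BK.Part

/-!
# The functional equation for an ideal class

`R = RR 𝔭 = √(|D| q)`.  For an ideal class `c` put (`GC`)
`G_c(χ, t) = ∑_{I ∈ c} χ(I) exp (-2 π t N I / R)`.

`fe_class`: let `d` be the class of `𝔭`.  Then
`G_c(χ, t) = (g χ((δ)) conj χ(τ 𝔭) / (√q t)) conj G_{c d⁻¹}(χ ∘ τ, 1 / t)`, where `χ ∘ τ` is the
function `I ↦ χ (I.map τ)`.
Proof.  Choose `J` in the class `c⁻¹` with `¬ 𝔭 ∣ J`, `¬ 𝔭.map τ ∣ J` (`exists_rep`); so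
`¬ 𝔭 ∣ J.map τ` (`map_tau_tau`, `Ideal.map_mul`).  `L = J * 𝔭` is in the class `c⁻¹ d`, the inverse
of `c d⁻¹`.  `w = Nat.card (𝓞 K)ˣ ≠ 0` (`units_finite`).
* `tsum_class` for `c`, `J`, `F 𝔞 = χ(𝔞) exp (-2 π t N 𝔞 / (N J R))` (`χ ⊥ = 0`; summable by
  `summable_exp`, `ray_norm_le`), with `N((x)) = ‖σ x‖²` (`norm_sq_eq_absNorm`) so
  `2 π t ‖σ x‖² / (N J R) = π (t / √q) q_J (σ x)`:
  `∑_{x ∈ J} χ((x)) exp (-π (t / √q) q_J (σ x)) = w χ(J) G_c(χ, t)`.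
* `fe_ideal` with `t / √q`: this is
  `(g χ((N J)) χ((δ)) / (√q t)) ∑_{y ∈ L} conj χ((τ y)) exp (-π (1 / (√q t)) q_L (σ y))`
  (`q (t / √q) = √q t`).
* `tsum_class` for `c d⁻¹`, `L`, `F 𝔞 = conj χ(𝔞.map τ) exp (-2 π (1 / t) N 𝔞 / (N L R))`, with
  `(τ y) = (y).map τ` (`Ideal.map_span`) and
  `2 π ‖σ y‖² / (t N L R) = π (1 / (√q t)) q_L (σ y)`:
  `∑_{y ∈ L} conj χ((τ y)) exp (..) = w conj χ(τ J) conj χ(τ 𝔭) conj G_{c d⁻¹}(χ ∘ τ, 1 / t)`.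
* `χ((N J)) = χ(J) χ(τ J)` (`mul_map_tau`), `χ(τ J) conj χ(τ J) = 1` (`ray_norm`), cancel `w χ(J)`.
-/


open NumberField Module
open scoped nonZeroDivisors ComplexConjugate
open Pool.Agent.H92.CG

namespace Pool.Agent.H14.BK

variable {K : Type*} [Field K] [NumberField K]

open Classical in
/-- the theta series of a function on the ideals of the class `c` -/
noncomputable def GC (c : ClassGroup (𝓞 K)) (f : Ideal (𝓞 K) → ℂ) (R t : ℝ) : ℂ :=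
  ∑' I : Ideal (𝓞 K), (if InC c I then
    f I * ((Real.exp (-(2 * Real.pi * t * (Ideal.absNorm I : ℝ) / R)) : ℝ) : ℂ) else 0)

theorem fec_conj (c : ClassGroup (𝓞 K)) (f : Ideal (𝓞 K) → ℂ) (R t : ℝ) :
    conj (GC c f R t) = GC c (fun I => conj (f I)) R t := by
  unfold GC
  rw [Complex.conj_tsum]
  refine tsum_congr fun I => ?_
  split_ifs
  · rw [map_mul, Complex.conj_ofReal]
  · rw [map_zero]

theorem fec_unfold [IsTotallyComplex K] (h2 : finrank ℚ K = 2) (σ : K →+* ℂ)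
    (f : Ideal (𝓞 K) → ℂ) (hf0 : f ⊥ = 0) (hfm : ∀ I J, f (I * J) = f I * f J)
    (hf1 : ∀ I, ‖f I‖ ≤ 1) {c : ClassGroup (𝓞 K)} {J : Ideal (𝓞 K)} (hJ : InC c⁻¹ J) {R t : ℝ}
    (hR : 0 < R) (ht : 0 < t) :
    ∑' x : J, f (Ideal.span {(x : 𝓞 K)}) * ((Real.exp (-(2 * Real.pi * t *
      ‖σ (x : 𝓞 K)‖ ^ 2 / ((Ideal.absNorm J : ℝ) * R))) : ℝ) : ℂ) =
      (Nat.card (𝓞 K)ˣ : ℂ) * (f J * GC c f R t) := by
  classical
  have hJ0 : J ≠ ⊥ := hJ.1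
  have hN := absNorm_pos hJ0
  have hpi := Real.pi_pos
  set F : Ideal (𝓞 K) → ℂ := fun 𝔞 => f 𝔞 * ((Real.exp (-(2 * Real.pi * t *
    (Ideal.absNorm 𝔞 : ℝ) / ((Ideal.absNorm J : ℝ) * R))) : ℝ) : ℂ) with hF
  have hFs : Summable F := by
    have h1 := summable_exp (K := K) h2 (c := 2 * Real.pi * t / ((Ideal.absNorm J : ℝ) * R))
      (by positivity)
    refine Summable.of_norm_bounded h1 fun 𝔞 => ?_
    rw [hF]
    simp only [norm_mul, Complex.norm_real, Real.norm_of_nonneg (Real.exp_pos _).le]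
    have h3 : -(2 * Real.pi * t * (Ideal.absNorm 𝔞 : ℝ) / ((Ideal.absNorm J : ℝ) * R)) =
        -(2 * Real.pi * t / ((Ideal.absNorm J : ℝ) * R) * (Ideal.absNorm 𝔞 : ℝ)) := by ring
    rw [h3]
    exact mul_le_of_le_one_left (Real.exp_pos _).le (hf1 𝔞)
  have key := tsum_class h2 hJ F (by rw [hF]; simp [hf0]) hFs
  have e1 : ∀ x : J, F (Ideal.span {(x : 𝓞 K)}) = f (Ideal.span {(x : 𝓞 K)}) *
      ((Real.exp (-(2 * Real.pi * t *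
      ‖σ (x : 𝓞 K)‖ ^ 2 / ((Ideal.absNorm J : ℝ) * R))) : ℝ) : ℂ) := by
    intro x
    rw [norm_sq_eq_absNorm h2 σ]
  rw [← tsum_congr e1, key]
  congr 1
  unfold GC
  rw [← tsum_mul_left]
  refine tsum_congr fun I => ?_
  split_ifs
  · rw [hF]
    simp only
    rw [hfm, map_mul]
    have h3 : -(2 * Real.pi * t * ((Ideal.absNorm I * Ideal.absNorm J : ℕ) : ℝ) /
        ((Ideal.absNorm J : ℝ) * R)) = -(2 * Real.pi * t * (Ideal.absNorm I : ℝ) / R) := by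
      push_cast
      field_simp
    rw [h3]
    ring
  · rw [mul_zero]

theorem fe_class [IsTotallyComplex K] (h2 : finrank ℚ K = 2) {σ : K →+* ℂ}
    {τ : 𝓞 K ≃+* 𝓞 K} (hτ : IsTau σ τ) {δ : 𝓞 K} (hδ : σ (δ : K) = Complex.I * (rD K : ℝ))
    {𝔭 : Ideal (𝓞 K)} (h𝔭 : Prime 𝔭) (hq : (Ideal.absNorm 𝔭).Prime)
    (hD : |discr K| < (Ideal.absNorm 𝔭 : ℤ)) {χ : Ideal (𝓞 K) →*₀ ℂ} (hχ : IsRay 𝔭 χ) {g : ℂ}
    (hg : ∀ b : ℤ, ∑ a ∈ Finset.range (Ideal.absNorm 𝔭), χ (Ideal.span {(a : 𝓞 K)}) *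
        Complex.exp (2 * Real.pi * Complex.I * (a * b / (Ideal.absNorm 𝔭 : ℕ))) =
      g * conj (χ (Ideal.span {(b : 𝓞 K)}))) {d : ClassGroup (𝓞 K)} (hd : InC d 𝔭)
    (c : ClassGroup (𝓞 K)) {t : ℝ} (ht : 0 < t) :
    GC c (fun I => χ I) (RR 𝔭) t =
      g * χ (Ideal.span {δ}) * conj (χ (𝔭.map τ)) / (√(Ideal.absNorm 𝔭 : ℝ) * t : ℝ) *
        conj (GC (c * d⁻¹) (fun I => χ (I.map τ)) (RR 𝔭) (1 / t)) := by
  have hw : (Nat.card (𝓞 K)ˣ : ℂ) ≠ 0 := by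
    have := units_finite (K := K) h2
    exact_mod_cast Nat.card_pos.ne'
  have hq0 : (0 : ℝ) < (Ideal.absNorm 𝔭 : ℝ) := by exact_mod_cast hq.pos
  have hsq : 0 < √(Ideal.absNorm 𝔭 : ℝ) := Real.sqrt_pos.2 hq0
  have hss : √(Ideal.absNorm 𝔭 : ℝ) * √(Ideal.absNorm 𝔭 : ℝ) = (Ideal.absNorm 𝔭 : ℝ) :=
    Real.mul_self_sqrt hq0.le
  have hrD : 0 < rD K := rD_pos
  have hR : 0 < RR 𝔭 := mul_pos rD_pos hsq
  have hRe : RR 𝔭 = rD K * √(Ideal.absNorm 𝔭 : ℝ) := rfl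
  have hpi := Real.pi_pos
  -- the conjugate prime
  have hPt : Prime (𝔭.map τ) := by
    have h0 : 𝔭.map τ ≠ ⊥ := by
      intro h
      have h1 := absNorm_map_tau τ 𝔭
      rw [h, Ideal.absNorm_bot] at h1
      rw [← h1] at hq
      exact Nat.not_prime_zero hq
    refine Ideal.prime_of_isPrime h0 (Ideal.isPrime_of_irreducible_absNorm ?_)
    rw [absNorm_map_tau]
    exact hq
  obtain ⟨J, hJc, hJp, hJt⟩ := exists_rep c⁻¹ h𝔭 hPt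
  have hJ0 : J ≠ ⊥ := hJc.1
  have hJt' : ¬ 𝔭 ∣ J.map τ := by
    intro h
    apply hJt
    obtain ⟨M, hM⟩ := h
    refine ⟨M.map τ, ?_⟩
    rw [← Ideal.map_mul, ← hM, map_tau_tau hτ]
  have hNJ := absNorm_pos hJ0
  have hL : InC (c * d⁻¹)⁻¹ (J * 𝔭) := by
    have h1 := inC_mul hJc hd
    have h3 : (c * d⁻¹)⁻¹ = c⁻¹ * d := by rw [mul_inv, inv_inv]
    rw [h3]
    exact h1
  have hL0 : J * 𝔭 ≠ ⊥ := hL.1
  have hNL : (Ideal.absNorm (J * 𝔭) : ℝ) = (Ideal.absNorm J : ℝ) * (Ideal.absNorm 𝔭 : ℝ) := by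
    rw [map_mul]
    push_cast
    rfl
  -- the left side
  have h1 := fec_unfold h2 σ (fun I => χ I) (map_zero χ) (fun I J => map_mul χ I J)
    (ray_norm_le h𝔭 hχ) hJc (R := RR 𝔭) hR ht
  have h3 := fe_ideal h2 hτ hδ h𝔭 hq hD hχ hg hJ0 hJp hJt'
    (t := t / √(Ideal.absNorm 𝔭 : ℝ)) (by positivity)
  have e1 : ∀ x : J, χ (Ideal.span {(x : 𝓞 K)}) * ((Real.exp (-(2 * Real.pi * t *
      ‖σ (x : 𝓞 K)‖ ^ 2 / ((Ideal.absNorm J : ℝ) * RR 𝔭))) : ℝ) : ℂ) =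
      χ (Ideal.span {(x : 𝓞 K)}) * ((Real.exp (-Real.pi * (t / √(Ideal.absNorm 𝔭 : ℝ)) *
        qJ J (σ (x : 𝓞 K))) : ℝ) : ℂ) := by
    intro x
    congr 3
    rw [qJ, hRe]
    field_simp
  rw [tsum_congr e1, h3] at h1
  -- the right side
  have h4 := fec_unfold h2 σ (fun I => conj (χ (I.map τ)))
    (by rw [Ideal.map_bot, ← Ideal.zero_eq_bot, map_zero, map_zero])
    (fun I J => by rw [Ideal.map_mul, map_mul, map_mul])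
    (fun I => by rw [RCLike.norm_conj]; exact ray_norm_le h𝔭 hχ _) hL (R := RR 𝔭) hR
    (t := 1 / t) (by positivity)
  have e2 : ∀ y : (J * 𝔭 : Ideal (𝓞 K)), conj (χ ((Ideal.span {(y : 𝓞 K)}).map τ)) *
      ((Real.exp (-(2 * Real.pi * (1 / t) *
      ‖σ (y : 𝓞 K)‖ ^ 2 / ((Ideal.absNorm (J * 𝔭) : ℝ) * RR 𝔭))) : ℝ) : ℂ) =
      conj (χ (Ideal.span {τ (y : 𝓞 K)})) *
          ((Real.exp (-Real.pi * (1 / ((Ideal.absNorm 𝔭 : ℝ) * (t / √(Ideal.absNorm 𝔭 : ℝ)))) *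
            qJ (J * 𝔭) (σ (y : 𝓞 K))) : ℝ) : ℂ) := by
    intro y
    rw [Ideal.map_span, Set.image_singleton]
    congr 3
    rw [qJ, hRe]
    have h5 : (Ideal.absNorm 𝔭 : ℝ) * (t / √(Ideal.absNorm 𝔭 : ℝ)) =
        √(Ideal.absNorm 𝔭 : ℝ) * t := by
      rw [mul_div_assoc', div_eq_iff hsq.ne']
      nlinarith [hss]
    rw [h5]
    have hNL0 := absNorm_pos hL0
    field_simp
  rw [tsum_congr e2] at h4
  rw [h4, ← fec_conj] at h1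
  -- constants
  have hχJ : ‖χ J‖ = 1 := ray_norm h𝔭 hχ hJp
  have hχJ0 : χ J ≠ 0 := by
    intro h
    rw [h, norm_zero] at hχJ
    exact zero_ne_one hχJ
  have hχJt : χ (J.map τ) * conj (χ (J.map τ)) = 1 := by
    rw [Complex.mul_conj, Complex.normSq_eq_norm_sq, ray_norm h𝔭 hχ hJt']
    norm_num
  have hNχ : χ (Ideal.span {((Ideal.absNorm J : ℕ) : 𝓞 K)}) = χ J * χ (J.map τ) := by
    rw [← mul_map_tau h2 hτ J, map_mul]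
  have hden : ((Ideal.absNorm 𝔭 : ℕ) * ((t / √(Ideal.absNorm 𝔭 : ℝ) : ℝ) : ℂ)) =
      ((√(Ideal.absNorm 𝔭 : ℝ) * t : ℝ) : ℂ) := by
    rw [← Complex.ofReal_natCast, ← Complex.ofReal_mul]
    congr 1
    rw [mul_div_assoc', div_eq_iff hsq.ne']
    nlinarith [hss]
  rw [hden, hNχ, Ideal.map_mul, map_mul, map_mul] at h1
  have hden0 : ((√(Ideal.absNorm 𝔭 : ℝ) * t : ℝ) : ℂ) ≠ 0 := by
    exact_mod_cast (mul_pos hsq ht).ne'
  apply mul_left_cancel₀ (mul_ne_zero hw hχJ0)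
  rw [mul_assoc, ← h1]
  generalize (GC (c * d⁻¹) (fun I => χ (I.map τ)) (RR 𝔭) (1 / t)) = G
  field_simp
  linear_combination (g * χ (Ideal.span {δ}) * conj (χ (𝔭.map τ)) * conj G) * hχJt

end Pool.Agent.H14.BK
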