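import Pool.Agent.H14.BK.FeA
import Pool.Agent.H14.BK.ConjM

/-!
# The functional equation for one ideal

`𝔭` a prime ideal of prime norm `q > |D|`, `χ` a ray class character modulo `𝔭`, `g` its Gauss sum
(`hg`, from `gauss_sum`), `J ≠ ⊥` with `¬ 𝔭 ∣ J`, `¬ 𝔭 ∣ J.map τ`, `L = J * 𝔭`.  Claim:
`∑_{x ∈ J} χ((x)) exp (-π t q_J (x)) =`
`(g χ((N J)) χ((δ)) / (q t)) ∑_{y ∈ L} conj χ((τ y)) exp (-π q_L (y) / (q t))`.

Proof.
1. `coset`: `J` and `𝔭` are coprime, `x₁ + π₀ = 1` with `x₁ ∈ J`, `π₀ ∈ 𝔭`; `L = J ⊓ 𝔭`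
   (`Ideal.mul_eq_inf_of_coprime`).  `Fin q × L → J`, `(a, y) ↦ a x₁ + y` is bijective: for `x ∈ J`
   there is exactly one `a < q` with `x - a ∈ 𝔭` (`exists_nat`; unique by `int_mem`), and
   `a x₁ - a ∈ 𝔭`, so `x - a x₁ ∈ J ⊓ 𝔭`.
2. `χ((a x₁ + y)) = χ((a))` (`ray_congr`), `q_J = q q_L` (`N L = q N J`), so with `poisson_ideal` for
   `L`, `q t`, `ξ = a σ x₁` the left side is (`Equiv.tsum_eq`, `Summable.tsum_prod` or
   `tsum_fintype`; summability: `summable_qJ` and `ray_norm_le`)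
   `∑_{a < q} χ((a)) ∑_{y ∈ L} exp (-π q t q_L (σ y + a σ x₁)) =`
   `(1 / (q t)) ∑_{y ∈ L} (∑_{a < q} χ((a)) e (om L (σ y) (a σ x₁))) exp (-π q_L (σ y) / (q t))`.
3. `y, x₁ ∈ J`, so `b := om J (σ y) (σ x₁)` is an integer (`om_int`), and
   `om L (σ y) (a σ x₁) = a b / q`.  So the inner sum is `g conj χ((b))` by `hg`.
4. By `om_delta`: `N J δ b = τ y x₁ - y τ x₁ ≡ τ y mod 𝔭` (`y ∈ 𝔭`, `x₁ - 1 ∈ 𝔭`), so
   `χ((N J)) χ((δ)) χ((b)) = χ((τ y))` (`ray_congr`, multiplicativity).  Here `χ((N J))`, `χ((δ))` have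
   absolute value `1`: `δ ∉ 𝔭` (`delta_not_mem`), and `(N J) = J * J.map τ` (`mul_map_tau`) is not
   divisible by the prime `𝔭`; `ray_norm`.  So `conj χ((b)) = χ((N J)) χ((δ)) conj χ((τ y))`.
-/


open NumberField Module
open scoped nonZeroDivisors ComplexConjugate
open Pool.Agent.H92.CG

namespace Pool.Agent.H14.BK

variable {K : Type*} [Field K] [NumberField K]

omit [NumberField K] in
lemma fej_memJ {J 𝔭 : Ideal (𝓞 K)} (y : (J * 𝔭 : Ideal (𝓞 K))) : (y : 𝓞 K) ∈ J :=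
  Ideal.mul_le_left (I := J) (J := 𝔭) y.2

omit [NumberField K] in
lemma fej_memp {J 𝔭 : Ideal (𝓞 K)} (y : (J * 𝔭 : Ideal (𝓞 K))) : (y : 𝓞 K) ∈ 𝔭 :=
  Ideal.mul_le_right (I := J) (J := 𝔭) y.2

lemma fej_qJ {J 𝔭 : Ideal (𝓞 K)} (hJ : J ≠ ⊥) (hq : (Ideal.absNorm 𝔭).Prime) (z : ℂ) :
    qJ J z = (Ideal.absNorm 𝔭 : ℝ) * qJ (J * 𝔭) z := by
  have h1 : 0 < (Ideal.absNorm J : ℝ) := absNorm_pos hJ
  have h2 : 0 < (Ideal.absNorm 𝔭 : ℝ) := by exact_mod_cast hq.pos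
  have h3 : 0 < rD K := rD_pos
  unfold qJ
  rw [map_mul]
  push_cast
  field_simp

lemma fej_om {J 𝔭 : Ideal (𝓞 K)} (hJ : J ≠ ⊥) (hq : (Ideal.absNorm 𝔭).Prime) (a : ℕ) (z w : ℂ) :
    om (J * 𝔭) z ((a : ℂ) * w) = (a : ℝ) * om J z w / (Ideal.absNorm 𝔭 : ℝ) := by
  have h1 : 0 < (Ideal.absNorm J : ℝ) := absNorm_pos hJ
  have h2 : 0 < (Ideal.absNorm 𝔭 : ℝ) := by exact_mod_cast hq.pos
  have h3 : 0 < rD K := rD_pos
  have h4 : (conj z * ((a : ℂ) * w)).im = (a : ℝ) * (conj z * w).im := by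
    have : conj z * ((a : ℂ) * w) = ((a : ℝ) : ℂ) * (conj z * w) := by push_cast; ring
    rw [this, Complex.im_ofReal_mul]
  unfold om
  rw [map_mul, h4]
  push_cast
  field_simp

lemma fej_mul_conj {z : ℂ} (hz : ‖z‖ = 1) : z * conj z = 1 := by
  rw [Complex.mul_conj, Complex.normSq_eq_norm_sq, hz]
  simp

lemma fej_ray [IsTotallyComplex K] (h2 : finrank ℚ K = 2) {σ : K →+* ℂ}
    {τ : 𝓞 K ≃+* 𝓞 K} (hτ : IsTau σ τ) {δ : 𝓞 K} (hδ : σ (δ : K) = Complex.I * (rD K : ℝ))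
    {𝔭 : Ideal (𝓞 K)} (h𝔭 : Prime 𝔭)
    (hD : |discr K| < (Ideal.absNorm 𝔭 : ℤ)) {χ : Ideal (𝓞 K) →*₀ ℂ} (hχ : IsRay 𝔭 χ)
    {J : Ideal (𝓞 K)} (hJ : J ≠ ⊥) (hJp : ¬ 𝔭 ∣ J) (hJt : ¬ 𝔭 ∣ J.map τ) {y x : 𝓞 K}
    (hy : y ∈ 𝔭) (hx : x - 1 ∈ 𝔭) {b : ℤ} (hb : om J (σ (y : K)) (σ (x : K)) = b) :
    conj (χ (Ideal.span {(b : 𝓞 K)})) =
      χ (Ideal.span {((Ideal.absNorm J : ℕ) : 𝓞 K)}) * χ (Ideal.span {δ}) *
        conj (χ (Ideal.span {τ y})) := by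
  have h1 := om_delta hτ hδ hJ hb
  have hN : ‖χ (Ideal.span {((Ideal.absNorm J : ℕ) : 𝓞 K)})‖ = 1 := by
    apply ray_norm h𝔭 hχ
    rw [← mul_map_tau h2 hτ J]
    intro h
    rcases h𝔭.dvd_or_dvd h with h | h
    · exact hJp h
    · exact hJt h
  have hd : ‖χ (Ideal.span {δ})‖ = 1 := by
    apply ray_norm h𝔭 hχ
    rw [Ideal.dvd_span_singleton]
    exact delta_not_mem h2 hδ hD
  have h3 : χ (Ideal.span {((Ideal.absNorm J : ℕ) : 𝓞 K)}) * χ (Ideal.span {δ}) *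
      χ (Ideal.span {(b : 𝓞 K)}) = χ (Ideal.span {τ y}) := by
    rw [← map_mul, ← map_mul, Ideal.span_singleton_mul_span_singleton,
      Ideal.span_singleton_mul_span_singleton, h1]
    apply ray_congr h𝔭 hχ
    have : τ y * x - y * τ x - τ y = τ y * (x - 1) - y * τ x := by ring
    rw [this]
    exact 𝔭.sub_mem (𝔭.mul_mem_left _ hx) (𝔭.mul_mem_right _ hy)
  rw [← h3, map_mul, map_mul]
  have e1 := fej_mul_conj hN
  have e2 := fej_mul_conj hd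
  linear_combination (-(χ (Ideal.span {δ}) * conj (χ (Ideal.span {δ}))) *
    conj (χ (Ideal.span {(b : 𝓞 K)}))) * e1 - conj (χ (Ideal.span {(b : 𝓞 K)})) * e2

theorem fe_ideal [IsTotallyComplex K] (h2 : finrank ℚ K = 2) {σ : K →+* ℂ}
    {τ : 𝓞 K ≃+* 𝓞 K} (hτ : IsTau σ τ) {δ : 𝓞 K} (hδ : σ (δ : K) = Complex.I * (rD K : ℝ))
    {𝔭 : Ideal (𝓞 K)} (h𝔭 : Prime 𝔭) (hq : (Ideal.absNorm 𝔭).Prime)
    (hD : |discr K| < (Ideal.absNorm 𝔭 : ℤ)) {χ : Ideal (𝓞 K) →*₀ ℂ} (hχ : IsRay 𝔭 χ) {g : ℂ}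
    (hg : ∀ b : ℤ, ∑ a ∈ Finset.range (Ideal.absNorm 𝔭), χ (Ideal.span {(a : 𝓞 K)}) *
        Complex.exp (2 * Real.pi * Complex.I * (a * b / (Ideal.absNorm 𝔭 : ℕ))) =
      g * conj (χ (Ideal.span {(b : 𝓞 K)}))) {J : Ideal (𝓞 K)} (hJ : J ≠ ⊥) (hJp : ¬ 𝔭 ∣ J)
    (hJt : ¬ 𝔭 ∣ J.map τ) {t : ℝ} (ht : 0 < t) :
    ∑' x : J, χ (Ideal.span {(x : 𝓞 K)}) *
        ((Real.exp (-Real.pi * t * qJ J (σ (x : 𝓞 K))) : ℝ) : ℂ) =
      g * χ (Ideal.span {((Ideal.absNorm J : ℕ) : 𝓞 K)}) * χ (Ideal.span {δ}) /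
          ((Ideal.absNorm 𝔭 : ℕ) * t) *
        ∑' y : (J * 𝔭 : Ideal (𝓞 K)), conj (χ (Ideal.span {τ (y : 𝓞 K)})) *
          ((Real.exp (-Real.pi * (1 / ((Ideal.absNorm 𝔭 : ℝ) * t)) *
            qJ (J * 𝔭) (σ (y : 𝓞 K))) : ℝ) : ℂ) := by
  classical
  have h𝔭0 : 𝔭 ≠ ⊥ := h𝔭.ne_zero
  have hL : J * 𝔭 ≠ ⊥ := mul_ne_zero hJ h𝔭0
  have hcs := coset h𝔭 hq hJp
  set q : ℕ := Ideal.absNorm 𝔭 with hqdef
  obtain ⟨x₁, e, hx₁, hx₁', he⟩ := hcs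
  have hq0 : (0 : ℝ) < (q : ℝ) := by exact_mod_cast hq.pos
  have hqt : (0 : ℝ) < (q : ℝ) * t := mul_pos hq0 ht
  -- the integer attached to an element of the lattice
  have hbex : ∀ y : (J * 𝔭 : Ideal (𝓞 K)), ∃ b : ℤ,
      om J (σ ((y : 𝓞 K) : K)) (σ (x₁ : K)) = b := by
    intro y
    exact om_int h2 σ hJ (fej_memJ y) hx₁
  choose b hb using hbex
  have hsum0 : Summable fun x : J => χ (Ideal.span {(x : 𝓞 K)}) *
      ((Real.exp (-Real.pi * t * qJ J (σ (x : 𝓞 K))) : ℝ) : ℂ) := by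
    have h1 := summable_qJ h2 σ hJ ht 0
    simp only [add_zero] at h1
    refine Summable.of_norm_bounded h1 (fun x => ?_)
    rw [norm_mul, Complex.norm_real, Real.norm_of_nonneg (Real.exp_pos _).le]
    exact mul_le_of_le_one_left (Real.exp_pos _).le (ray_norm_le h𝔭 hχ _)
  have hsum2 : Summable fun p : Fin q × (J * 𝔭 : Ideal (𝓞 K)) =>
      χ (Ideal.span {((e p : J) : 𝓞 K)}) *
      ((Real.exp (-Real.pi * t * qJ J (σ ((e p : J) : 𝓞 K))) : ℝ) : ℂ) :=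
    (e.summable_iff).2 hsum0
  rw [← e.tsum_eq, Summable.tsum_prod hsum2, tsum_fintype]
  -- one coset
  have hcoset : ∀ a : Fin q, ∑' y : (J * 𝔭 : Ideal (𝓞 K)),
      χ (Ideal.span {((e (a, y) : J) : 𝓞 K)}) *
        ((Real.exp (-Real.pi * t * qJ J (σ ((e (a, y) : J) : 𝓞 K))) : ℝ) : ℂ) =
      ∑' y : (J * 𝔭 : Ideal (𝓞 K)), (1 / ((q : ℂ) * t)) * (χ (Ideal.span {((a : ℕ) : 𝓞 K)}) *
        Complex.exp (2 * Real.pi * Complex.I * ((a : ℕ) * b y / (q : ℕ))) *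
        ((Real.exp (-Real.pi * (1 / ((q : ℝ) * t)) * qJ (J * 𝔭) (σ (y : 𝓞 K))) : ℝ) : ℂ)) := by
    intro a
    have h1 : ∀ y : (J * 𝔭 : Ideal (𝓞 K)),
        χ (Ideal.span {((e (a, y) : J) : 𝓞 K)}) *
          ((Real.exp (-Real.pi * t * qJ J (σ ((e (a, y) : J) : 𝓞 K))) : ℝ) : ℂ) =
        χ (Ideal.span {((a : ℕ) : 𝓞 K)}) *
          ((Real.exp (-Real.pi * ((q : ℝ) * t) * qJ (J * 𝔭)
            (σ (y : 𝓞 K) + (((a : ℕ) : ℂ) * σ (x₁ : K)))) : ℝ) : ℂ) := by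
      intro y
      have h2 : χ (Ideal.span {((e (a, y) : J) : 𝓞 K)}) = χ (Ideal.span {((a : ℕ) : 𝓞 K)}) := by
        apply ray_congr h𝔭 hχ
        rw [he]
        have : ((a : ℕ) : 𝓞 K) * x₁ + (y : 𝓞 K) - ((a : ℕ) : 𝓞 K) =
            ((a : ℕ) : 𝓞 K) * (x₁ - 1) + (y : 𝓞 K) := by ring
        rw [this]
        exact 𝔭.add_mem (𝔭.mul_mem_left _ hx₁') (fej_memp y)
      have h3 : σ (((e (a, y) : J) : 𝓞 K) : K) = σ ((y : 𝓞 K) : K) +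
          ((a : ℕ) : ℂ) * σ (x₁ : K) := by
        rw [he]
        push_cast
        simp only [map_add, map_mul, map_natCast]
        ring
      have h4 : -Real.pi * t * qJ J (σ ((y : 𝓞 K) : K) + ((a : ℕ) : ℂ) * σ (x₁ : K)) =
          -Real.pi * ((q : ℝ) * t) *
            qJ (J * 𝔭) (σ ((y : 𝓞 K) : K) + ((a : ℕ) : ℂ) * σ (x₁ : K)) := by
        rw [fej_qJ hJ hq]
        ring
      rw [h2, h3, h4]
    have h4 := poisson_ideal h2 σ hL hqt (((a : ℕ) : ℂ) * σ (x₁ : K))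
    rw [tsum_congr h1, tsum_mul_left, ← Complex.ofReal_tsum, h4, ← tsum_mul_left, ← tsum_mul_left]
    refine tsum_congr (fun y => ?_)
    rw [fej_om hJ hq, hb y]
    push_cast
    ring
  have hsum1 : ∀ a ∈ (Finset.univ : Finset (Fin q)), Summable fun y : (J * 𝔭 : Ideal (𝓞 K)) =>
      (1 / ((q : ℂ) * t)) * (χ (Ideal.span {((a : ℕ) : 𝓞 K)}) *
        Complex.exp (2 * Real.pi * Complex.I * ((a : ℕ) * b y / (q : ℕ))) *
        ((Real.exp (-Real.pi * (1 / ((q : ℝ) * t)) * qJ (J * 𝔭) (σ (y : 𝓞 K))) : ℝ) : ℂ)) := by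
    intro a _
    apply Summable.mul_left
    have h1 := summable_qJ h2 σ hL (t := 1 / ((q : ℝ) * t)) (by positivity) 0
    simp only [add_zero] at h1
    refine Summable.of_norm_bounded h1 (fun y => ?_)
    rw [norm_mul, norm_mul, Complex.norm_real, Real.norm_of_nonneg (Real.exp_pos _).le]
    have h5 : ‖Complex.exp (2 * Real.pi * Complex.I * ((a : ℕ) * b y / (q : ℕ)))‖ = 1 := by
      have : (2 * Real.pi * Complex.I * ((a : ℕ) * b y / (q : ℕ)) : ℂ) =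
          ((2 * Real.pi * ((a : ℕ) * b y / (q : ℕ)) : ℝ) : ℂ) * Complex.I := by
        push_cast
        ring
      rw [this, Complex.norm_exp_ofReal_mul_I]
    rw [h5, mul_one]
    exact mul_le_of_le_one_left (Real.exp_pos _).le (ray_norm_le h𝔭 hχ _)
  rw [Finset.sum_congr rfl (fun a _ => hcoset a), ← Summable.tsum_finsetSum hsum1, ← tsum_mul_left]
  refine tsum_congr (fun y => ?_)
  have h6 := hg (b y)
  rw [← Fin.sum_univ_eq_sum_range (fun a : ℕ => χ (Ideal.span {(a : 𝓞 K)}) *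
        Complex.exp (2 * Real.pi * Complex.I * (a * b y / (Ideal.absNorm 𝔭 : ℕ))))] at h6
  rw [← Finset.mul_sum, ← Finset.sum_mul, h6,
    fej_ray h2 hτ hδ h𝔭 hD hχ hJ hJp hJt (fej_memp y) hx₁' (hb y)]
  ring

end Pool.Agent.H14.BK
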