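import Pool.Agent.H14.BK.LvC

/-!
# The L-function and its central value

`χ : Ideal (𝓞 K) →*₀ ℂ` with `‖χ I‖ ≤ 1` for all `I` (so `χ ⊥ = 0`), `R > 0`, `Θ(t) = TI χ R t`.

`lval_unique`: two functions with `IsRayL χ` agree for `re s > 1`, so everywhere (identity theorem:
`Differentiable.analyticAt`, `AnalyticOnNhd.eq_of_eventuallyEq`, compare
`IsClassGroupL.unique` in `H92/CG/LFun.lean`).

`lval_main`: by uniqueness `L (1/2) = (2 π / R)^(1/2) Γ(1/2)⁻¹ mellin Θ (1/2)`, and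
`mellin Θ (1/2) = ∫_{t > 0} t^(-1/2) Θ(t) dt ≠ 0`.
-/


open NumberField Module
open scoped nonZeroDivisors ComplexConjugate
open Pool.Agent.H92.CG

namespace Pool.Agent.H14.BK

variable {K : Type*} [Field K] [NumberField K] [IsTotallyComplex K]

omit [IsTotallyComplex K] in
theorem lval_unique {χ : Ideal (𝓞 K) →*₀ ℂ} {L L' : ℂ → ℂ} (h : IsRayL χ L)
    (h' : IsRayL χ L') : L = L' := by
  have h1 : AnalyticOnNhd ℂ L Set.univ := fun z _ => h.1.analyticAt z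
  have h2 : AnalyticOnNhd ℂ L' Set.univ := fun z _ => h'.1.analyticAt z
  refine h1.eq_of_eventuallyEq h2 (z₀ := 2) ?_
  have hopen : IsOpen {s : ℂ | 1 < s.re} := isOpen_lt continuous_const Complex.continuous_re
  have hmem : (2 : ℂ) ∈ {s : ℂ | 1 < s.re} := by
    show (1 : ℝ) < (2 : ℂ).re
    norm_num
  filter_upwards [hopen.mem_nhds hmem] with s hs
  exact (h.2 s hs).unique (h'.2 s hs)

theorem lval_main (h2 : finrank ℚ K = 2) {χ : Ideal (𝓞 K) →*₀ ℂ} (hχ : ∀ I, ‖χ I‖ ≤ 1) {R : ℝ}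
    (hR : 0 < R) {ω : ℂ} (hω : ‖ω‖ = 1)
    (hfe : ∀ t : ℝ, 0 < t → TI χ R (1 / t) = ω * t * conj (TI χ R t)) :
    (∃ L, IsRayL χ L) ∧ ((∫ t in Set.Ioi (0 : ℝ), ((t ^ (-(1 / 2) : ℝ) : ℝ) : ℂ) * TI χ R t) ≠ 0 →
      ∀ L, IsRayL χ L → L (1 / 2) ≠ 0) := by
  have hL := lval_exists h2 hχ hR hω hfe
  refine ⟨⟨_, hL⟩, ?_⟩
  intro hne L hL'
  rw [lval_unique hL' hL]
  have hp : 0 < 2 * Real.pi / R := by positivity
  have hp' : ((2 * Real.pi / R : ℝ) : ℂ) ≠ 0 := Complex.ofReal_ne_zero.2 hp.ne'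
  have hG : Complex.Gamma (1 / 2) ≠ 0 := Complex.Gamma_ne_zero_of_re_pos (by norm_num)
  have hc : ((2 * Real.pi / R : ℝ) : ℂ) ^ ((1 : ℂ) / 2) ≠ 0 := by
    rw [Ne, Complex.cpow_eq_zero_iff]
    exact fun h => hp' h.1
  have hm : mellin (TI χ R) (1 / 2) =
      ∫ t in Set.Ioi (0 : ℝ), ((t ^ (-(1 / 2) : ℝ) : ℝ) : ℂ) * TI χ R t := by
    rw [mellin]
    refine MeasureTheory.setIntegral_congr_fun measurableSet_Ioi ?_
    intro t ht
    have ht' : 0 < t := ht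
    show (t : ℂ) ^ ((1 : ℂ) / 2 - 1) • TI χ R t = ((t ^ (-(1 / 2) : ℝ) : ℝ) : ℂ) * TI χ R t
    rw [smul_eq_mul, Complex.ofReal_cpow ht'.le]
    congr 2
    push_cast
    norm_num
  refine mul_ne_zero (mul_ne_zero hc (inv_ne_zero hG)) ?_
  rw [hm]
  exact hne

end Pool.Agent.H14.BK
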