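import Pool.Agent.H14.BK.RayCard

/-!
# Ray class characters are the characters of `RW` (job BK-RayChar)

Proofs.

* `isRay_toRay`: `X x = 0 ↔ x = 0` for a multiplicative character `X` of a group with zero `RW`
  (`MulChar.map_nonunit`; `X u ≠ 0` for a unit: `X u * X u⁻¹ = 1`), and `rcl I = 0 ↔ 𝔭 ∣ I`.
  `a - 1 ∈ 𝔭 → rcl (span {a}) = 1`: `RayRel` with the multipliers `1` and `a`.
* `toRay_injective`: `rcl_surj`.
* `eq_of_rayRel`: `RayRel 𝔭 I J → χ I = χ J`.  If both are divisible by `𝔭`, both values are `0`.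
  Otherwise `(a) I = (b) J`, `a, b ∉ 𝔭`, `a - b ∈ 𝔭`; `𝔭` is maximal, so there is `d` with
  `a d - 1 ∈ 𝔭`, hence `b d - 1 ∈ 𝔭`; `(a d) I = (b d) J` and `IsRay.one` give `χ I = χ J`.
* `exists_of_isRay`: `X x = χ (any I with rcl I = x)`; a `MulChar` is built from a monoid
  homomorphism `RW →* ℂ` which vanishes at the nonunit `0`.
* `card_bad_le`: the set of the unramified characters.  If `X` is unramified, `X` is `1` on
  `range (ofRes h𝔭)`, so (via `ker_toClass_le`) on `ker (toClass h𝔭)`, and factors through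
  `G := (RW 𝔭 h𝔭)ˣ ⧸ (toClass h𝔭).ker`, which embeds into the class group
  (`QuotientGroup.kerLift_injective`).  This gives an injection of the unramified characters into
  `G →* ℂˣ`, whose cardinality is `Nat.card G` (`CommGroup.card_monoidHom_of_hasEnoughRootsOfUnity`
  or as in `H92/CG/LFun.lean`, `finite_dual`).
-/

open NumberField
open scoped nonZeroDivisors

namespace Pool.Agent.H14.BK

variable {K : Type*} [Field K] [NumberField K] {𝔭 : Ideal (𝓞 K)} {h𝔭 : Prime 𝔭}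

/-- the function on the ideals attached to a character of `RW 𝔭 h𝔭` -/
noncomputable def toRay (X : MulChar (RW 𝔭 h𝔭) ℂ) : Ideal (𝓞 K) →*₀ ℂ where
  toFun I := X (rcl 𝔭 h𝔭 I)
  map_zero' := by
    have : rcl 𝔭 h𝔭 0 = 0 := rcl_bot
    rw [this]
    exact X.map_nonunit not_isUnit_zero
  map_one' := by rw [rcl_one, map_one]
  map_mul' I J := by rw [rcl_mul, map_mul]

@[simp] lemma toRay_apply (X : MulChar (RW 𝔭 h𝔭) ℂ) (I : Ideal (𝓞 K)) :
    toRay X I = X (rcl 𝔭 h𝔭 I) := rfl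

lemma toRay_mul (X Y : MulChar (RW 𝔭 h𝔭) ℂ) : toRay (X * Y) = toRay X * toRay Y := by
  ext I
  rfl

lemma rayChar_one_notMem (h𝔭 : Prime 𝔭) : (1 : 𝓞 K) ∉ 𝔭 := fun h1 =>
  (Ideal.isPrime_of_prime h𝔭).ne_top ((Ideal.eq_top_iff_one 𝔭).mpr h1)

lemma rayChar_notMem (h𝔭 : Prime 𝔭) {a : 𝓞 K} (ha : a - 1 ∈ 𝔭) : a ∉ 𝔭 := fun h =>
  rayChar_one_notMem h𝔭 (by
    have := 𝔭.sub_mem h ha
    rwa [sub_sub_cancel] at this)

lemma rayChar_rcl_one {a : 𝓞 K} (ha : a - 1 ∈ 𝔭) : rcl 𝔭 h𝔭 (Ideal.span {a}) = 1 := by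
  rw [← rcl_one, rcl_eq_iff]
  refine Or.inr ⟨?_, ?_, 1, a, rayChar_one_notMem h𝔭, rayChar_notMem h𝔭 ha, ?_, ?_⟩
  · rw [Ideal.dvd_span_singleton]
    exact rayChar_notMem h𝔭 ha
  · intro h3
    exact h𝔭.not_isUnit (isUnit_of_dvd_one h3)
  · rw [← neg_sub]
    exact 𝔭.neg_mem ha
  · rw [Ideal.span_singleton_one, Ideal.one_eq_top, Ideal.mul_top, Ideal.top_mul]

theorem isRay_toRay (X : MulChar (RW 𝔭 h𝔭) ℂ) : IsRay 𝔭 (toRay X) where
  zero I := by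
    rw [toRay_apply, ← rcl_eq_zero_iff (h𝔭 := h𝔭)]
    constructor
    · intro h
      by_contra h0
      exact ((IsUnit.mk0 _ h0).map X).ne_zero h
    · intro h
      rw [h]
      exact X.map_nonunit not_isUnit_zero
  one a ha := by
    rw [toRay_apply, rayChar_rcl_one ha, map_one]

theorem toRay_injective : Function.Injective (toRay (𝔭 := 𝔭) (h𝔭 := h𝔭)) := by
  intro X Y h
  apply MulChar.ext'
  intro x
  obtain ⟨I, rfl⟩ := rcl_surj x
  exact DFunLike.congr_fun h I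

theorem eq_of_rayRel (h𝔭 : Prime 𝔭) (χ : Ideal (𝓞 K) →*₀ ℂ) (h : IsRay 𝔭 χ) (I J : Ideal (𝓞 K))
    (hIJ : RayRel 𝔭 I J) : χ I = χ J := by
  rcases hIJ with ⟨h1, h2⟩ | ⟨-, -, a, b, ha, hb, hab, heq⟩
  · rw [(h.zero I).2 h1, (h.zero J).2 h2]
  · have hP := Ideal.isPrime_of_prime h𝔭
    have hmax : 𝔭.IsMaximal := hP.isMaximal h𝔭.ne_zero
    obtain ⟨d, hd⟩ : ∃ d : 𝓞 K, a * d - 1 ∈ 𝔭 := by
      obtain ⟨d, hd⟩ := hmax.exists_inv ha
      obtain ⟨i, hi, hdi⟩ := hd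
      refine ⟨d, ?_⟩
      have : a * d - 1 = - i := by linear_combination hdi
      rw [this]
      exact 𝔭.neg_mem hi
    have hbd : b * d - 1 ∈ 𝔭 := by
      have : b * d - 1 = (a * d - 1) - d * (a - b) := by ring
      rw [this]
      exact 𝔭.sub_mem hd (𝔭.mul_mem_left _ hab)
    have e1 := h.one _ hd
    have e2 := h.one _ hbd
    have e3 : Ideal.span {a * d} * I = Ideal.span {b * d} * J := by
      rw [← Ideal.span_singleton_mul_span_singleton, ← Ideal.span_singleton_mul_span_singleton,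
        mul_right_comm, heq, mul_right_comm]
    have e4 := congrArg χ e3
    rw [map_mul, map_mul, e1, e2, one_mul, one_mul] at e4
    exact e4

theorem exists_of_isRay (h𝔭 : Prime 𝔭) (χ : Ideal (𝓞 K) →*₀ ℂ) (h : IsRay 𝔭 χ) :
    ∃ X : MulChar (RW 𝔭 h𝔭) ℂ, toRay X = χ := by
  have key : ∀ I J : Ideal (𝓞 K), rcl 𝔭 h𝔭 I = rcl 𝔭 h𝔭 J → χ I = χ J := fun I J hIJ =>
    eq_of_rayRel h𝔭 χ h I J ((rcl_eq_iff I J).1 hIJ)
  have hc : ∀ x : RW 𝔭 h𝔭, rcl 𝔭 h𝔭 (rcl_surj x).choose = x := fun x => (rcl_surj x).choose_spec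
  refine ⟨{ toFun := fun x => χ (rcl_surj x).choose
            map_one' := ?_
            map_mul' := ?_
            map_nonunit' := ?_ }, ?_⟩
  · rw [key _ 1 ((hc 1).trans rcl_one.symm), map_one]
  · intro x y
    rw [← map_mul]
    apply key
    rw [rcl_mul, hc, hc, hc]
  · intro x hx
    have hx0 : x = 0 := by
      by_contra h0
      exact hx (IsUnit.mk0 _ h0)
    change χ (rcl_surj x).choose = 0
    rw [h.zero, ← rcl_eq_zero_iff (h𝔭 := h𝔭), hc, hx0]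
  · ext I
    change χ (rcl_surj (rcl 𝔭 h𝔭 I)).choose = χ I
    exact key _ _ (hc _)

theorem finite_mulChar (h𝔭 : Prime 𝔭) : Finite (MulChar (RW 𝔭 h𝔭) ℂ) := by
  have := finite_RW h𝔭
  infer_instance

open Classical in
/-- the unramified characters -/
noncomputable def badSet (𝔭 : Ideal (𝓞 K)) (h𝔭 : Prime 𝔭) : Finset (MulChar (RW 𝔭 h𝔭) ℂ) :=
  haveI := finite_mulChar h𝔭
  haveI := Fintype.ofFinite (MulChar (RW 𝔭 h𝔭) ℂ)
  Finset.univ.filter (fun X => ¬ Ramified 𝔭 (toRay X))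

lemma mem_badSet (X : MulChar (RW 𝔭 h𝔭) ℂ) : X ∈ badSet 𝔭 h𝔭 ↔ ¬ Ramified 𝔭 (toRay X) := by
  classical
  unfold badSet
  simp

theorem one_mem_badSet (h𝔭 : Prime 𝔭) : (1 : MulChar (RW 𝔭 h𝔭) ℂ) ∈ badSet 𝔭 h𝔭 := by
  rw [mem_badSet]
  rintro ⟨a, ha, ha'⟩
  apply ha'
  have h0 : rcl 𝔭 h𝔭 (Ideal.span {a}) ≠ 0 := by
    rw [Ne, rcl_eq_zero_iff, Ideal.dvd_span_singleton]
    exact ha
  rw [toRay_apply]
  exact MulChar.one_apply (IsUnit.mk0 _ h0)

theorem card_bad_le (h𝔭 : Prime 𝔭) : (badSet 𝔭 h𝔭).card ≤ Nat.card (ClassGroup (𝓞 K)) := by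
  have hf := finite_RW h𝔭
  have hf' := finite_mulChar h𝔭
  have h1 : ∀ X ∈ badSet 𝔭 h𝔭, X ∈ (MulChar.subgroupOrderIsoSubgroupMulChar (RW 𝔭 h𝔭) ℂ
      (toClass h𝔭).ker).ofDual := by
    intro X hX
    rw [mem_badSet] at hX
    rw [MulChar.mem_subgroupOrderIsoSubgroupMulChar_iff]
    intro u hu
    obtain ⟨x, rfl⟩ := ker_toClass_le h𝔭 hu
    obtain ⟨a, ha⟩ := Ideal.Quotient.mk_surjective (x : 𝓞 K ⧸ 𝔭)
    rw [ofRes_eq h𝔭 a x ha.symm]
    by_contra h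
    apply hX
    refine ⟨a, fun ha' => ?_, h⟩
    have h2 : (x : 𝓞 K ⧸ 𝔭) = 0 := by
      rw [← ha]
      exact Ideal.Quotient.eq_zero_iff_mem.2 ha'
    have hP := Ideal.isPrime_of_prime h𝔭
    exact x.isUnit.ne_zero h2
  have h2 : (badSet 𝔭 h𝔭).card ≤ Nat.card (MulChar.subgroupOrderIsoSubgroupMulChar (RW 𝔭 h𝔭) ℂ
      (toClass h𝔭).ker).ofDual := by
    rw [← Nat.card_eq_finsetCard]
    exact Nat.card_le_card_of_injective
      (fun X : (badSet 𝔭 h𝔭 : Finset (MulChar (RW 𝔭 h𝔭) ℂ)) =>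
        (⟨X.1, h1 X.1 X.2⟩ : (MulChar.subgroupOrderIsoSubgroupMulChar (RW 𝔭 h𝔭) ℂ
          (toClass h𝔭).ker).ofDual))
      (fun X Y hXY => Subtype.ext (Subtype.mk.inj hXY))
  refine h2.trans ?_
  rw [MulChar.card_subgroupOrderIsoSubgroupMulChar]
  exact Nat.card_le_card_of_injective _ (QuotientGroup.kerLift_injective (toClass h𝔭))

/-- the set of ray class characters modulo `𝔭` is finite -/
theorem finite_isRay (h𝔭 : Prime 𝔭) : {χ : Ideal (𝓞 K) →*₀ ℂ | IsRay 𝔭 χ}.Finite := by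
  have hf' := finite_mulChar h𝔭
  refine (Set.finite_range (toRay (𝔭 := 𝔭) (h𝔭 := h𝔭))).subset fun χ hχ => ?_
  exact exists_of_isRay h𝔭 χ hχ

end Pool.Agent.H14.BK
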