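import Pool.Agent.H14.BK.MdK
import Pool.Agent.H14.BK.RayChar
import Pool.Agent.H14.BK.Fe
import Pool.Agent.H14.BK.Lval

/-!
# Theta data of the ray class group, and central values

The two statements which the analytic part (Poisson, Part, Gauss, Fe, Lval) has to supply to
`Final.lean`.  `𝔭` is a prime ideal of prime norm `q > max 4 |D|` (so `q` splits, `𝔭 ≠ 𝔭̄`, and no unit
`≠ 1` is `1` modulo `𝔭`), `R = √(|D| q)`, `m = 1 / √q`, `Bad` = the set of the unramified characters.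
-/

open NumberField Module
open scoped nonZeroDivisors ComplexConjugate

namespace Pool.Agent.H14.BK

open Pool.Agent.H14.BN

theorem Td.mono {W : Type*} [CommGroupWithZero W] {s : ℕ →*₀ ℕ} {K K' : ℝ} {cl : ℕ →*₀ W} {Q : ℕ}
    {R m : ℝ} {Bad : Finset (MulChar W ℂ)} (hK0 : 0 < K)
    (h : Td s K cl Q R m Bad) (hK : K ≤ K') : Td s K' cl Q R m Bad where
  R_pos := h.R_pos
  R_lo := h.R_lo.trans (by gcongr)
  R_hi := h.R_hi.trans (by gcongr)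
  bad_card := h.bad_card.trans hK
  one_mem := h.one_mem
  fe := h.fe
  part := by
    intro u hu t ht htq
    refine (h.part u hu t ht htq).trans ?_
    rcases eq_or_lt_of_le (Real.sqrt_nonneg (Q : ℝ)) with h0 | h0
    · rw [← h0]
      simp
    · have hK' : 0 < K' := hK0.trans_le hK
      gcongr

theorem tdk_R {K : Type*} [Field K] [NumberField K] (𝔭 : Ideal (𝓞 K)) :
    √(|((discr K : ℤ) : ℝ)| * (Ideal.absNorm 𝔭 : ℝ)) = RR 𝔭 := by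
  rw [RR, rD, Real.sqrt_mul (abs_nonneg _)]

theorem tdk_tht {K : Type*} [Field K] [NumberField K] {𝔭 : Ideal (𝓞 K)} {h𝔭 : Prime 𝔭}
    (ι : ℕ ≃* Ideal (𝓞 K)) (R : ℝ) (X : MulChar (RW 𝔭 h𝔭) ℂ) (t : ℝ) :
    Tht (sz ι) (clK ι h𝔭) R X t = TI (toRay X) R t := by
  unfold Tht TI
  exact ι.toEquiv.tsum_eq (fun I : Ideal (𝓞 K) => toRay X I *
    ((Real.exp (-(2 * Real.pi * t * (Ideal.absNorm I : ℝ) / R)) : ℝ) : ℂ))

open Classical in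
theorem tdk_thu {K : Type*} [Field K] [NumberField K] {𝔭 : Ideal (𝓞 K)} {h𝔭 : Prime 𝔭}
    (ι : ℕ ≃* Ideal (𝓞 K)) (R : ℝ) (u : RW 𝔭 h𝔭) (t : ℝ) :
    thu (sz ι) (clK ι h𝔭) R u t = ∑' I : Ideal (𝓞 K), if rcl 𝔭 h𝔭 I = u then
        Real.exp (-(2 * Real.pi * t * (Ideal.absNorm I : ℝ) / R)) else 0 := by
  unfold thu
  rw [← ι.toEquiv.tsum_eq (fun I : Ideal (𝓞 K) => if rcl 𝔭 h𝔭 I = u then
        Real.exp (-(2 * Real.pi * t * (Ideal.absNorm I : ℝ) / R)) else 0)]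
  rfl

theorem exists_td {K : Type*} [Field K] [NumberField K] [IsTotallyComplex K]
    (h2 : finrank ℚ K = 2) (ι : ℕ ≃* Ideal (𝓞 K)) :
    ∃ K₀ : ℝ, 0 < K₀ ∧ ∀ (𝔭 : Ideal (𝓞 K)) (h𝔭 : Prime 𝔭), (Ideal.absNorm 𝔭).Prime →
      5 ≤ Ideal.absNorm 𝔭 → |((discr K : ℤ) : ℝ)| < (Ideal.absNorm 𝔭 : ℝ) →
      Td (sz ι) K₀ (clK ι h𝔭) (Ideal.absNorm 𝔭)
        (√(|((discr K : ℤ) : ℝ)| * (Ideal.absNorm 𝔭 : ℝ))) (1 / √(Ideal.absNorm 𝔭 : ℝ))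
        (badSet 𝔭 h𝔭) := by
  obtain ⟨C, hC, hpart⟩ := part_main (K := K) h2
  set D : ℝ := |((discr K : ℤ) : ℝ)| with hD
  have hD0 : 0 < D := by
    rw [hD, abs_pos]
    exact_mod_cast discr_ne_zero K
  have hD1 : 1 ≤ D := by
    have h1 : (1 : ℤ) ≤ |discr K| := Int.one_le_abs (discr_ne_zero K)
    have h2 : ((1 : ℤ) : ℝ) ≤ ((|discr K| : ℤ) : ℝ) := by exact_mod_cast h1
    rw [hD]
    push_cast at h2
    exact h2
  set h : ℝ := (Nat.card (ClassGroup (𝓞 K)) : ℝ) with hh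
  have hh0 : 0 ≤ h := Nat.cast_nonneg _
  refine ⟨C + D + h, by linarith, fun 𝔭 h𝔭 hq h5 hDq => ?_⟩
  have hq0 : (0 : ℝ) < (Ideal.absNorm 𝔭 : ℝ) := by
    exact_mod_cast lt_of_lt_of_le (by norm_num) h5
  have hDq' : |discr K| < (Ideal.absNorm 𝔭 : ℤ) := by
    have h1 : ((|discr K| : ℤ) : ℝ) < ((Ideal.absNorm 𝔭 : ℤ) : ℝ) := by
      push_cast
      exact hDq
    exact_mod_cast h1
  have hR2 : √(D * (Ideal.absNorm 𝔭 : ℝ)) ^ 2 = D * (Ideal.absNorm 𝔭 : ℝ) :=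
    Real.sq_sqrt (by positivity)
  refine ⟨Real.sqrt_pos.2 (by positivity), ?_, ?_, ?_, one_mem_badSet h𝔭, ?_, ?_⟩
  · rw [hR2]
    have h1 : 1 ≤ (C + D + h) * D := by nlinarith
    calc (Ideal.absNorm 𝔭 : ℝ) = 1 * (Ideal.absNorm 𝔭 : ℝ) := (one_mul _).symm
      _ ≤ ((C + D + h) * D) * (Ideal.absNorm 𝔭 : ℝ) := by gcongr
      _ = _ := by ring
  · rw [hR2]
    have h1 : D ≤ C + D + h := by linarith
    gcongr
  · have h1 : ((badSet 𝔭 h𝔭).card : ℝ) ≤ h := by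
      rw [hh]
      exact_mod_cast card_bad_le h𝔭
    linarith
  · intro X hX
    rw [mem_badSet, not_not] at hX
    obtain ⟨ω, hω, hfe⟩ := fe_main h2 h𝔭 hq hDq' (isRay_toRay X) hX
    refine ⟨ω, hω, fun t ht => ?_⟩
    rw [tdk_tht, tdk_tht, hD, tdk_R]
    exact hfe t ht
  · intro u hu t ht htq
    classical
    have h1 := hpart 𝔭 h𝔭 h5 u hu t ht htq
    rw [tdk_thu, hD, tdk_R]
    refine le_trans ?_ (h1.trans ?_)
    · apply le_of_eq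
      congr!
    · have h2 : C ≤ C + D + h := by linarith
      have h3 : 0 < √(Ideal.absNorm 𝔭 : ℝ) := Real.sqrt_pos.2 hq0
      have h4 : 0 < C := by linarith
      have h5 : 0 < C + D + h := by linarith
      gcongr

theorem exists_L {K : Type*} [Field K] [NumberField K] [IsTotallyComplex K]
    (h2 : finrank ℚ K = 2) (ι : ℕ ≃* Ideal (𝓞 K)) (𝔭 : Ideal (𝓞 K)) (h𝔭 : Prime 𝔭)
    (hq : (Ideal.absNorm 𝔭).Prime) (h5 : 5 ≤ Ideal.absNorm 𝔭)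
    (hD : |((discr K : ℤ) : ℝ)| < (Ideal.absNorm 𝔭 : ℝ))
    (X : MulChar (RW 𝔭 h𝔭) ℂ) (hX : X ∉ badSet 𝔭 h𝔭)
    (hL : Lint (sz ι) (clK ι h𝔭) (√(|((discr K : ℤ) : ℝ)| * (Ideal.absNorm 𝔭 : ℝ))) X ≠ 0) :
    ∃ L : ℂ → ℂ, IsRayL (toRay X) L ∧ L (1 / 2) ≠ 0 := by
  have hq0 : (0 : ℝ) < (Ideal.absNorm 𝔭 : ℝ) := by
    exact_mod_cast lt_of_lt_of_le (by norm_num) h5
  have hDq' : |discr K| < (Ideal.absNorm 𝔭 : ℤ) := by
    have h1 : ((|discr K| : ℤ) : ℝ) < ((Ideal.absNorm 𝔭 : ℤ) : ℝ) := by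
      push_cast
      exact hD
    exact_mod_cast h1
  rw [mem_badSet, not_not] at hX
  obtain ⟨ω, hω, hfe⟩ := fe_main h2 h𝔭 hq hDq' (isRay_toRay X) hX
  have hR : 0 < RR 𝔭 := mul_pos rD_pos (Real.sqrt_pos.2 hq0)
  obtain ⟨⟨L, hL1⟩, hL2⟩ := lval_main h2 (ray_norm_le h𝔭 (isRay_toRay X)) hR hω hfe
  refine ⟨L, hL1, hL2 ?_ L hL1⟩
  rw [tdk_R] at hL
  unfold Lint at hL
  simp only [tdk_tht] at hL
  exact hL

end Pool.Agent.H14.BK
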