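import Pool.Agent.H14.BN.Main
import Pool.Agent.H14.BK.TdK
import Pool.Agent.H14.BK.Exc

/-!
# Nonvanishing of central values of ray class characters: pairs and almost all twists
-/

open NumberField Module
open scoped nonZeroDivisors

namespace Pool.Agent.H14.BK

open Pool.Agent.H14.BN

/-- `χ` is ramified and has a nonvanishing central value -/
def GoodK {K : Type*} [Field K] [NumberField K] (𝔭 : Ideal (𝓞 K)) (χ : Ideal (𝓞 K) →*₀ ℂ) : Prop :=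
  Ramified 𝔭 χ ∧ ∃ L : ℂ → ℂ, IsRayL χ L ∧ L (1 / 2) ≠ 0

theorem prime_of_absNorm {K : Type*} [Field K] [NumberField K] {𝔭 : Ideal (𝓞 K)}
    (h : (Ideal.absNorm 𝔭).Prime) : Prime 𝔭 := by
  have h0 : 𝔭 ≠ ⊥ := by
    intro h1
    rw [h1, Ideal.absNorm_bot] at h
    exact Nat.not_prime_zero h
  exact Ideal.prime_of_isPrime h0 (Ideal.isPrime_of_irreducible_absNorm h)

lemma card_subtype_eq {α : Type*} (p : α → Prop) (s : Finset α) (h : ∀ x, p x ↔ x ∈ s) :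
    Nat.card {x // p x} = s.card := by
  rw [← Nat.card_eq_finsetCard]
  exact Nat.card_congr (Equiv.subtypeEquivRight h)

lemma mul_hom_comm {K : Type*} [Field K] [NumberField K] (χ ψ : Ideal (𝓞 K) →*₀ ℂ) :
    χ * ψ = ψ * χ := by
  ext I
  exact mul_comm (χ I) (ψ I)

theorem pairs_K (K : Type*) [Field K] [NumberField K] [IsTotallyComplex K]
    (h2 : finrank ℚ K = 2) (ε : ℝ) (hε : 0 < ε) :
    ∃ c : ℝ, 0 < c ∧ ∃ q₀ : ℕ, ∀ 𝔭 : Ideal (𝓞 K), (Ideal.absNorm 𝔭).Prime →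
      q₀ ≤ Ideal.absNorm 𝔭 → ∀ A B : Finset (Ideal (𝓞 K) →*₀ ℂ),
      (∀ χ ∈ A, IsRay 𝔭 χ) → (∀ χ ∈ B, IsRay 𝔭 χ) →
      ((Ideal.absNorm 𝔭 : ℕ) : ℝ) ^ (2 + ε) ≤ (A.card : ℝ) * (B.card : ℝ) ^ 2 →
      ∀ S : Finset ((Ideal (𝓞 K) →*₀ ℂ) × (Ideal (𝓞 K) →*₀ ℂ)),
      (∀ x ∈ A ×ˢ B, GoodK 𝔭 (x.1 * x.2) → x ∈ S) → c * ((A.card : ℝ) * B.card) ≤ S.card := by
  classical
  obtain ⟨ι⟩ := exists_iso K
  obtain ⟨κ, K₁, hS⟩ := exists_sys h2 ι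
  obtain ⟨K₂, hMd⟩ := exists_md h2 ι
  obtain ⟨K₃, hK₃, hTd⟩ := exists_td h2 ι
  set K₀ : ℝ := max K₁ (max K₂ K₃) with hK₀
  have h1 : K₁ ≤ K₀ := le_max_left _ _
  have h2' : K₂ ≤ K₀ := (le_max_left _ _).trans (le_max_right _ _)
  have h3 : K₃ ≤ K₀ := (le_max_right _ _).trans (le_max_right _ _)
  obtain ⟨c, hc, Q0, hmain⟩ := wcount (Sys.mono hS h1) ε hε
  refine ⟨c, hc, max 5 (max ⌈Q0⌉₊ (⌈|((discr K : ℤ) : ℝ)|⌉₊ + 1)), ?_⟩
  intro 𝔭 hp hq A B hA hB hAB S hSS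
  have h𝔭 : Prime 𝔭 := prime_of_absNorm hp
  have hq5 : 5 ≤ Ideal.absNorm 𝔭 := (le_max_left _ _).trans hq
  have hqQ : Q0 ≤ (Ideal.absNorm 𝔭 : ℝ) :=
    (Nat.le_ceil Q0).trans (by exact_mod_cast ((le_max_left _ _).trans (le_max_right _ _)).trans hq)
  have hqD : |((discr K : ℤ) : ℝ)| < (Ideal.absNorm 𝔭 : ℝ) := by
    refine lt_of_le_of_lt (Nat.le_ceil _) ?_
    have := ((le_max_right _ _).trans (le_max_right _ _)).trans hq
    exact_mod_cast (Nat.lt_of_succ_le this)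
  have hfin := finite_RW h𝔭
  have hinj := toRay_injective (𝔭 := 𝔭) (h𝔭 := h𝔭)
  set A' : Finset (MulChar (RW 𝔭 h𝔭) ℂ) := A.preimage toRay hinj.injOn with hA'
  set B' : Finset (MulChar (RW 𝔭 h𝔭) ℂ) := B.preimage toRay hinj.injOn with hB'
  have himA : A'.image toRay = A := by
    ext χ
    rw [Finset.mem_image]
    constructor
    · rintro ⟨X, hX, rfl⟩
      exact Finset.mem_preimage.mp hX
    · intro h
      obtain ⟨X, hX⟩ := exists_of_isRay h𝔭 χ (hA χ h)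
      exact ⟨X, by rw [hA', Finset.mem_preimage, hX]; exact h, hX⟩
  have himB : B'.image toRay = B := by
    ext χ
    rw [Finset.mem_image]
    constructor
    · rintro ⟨X, hX, rfl⟩
      exact Finset.mem_preimage.mp hX
    · intro h
      obtain ⟨X, hX⟩ := exists_of_isRay h𝔭 χ (hB χ h)
      exact ⟨X, by rw [hB', Finset.mem_preimage, hX]; exact h, hX⟩
  have hcA : A'.card = A.card := by rw [← himA, Finset.card_image_of_injective _ hinj]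
  have hcB : B'.card = B.card := by rw [← himB, Finset.card_image_of_injective _ hinj]
  set R : ℝ := √(|((discr K : ℤ) : ℝ)| * (Ideal.absNorm 𝔭 : ℝ)) with hR
  set S' : Finset (MulChar (RW 𝔭 h𝔭) ℂ × MulChar (RW 𝔭 h𝔭) ℂ) := (A' ×ˢ B').filter
    (fun x => x.1 * x.2 ∉ badSet 𝔭 h𝔭 ∧ Lint (sz ι) (clK ι h𝔭) R (x.1 * x.2) ≠ 0) with hS'
  have hkey := hmain (RW 𝔭 h𝔭) (clK ι h𝔭) (Ideal.absNorm 𝔭) R (1 / √(Ideal.absNorm 𝔭 : ℝ))
    (badSet 𝔭 h𝔭) (Md.mono (hMd 𝔭 h𝔭) h2') (Td.mono hK₃ (hTd 𝔭 h𝔭 hp hq5 hqD) h3) hqQ A' B'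
    (by rw [hcA, hcB]; exact hAB) S'
    (fun x hx h1 h2 => by rw [hS', Finset.mem_filter]; exact ⟨hx, h1, h2⟩)
  rw [hcA, hcB] at hkey
  refine hkey.trans ?_
  have hsub : S'.image (fun x => (toRay x.1, toRay x.2)) ⊆ S := by
    intro y hy
    rw [Finset.mem_image] at hy
    obtain ⟨x, hx, rfl⟩ := hy
    rw [hS', Finset.mem_filter, Finset.mem_product] at hx
    obtain ⟨⟨hx1, hx2⟩, hx3, hx4⟩ := hx
    apply hSS
    · rw [Finset.mem_product]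
      have e1 : toRay x.1 ∈ A := Finset.mem_preimage.mp hx1
      have e2 : toRay x.2 ∈ B := Finset.mem_preimage.mp hx2
      exact ⟨e1, e2⟩
    · change GoodK 𝔭 (toRay x.1 * toRay x.2)
      rw [← toRay_mul]
      refine ⟨?_, exists_L h2 ι 𝔭 h𝔭 hp hq5 hqD _ hx3 hx4⟩
      rw [mem_badSet] at hx3
      exact not_not.mp hx3
  have hcS : S'.card = (S'.image (fun x => (toRay x.1, toRay x.2))).card := by
    rw [Finset.card_image_of_injective]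
    intro x y hxy
    rw [Prod.mk.injEq] at hxy
    exact Prod.ext (hinj hxy.1) (hinj hxy.2)
  rw [hcS]
  exact_mod_cast Finset.card_le_card hsub

/-- **Almost all twists**: for every set `A` of ray class characters modulo a prime ideal `𝔭` of
prime norm `q ≥ q₀`, all but few ray class characters `ψ` modulo `𝔭` have the property that
`χ ψ` is ramified with `L(1/2, χ ψ) ≠ 0` for at least `c |A|` of the `χ ∈ A`. -/
theorem twists_K (K : Type*) [Field K] [NumberField K] [IsTotallyComplex K]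
    (h2 : finrank ℚ K = 2) (ε : ℝ) (hε : 0 < ε) :
    ∃ c : ℝ, 0 < c ∧ ∃ q₀ : ℕ, ∀ 𝔭 : Ideal (𝓞 K), (Ideal.absNorm 𝔭).Prime →
      q₀ ≤ Ideal.absNorm 𝔭 → ∀ A : Finset (Ideal (𝓞 K) →*₀ ℂ), (∀ χ ∈ A, IsRay 𝔭 χ) →
      (Nat.card {ψ : Ideal (𝓞 K) →*₀ ℂ // IsRay 𝔭 ψ ∧
        (Nat.card {χ : Ideal (𝓞 K) →*₀ ℂ // χ ∈ A ∧ GoodK 𝔭 (χ * ψ)} : ℝ) < c * A.card} : ℝ) ≤
      min (((Ideal.absNorm 𝔭 : ℕ) : ℝ) ^ (1 + ε) / √(A.card : ℝ))
        (((Ideal.absNorm 𝔭 : ℕ) : ℝ) ^ (2 + ε) / (A.card : ℝ) ^ 2) := by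
  classical
  obtain ⟨c, hc, q₀, hmain⟩ := pairs_K K h2 ε hε
  refine ⟨c, hc, q₀, ?_⟩
  intro 𝔭 hp hq A hA
  have h𝔭 : Prime 𝔭 := prime_of_absNorm hp
  have hq1 : (1 : ℝ) ≤ ((Ideal.absNorm 𝔭 : ℕ) : ℝ) := by exact_mod_cast hp.one_lt.le
  set U : Finset (Ideal (𝓞 K) →*₀ ℂ) := (finite_isRay h𝔭).toFinset with hU
  have hmemU : ∀ χ, χ ∈ U ↔ IsRay 𝔭 χ := by
    intro χ
    rw [hU, Set.Finite.mem_toFinset]
    rfl
  set E : Finset (Ideal (𝓞 K) →*₀ ℂ) := U.filter (fun ψ =>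
    ((A.filter (fun χ => GoodK 𝔭 (χ * ψ))).card : ℝ) < c * A.card) with hE
  have hval : ∀ ψ : Ideal (𝓞 K) →*₀ ℂ,
      Nat.card {χ : Ideal (𝓞 K) →*₀ ℂ // χ ∈ A ∧ GoodK 𝔭 (χ * ψ)} =
        (A.filter (fun χ => GoodK 𝔭 (χ * ψ))).card := by
    intro ψ
    exact card_subtype_eq _ _ fun χ => by rw [Finset.mem_filter]
  have hcardeq : (Nat.card {ψ : Ideal (𝓞 K) →*₀ ℂ // IsRay 𝔭 ψ ∧
        (Nat.card {χ : Ideal (𝓞 K) →*₀ ℂ // χ ∈ A ∧ GoodK 𝔭 (χ * ψ)} : ℝ) < c * A.card} : ℝ) =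
      E.card := by
    congr 1
    exact card_subtype_eq _ _ fun ψ => by rw [hE, Finset.mem_filter, hmemU, hval]
  rw [hcardeq]
  refine exceptional (fun χ ψ => GoodK 𝔭 (χ * ψ)) (fun χ ψ h => by rwa [mul_hom_comm]) U c _ ε hq1 hε
    ?_ A (fun χ hχ => (hmemU χ).mpr (hA χ hχ)) E (Finset.filter_subset _ _) ?_
  · intro A1 B1 hA1 hB1 hAB S hS
    exact hmain 𝔭 hp hq A1 B1 (fun χ hχ => (hmemU χ).mp (hA1 hχ))
      (fun χ hχ => (hmemU χ).mp (hB1 hχ)) hAB S hS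
  · intro ψ hψ
    refine ⟨A.filter (fun χ => GoodK 𝔭 (χ * ψ)), fun χ hχ hg => Finset.mem_filter.mpr ⟨hχ, hg⟩, ?_⟩
    exact (Finset.mem_filter.mp hψ).2

end Pool.Agent.H14.BK
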