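import Pool.Agent.H14.BK.ConjP

/-!
# Values of ray class characters

Proofs.

`ray_congr`: if `a ∈ 𝔭` then `b ∈ 𝔭` and both values are `0` (`IsRay.zero`,
`Ideal.dvd_span_singleton`).  Otherwise choose `c` with `a c - 1 ∈ 𝔭` (`𝔭` maximal,
`Ideal.IsMaximal.exists_inv`); then `b c - 1 ∈ 𝔭`, so `χ((a)) χ((c)) = 1 = χ((b)) χ((c))`
(`IsRay.one`, `Ideal.span_singleton_mul_span_singleton`).

`ray_norm`: `χ I ≠ 0`.  With `h` the class number `I ^ h = (c)` (see `exists_inv` in `RayDef.lean`),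
`c ∉ 𝔭`, and `c ^ (N 𝔭 - 1) ≡ 1 mod 𝔭` (`𝓞 K ⧸ 𝔭` is a finite field with `N 𝔭` elements), so
`χ I ^ (h (N 𝔭 - 1)) = 1` (`ray_congr`), `Complex.norm_eq_one_of_pow_eq_one`.
-/


open NumberField Module
open scoped nonZeroDivisors ComplexConjugate

namespace Pool.Agent.H14.BK

variable {K : Type*} [Field K] [NumberField K]

theorem ray_congr {𝔭 : Ideal (𝓞 K)} (h𝔭 : Prime 𝔭) {χ : Ideal (𝓞 K) →*₀ ℂ} (hχ : IsRay 𝔭 χ)
    {a b : 𝓞 K} (h : a - b ∈ 𝔭) : χ (Ideal.span {a}) = χ (Ideal.span {b}) := by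
  have hP := Ideal.isPrime_of_prime h𝔭
  have hmax : 𝔭.IsMaximal := hP.isMaximal h𝔭.ne_zero
  by_cases ha : a ∈ 𝔭
  · have hb : b ∈ 𝔭 := by
      have h1 : b = a - (a - b) := by ring
      rw [h1]
      exact 𝔭.sub_mem ha h
    rw [(hχ.zero _).2 (Ideal.dvd_span_singleton.mpr ha),
      (hχ.zero _).2 (Ideal.dvd_span_singleton.mpr hb)]
  · obtain ⟨c, i, hi, hci⟩ := hmax.exists_inv ha
    have h1 : a * c - 1 ∈ 𝔭 := by
      have : a * c - 1 = - i := by linear_combination hci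
      rw [this]
      exact 𝔭.neg_mem hi
    have h2 : b * c - 1 ∈ 𝔭 := by
      have : b * c - 1 = (a * c - 1) - (a - b) * c := by ring
      rw [this]
      exact 𝔭.sub_mem h1 (𝔭.mul_mem_right _ h)
    have h3 := hχ.one _ h1
    have h4 := hχ.one _ h2
    rw [← Ideal.span_singleton_mul_span_singleton, map_mul] at h3 h4
    have h5 : χ (Ideal.span {c}) ≠ 0 := by
      intro h0
      rw [h0, mul_zero] at h3
      exact zero_ne_one h3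
    exact mul_right_cancel₀ h5 (h3.trans h4.symm)

theorem ray_norm {𝔭 : Ideal (𝓞 K)} (h𝔭 : Prime 𝔭) {χ : Ideal (𝓞 K) →*₀ ℂ} (hχ : IsRay 𝔭 χ)
    {I : Ideal (𝓞 K)} (hI : ¬ 𝔭 ∣ I) : ‖χ I‖ = 1 := by
  have hP := Ideal.isPrime_of_prime h𝔭
  have hmax : 𝔭.IsMaximal := hP.isMaximal h𝔭.ne_zero
  have hI0 : I ≠ 0 := fun h => hI (h ▸ dvd_zero 𝔭)
  set h : ℕ := Fintype.card (ClassGroup (𝓞 K)) with hh
  have hpos : 0 < h := Fintype.card_pos
  -- `I^h` is principal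
  have h1 : (I ^ h).IsPrincipal := by
    have hmem : I ^ h ∈ (Ideal (𝓞 K))⁰ := mem_nonZeroDivisors_of_ne_zero (pow_ne_zero _ hI0)
    rw [← ClassGroup.mk0_eq_one_iff hmem]
    have : (⟨I ^ h, hmem⟩ : (Ideal (𝓞 K))⁰) = ⟨I, mem_nonZeroDivisors_of_ne_zero hI0⟩ ^ h := by
      ext1
      rfl
    rw [this, map_pow, pow_card_eq_one]
  obtain ⟨c, hc⟩ := h1
  have hc' : I ^ h = Ideal.span {c} := hc
  have hcp : c ∉ 𝔭 := by
    intro hmem
    have : 𝔭 ∣ I ^ h := by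
      rw [hc', Ideal.dvd_span_singleton]
      exact hmem
    exact hI (h𝔭.dvd_of_dvd_pow this)
  -- the residue ring is finite
  haveI : Finite (𝓞 K ⧸ 𝔭) := Ideal.finiteQuotientOfFreeOfNeBot 𝔭 h𝔭.ne_zero
  have hunit : IsUnit (Ideal.Quotient.mk 𝔭 c) := by
    letI := Ideal.Quotient.field 𝔭
    apply IsUnit.mk0
    intro h0
    exact hcp (Ideal.Quotient.eq_zero_iff_mem.mp h0)
  obtain ⟨u, hu⟩ := hunit
  set m : ℕ := Nat.card (𝓞 K ⧸ 𝔭)ˣ with hm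
  have hmpos : 0 < m := Nat.card_pos
  have hum : u ^ m = 1 := pow_card_eq_one'
  have hcm : c ^ m - 1 ∈ 𝔭 := by
    rw [← Ideal.Quotient.eq, map_pow, ← hu, map_one, ← Units.val_pow_eq_pow_val, hum,
      Units.val_one]
  have h3 := hχ.one _ hcm
  rw [← Ideal.span_singleton_pow, ← hc', map_pow, map_pow, ← pow_mul] at h3
  exact Complex.norm_eq_one_of_pow_eq_one h3 (Nat.mul_pos hpos hmpos).ne'

theorem ray_norm_le {𝔭 : Ideal (𝓞 K)} (h𝔭 : Prime 𝔭) {χ : Ideal (𝓞 K) →*₀ ℂ} (hχ : IsRay 𝔭 χ)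
    (I : Ideal (𝓞 K)) : ‖χ I‖ ≤ 1 := by
  by_cases h : 𝔭 ∣ I
  · rw [(hχ.zero I).2 h, norm_zero]
    exact zero_le_one
  · exact (ray_norm h𝔭 hχ h).le

end Pool.Agent.H14.BK
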