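import Mathlib

/-!
# The monoid of ideals is isomorphic to the monoid of natural numbers (job BK-Iso)

`K` is any number field.

Proofs.

* `countable_primes`: `{P // Prime P}` is countable: it is the union over `n` of the sets of the
  `P` with `absNorm P ≤ n`, finite by `Ideal.finite_setOfPred_absNorm_le` (or a similar name,
  `grep -rn absNorm_le Mathlib`).
* `infinite_primes`: for every rational prime `p` the ideal `span {(p : 𝓞 K)}` is `≠ ⊤` (its norm is
  `p ^ finrank ≠ 1`; `Ideal.absNorm_span_singleton`, `Algebra.norm_algebraMap`), so it is contained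
  in a maximal ideal `P_p ≠ ⊥` (`Ideal.exists_le_maximal`).  `P_p = P_p'` with `p ≠ p'` would give
  `1 ∈ P_p` (Bezout).  So `p ↦ P_p` is an injection of the infinite set of primes
  (`Infinite.of_injective`, `Nat.infinite_setOf_prime`).
* `exists_iso`: let `e : {p : ℕ // p.Prime} ≃ {P : Ideal (𝓞 K) // Prime P}` (both are denumerable:
  `Denumerable.ofEncodableOfInfinite`, `Denumerable.eqv`; or `Cardinal.eq` and
  `Cardinal.mk_eq_aleph0`), `E p = e p` for `p` prime, `E p = 1` otherwise.
  `ι n = n.factorization.prod (fun p k => E p ^ k)` for `n ≠ 0`, `ι 0 = 0`.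
  Multiplicative: `Nat.factorization_mul`, `Finsupp.prod_add_index'`.
  Injective: `normalizedFactors (ι n) = (n.primeFactorsList : Multiset ℕ).map E` for `n ≠ 0`
  (products of primes: `normalizedFactors_prod_of_prime`; write
  `ι n = ((n.primeFactorsList : Multiset ℕ).map E).prod`), `E` is injective on the primes, and
  `n = n.primeFactorsList.prod`.  (`Ideal (𝓞 K)` is a `UniqueFactorizationMonoid` with
  `Unique (Ideal (𝓞 K))ˣ`, `associated_iff_eq`.)
  Surjective: for `I ≠ 0`, `I = (normalizedFactors I).prod`, and `n := ((normalizedFactors I).attach.map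
  (fun P => e.symm P)).prod`; or induction `UniqueFactorizationMonoid.induction_on_prime`.
  `MulEquiv.ofBijective`.
* `coprime_iff`: `IsCoprime I J ↔ IsRelPrime I J` for ideals: a common divisor contains `I ⊔ J`
  (`Ideal.dvd_iff_le`), and `I ⊔ J` is one; `IsCoprime I J ↔ I ⊔ J = ⊤`
  (`Ideal.isCoprime_iff_sup_eq`).  `Nat.Coprime a b ↔ IsRelPrime a b` (`Nat.coprime_iff_isRelPrime`),
  and `IsRelPrime` is transported by the isomorphism.
-/

open NumberField
open scoped nonZeroDivisors

namespace Pool.Agent.H14.BK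

variable {K : Type*} [Field K] [NumberField K]

theorem countable_primes (K : Type*) [Field K] [NumberField K] :
    Countable {P : Ideal (𝓞 K) // Prime P} := by
  have h : (⋃ n : ℕ, {I : Ideal (𝓞 K) | Ideal.absNorm I ≤ n}).Countable :=
    Set.countable_iUnion fun n => (Ideal.finite_setOfPred_absNorm_le n).countable
  have h2 : {P : Ideal (𝓞 K) | Prime P}.Countable := by
    refine h.mono fun P _ => ?_
    exact Set.mem_iUnion.2 ⟨Ideal.absNorm P, by simp⟩
  exact h2.to_subtype

theorem infinite_primes (K : Type*) [Field K] [NumberField K] :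
    Infinite {P : Ideal (𝓞 K) // Prime P} := by
  have key : ∀ p : Nat.Primes, ∃ P : Ideal (𝓞 K), Prime P ∧
      P.comap (algebraMap ℤ (𝓞 K)) = Ideal.span {((p : ℕ) : ℤ)} := by
    intro p
    have hp : Prime ((p : ℕ) : ℤ) := Nat.prime_iff_prime_int.1 p.2
    have hmax : (Ideal.span {((p : ℕ) : ℤ)}).IsMaximal :=
      PrincipalIdealRing.isMaximal_of_irreducible hp.irreducible
    obtain ⟨P, hP, hL⟩ := Ideal.exists_maximal_ideal_liesOver_of_isIntegral (S := 𝓞 K)
      (Ideal.span {((p : ℕ) : ℤ)})
    refine ⟨P, ?_, ?_⟩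
    · refine Ideal.prime_of_isPrime ?_ hP.isPrime
      rintro rfl
      have h1 := hL.over
      have h2 : ((p : ℕ) : ℤ) ∈ Ideal.span {((p : ℕ) : ℤ)} := Ideal.mem_span_singleton_self _
      rw [h1, Ideal.under_def, Ideal.mem_comap, Ideal.mem_bot] at h2
      have h3 : ((p : ℕ) : ℤ) = 0 := by
        have := (FaithfulSMul.algebraMap_injective ℤ (𝓞 K))
        exact this (by rw [h2, map_zero])
      exact hp.ne_zero h3
    · exact hL.over.symm
  choose P hP hPc using key
  refine Infinite.of_injective (fun p : Nat.Primes => (⟨P p, hP p⟩ : {P : Ideal (𝓞 K) // Prime P})) ?_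
  intro p q hpq
  have h1 : P p = P q := congrArg Subtype.val hpq
  have h2 : Ideal.span {((p : ℕ) : ℤ)} = Ideal.span {((q : ℕ) : ℤ)} := by
    rw [← hPc p, ← hPc q, h1]
  rw [Ideal.span_singleton_eq_span_singleton] at h2
  have h3 := Int.natAbs_eq_iff_associated.2 h2
  exact Subtype.ext (by simpa using h3)

/-- both monoids are free on a countably infinite set of primes, with a zero added -/
theorem exists_iso (K : Type*) [Field K] [NumberField K] : Nonempty (ℕ ≃* Ideal (𝓞 K)) := by
  classical
  obtain ⟨e⟩ : Nonempty ({p : ℕ // p.Prime} ≃ {P : Ideal (𝓞 K) // Prime P}) := by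
    have : Infinite {p : ℕ // p.Prime} := inferInstanceAs (Infinite Nat.Primes)
    have := countable_primes K
    have := infinite_primes K
    exact nonempty_equiv_of_countable
  let E : ℕ → Ideal (𝓞 K) := fun p => if h : p.Prime then (e ⟨p, h⟩).1 else 1
  let F : Ideal (𝓞 K) → ℕ := fun P => if h : Prime P then (e.symm ⟨P, h⟩ : ℕ) else 1
  have hE : ∀ p : ℕ, p.Prime → Prime (E p) := by
    intro p hp
    simp only [E, dif_pos hp]
    exact (e ⟨p, hp⟩).2
  have hFE : ∀ p : ℕ, p.Prime → F (E p) = p := by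
    intro p hp
    have h1 : Prime (E p) := hE p hp
    simp only [F, dif_pos h1]
    have h2 : (⟨E p, h1⟩ : {P : Ideal (𝓞 K) // Prime P}) = e ⟨p, hp⟩ := by
      apply Subtype.ext
      simp only [E, dif_pos hp]
    rw [h2, Equiv.symm_apply_apply]
  have hF : ∀ P : Ideal (𝓞 K), Prime P → (F P).Prime := by
    intro P hP
    simp only [F, dif_pos hP]
    exact (e.symm ⟨P, hP⟩).2
  have hEF : ∀ P : Ideal (𝓞 K), Prime P → E (F P) = P := by
    intro P hP
    have h1 : (F P).Prime := hF P hP
    simp only [E, dif_pos h1]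
    have h2 : (⟨F P, h1⟩ : {p : ℕ // p.Prime}) = e.symm ⟨P, hP⟩ := by
      apply Subtype.ext
      simp only [F, dif_pos hP]
    rw [h2, Equiv.apply_symm_apply]
  let ι₀ : ℕ → Ideal (𝓞 K) := fun n => if n = 0 then 0 else (n.primeFactorsList.map E).prod
  have hι0 : ι₀ 0 = 0 := by simp [ι₀]
  have hι : ∀ n : ℕ, n ≠ 0 → ι₀ n = (n.primeFactorsList.map E).prod := fun n hn => by
    simp [ι₀, hn]
  have hprime_mem : ∀ n : ℕ, ∀ P ∈ ((n.primeFactorsList : Multiset ℕ).map E), Prime P := by
    intro n P hP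
    obtain ⟨p, hp, rfl⟩ := Multiset.mem_map.1 hP
    exact hE p (Nat.prime_of_mem_primeFactorsList (by simpa using hp))
  have hfac : ∀ n : ℕ, n ≠ 0 → UniqueFactorizationMonoid.normalizedFactors (ι₀ n)
      = (n.primeFactorsList : Multiset ℕ).map E := by
    intro n hn
    have h1 : ι₀ n = ((n.primeFactorsList : Multiset ℕ).map E).prod := by
      rw [hι n hn, Multiset.map_coe, Multiset.prod_coe]
    rw [h1]
    exact UniqueFactorizationMonoid.normalizedFactors_prod_of_prime (hprime_mem n)
  have hne : ∀ n : ℕ, n ≠ 0 → ι₀ n ≠ 0 := by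
    intro n hn h
    rw [hι n hn, List.prod_eq_zero_iff] at h
    obtain ⟨p, hp, hp0⟩ := List.mem_map.1 h
    exact (hE p (Nat.prime_of_mem_primeFactorsList hp)).ne_zero hp0
  let ι : ℕ →* Ideal (𝓞 K) :=
    { toFun := ι₀
      map_one' := by simp [ι₀]
      map_mul' := by
        intro a b
        rcases eq_or_ne a 0 with rfl | ha
        · simp [hι0]
        rcases eq_or_ne b 0 with rfl | hb
        · simp [hι0]
        rw [hι _ (mul_ne_zero ha hb), hι a ha, hι b hb, ← List.prod_append, ← List.map_append]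
        exact ((Nat.perm_primeFactorsList_mul ha hb).map E).prod_eq }
  have hιp : ∀ p : ℕ, p.Prime → ι p = E p := by
    intro p hp
    change ι₀ p = E p
    rw [hι p hp.ne_zero, Nat.primeFactorsList_prime hp]
    simp
  have hinj : Function.Injective ι := by
    intro a b hab
    change ι₀ a = ι₀ b at hab
    rcases eq_or_ne a 0 with rfl | ha
    · by_contra hb
      exact hne b (fun h => hb h.symm) (by rw [← hab, hι0])
    rcases eq_or_ne b 0 with rfl | hb
    · exact absurd (by rw [hab, hι0]) (hne a ha)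
    have h1 : (a.primeFactorsList : Multiset ℕ).map E = (b.primeFactorsList : Multiset ℕ).map E := by
      rw [← hfac a ha, ← hfac b hb, hab]
    have h2 : ∀ n : ℕ, ((n.primeFactorsList : Multiset ℕ).map E).map F
        = (n.primeFactorsList : Multiset ℕ) := by
      intro n
      rw [Multiset.map_map]
      conv_rhs => rw [← Multiset.map_id (n.primeFactorsList : Multiset ℕ)]
      exact Multiset.map_congr rfl
        (fun p hp => hFE p (Nat.prime_of_mem_primeFactorsList (by simpa using hp)))
    have h3 : (a.primeFactorsList : Multiset ℕ) = (b.primeFactorsList : Multiset ℕ) := by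
      rw [← h2 a, ← h2 b, h1]
    have h4 := congrArg Multiset.prod h3
    rwa [Multiset.prod_coe, Multiset.prod_coe, Nat.prod_primeFactorsList ha,
      Nat.prod_primeFactorsList hb] at h4
  have hsurj : Function.Surjective ι := by
    intro I
    rcases eq_or_ne I 0 with rfl | hI
    · exact ⟨0, hι0⟩
    refine ⟨((UniqueFactorizationMonoid.normalizedFactors I).map F).prod, ?_⟩
    rw [map_multiset_prod, Multiset.map_map]
    conv_rhs => rw [← Ideal.prod_normalizedFactors_eq_self hI]
    congr 1
    conv_rhs => rw [← Multiset.map_id (UniqueFactorizationMonoid.normalizedFactors I)]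
    apply Multiset.map_congr rfl
    intro P hP
    have hPp := UniqueFactorizationMonoid.prime_of_normalized_factor P hP
    change ι (F P) = P
    rw [hιp _ (hF P hPp), hEF P hPp]
  exact ⟨MulEquiv.ofBijective ι ⟨hinj, hsurj⟩⟩

/-- the size of a number: the norm of the corresponding ideal -/
noncomputable def sz (ι : ℕ ≃* Ideal (𝓞 K)) : ℕ →*₀ ℕ where
  toFun n := Ideal.absNorm (ι n)
  map_zero' := by rw [map_zero, map_zero]
  map_one' := by rw [map_one, map_one]
  map_mul' a b := by rw [map_mul, map_mul]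

@[simp] lemma sz_apply (ι : ℕ ≃* Ideal (𝓞 K)) (n : ℕ) : sz ι n = Ideal.absNorm (ι n) := rfl

theorem iota_zero (ι : ℕ ≃* Ideal (𝓞 K)) : ι 0 = ⊥ := by
  rw [map_zero]; rfl

theorem iota_ne_bot (ι : ℕ ≃* Ideal (𝓞 K)) (n : ℕ) : ι n ≠ ⊥ ↔ n ≠ 0 := by
  rw [← iota_zero ι, ι.injective.ne_iff]

theorem iota_dvd (ι : ℕ ≃* Ideal (𝓞 K)) (m n : ℕ) : ι m ∣ ι n ↔ m ∣ n :=
  map_dvd_iff ι

theorem iota_prime (ι : ℕ ≃* Ideal (𝓞 K)) (n : ℕ) : Prime (ι n) ↔ n.Prime := by
  rw [MulEquiv.prime_iff, Nat.prime_iff]

theorem coprime_iff (ι : ℕ ≃* Ideal (𝓞 K)) (a b : ℕ) : Nat.Coprime a b ↔ IsCoprime (ι a) (ι b) := by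
  rw [Nat.coprime_iff_isRelPrime, Ideal.isCoprime_iff_sup_eq]
  constructor
  · intro h
    obtain ⟨c, hc⟩ := ι.surjective (ι a ⊔ ι b)
    have h1 : c ∣ a := by
      rw [← iota_dvd ι, hc, Ideal.dvd_iff_le]; exact le_sup_left
    have h2 : c ∣ b := by
      rw [← iota_dvd ι, hc, Ideal.dvd_iff_le]; exact le_sup_right
    have h3 : c = 1 := Nat.isUnit_iff.1 (h h1 h2)
    rw [← hc, h3, map_one, Ideal.one_eq_top]
  · intro h c h1 h2
    rw [Nat.isUnit_iff]
    rw [← iota_dvd ι, Ideal.dvd_iff_le] at h1 h2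
    have h3 : ι c = 1 := by
      rw [Ideal.one_eq_top, eq_top_iff, ← h]
      exact sup_le h1 h2
    exact ι.injective (by rw [h3, map_one])

end Pool.Agent.H14.BK
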