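import Pool.Agent.H14.BK.RayDef
import Pool.Agent.H92.CG.LFun

/-!
# Theta series of an imaginary quadratic field: definitions

`K` is an imaginary quadratic field (`[IsTotallyComplex K]`, `h2 : finrank ℚ K = 2`), `σ : K →+* ℂ` an
embedding, `D = discr K`, `rD K = √|D|`.

Plan (all files `Pool/Agent/H14/BK/`; see the headers for complete proofs):
* `Conj`, `ConjM`, `ConjP`: complex conjugation `τ` of `𝓞 K`, `J * τ J = (N J)`, `δ = √D`, residues
  modulo `𝔭`.
* `Pois2a`, `Pois2`: Poisson summation for a binary form with shift.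
* `PoisA`, `Pois`: Poisson summation for a nonzero ideal `J` with the form `qJ J` and the alternating
  form `om J`.
* `UnfA`, `UnfS`, `Unf`: sums over ideals of a class and sums over the elements of an ideal.
* `PartA`, `PartB`, `Part`: theta series of the ray classes modulo `𝔭` near `t = 0`.
* `GauA`, `Gau`: Gauss sums of a ramified ray class character.
* `FeA`, `FeJ`, `FeC`, `Fe`: functional equation of `Θ(t, χ) = TI χ R t`, `R = √(|D| q)`.
* `LvA`, `LvB`, `LvC`, `Lval`: Mellin transform, the `L`-function, its central value.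
* `TdK`: the structure `Td` of `H14/BN/Iface.lean`.
-/

open NumberField Module
open scoped nonZeroDivisors ComplexConjugate

namespace Pool.Agent.H14.BK

variable {K : Type*} [Field K] [NumberField K]

/-- `√|D|` for the discriminant `D` of `K` -/
noncomputable def rD (K : Type*) [Field K] [NumberField K] : ℝ := √|((discr K : ℤ) : ℝ)|

lemma rD_pos : 0 < rD K := Pool.Agent.H92.CG.D_pos

/-- the normalized norm form of the ideal `J` -/
noncomputable def qJ (J : Ideal (𝓞 K)) (z : ℂ) : ℝ :=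
  2 * ‖z‖ ^ 2 / ((Ideal.absNorm J : ℝ) * rD K)

/-- the normalized alternating form of the ideal `J` -/
noncomputable def om (J : Ideal (𝓞 K)) (z w : ℂ) : ℝ :=
  2 * (conj z * w).im / ((Ideal.absNorm J : ℝ) * rD K)

/-- `τ` is the complex conjugation of the ring of integers -/
def IsTau (σ : K →+* ℂ) (τ : 𝓞 K ≃+* 𝓞 K) : Prop :=
  ∀ x : 𝓞 K, σ ((τ x : 𝓞 K) : K) = conj (σ (x : K))

/-- the nonzero ideal `I` belongs to the ideal class `c` -/
def InC (c : ClassGroup (𝓞 K)) (I : Ideal (𝓞 K)) : Prop :=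
  ∃ h : I ≠ ⊥, ClassGroup.mk0 ⟨I, mem_nonZeroDivisors_of_ne_zero h⟩ = c

/-- the theta series of `χ` with parameter `R` -/
noncomputable def TI (χ : Ideal (𝓞 K) →*₀ ℂ) (R t : ℝ) : ℂ :=
  ∑' I : Ideal (𝓞 K), χ I * ((Real.exp (-(2 * Real.pi * t * (Ideal.absNorm I : ℝ) / R)) : ℝ) : ℂ)

lemma absNorm_pos {J : Ideal (𝓞 K)} (hJ : J ≠ ⊥) : 0 < (Ideal.absNorm J : ℝ) := by
  have : Ideal.absNorm J ≠ 0 := by rwa [Ne, Ideal.absNorm_eq_zero_iff]
  positivity

lemma one_le_absNorm {J : Ideal (𝓞 K)} (hJ : J ≠ ⊥) : 1 ≤ (Ideal.absNorm J : ℝ) := by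
  have : Ideal.absNorm J ≠ 0 := by rwa [Ne, Ideal.absNorm_eq_zero_iff]
  exact_mod_cast Nat.one_le_iff_ne_zero.mpr this

end Pool.Agent.H14.BK
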