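import Pool.Agent.H14.BK.LatA
import Pool.Agent.H92.CG.Mellin

/-!
# Lattice points in ellipses (job BK-Lat)

`qf A β (m, n) = A (m + β n)² + n² / A`.

Proof of `card_qf_le`.  Put `h = 1 / √(A T)`, `M = ⌊√(A T)⌋ = ⌊1 / h⌋`.  `qf A β (m, n) ≤ T` forces
`n² ≤ A T`, i.e. `n ∈ Icc (-M) M`, and for such `n` it is equivalent to
`|m + β n| ≤ r_n := √(T / A) · √(1 - (h n)²)` (as `r_n² = (T - n² / A) / A`).  So the set is in
bijection with `Σ n ∈ Icc (-M) M, {m // |m + β n| ≤ r_n}` (for instance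
`Nat.card = ∑ n ∈ Icc (-M) M, Nat.card {m // ...}`, by `Nat.card_sigma` and an `Equiv`, or with
`Set.ncard`/`Finset.card_sigma`), and `card_int` gives
`|Nat.card - 2 √(T/A) ∑_n √(1 - (h n)²)| ≤ 2 M + 1 ≤ 2 √(A T) + 1`.  By `sum_sqrt` the sum is
`π / (2 h) + O(1)`, and `2 √(T/A) · π √(A T) / 2 = π T`.  The error is at most
`2 √(T/A) + 2 √(A T) + 1 ≤ C (1 + √T)`, `C = 2 / √A + 2 √A + 1`.
-/

open Real

namespace Pool.Agent.H14.BK

open Pool.Agent.H92.CG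

theorem lat_box {z B : ℝ} (h : z ^ 2 ≤ B) : |z| ≤ |B| + 1 := by
  have h1 : z ^ 2 ≤ (|B| + 1) ^ 2 := by
    nlinarith [le_abs_self B, abs_nonneg B]
  exact abs_le_of_sq_le_sq h1 (by positivity)

theorem finite_qf_le {A : ℝ} (hA : 0 < A) (β T : ℝ) : {v : ℤ × ℤ | qf A β v ≤ T}.Finite := by
  set B : ℝ := |A * T| + 1 with hB
  set C : ℝ := |T / A| + 1 + |β| * B with hC
  apply Set.Finite.subset ((Set.finite_Icc (-⌈C⌉) ⌈C⌉).prod (Set.finite_Icc (-⌈B⌉) ⌈B⌉))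
  rintro ⟨m, n⟩ hv
  rw [Set.mem_ofPred_eq, qf] at hv
  simp only at hv
  have h1 : 0 ≤ A * ((m : ℝ) + β * n) ^ 2 := by positivity
  have h2 : 0 ≤ (n : ℝ) ^ 2 / A := by positivity
  have h3 : (n : ℝ) ^ 2 ≤ A * T := by
    have : (n : ℝ) ^ 2 / A ≤ T := by linarith
    rw [div_le_iff₀ hA] at this
    linarith
  have h4 : ((m : ℝ) + β * n) ^ 2 ≤ T / A := by
    rw [le_div_iff₀ hA]
    linarith
  have h5 : |(n : ℝ)| ≤ B := lat_box h3
  have h6 := lat_box h4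
  have h7 : |(m : ℝ)| ≤ C := by
    have h8 : |(m : ℝ)| ≤ |(m : ℝ) + β * n| + |β * n| := by
      have := abs_sub_abs_le_abs_sub (m : ℝ) (-(β * n))
      rw [abs_neg, sub_neg_eq_add] at this
      linarith
    have h9 : |β * n| ≤ |β| * B := by
      rw [abs_mul]
      exact mul_le_mul_of_nonneg_left h5 (abs_nonneg _)
    linarith
  have key : ∀ (k : ℤ) (D : ℝ), |(k : ℝ)| ≤ D → k ∈ Set.Icc (-⌈D⌉) ⌈D⌉ := by
    intro k D hk
    have h10 := abs_le.mp hk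
    have h11 := Int.le_ceil D
    constructor
    · have : ((-⌈D⌉ : ℤ) : ℝ) ≤ (k : ℝ) := by push_cast; linarith
      exact_mod_cast this
    · have : (k : ℝ) ≤ ((⌈D⌉ : ℤ) : ℝ) := by linarith
      exact_mod_cast this
  exact ⟨key m C h7, key n B h5⟩

/-- the rows of the ellipse -/
theorem lat_row {A : ℝ} (hA : 0 < A) (β : ℝ) {T : ℝ} (hT : 0 < T) (m n : ℤ) :
    qf A β (m, n) ≤ T ↔ n ∈ Finset.Icc (-⌊√(A * T)⌋) ⌊√(A * T)⌋ ∧
      |(m : ℝ) + β * n| ≤ √(T / A) * √(1 - (1 / √(A * T) * (n : ℝ)) ^ 2) := by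
  have hAT : 0 < A * T := mul_pos hA hT
  have hs : √(A * T) ^ 2 = A * T := Real.sq_sqrt hAT.le
  have hs0 : 0 < √(A * T) := Real.sqrt_pos.mpr hAT
  have e1 : (1 / √(A * T) * (n : ℝ)) ^ 2 = (n : ℝ) ^ 2 / (A * T) := by
    rw [mul_pow, div_pow, hs]
    ring
  have hmem : n ∈ Finset.Icc (-⌊√(A * T)⌋) ⌊√(A * T)⌋ ↔ (n : ℝ) ^ 2 ≤ A * T := by
    rw [Finset.mem_Icc]
    constructor
    · rintro ⟨h1, h2⟩
      have h3 := Int.floor_le √(A * T)
      have h4 : (n : ℝ) ≤ (⌊√(A * T)⌋ : ℝ) := by exact_mod_cast h2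
      have h5 : -(⌊√(A * T)⌋ : ℝ) ≤ (n : ℝ) := by exact_mod_cast h1
      have h6 : |(n : ℝ)| ≤ √(A * T) := abs_le.mpr ⟨by linarith, by linarith⟩
      have h7 := pow_le_pow_left₀ (abs_nonneg _) h6 2
      rwa [sq_abs, hs] at h7
    · intro h1
      rw [← hs] at h1
      have h2 := abs_le.mp (abs_le_of_sq_le_sq h1 hs0.le)
      constructor
      · have h3 : -n ≤ ⌊√(A * T)⌋ := by
          rw [Int.le_floor]
          push_cast
          linarith [h2.1]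
        omega
      · rw [Int.le_floor]
        exact h2.2
  rw [hmem, e1]
  have hA0 : (n : ℝ) ^ 2 / A = T * ((n : ℝ) ^ 2 / (A * T)) := by field_simp
  unfold qf
  simp only
  constructor
  · intro h
    have h1 : 0 ≤ A * ((m : ℝ) + β * n) ^ 2 := by positivity
    have h3 : (n : ℝ) ^ 2 ≤ A * T := by
      have : (n : ℝ) ^ 2 / A ≤ T := by linarith
      rw [div_le_iff₀ hA] at this
      linarith
    refine ⟨h3, ?_⟩
    rw [← Real.sqrt_mul (by positivity)]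
    apply Real.abs_le_sqrt
    rw [div_mul_eq_mul_div, le_div_iff₀ hA]
    rw [hA0] at h
    linarith
  · rintro ⟨h3, h4⟩
    have h5 : 0 ≤ 1 - (n : ℝ) ^ 2 / (A * T) := by
      rw [sub_nonneg, div_le_one hAT]
      exact h3
    have h6 := pow_le_pow_left₀ (abs_nonneg _) h4 2
    rw [sq_abs, mul_pow, Real.sq_sqrt (by positivity), Real.sq_sqrt h5, div_mul_eq_mul_div,
      le_div_iff₀ hA] at h6
    rw [hA0]
    linarith

theorem lat_card {A : ℝ} (hA : 0 < A) (β : ℝ) {T : ℝ} (hT : 0 < T) :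
    Nat.card {v : ℤ × ℤ // qf A β v ≤ T} = ∑ n ∈ Finset.Icc (-⌊√(A * T)⌋) ⌊√(A * T)⌋,
      Nat.card {m : ℤ // |(m : ℝ) + β * n| ≤ √(T / A) * √(1 - (1 / √(A * T) * (n : ℝ)) ^ 2)} := by
  have hfin : ∀ n : {n // n ∈ Finset.Icc (-⌊√(A * T)⌋) ⌊√(A * T)⌋},
      Finite {m : ℤ // |(m : ℝ) + β * (n : ℤ)| ≤
        √(T / A) * √(1 - (1 / √(A * T) * ((n : ℤ) : ℝ)) ^ 2)} := by
    intro n
    exact (card_int (β * (n : ℤ)) _ (by positivity)).1.to_subtype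
  have e : {v : ℤ × ℤ // qf A β v ≤ T} ≃
      Σ n : {n // n ∈ Finset.Icc (-⌊√(A * T)⌋) ⌊√(A * T)⌋}, {m : ℤ // |(m : ℝ) + β * (n : ℤ)| ≤
        √(T / A) * √(1 - (1 / √(A * T) * ((n : ℤ) : ℝ)) ^ 2)} :=
    { toFun := fun v => ⟨⟨v.1.2, ((lat_row hA β hT v.1.1 v.1.2).mp v.2).1⟩,
        ⟨v.1.1, ((lat_row hA β hT v.1.1 v.1.2).mp v.2).2⟩⟩
      invFun := fun w => ⟨(w.2.1, w.1.1), (lat_row hA β hT w.2.1 w.1.1).mpr ⟨w.1.2, w.2.2⟩⟩
      left_inv := fun v => rfl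
      right_inv := fun w => rfl }
  rw [Nat.card_congr e, Nat.card_sigma]
  exact Finset.sum_coe_sort (Finset.Icc (-⌊√(A * T)⌋) ⌊√(A * T)⌋) (fun n : ℤ =>
    Nat.card {m : ℤ // |(m : ℝ) + β * n| ≤ √(T / A) * √(1 - (1 / √(A * T) * (n : ℝ)) ^ 2)})

theorem card_qf_le {A : ℝ} (hA : 0 < A) (β : ℝ) : ∃ C : ℝ, 0 ≤ C ∧ ∀ T : ℝ, 0 < T →
    |(Nat.card {v : ℤ × ℤ // qf A β v ≤ T} : ℝ) - π * T| ≤ C * (1 + √T) := by
  have hsA : 0 < √A := Real.sqrt_pos.mpr hA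
  refine ⟨2 / √A + 2 * √A + 1, by positivity, fun T hT => ?_⟩
  have hAT : 0 < A * T := mul_pos hA hT
  have hs0 : 0 < √(A * T) := Real.sqrt_pos.mpr hAT
  have hsT : 0 ≤ √T := Real.sqrt_nonneg _
  set S := ∑ n ∈ Finset.Icc (-⌊√(A * T)⌋) ⌊√(A * T)⌋, √(1 - (1 / √(A * T) * (n : ℝ)) ^ 2) with hS
  have h1 : |S - π * √(A * T) / 2| ≤ 1 := by
    have h2 := sum_sqrt (1 / √(A * T)) (by positivity)
    rw [one_div_one_div] at h2
    have e : π / (2 * (1 / √(A * T))) = π * √(A * T) / 2 := by field_simp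
    rwa [e] at h2
  have h2 : |(Nat.card {v : ℤ × ℤ // qf A β v ≤ T} : ℝ) - 2 * √(T / A) * S| ≤
      2 * √(A * T) + 1 := by
    rw [lat_card hA β hT, Nat.cast_sum, hS, Finset.mul_sum, ← Finset.sum_sub_distrib]
    calc |∑ n ∈ Finset.Icc (-⌊√(A * T)⌋) ⌊√(A * T)⌋,
        ((Nat.card {m : ℤ // |(m : ℝ) + β * n| ≤ √(T / A) * √(1 - (1 / √(A * T) * (n : ℝ)) ^ 2)} : ℝ) -
          2 * √(T / A) * √(1 - (1 / √(A * T) * (n : ℝ)) ^ 2))|
        ≤ ∑ n ∈ Finset.Icc (-⌊√(A * T)⌋) ⌊√(A * T)⌋,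
        |(Nat.card {m : ℤ // |(m : ℝ) + β * n| ≤ √(T / A) * √(1 - (1 / √(A * T) * (n : ℝ)) ^ 2)} : ℝ) -
          2 * √(T / A) * √(1 - (1 / √(A * T) * (n : ℝ)) ^ 2)| := Finset.abs_sum_le_sum_abs _ _
      _ ≤ ∑ n ∈ Finset.Icc (-⌊√(A * T)⌋) ⌊√(A * T)⌋, (1 : ℝ) := by
          apply Finset.sum_le_sum
          intro n _
          have h3 := (card_int (β * n) (√(T / A) * √(1 - (1 / √(A * T) * (n : ℝ)) ^ 2))
            (by positivity)).2
          rw [← mul_assoc] at h3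
          exact h3
      _ ≤ 2 * √(A * T) + 1 := by
          rw [Finset.sum_const, nsmul_eq_mul, mul_one, Int.card_Icc]
          have h4 : 0 ≤ ⌊√(A * T)⌋ := Int.floor_nonneg.mpr hs0.le
          have h5 : (((⌊√(A * T)⌋ + 1 - -⌊√(A * T)⌋).toNat : ℕ) : ℝ) =
              ((⌊√(A * T)⌋ + 1 - -⌊√(A * T)⌋ : ℤ) : ℝ) := by
            have : (((⌊√(A * T)⌋ + 1 - -⌊√(A * T)⌋).toNat : ℕ) : ℤ) =
              ⌊√(A * T)⌋ + 1 - -⌊√(A * T)⌋ := Int.toNat_of_nonneg (by omega)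
            exact_mod_cast this
          rw [h5]
          push_cast
          have h6 := Int.floor_le √(A * T)
          linarith
  have e1 : √(T / A) = √T / √A := Real.sqrt_div hT.le A
  have e2 : √(A * T) = √A * √T := Real.sqrt_mul hA.le T
  have hTT : √T * √T = T := Real.mul_self_sqrt hT.le
  have e3 : 2 * √(T / A) * (π * √(A * T) / 2) = π * T := by
    rw [e1, e2]
    calc 2 * (√T / √A) * (π * (√A * √T) / 2) = π * (√T * √T) * (√A / √A) := by ring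
      _ = π * T := by rw [hTT, div_self hsA.ne', mul_one]
  have h3 : |2 * √(T / A) * S - π * T| ≤ 2 * √(T / A) := by
    rw [← e3, ← mul_sub, abs_mul, abs_of_nonneg (by positivity : 0 ≤ 2 * √(T / A))]
    exact mul_le_of_le_one_right (by positivity) h1
  have h4 : |(Nat.card {v : ℤ × ℤ // qf A β v ≤ T} : ℝ) - π * T| ≤
      (2 * √(A * T) + 1) + 2 * √(T / A) := by
    have := abs_add_le ((Nat.card {v : ℤ × ℤ // qf A β v ≤ T} : ℝ) - 2 * √(T / A) * S)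
      (2 * √(T / A) * S - π * T)
    rw [sub_add_sub_cancel] at this
    linarith
  refine h4.trans ?_
  rw [e1, e2]
  have h5 : 0 ≤ 2 / √A + 2 * √A := by positivity
  have e4 : (2 / √A + 2 * √A + 1) * (1 + √T) =
      2 * (√A * √T) + 1 + 2 * (√T / √A) + (2 / √A + 2 * √A) + √T := by ring
  rw [e4]
  linarith

end Pool.Agent.H14.BK
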