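import Mathlib

/-!
# Integers in intervals and the Riemann sum of the half circle (job BK-LatA)

Proofs.

* `card_int`: the integers `m` with `|m + x| ≤ r` are those of `[-x - r, -x + r]`
  (`Set.Icc ⌈-x - r⌉ ⌊-x + r⌋`, `Int.card_Icc`); `b - a - 1 ≤ ⌊b⌋ - ⌈a⌉ + 1 ≤ b - a + 1`
  (`Int.lt_floor_add_one`, `Int.ceil_lt_add_one`, ...).  If the interval contains no integer, the
  cardinality is `0` and `⌊b⌋ - ⌈a⌉ + 1 ≥ 0` still (as `b ≥ a`, `⌊b⌋ ≥ ⌈a⌉ - 1`).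
* `integral_half`: `∫_0^{M} √(1 - (h x)²) dx = π / (4 h)` for `M ≥ 1 / h`: substitution
  (`intervalIntegral.integral_comp_mul_left`), `integral_sqrt_one_sub_sq`
  (`∫ x in (-1)..1, √(1 - x ^ 2) = π / 2`), evenness, and `√(negative) = 0` beyond `1 / h`.
* `sum_sqrt`: `f x = √(1 - (h x)²)` is antitone on `[0, ∞)` and `≤ 1`, `f 0 = 1`.  With
  `M = ⌊1/h⌋₊ + 1`: `∑_{i < M} f (i + 1) ≤ ∫_0^M f ≤ ∑_{i < M} f i`
  (`AntitoneOn.sum_le_integral`, `AntitoneOn.integral_le_sum`).  As `f M = 0`, with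
  `Σ = ∑_{n=1}^{M-1} f n` one gets `π/(4h) - 1 ≤ Σ ≤ π/(4h)`, and the sum over
  `-⌊1/h⌋ ≤ n ≤ ⌊1/h⌋` is `1 + 2 Σ`.
-/

open Real Finset

namespace Pool.Agent.H14.BK

theorem card_int (x r : ℝ) (hr : 0 ≤ r) :
    {m : ℤ | |(m : ℝ) + x| ≤ r}.Finite ∧
    |(Nat.card {m : ℤ // |(m : ℝ) + x| ≤ r} : ℝ) - 2 * r| ≤ 1 := by
  have hset : {m : ℤ | |(m : ℝ) + x| ≤ r} = Set.Icc ⌈-x - r⌉ ⌊-x + r⌋ := by
    ext m
    rw [Set.mem_ofPred_eq, Set.mem_Icc, Int.ceil_le, Int.le_floor, abs_le]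
    constructor
    · rintro ⟨h1, h2⟩
      constructor <;> linarith
    · rintro ⟨h1, h2⟩
      constructor <;> linarith
  have hfin : {m : ℤ | |(m : ℝ) + x| ≤ r}.Finite := by
    rw [hset]
    exact Set.finite_Icc _ _
  refine ⟨hfin, ?_⟩
  have h1 : Nat.card {m : ℤ // |(m : ℝ) + x| ≤ r} = (⌊-x + r⌋ + 1 - ⌈-x - r⌉).toNat := by
    have h2 : Nat.card {m : ℤ // |(m : ℝ) + x| ≤ r} = {m : ℤ | |(m : ℝ) + x| ≤ r}.ncard := rfl
    rw [h2, hset, ← Finset.coe_Icc, Set.ncard_coe_finset, Int.card_Icc]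
  have f1 := Int.floor_le (-x + r)
  have f2 := Int.lt_floor_add_one (-x + r)
  have f3 := Int.le_ceil (-x - r)
  have f4 := Int.ceil_lt_add_one (-x - r)
  have h3 : 0 ≤ ⌊-x + r⌋ + 1 - ⌈-x - r⌉ := by
    have h4 : (-1 : ℝ) < ((⌊-x + r⌋ + 1 - ⌈-x - r⌉ : ℤ) : ℝ) := by
      push_cast
      linarith
    have h5 : (-1 : ℤ) < ⌊-x + r⌋ + 1 - ⌈-x - r⌉ := by exact_mod_cast h4
    omega
  have h6 : ((Nat.card {m : ℤ // |(m : ℝ) + x| ≤ r} : ℕ) : ℝ) =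
      ((⌊-x + r⌋ + 1 - ⌈-x - r⌉ : ℤ) : ℝ) := by
    rw [h1]
    exact_mod_cast Int.toNat_of_nonneg h3
  rw [h6, abs_le]
  push_cast
  constructor <;> linarith

theorem integral_half (h : ℝ) (hh : 0 < h) (M : ℝ) (hM : 1 / h ≤ M) :
    ∫ x in (0 : ℝ)..M, √(1 - (h * x) ^ 2) = π / (4 * h) := by
  have hM' : 1 ≤ h * M := by
    rw [div_le_iff₀ hh] at hM
    linarith
  have hcont : Continuous fun x : ℝ => √(1 - x ^ 2) := by fun_prop
  have h1 : ∫ x in (0 : ℝ)..M, √(1 - (h * x) ^ 2) =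
      h⁻¹ * ∫ x in (0 : ℝ)..(h * M), √(1 - x ^ 2) := by
    rw [intervalIntegral.integral_comp_mul_left (fun x : ℝ => √(1 - x ^ 2)) hh.ne', mul_zero,
      smul_eq_mul]
  have h2 : ∫ x in (0 : ℝ)..(h * M), √(1 - x ^ 2) =
      (∫ x in (0 : ℝ)..1, √(1 - x ^ 2)) + ∫ x in (1 : ℝ)..(h * M), √(1 - x ^ 2) :=
    (intervalIntegral.integral_add_adjacent_intervals (hcont.intervalIntegrable _ _)
      (hcont.intervalIntegrable _ _)).symm
  have h3 : ∫ x in (1 : ℝ)..(h * M), √(1 - x ^ 2) = 0 := by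
    rw [intervalIntegral.integral_of_le hM']
    apply MeasureTheory.setIntegral_eq_zero_of_forall_eq_zero
    intro x hx
    apply Real.sqrt_eq_zero_of_nonpos
    nlinarith [hx.1]
  have h4 : ∫ x in (-1 : ℝ)..0, √(1 - x ^ 2) = ∫ x in (0 : ℝ)..1, √(1 - x ^ 2) := by
    have h5 := intervalIntegral.integral_comp_neg (a := (0 : ℝ)) (b := 1)
      (fun x : ℝ => √(1 - x ^ 2))
    simp only [neg_zero, even_two, Even.neg_pow] at h5
    exact h5.symm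
  have h5 : (∫ x in (-1 : ℝ)..0, √(1 - x ^ 2)) + ∫ x in (0 : ℝ)..1, √(1 - x ^ 2) = π / 2 := by
    rw [intervalIntegral.integral_add_adjacent_intervals (hcont.intervalIntegrable _ _)
      (hcont.intervalIntegrable _ _), integral_sqrt_one_sub_sq]
  rw [h4] at h5
  rw [h1, h2, h3, add_zero]
  have h6 : ∫ x in (0 : ℝ)..1, √(1 - x ^ 2) = π / 4 := by linarith
  rw [h6]
  field_simp

theorem sum_sqrt (h : ℝ) (hh : 0 < h) :
    |∑ n ∈ Icc (-⌊1 / h⌋) ⌊1 / h⌋, √(1 - (h * (n : ℝ)) ^ 2) - π / (2 * h)| ≤ 1 := by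
  have hpos : 0 < 1 / h := by positivity
  obtain ⟨N, hN⟩ := Int.eq_ofNat_of_zero_le (Int.floor_nonneg.2 hpos.le)
  have hN1 : (N : ℝ) ≤ 1 / h := by
    have := Int.floor_le (1 / h)
    rw [hN] at this
    exact_mod_cast this
  have hN2 : 1 / h < N + 1 := by
    have := Int.lt_floor_add_one (1 / h)
    rw [hN] at this
    exact_mod_cast this
  rw [hN]
  have heven : Function.Even (fun n : ℤ => √(1 - (h * (n : ℝ)) ^ 2)) := by
    intro n
    simp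
  have hsum := sum_Icc_of_even_eq_range heven N
  have e0 : ∑ n ∈ Icc (-(N : ℤ)) N, √(1 - (h * ((n : ℤ) : ℝ)) ^ 2) =
      2 * ∑ i ∈ range (N + 1), √(1 - (h * (i : ℝ)) ^ 2) - 1 := by
    rw [hsum]
    simp
  have hanti : AntitoneOn (fun x : ℝ => √(1 - (h * x) ^ 2))
      (Set.Icc (0 : ℝ) (0 + ((N + 1 : ℕ) : ℝ))) := by
    intro x hx y hy hxy
    apply Real.sqrt_le_sqrt
    have h1 : h * x ≤ h * y := mul_le_mul_of_nonneg_left hxy hh.le
    have h2 : 0 ≤ h * x := mul_nonneg hh.le hx.1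
    nlinarith
  have hI := integral_half h hh (0 + ((N + 1 : ℕ) : ℝ)) (by push_cast; linarith)
  have hup := hanti.sum_le_integral
  have hlo := hanti.integral_le_sum
  rw [hI] at hup hlo
  simp only [zero_add] at hup hlo
  -- the last term of the shifted sum vanishes
  have h0 : √(1 - (h * ((N + 1 : ℕ) : ℝ)) ^ 2) = 0 := by
    apply Real.sqrt_eq_zero_of_nonpos
    have h1 : 1 ≤ h * ((N + 1 : ℕ) : ℝ) := by
      push_cast
      rw [div_lt_iff₀ hh] at hN2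
      linarith
    nlinarith
  have hsplit : ∑ i ∈ range (N + 1), √(1 - (h * (i : ℝ)) ^ 2) =
      ∑ i ∈ range (N + 1), √(1 - (h * ((i + 1 : ℕ) : ℝ)) ^ 2) + 1 := by
    have h1 := Finset.sum_range_succ (fun i : ℕ => √(1 - (h * (i : ℝ)) ^ 2)) (N + 1)
    have h2 := Finset.sum_range_succ' (fun i : ℕ => √(1 - (h * (i : ℝ)) ^ 2)) (N + 1)
    rw [h0, add_zero] at h1
    rw [← h1, h2]
    simp
  have e1 : π / (2 * h) = 2 * (π / (4 * h)) := by
    field_simp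
    ring
  rw [e0, e1, abs_le]
  constructor <;> linarith

end Pool.Agent.H14.BK
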