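import Pool.Agent.H14.BK.Unf

/-!
# Continuity and decay of the theta series

`χ : Ideal (𝓞 K) →*₀ ℂ` with `‖χ I‖ ≤ 1` for all `I` (so `χ ⊥ = 0`), `R > 0`, `Θ(t) = TI χ R t`.

`TI_cont`: on `[t₀, ∞)` the terms are bounded by `exp (-(2 π t₀ / R) N I)`, summable by
`summable_exp`; `continuousOn_tsum` on each `Ioi t₀` (or `continuousAt` at every point).

`TI_decay`: `χ ⊥ = 0` and `N I ≥ 1` for the others, so for `t ≥ 1`, `a = 2 π / R`:
`‖Θ(t)‖ ≤ ∑_{I ≠ ⊥} exp (-a t N I) ≤ exp (-a (t - 1)) ∑_I exp (-a N I)`.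
-/


open NumberField Module
open scoped nonZeroDivisors ComplexConjugate
open Pool.Agent.H92.CG

namespace Pool.Agent.H14.BK

variable {K : Type*} [Field K] [NumberField K] [IsTotallyComplex K]

theorem TI_cont (h2 : finrank ℚ K = 2) {χ : Ideal (𝓞 K) →*₀ ℂ} (hχ : ∀ I, ‖χ I‖ ≤ 1) {R : ℝ}
    (hR : 0 < R) : ContinuousOn (TI χ R) (Set.Ioi 0) := by
  intro t ht
  have ht' : (0 : ℝ) < t := ht
  have hc : 0 < 2 * Real.pi * (t / 2) / R := by positivity
  have hon : ContinuousOn (TI χ R) (Set.Ioi (t / 2)) := by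
    refine continuousOn_tsum (u := fun I : Ideal (𝓞 K) =>
      Real.exp (-(2 * Real.pi * (t / 2) / R * (Ideal.absNorm I : ℝ)))) ?_ (summable_exp h2 hc) ?_
    · intro I
      refine Continuous.continuousOn ?_
      refine continuous_const.mul (Complex.continuous_ofReal.comp (Real.continuous_exp.comp ?_))
      fun_prop
    · intro I u hu
      have hu' : t / 2 < u := hu
      rw [norm_mul, Complex.norm_real, Real.norm_of_nonneg (Real.exp_pos _).le]
      refine (mul_le_of_le_one_left (Real.exp_pos _).le (hχ I)).trans (Real.exp_le_exp.2 ?_)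
      have h3 : 2 * Real.pi * (t / 2) / R * (Ideal.absNorm I : ℝ) ≤
          2 * Real.pi * u * (Ideal.absNorm I : ℝ) / R := by
        rw [div_mul_eq_mul_div]
        gcongr
      linarith
  exact (hon.continuousAt (Ioi_mem_nhds (by linarith))).continuousWithinAt

theorem TI_decay (h2 : finrank ℚ K = 2) {χ : Ideal (𝓞 K) →*₀ ℂ} (hχ : ∀ I, ‖χ I‖ ≤ 1) {R : ℝ}
    (hR : 0 < R) : ∃ c C : ℝ, 0 < c ∧ 0 < C ∧ ∀ t : ℝ, 1 ≤ t →
      ‖TI χ R t‖ ≤ C * Real.exp (-(c * t)) := by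
  set a : ℝ := 2 * Real.pi / R with ha
  have ha0 : 0 < a := by positivity
  have hs := summable_exp (K := K) h2 ha0
  set S : ℝ := ∑' I : Ideal (𝓞 K), Real.exp (-(a * (Ideal.absNorm I : ℝ))) with hS
  have hS0 : 0 < S := by
    refine lt_of_lt_of_le (Real.exp_pos _) (hs.le_tsum (⊥ : Ideal (𝓞 K)) fun I _ => (Real.exp_pos _).le)
  refine ⟨a, Real.exp a * S, ha0, by positivity, fun t ht => ?_⟩
  have hterm : ∀ I : Ideal (𝓞 K), ‖χ I *
      ((Real.exp (-(2 * Real.pi * t * (Ideal.absNorm I : ℝ) / R)) : ℝ) : ℂ)‖ ≤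
      Real.exp (-(a * (t - 1))) * Real.exp (-(a * (Ideal.absNorm I : ℝ))) := by
    intro I
    by_cases hI : I = ⊥
    · rw [hI, show χ (⊥ : Ideal (𝓞 K)) = 0 from map_zero χ, zero_mul, norm_zero]
      positivity
    · rw [norm_mul, Complex.norm_real, Real.norm_of_nonneg (Real.exp_pos _).le, ← Real.exp_add]
      refine (mul_le_of_le_one_left (Real.exp_pos _).le (hχ I)).trans (Real.exp_le_exp.2 ?_)
      have hN := one_le_absNorm hI
      have h3 : 2 * Real.pi * t * (Ideal.absNorm I : ℝ) / R = a * (t * (Ideal.absNorm I : ℝ)) := by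
        rw [ha]; ring
      rw [h3]
      have h4 : (t - 1) + (Ideal.absNorm I : ℝ) ≤ t * (Ideal.absNorm I : ℝ) := by nlinarith
      have h5 := mul_le_mul_of_nonneg_left h4 ha0.le
      linarith
  have hs2 := hs.mul_left (Real.exp (-(a * (t - 1))))
  have h3 : ‖TI χ R t‖ ≤ ∑' I : Ideal (𝓞 K),
      Real.exp (-(a * (t - 1))) * Real.exp (-(a * (Ideal.absNorm I : ℝ))) :=
    tsum_of_norm_bounded hs2.hasSum hterm
  rw [tsum_mul_left, ← hS] at h3
  refine h3.trans (le_of_eq ?_)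
  rw [show -(a * (t - 1)) = a + -(a * t) by ring, Real.exp_add]
  ring

end Pool.Agent.H14.BK
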