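import Pool.Agent.H14.BK.LvA

/-!
# The Mellin transform of the theta series

`χ : Ideal (𝓞 K) →*₀ ℂ` with `‖χ I‖ ≤ 1` for all `I` (so `χ ⊥ = 0`), `R > 0`, `Θ(t) = TI χ R t`.

`mellin_TI`: `hasSum_mellin` (Mathlib, `Mathlib/NumberTheory/LSeries/MellinEqDirichlet.lean`) with
`a I = χ I`, `p I = 2 π N I / R` over the index type `(Ideal (𝓞 K))⁰`:
for `1 < re s` `∑_I Γ(s) χ(I) (2 π N I / R)^(-s) = mellin Θ s`; the summability hypothesis is
`summable_rpow` (composed with the injection `(Ideal (𝓞 K))⁰ → Ideal (𝓞 K)`), and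
`HasSum (fun I => χ I * exp (-(p I) t)) (Θ t)` over the nonzero ideals is the sum over all ideals
as `χ ⊥ = 0` (`hasSum_subtype_iff_of_support_subset` or
`Function.Injective.hasSum_iff`).  `(2 π N I / R)^(-s) = (2 π / R)^(-s) (N I)^(-s)`
(`Complex.mul_cpow_ofReal_nonneg`).
-/


open NumberField Module
open scoped nonZeroDivisors ComplexConjugate
open Pool.Agent.H92.CG

namespace Pool.Agent.H14.BK

variable {K : Type*} [Field K] [NumberField K] [IsTotallyComplex K]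

omit [IsTotallyComplex K] in
theorem lvB_countable : Countable (Ideal (𝓞 K)) := by
  have h : (Set.univ : Set (Ideal (𝓞 K))) ⊆ ⋃ n : ℕ, {I : Ideal (𝓞 K) | Ideal.absNorm I ≤ n} := by
    intro I _
    refine Set.mem_iUnion.2 ⟨Ideal.absNorm I, ?_⟩
    show Ideal.absNorm I ≤ Ideal.absNorm I
    exact le_rfl
  rw [← Set.countable_univ_iff]
  exact (Set.countable_iUnion fun n => (Ideal.finite_setOfPred_absNorm_le n).countable).mono h

theorem mellin_TI (h2 : finrank ℚ K = 2) {χ : Ideal (𝓞 K) →*₀ ℂ} (hχ : ∀ I, ‖χ I‖ ≤ 1) {R : ℝ}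
    (hR : 0 < R) {s : ℂ} (hs : 1 < s.re) :
    HasSum (fun I : (Ideal (𝓞 K))⁰ => Complex.Gamma s * ((2 * Real.pi / R : ℝ) : ℂ) ^ (-s) *
      (χ (I : Ideal (𝓞 K)) * ((Ideal.absNorm (I : Ideal (𝓞 K)) : ℕ) : ℂ) ^ (-s)))
      (mellin (TI χ R) s) := by
  have hcount : Countable (Ideal (𝓞 K)) := lvB_countable
  have hne : ∀ I : (Ideal (𝓞 K))⁰, (I : Ideal (𝓞 K)) ≠ ⊥ := fun I =>
    nonZeroDivisors.ne_zero I.2
  have hp : 0 < 2 * Real.pi / R := by positivity
  have hF : ∀ t ∈ Set.Ioi (0 : ℝ), HasSum (fun I : (Ideal (𝓞 K))⁰ => χ (I : Ideal (𝓞 K)) *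
      ((Real.exp (-(2 * Real.pi / R * (Ideal.absNorm (I : Ideal (𝓞 K)) : ℝ)) * t) : ℝ) : ℂ))
      (TI χ R t) := by
    intro t ht
    have ht' : 0 < t := ht
    have hsum : Summable fun I : Ideal (𝓞 K) => χ I *
        ((Real.exp (-(2 * Real.pi * t * (Ideal.absNorm I : ℝ) / R)) : ℝ) : ℂ) := by
      apply Summable.of_norm_bounded
        (g := fun I : Ideal (𝓞 K) => Real.exp (-(2 * Real.pi * t / R * (Ideal.absNorm I : ℝ))))
        (summable_exp h2 (by positivity))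
      intro I
      rw [norm_mul, Complex.norm_real, Real.norm_eq_abs, Real.abs_exp]
      have e : 2 * Real.pi * t * (Ideal.absNorm I : ℝ) / R =
          2 * Real.pi * t / R * (Ideal.absNorm I : ℝ) := by ring
      rw [e]
      exact mul_le_of_le_one_left (Real.exp_pos _).le (hχ I)
    have h1 : HasSum (fun I : Ideal (𝓞 K) => χ I *
        ((Real.exp (-(2 * Real.pi * t * (Ideal.absNorm I : ℝ) / R)) : ℝ) : ℂ)) (TI χ R t) :=
      hsum.hasSum
    have h3 := (Function.Injective.hasSum_iff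
      (f := fun I : Ideal (𝓞 K) => χ I *
        ((Real.exp (-(2 * Real.pi * t * (Ideal.absNorm I : ℝ) / R)) : ℝ) : ℂ))
      (g := (Subtype.val : (Ideal (𝓞 K))⁰ → Ideal (𝓞 K))) Subtype.val_injective (by
        intro I hI
        have h0 : I = 0 := by
          by_contra hcon
          exact hI ⟨⟨I, mem_nonZeroDivisors_of_ne_zero hcon⟩, rfl⟩
        rw [h0, map_zero, zero_mul])).2 h1
    have e : (fun I : (Ideal (𝓞 K))⁰ => χ (I : Ideal (𝓞 K)) *
        ((Real.exp (-(2 * Real.pi / R * (Ideal.absNorm (I : Ideal (𝓞 K)) : ℝ)) * t) : ℝ) : ℂ)) =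
        (fun I : Ideal (𝓞 K) => χ I *
          ((Real.exp (-(2 * Real.pi * t * (Ideal.absNorm I : ℝ) / R)) : ℝ) : ℂ)) ∘
          (Subtype.val : (Ideal (𝓞 K))⁰ → Ideal (𝓞 K)) := by
      funext I
      simp only [Function.comp_apply]
      have e2 : -(2 * Real.pi / R * (Ideal.absNorm (I : Ideal (𝓞 K)) : ℝ)) * t =
          -(2 * Real.pi * t * (Ideal.absNorm (I : Ideal (𝓞 K)) : ℝ) / R) := by ring
      rw [e2]
    rw [e]
    exact h3
  have h_sum : Summable fun I : (Ideal (𝓞 K))⁰ => ‖χ (I : Ideal (𝓞 K))‖ /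
      (2 * Real.pi / R * (Ideal.absNorm (I : Ideal (𝓞 K)) : ℝ)) ^ s.re := by
    have h1 : Summable fun I : (Ideal (𝓞 K))⁰ => (2 * Real.pi / R) ^ (-s.re) *
        (Ideal.absNorm (I : Ideal (𝓞 K)) : ℝ) ^ (-s.re) :=
      ((summable_rpow h2 hs).comp_injective Subtype.val_injective).mul_left _
    refine Summable.of_nonneg_of_le (fun I => by positivity) (fun I => ?_) h1
    have hN := absNorm_pos (hne I)
    rw [Real.mul_rpow hp.le hN.le, Real.rpow_neg hp.le, Real.rpow_neg hN.le, ← mul_inv,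
      div_eq_mul_inv]
    exact mul_le_of_le_one_left (by positivity) (hχ _)
  have hmain := hasSum_mellin (a := fun I : (Ideal (𝓞 K))⁰ => χ (I : Ideal (𝓞 K)))
    (p := fun I => 2 * Real.pi / R * (Ideal.absNorm (I : Ideal (𝓞 K)) : ℝ)) (F := TI χ R) (s := s)
    (fun I => Or.inr (mul_pos hp (absNorm_pos (hne I)))) (by linarith) hF h_sum
  have e : (fun I : (Ideal (𝓞 K))⁰ => Complex.Gamma s * ((2 * Real.pi / R : ℝ) : ℂ) ^ (-s) *
      (χ (I : Ideal (𝓞 K)) * ((Ideal.absNorm (I : Ideal (𝓞 K)) : ℕ) : ℂ) ^ (-s))) =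
      fun I : (Ideal (𝓞 K))⁰ => Complex.Gamma s * χ (I : Ideal (𝓞 K)) /
        ((2 * Real.pi / R * (Ideal.absNorm (I : Ideal (𝓞 K)) : ℝ) : ℝ) : ℂ) ^ s := by
    funext I
    have hN := absNorm_pos (hne I)
    rw [Complex.ofReal_mul, Complex.mul_cpow_ofReal_nonneg hp.le hN.le, Complex.cpow_neg,
      Complex.cpow_neg, Complex.ofReal_natCast]
    rw [div_eq_mul_inv (Complex.Gamma s * χ (I : Ideal (𝓞 K))), mul_inv]
    ring
  rw [e]
  exact hmain

end Pool.Agent.H14.BK
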