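import Pool.Agent.H14.BK.LvB

/-!
# Existence of the L-function

`χ : Ideal (𝓞 K) →*₀ ℂ` with `‖χ I‖ ≤ 1` for all `I` (so `χ ⊥ = 0`), `R > 0`, `Θ(t) = TI χ R t`.

`lval_exists`: apply `WeakFEPair` / `StrongFEPair` (Mathlib,
`Mathlib/NumberTheory/LSeries/AbstractFuncEq.lean`) with `f = Θ`, `g = conj Θ`, `k = 1`, `ε = ω`,
`f₀ = g₀ = 0`: `hf_int` from `TI_cont`, `hf_top` from `TI_decay` (`O(exp (-c t)) = O(t^r)`, see
`Th_decay` in `H92/CG/Mellin.lean`), `h_feq` = the hypothesis `hfe`.  With `f₀ = g₀ = 0` one has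
`Λ = Λ₀`, entire, and `Λ s = mellin Θ s` for all `s` (`StrongFEPair.Λ_eq`, `hasMellin`).  Put
`L s = (2 π / R)^s (Gamma s)⁻¹ mellin Θ s`: entire (`Complex.differentiable_one_div_Gamma`), and for
`1 < re s` the sum of the series by `mellin_TI` (`Gamma s ≠ 0` there).
-/


open NumberField Module
open scoped nonZeroDivisors ComplexConjugate
open Pool.Agent.H92.CG

namespace Pool.Agent.H14.BK

variable {K : Type*} [Field K] [NumberField K] [IsTotallyComplex K]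

open Asymptotics Filter in
theorem lvC_top (h2 : finrank ℚ K = 2) {χ : Ideal (𝓞 K) →*₀ ℂ} (hχ : ∀ I, ‖χ I‖ ≤ 1) {R : ℝ}
    (hR : 0 < R) (r : ℝ) : (TI χ R) =O[atTop] (fun t : ℝ => t ^ r) := by
  obtain ⟨c, C, hc, hC, h⟩ := TI_decay h2 hχ hR
  have h1 : (TI χ R) =O[atTop] (fun t : ℝ => Real.exp (-c * t)) := by
    refine IsBigO.of_bound C ?_
    filter_upwards [eventually_ge_atTop 1] with t ht
    rw [Real.norm_of_nonneg (Real.exp_pos _).le, neg_mul]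
    exact h t ht
  exact h1.trans (isLittleO_exp_neg_mul_rpow_atTop hc r).isBigO

open Asymptotics Filter in
/-- the pair `Θ`, `conj Θ` -/
noncomputable def lvC_pair (h2 : finrank ℚ K = 2) {χ : Ideal (𝓞 K) →*₀ ℂ} (hχ : ∀ I, ‖χ I‖ ≤ 1)
    {R : ℝ} (hR : 0 < R) {ω : ℂ} (hω : ‖ω‖ = 1)
    (hfe : ∀ t : ℝ, 0 < t → TI χ R (1 / t) = ω * t * conj (TI χ R t)) : WeakFEPair ℂ where
  f := TI χ R
  g := fun t => conj (TI χ R t)
  k := 1
  ε := ω
  f₀ := 0
  g₀ := 0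
  hf_int := (TI_cont h2 hχ hR).locallyIntegrableOn measurableSet_Ioi
  hg_int := (Complex.continuous_conj.comp_continuousOn (TI_cont h2 hχ hR)).locallyIntegrableOn
    measurableSet_Ioi
  hk := one_pos
  hε := by
    intro h
    rw [h, norm_zero] at hω
    exact zero_ne_one hω
  h_feq := by
    intro x hx
    rw [hfe x hx, Real.rpow_one, smul_eq_mul]
  hf_top := by
    intro r
    simp only [sub_zero]
    exact lvC_top h2 hχ hR r
  hg_top := by
    intro r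
    simp only [sub_zero]
    refine IsBigO.of_norm_left ?_
    have h1 : (fun t => ‖conj (TI χ R t)‖) = fun t => ‖TI χ R t‖ := by
      funext t
      exact RCLike.norm_conj _
    rw [h1]
    exact (lvC_top h2 hχ hR r).norm_left

theorem lvC_strong (h2 : finrank ℚ K = 2) {χ : Ideal (𝓞 K) →*₀ ℂ} (hχ : ∀ I, ‖χ I‖ ≤ 1)
    {R : ℝ} (hR : 0 < R) {ω : ℂ} (hω : ‖ω‖ = 1)
    (hfe : ∀ t : ℝ, 0 < t → TI χ R (1 / t) = ω * t * conj (TI χ R t)) :
    IsStrongFEPair (lvC_pair h2 hχ hR hω hfe) := ⟨rfl, rfl⟩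

theorem lval_exists (h2 : finrank ℚ K = 2) {χ : Ideal (𝓞 K) →*₀ ℂ} (hχ : ∀ I, ‖χ I‖ ≤ 1) {R : ℝ}
    (hR : 0 < R) {ω : ℂ} (hω : ‖ω‖ = 1)
    (hfe : ∀ t : ℝ, 0 < t → TI χ R (1 / t) = ω * t * conj (TI χ R t)) :
    IsRayL χ (fun s => ((2 * Real.pi / R : ℝ) : ℂ) ^ s * (Complex.Gamma s)⁻¹ *
      mellin (TI χ R) s) := by
  have hp : 0 < 2 * Real.pi / R := by positivity
  have hp' : ((2 * Real.pi / R : ℝ) : ℂ) ≠ 0 := Complex.ofReal_ne_zero.2 hp.ne'
  have hstr := lvC_strong h2 hχ hR hω hfe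
  have hm : Differentiable ℂ (mellin (TI χ R)) := by
    have h1 := hstr.differentiable_Λ
    rw [hstr.Λ_eq] at h1
    exact h1
  refine ⟨?_, ?_⟩
  · refine Differentiable.mul (Differentiable.mul ?_ ?_) hm
    · exact differentiable_id.const_cpow (Or.inl hp')
    · exact Complex.differentiable_one_div_Gamma
  · intro s hs
    have hG : Complex.Gamma s ≠ 0 := Complex.Gamma_ne_zero_of_re_pos (by linarith)
    have h1 := (mellin_TI h2 hχ hR hs).mul_left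
      (((2 * Real.pi / R : ℝ) : ℂ) ^ s * (Complex.Gamma s)⁻¹)
    refine h1.congr_fun ?_
    intro I
    have hc : ((2 * Real.pi / R : ℝ) : ℂ) ^ s ≠ 0 := by
      rw [Ne, Complex.cpow_eq_zero_iff]
      exact fun h => hp' h.1
    have hcc : ((2 * Real.pi / R : ℝ) : ℂ) ^ s * ((2 * Real.pi / R : ℝ) : ℂ) ^ (-s) = 1 := by
      rw [Complex.cpow_neg, mul_inv_cancel₀ hc]
    have hgg : (Complex.Gamma s)⁻¹ * Complex.Gamma s = 1 := inv_mul_cancel₀ hG
    generalize χ (I : Ideal (𝓞 K)) * ((Ideal.absNorm (I : Ideal (𝓞 K)) : ℕ) : ℂ) ^ (-s) = x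
    calc x = (((2 * Real.pi / R : ℝ) : ℂ) ^ s * ((2 * Real.pi / R : ℝ) : ℂ) ^ (-s)) *
        ((Complex.Gamma s)⁻¹ * Complex.Gamma s) * x := by rw [hcc, hgg, one_mul, one_mul]
      _ = _ := by ring

end Pool.Agent.H14.BK
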