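import Pool.Agent.H14.BK.RayDef

/-!
# Cardinality of the ray class group (job BK-RayCard)

`K` is any number field, `𝔭` a nonzero prime ideal.  `RW 𝔭 h𝔭` is the ray class group modulo `𝔭`
with a zero added (`RayDef.lean`).  The exact sequence
`(𝓞 K)ˣ → (𝓞 K ⧸ 𝔭)ˣ → (RW 𝔭 h𝔭)ˣ → ClassGroup (𝓞 K)`.

Proofs.

* `exists_toClass`: for `u : (RW 𝔭 h𝔭)ˣ` choose (`rcl_surj`) an ideal `I u` with
  `rcl 𝔭 h𝔭 (I u) = u`; as `u ≠ 0`, `¬ 𝔭 ∣ I u` (`rcl_eq_zero_iff`), so `I u ≠ 0`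
  (`dvd_zero`), and put `φ u = mk0 ⟨I u, _⟩`.  If `rcl I = rcl J ≠ 0` then `RayRel 𝔭 I J` gives
  `(a) I = (b) J` with `a, b ≠ 0` (`a ∉ 𝔭`), hence `mk0 I = mk0 J` (`ClassGroup.mk0_eq_mk0_iff`).
  This gives multiplicativity (`I (u v)` and `I u * I v` have the same class in `RW`) and the
  formula.
* `exists_ofRes`: for `x : (𝓞 K ⧸ 𝔭)ˣ` choose `a x : 𝓞 K` with `mk (a x) = x`; `a x ∉ 𝔭`;
  `θ x = Units.mk0 (rcl (span {a x})) _`.  If `a, a' ∉ 𝔭`, `a - a' ∈ 𝔭` then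
  `rcl (span {a}) = rcl (span {a'})`: `RayRel` with the multipliers `a'` and `a`:
  `span {a'} * span {a} = span {a} * span {a'}`.
* `ker_toClass_le`: let `φ u = 1`, `u = rcl I`; then `I` is principal (`ClassGroup.mk0_eq_one_iff`),
  `I = (a)`, `a ∉ 𝔭`, so `u = rcl (span {a}) = θ (unit of mk a)` (`𝔭` is maximal, so `mk a ≠ 0` is a
  unit).
* `ker_ofRes`: if `θ x = 1`, `x = mk a`, then `RayRel 𝔭 (span {a}) 1`: `(c)(a) = (d)`, `c - d ∈ 𝔭`,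
  `c ∉ 𝔭`; `Ideal.span_singleton_eq_span_singleton` gives `c a ε = d` for a unit `ε`; modulo `𝔭`:
  `c a ε = c`, so `a ε = 1` in the field `𝓞 K ⧸ 𝔭`, `mk a = mk ε⁻¹`.
* `finite_units_RW`, `card_le`: `φ` has finite image and its kernel is contained in `range θ`, which
  is finite; `Nat.card G = Nat.card (G ⧸ ker) * Nat.card ker`,
  `Nat.card (G ⧸ ker φ) ≤ Nat.card (ClassGroup)`, `Nat.card ker ≤ Nat.card (𝓞 K ⧸ 𝔭)ˣ ≤ absNorm 𝔭`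
  (`Nat.card (𝓞 K ⧸ 𝔭) = absNorm 𝔭`: `Ideal.absNorm_apply`, `Submodule.cardQuot_apply`).
* `finite_RW`: `RW = {0} ∪ units`.
* `le_card`: `absNorm 𝔭 - 1 = Nat.card (𝓞 K ⧸ 𝔭)ˣ = Nat.card (range θ) * Nat.card (ker θ)`, and
  `ker θ` is contained in the image of `(𝓞 K)ˣ`.
-/

open NumberField
open scoped nonZeroDivisors

namespace Pool.Agent.H14.BK

variable {K : Type*} [Field K] [NumberField K] {𝔭 : Ideal (𝓞 K)}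

lemma rayCard_inv (h𝔭 : Prime 𝔭) {a : 𝓞 K} (ha : a ∉ 𝔭) : ∃ d : 𝓞 K, a * d - 1 ∈ 𝔭 := by
  have hP := Ideal.isPrime_of_prime h𝔭
  have hmax : 𝔭.IsMaximal := hP.isMaximal h𝔭.ne_zero
  obtain ⟨d, i, hi, hdi⟩ := hmax.exists_inv ha
  refine ⟨d, ?_⟩
  have : a * d - 1 = - i := by linear_combination hdi
  rw [this]
  exact 𝔭.neg_mem hi

lemma rayCard_one (h𝔭 : Prime 𝔭) : (1 : 𝓞 K) ∉ 𝔭 := by
  have hP := Ideal.isPrime_of_prime h𝔭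
  exact fun h1 => hP.ne_top ((Ideal.eq_top_iff_one 𝔭).mpr h1)

lemma rayCard_ne (h𝔭 : Prime 𝔭) {I : Ideal (𝓞 K)} (h : rcl 𝔭 h𝔭 I ≠ 0) : I ≠ 0 := by
  rintro rfl
  exact h ((rcl_eq_zero_iff _).2 (dvd_zero 𝔭))

lemma rayCard_rel (h𝔭 : Prime 𝔭) {I J : Ideal (𝓞 K)} (h : rcl 𝔭 h𝔭 I = rcl 𝔭 h𝔭 J)
    (h0 : rcl 𝔭 h𝔭 I ≠ 0) : ∃ a b : 𝓞 K, a ∉ 𝔭 ∧ b ∉ 𝔭 ∧ a - b ∈ 𝔭 ∧
      Ideal.span {a} * I = Ideal.span {b} * J := by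
  rw [rcl_eq_iff] at h
  rcases h with h | h
  · exact absurd ((rcl_eq_zero_iff _).2 h.1) h0
  · exact h.2.2

lemma rayCard_mk0 (h𝔭 : Prime 𝔭) {I J : (Ideal (𝓞 K))⁰}
    (h : rcl 𝔭 h𝔭 (I : Ideal (𝓞 K)) = rcl 𝔭 h𝔭 (J : Ideal (𝓞 K)))
    (h0 : rcl 𝔭 h𝔭 (I : Ideal (𝓞 K)) ≠ 0) : ClassGroup.mk0 I = ClassGroup.mk0 J := by
  obtain ⟨a, b, ha, hb, -, hab⟩ := rayCard_rel h𝔭 h h0
  refine ClassGroup.mk0_eq_mk0_iff.2 ⟨a, b, ?_, ?_, hab⟩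
  · rintro rfl
    exact ha 𝔭.zero_mem
  · rintro rfl
    exact hb 𝔭.zero_mem

/-- the ideal class of a ray class -/
theorem exists_toClass (h𝔭 : Prime 𝔭) : ∃ φ : (RW 𝔭 h𝔭)ˣ →* ClassGroup (𝓞 K),
    ∀ (I : (Ideal (𝓞 K))⁰) (u : (RW 𝔭 h𝔭)ˣ), (u : RW 𝔭 h𝔭) = rcl 𝔭 h𝔭 I →
      φ u = ClassGroup.mk0 I := by
  choose I hI using fun u : (RW 𝔭 h𝔭)ˣ => rcl_surj (u : RW 𝔭 h𝔭)
  have h0 : ∀ u, rcl 𝔭 h𝔭 (I u) ≠ 0 := fun u => by rw [hI]; exact u.ne_zero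
  have hne : ∀ u, I u ∈ (Ideal (𝓞 K))⁰ := fun u =>
    mem_nonZeroDivisors_of_ne_zero (rayCard_ne h𝔭 (h0 u))
  refine ⟨MonoidHom.mk' (fun u => ClassGroup.mk0 ⟨I u, hne u⟩) ?_, ?_⟩
  · intro u v
    rw [← map_mul]
    apply rayCard_mk0 h𝔭
    · change rcl 𝔭 h𝔭 (I (u * v)) = rcl 𝔭 h𝔭 (I u * I v)
      rw [rcl_mul, hI, hI, hI, Units.val_mul]
    · exact h0 _
  · intro J u hu
    change ClassGroup.mk0 ⟨I u, hne u⟩ = _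
    apply rayCard_mk0 h𝔭
    · rw [← hu]
      exact hI u
    · exact h0 _

lemma rayCard_span (h𝔭 : Prime 𝔭) {a a' : 𝓞 K} (ha : a ∉ 𝔭) (ha' : a' ∉ 𝔭) (h : a - a' ∈ 𝔭) :
    rcl 𝔭 h𝔭 (Ideal.span {a}) = rcl 𝔭 h𝔭 (Ideal.span {a'}) := by
  rw [rcl_eq_iff]
  refine Or.inr ⟨?_, ?_, a', a, ha', ha, ?_, mul_comm _ _⟩
  · rwa [Ideal.dvd_span_singleton]
  · rwa [Ideal.dvd_span_singleton]
  · rw [← neg_sub]
    exact 𝔭.neg_mem h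

lemma rayCard_notmem (h𝔭 : Prime 𝔭) {a : 𝓞 K} {x : (𝓞 K ⧸ 𝔭)ˣ}
    (h : (x : 𝓞 K ⧸ 𝔭) = Ideal.Quotient.mk 𝔭 a) : a ∉ 𝔭 := by
  have hP := Ideal.isPrime_of_prime h𝔭
  intro ha
  rw [Ideal.Quotient.eq_zero_iff_mem.2 ha] at h
  have : Nontrivial (𝓞 K ⧸ 𝔭) := Ideal.Quotient.nontrivial_iff.2 hP.ne_top
  exact x.ne_zero h

/-- the ray class of a residue class -/
theorem exists_ofRes (h𝔭 : Prime 𝔭) : ∃ θ : (𝓞 K ⧸ 𝔭)ˣ →* (RW 𝔭 h𝔭)ˣ,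
    ∀ (a : 𝓞 K) (x : (𝓞 K ⧸ 𝔭)ˣ), (x : 𝓞 K ⧸ 𝔭) = Ideal.Quotient.mk 𝔭 a →
      (θ x : RW 𝔭 h𝔭) = rcl 𝔭 h𝔭 (Ideal.span {a}) := by
  choose a ha using fun x : (𝓞 K ⧸ 𝔭)ˣ => Ideal.Quotient.mk_surjective (x : 𝓞 K ⧸ 𝔭)
  have hne : ∀ x, a x ∉ 𝔭 := fun x => rayCard_notmem h𝔭 (ha x).symm
  have h0 : ∀ x, rcl 𝔭 h𝔭 (Ideal.span {a x}) ≠ 0 := by
    intro x
    rw [Ne, rcl_eq_zero_iff, Ideal.dvd_span_singleton]
    exact hne x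
  refine ⟨MonoidHom.mk' (fun x => Units.mk0 _ (h0 x)) ?_, ?_⟩
  · intro x y
    apply Units.ext
    rw [Units.val_mul, Units.val_mk0, Units.val_mk0, Units.val_mk0, ← rcl_mul,
      Ideal.span_singleton_mul_span_singleton]
    apply rayCard_span h𝔭 (hne _) (not_mem_mul h𝔭 (hne _) (hne _))
    rw [← Ideal.Quotient.eq, map_mul, ha, ha, ha, Units.val_mul]
  · intro b x hx
    change rcl 𝔭 h𝔭 (Ideal.span {a x}) = _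
    apply rayCard_span h𝔭 (hne _) (rayCard_notmem h𝔭 hx)
    rw [← Ideal.Quotient.eq, ha, hx]

/-- the ideal class of a ray class -/
noncomputable def toClass (h𝔭 : Prime 𝔭) : (RW 𝔭 h𝔭)ˣ →* ClassGroup (𝓞 K) :=
  (exists_toClass h𝔭).choose

lemma toClass_eq (h𝔭 : Prime 𝔭) (I : (Ideal (𝓞 K))⁰) (u : (RW 𝔭 h𝔭)ˣ)
    (h : (u : RW 𝔭 h𝔭) = rcl 𝔭 h𝔭 I) : toClass h𝔭 u = ClassGroup.mk0 I :=
  (exists_toClass h𝔭).choose_spec I u h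

/-- the ray class of a residue class -/
noncomputable def ofRes (h𝔭 : Prime 𝔭) : (𝓞 K ⧸ 𝔭)ˣ →* (RW 𝔭 h𝔭)ˣ := (exists_ofRes h𝔭).choose

lemma ofRes_eq (h𝔭 : Prime 𝔭) (a : 𝓞 K) (x : (𝓞 K ⧸ 𝔭)ˣ)
    (h : (x : 𝓞 K ⧸ 𝔭) = Ideal.Quotient.mk 𝔭 a) :
    (ofRes h𝔭 x : RW 𝔭 h𝔭) = rcl 𝔭 h𝔭 (Ideal.span {a}) :=
  (exists_ofRes h𝔭).choose_spec a x h

lemma rayCard_unit (h𝔭 : Prime 𝔭) {a : 𝓞 K} (ha : a ∉ 𝔭) :
    ∃ x : (𝓞 K ⧸ 𝔭)ˣ, (x : 𝓞 K ⧸ 𝔭) = Ideal.Quotient.mk 𝔭 a := by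
  obtain ⟨d, hd⟩ := rayCard_inv h𝔭 ha
  have h1 : Ideal.Quotient.mk 𝔭 a * Ideal.Quotient.mk 𝔭 d = 1 := by
    rw [← map_mul, ← map_one (Ideal.Quotient.mk 𝔭), Ideal.Quotient.eq]
    exact hd
  exact ⟨⟨Ideal.Quotient.mk 𝔭 a, Ideal.Quotient.mk 𝔭 d, h1, by rw [mul_comm]; exact h1⟩, rfl⟩

theorem ker_toClass_le (h𝔭 : Prime 𝔭) : (toClass h𝔭).ker ≤ (ofRes h𝔭).range := by
  intro u hu
  rw [MonoidHom.mem_ker] at hu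
  obtain ⟨I, hI⟩ := rcl_surj (u : RW 𝔭 h𝔭)
  have h0 : rcl 𝔭 h𝔭 I ≠ 0 := by rw [hI]; exact u.ne_zero
  have hmem : I ∈ (Ideal (𝓞 K))⁰ := mem_nonZeroDivisors_of_ne_zero (rayCard_ne h𝔭 h0)
  rw [toClass_eq h𝔭 ⟨I, hmem⟩ u hI.symm, ClassGroup.mk0_eq_one_iff hmem] at hu
  obtain ⟨a, ha⟩ := hu
  have ha' : I = Ideal.span {a} := ha
  have hap : a ∉ 𝔭 := by
    intro h
    apply h0
    rw [rcl_eq_zero_iff, ha', Ideal.dvd_span_singleton]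
    exact h
  obtain ⟨x, hx⟩ := rayCard_unit h𝔭 hap
  refine ⟨x, Units.ext ?_⟩
  rw [ofRes_eq h𝔭 a x hx, ← ha', hI]

theorem ofRes_mem_ker (h𝔭 : Prime 𝔭) : (ofRes h𝔭).range ≤ (toClass h𝔭).ker := by
  rintro _ ⟨x, rfl⟩
  obtain ⟨a, ha⟩ := Ideal.Quotient.mk_surjective (x : 𝓞 K ⧸ 𝔭)
  have hap : a ∉ 𝔭 := rayCard_notmem h𝔭 ha.symm
  have hmem : Ideal.span {a} ∈ (Ideal (𝓞 K))⁰ := by
    apply mem_nonZeroDivisors_of_ne_zero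
    intro h
    rw [Ideal.zero_eq_bot, Ideal.span_singleton_eq_bot] at h
    exact hap (h ▸ 𝔭.zero_mem)
  rw [MonoidHom.mem_ker, toClass_eq h𝔭 ⟨Ideal.span {a}, hmem⟩ _ (ofRes_eq h𝔭 a x ha.symm),
    ClassGroup.mk0_eq_one_iff hmem]
  exact ⟨a, rfl⟩

theorem ker_ofRes (h𝔭 : Prime 𝔭) (x : (𝓞 K ⧸ 𝔭)ˣ) (hx : ofRes h𝔭 x = 1) :
    ∃ ε : (𝓞 K)ˣ, (x : 𝓞 K ⧸ 𝔭) = Ideal.Quotient.mk 𝔭 (ε : 𝓞 K) := by
  have hP := Ideal.isPrime_of_prime h𝔭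
  obtain ⟨a, ha⟩ := Ideal.Quotient.mk_surjective (x : 𝓞 K ⧸ 𝔭)
  have h1 : rcl 𝔭 h𝔭 (Ideal.span {a}) = rcl 𝔭 h𝔭 1 := by
    rw [← ofRes_eq h𝔭 a x ha.symm, hx, rcl_one, Units.val_one]
  have h0 : rcl 𝔭 h𝔭 (Ideal.span {a}) ≠ 0 := by
    rw [← ofRes_eq h𝔭 a x ha.symm]
    exact Units.ne_zero _
  obtain ⟨c, d, hc, hd, hcd, h⟩ := rayCard_rel h𝔭 h1 h0
  rw [mul_one, Ideal.span_singleton_mul_span_singleton, Ideal.span_singleton_eq_span_singleton] at h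
  obtain ⟨ε, hε⟩ := h
  refine ⟨ε⁻¹, ?_⟩
  rw [← ha, Ideal.Quotient.eq]
  have h2 : c * (a * ε - 1) ∈ 𝔭 := by
    have h3 : c * (a * ε - 1) = -(c - d) := by
      rw [← hε]
      ring
    rw [h3]
    exact 𝔭.neg_mem hcd
  have h4 : a * ε - 1 ∈ 𝔭 := (hP.mem_or_mem h2).resolve_left hc
  have h5 : a - ((ε⁻¹ : (𝓞 K)ˣ) : 𝓞 K) = ((ε⁻¹ : (𝓞 K)ˣ) : 𝓞 K) * (a * ε - 1) := by
    have h6 : ((ε⁻¹ : (𝓞 K)ˣ) : 𝓞 K) * (ε : 𝓞 K) = 1 := ε.inv_mul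
    linear_combination -a * h6
  rw [h5]
  exact 𝔭.mul_mem_left _ h4

lemma rayCard_finRes (h𝔭 : Prime 𝔭) : Finite (𝓞 K ⧸ 𝔭) :=
  Ideal.finiteQuotientOfFreeOfNeBot 𝔭 h𝔭.ne_zero

lemma rayCard_norm : Nat.card (𝓞 K ⧸ 𝔭) = Ideal.absNorm 𝔭 := by
  rw [Ideal.absNorm_apply, Submodule.cardQuot_apply]

lemma rayCard_ranfin (h𝔭 : Prime 𝔭) : Finite (ofRes h𝔭).range := by
  have := rayCard_finRes h𝔭
  have h0 : Finite (𝓞 K ⧸ 𝔭)ˣ := Finite.of_injective _ Units.val_injective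
  exact Finite.of_surjective _ (ofRes h𝔭).rangeRestrict_surjective

lemma rayCard_kerfin (h𝔭 : Prime 𝔭) : Finite (toClass h𝔭).ker := by
  have h1 := rayCard_ranfin h𝔭
  exact Finite.of_injective (Subgroup.inclusion (ker_toClass_le h𝔭))
    (Subgroup.inclusion_injective _)

lemma rayCard_quofin (h𝔭 : Prime 𝔭) : Finite ((RW 𝔭 h𝔭)ˣ ⧸ (toClass h𝔭).ker) :=
  Finite.of_injective _ (QuotientGroup.kerLift_injective (toClass h𝔭))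

lemma rayCard_finU (h𝔭 : Prime 𝔭) : Finite (RW 𝔭 h𝔭)ˣ := by
  have h1 := rayCard_kerfin h𝔭
  have h2 := rayCard_quofin h𝔭
  exact Finite.of_equiv _ (Subgroup.groupEquivQuotientProdSubgroup (s := (toClass h𝔭).ker)).symm

theorem finite_RW (h𝔭 : Prime 𝔭) : Finite (RW 𝔭 h𝔭) := by
  have := rayCard_finU h𝔭
  classical
  refine Finite.of_surjective (fun o : Option (RW 𝔭 h𝔭)ˣ => o.elim 0 (fun u => (u : RW 𝔭 h𝔭))) ?_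
  intro x
  by_cases hx : x = 0
  · exact ⟨none, hx.symm⟩
  · exact ⟨some (Units.mk0 x hx), rfl⟩

theorem card_RW_le (h𝔭 : Prime 𝔭) :
    Nat.card (RW 𝔭 h𝔭)ˣ ≤ Nat.card (ClassGroup (𝓞 K)) * Ideal.absNorm 𝔭 := by
  have := rayCard_finRes h𝔭
  have := rayCard_ranfin h𝔭
  have : Finite (𝓞 K ⧸ 𝔭)ˣ := Finite.of_injective _ Units.val_injective
  rw [Subgroup.card_eq_card_quotient_mul_card_subgroup (toClass h𝔭).ker]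
  refine Nat.mul_le_mul ?_ ?_
  · exact Nat.card_le_card_of_injective _ (QuotientGroup.kerLift_injective (toClass h𝔭))
  · calc Nat.card (toClass h𝔭).ker ≤ Nat.card (ofRes h𝔭).range :=
          Nat.card_le_card_of_injective (Subgroup.inclusion (ker_toClass_le h𝔭))
            (Subgroup.inclusion_injective _)
      _ ≤ Nat.card (𝓞 K ⧸ 𝔭)ˣ :=
          Nat.card_le_card_of_surjective _ (ofRes h𝔭).rangeRestrict_surjective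
      _ ≤ Nat.card (𝓞 K ⧸ 𝔭) := Nat.card_le_card_of_injective _ Units.val_injective
      _ = Ideal.absNorm 𝔭 := rayCard_norm

theorem le_card_RW (h𝔭 : Prime 𝔭) (hU : Finite (𝓞 K)ˣ) :
    Ideal.absNorm 𝔭 ≤ Nat.card (𝓞 K)ˣ * Nat.card (RW 𝔭 h𝔭)ˣ + 1 := by
  classical
  have := rayCard_finRes h𝔭
  have := rayCard_finU h𝔭
  have h1 : Nat.card (𝓞 K ⧸ 𝔭) ≤ Nat.card (Option (𝓞 K ⧸ 𝔭)ˣ) := by
    refine Nat.card_le_card_of_surjective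
      (fun o : Option (𝓞 K ⧸ 𝔭)ˣ => o.elim 0 (fun u => (u : 𝓞 K ⧸ 𝔭))) ?_
    intro x
    obtain ⟨a, rfl⟩ := Ideal.Quotient.mk_surjective x
    by_cases ha : a ∈ 𝔭
    · exact ⟨none, (Ideal.Quotient.eq_zero_iff_mem.2 ha).symm⟩
    · obtain ⟨u, hu⟩ := rayCard_unit h𝔭 ha
      exact ⟨some u, hu⟩
  rw [Finite.card_option, rayCard_norm] at h1
  refine h1.trans (Nat.add_le_add_right ?_ 1)
  rw [Subgroup.card_eq_card_quotient_mul_card_subgroup (ofRes h𝔭).ker, mul_comm]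
  refine Nat.mul_le_mul ?_ ?_
  · choose ε hε using fun x : (ofRes h𝔭).ker => ker_ofRes h𝔭 x.1 x.2
    refine Nat.card_le_card_of_injective ε ?_
    intro x y hxy
    apply Subtype.ext
    apply Units.ext
    rw [hε, hε, hxy]
  · exact Nat.card_le_card_of_injective _ (QuotientGroup.kerLift_injective (ofRes h𝔭))

/-- an ideal which is prime to `𝔭` in every ideal class which meets the image of `toClass`; in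
particular in the class of any ideal prime to `𝔭` -/
theorem exists_inv_principal (h𝔭 : Prime 𝔭) (I : Ideal (𝓞 K)) (hI : ¬ 𝔭 ∣ I) :
    ∃ (J : Ideal (𝓞 K)) (c : 𝓞 K), ¬ 𝔭 ∣ J ∧ I * J = Ideal.span {c} ∧ c - 1 ∈ 𝔭 := by
  obtain ⟨J, hJ⟩ := exists_inv h𝔭 I hI
  rw [← rcl_mul, ← rcl_one] at hJ
  have h0 : rcl 𝔭 h𝔭 (I * J) ≠ 0 := by
    rw [hJ, rcl_one]
    exact one_ne_zero
  obtain ⟨a, b, ha, hb, hab, h⟩ := rayCard_rel h𝔭 hJ h0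
  rw [mul_one] at h
  obtain ⟨d, hd⟩ := rayCard_inv h𝔭 ha
  have hc : b * d - 1 ∈ 𝔭 := by
    have h1 : b * d - 1 = (a * d - 1) - (a - b) * d := by ring
    rw [h1]
    exact 𝔭.sub_mem hd (𝔭.mul_mem_right _ hab)
  have hIJ : I * (J * Ideal.span {a * d}) = Ideal.span {b * d} := by
    rw [← Ideal.span_singleton_mul_span_singleton, ← Ideal.span_singleton_mul_span_singleton, ← h]
    ring
  refine ⟨J * Ideal.span {a * d}, b * d, ?_, hIJ, hc⟩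
  intro hdvd
  have h2 : 𝔭 ∣ Ideal.span {b * d} := by
    rw [← hIJ]
    exact hdvd.mul_left _
  rw [Ideal.dvd_span_singleton] at h2
  apply rayCard_one h𝔭
  have h3 := 𝔭.sub_mem h2 hc
  rwa [sub_sub_cancel] at h3

end Pool.Agent.H14.BK
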