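import Pool.Agent.H14.BK.Packing
import Pool.Agent.H14.BK.RayCard
import Pool.Agent.H92.CG.Partial

/-!
# Fractions in a ray class (job BK-Slope)

`K` is imaginary quadratic, `𝔭` a nonzero prime ideal, `P` a finite set of pairs `(I, J)` of coprime
nonzero ideals with `[I] = c [J]` in the ray class group.

* `slope_data`: let `𝔠` be an ideal with `rcl 𝔠 = c`, `c ≠ 0`.  If `IsCoprime I J` and
  `rcl I = c * rcl J` then `𝔭` divides neither `I` nor `J` (if `rcl J = 0` then `rcl I = 0` and `𝔭`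
  divides both; if `rcl I = 0` then `rcl J = 0`, as `c ≠ 0`), so `rcl I = rcl (𝔠 * J) ≠ 0` and
  `RayRel` gives `a, b ∉ 𝔭`, `a - b ∈ 𝔭`, `(a) I = (b) 𝔠 J`.
* `sep`: two such data `(I, J, a, b)`, `(I', J', a', b')`, `x := b * a' - b' * a`.
  (i) If `x = 0` then `(a a') I J' = (b a') 𝔠 J J' = (b' a) 𝔠 J J' = (a a') I' J`, so `I J' = I' J`,
  and by coprimality `I ∣ I'`, `I' ∣ I`, `J ∣ J'`, `J' ∣ J` (`IsCoprime.dvd_of_dvd_mul_right` etc.),
  so `I = I'`, `J = J'` (`Ideal`: `dvd_antisymm` / `associated_iff_eq`).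
  (ii) `span {x} * 𝔠 * J * J'` is divisible by `(a a')`: the elements are sums of `b a' z`,
  `b' a z`, `z ∈ 𝔠 J J'`, and `(b a') 𝔠 J J' = (a a') I J'`, `(b' a) 𝔠 J J' = (a a') I' J`
  (`span {u - v} ≤ span {u} ⊔ span {v}`; `Ideal.dvd_iff_le`; distributivity `Ideal.sup_mul`).
  Also `𝔭 ∣ span {x}` (`x = a' (b - a) - a (b' - a')`), and `𝔭` does not divide `(a a')`, so
  `𝔭 * (a a') ∣ span {x} * 𝔠 * J * J'` (coprime: `Prime.coprime_iff_not_dvd`,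
  `IsCoprime.mul_dvd`, or `Irreducible`/maximality of `𝔭`).  Taking norms, for `x ≠ 0`:
  `absNorm 𝔭 * absNorm (a a') ≤ absNorm (x) * absNorm 𝔠 * absNorm J * absNorm J'`
  (`Nat.le_of_dvd`, everything nonzero).
* `slope_ideal`: put `γ = σ b / σ a` for a chosen datum of every pair of `P`.  By
  `norm_sq_eq_absNorm`, `‖γ‖² = absNorm I / (absNorm 𝔠 * absNorm J) ≤ X c0 / (N𝔠 Y) =: ρ²`, and by
  `sep`, for different pairs `γ ≠ γ'` (part (i), `σ` injective) and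
  `‖γ - γ'‖² = ‖σ x‖² / ‖σ (a a')‖² ≥ N𝔭 / (N𝔠 NJ NJ') ≥ N𝔭 / (N𝔠 Y²) =: δ²`.
  `packing` applied to the image of `P` (`Finset.card_image_of_injOn`):
  `|P| ≤ 8 + 32 ρ²/δ² = 8 + 32 X c0 Y / N𝔭`.
-/

open NumberField Module
open scoped nonZeroDivisors

namespace Pool.Agent.H14.BK

open Pool.Agent.H92.CG

variable {K : Type*} [Field K] [NumberField K] {𝔭 : Ideal (𝓞 K)}

theorem slope_data (h𝔭 : Prime 𝔭) (𝔠 I J : Ideal (𝓞 K)) (hc : ¬ 𝔭 ∣ 𝔠) (hco : IsCoprime I J)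
    (h : rcl 𝔭 h𝔭 I = rcl 𝔭 h𝔭 𝔠 * rcl 𝔭 h𝔭 J) :
    ∃ a b : 𝓞 K, a ∉ 𝔭 ∧ b ∉ 𝔭 ∧ a - b ∈ 𝔭 ∧
      Ideal.span {a} * I = Ideal.span {b} * 𝔠 * J := by
  have hJ : ¬ 𝔭 ∣ J := by
    intro hJ
    have h1 : 𝔭 ∣ I := by
      rw [← rcl_eq_zero_iff (h𝔭 := h𝔭), h, (rcl_eq_zero_iff J).mpr hJ, mul_zero]
    exact h𝔭.not_isUnit (hco.isUnit_of_dvd' h1 hJ)
  rw [← rcl_mul, rcl_eq_iff] at h
  rcases h with ⟨_, h1⟩ | ⟨_, _, a, b, ha, hb, hab, h1⟩
  · rcases h𝔭.dvd_or_dvd h1 with h2 | h2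
    · exact absurd h2 hc
    · exact absurd h2 hJ
  · exact ⟨a, b, ha, hb, hab, by rw [h1, mul_assoc]⟩

theorem sep_ne (𝔠 I J I' J' : Ideal (𝓞 K)) (hco : IsCoprime I J) (hco' : IsCoprime I' J')
    (hc0 : 𝔠 ≠ ⊥) (hJ : J ≠ ⊥) (hJ' : J' ≠ ⊥) (a b a' b' : 𝓞 K) (ha0 : a ≠ 0) (ha0' : a' ≠ 0)
    (h : Ideal.span {a} * I = Ideal.span {b} * 𝔠 * J)
    (h' : Ideal.span {a'} * I' = Ideal.span {b'} * 𝔠 * J') (hx : b * a' - b' * a = 0) :
    I = I' ∧ J = J' := by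
  have hx' : b * a' = b' * a := sub_eq_zero.mp hx
  have e1 : Ideal.span {a * a'} * (I * J') = Ideal.span {a * a'} * (I' * J) := by
    calc Ideal.span {a * a'} * (I * J') = Ideal.span {a'} * J' * (Ideal.span {a} * I) := by
          rw [← Ideal.span_singleton_mul_span_singleton]; ring
      _ = (Ideal.span {b} * Ideal.span {a'}) * (𝔠 * J * J') := by rw [h]; ring
      _ = (Ideal.span {b'} * Ideal.span {a}) * (𝔠 * J * J') := by
          rw [Ideal.span_singleton_mul_span_singleton, hx', Ideal.span_singleton_mul_span_singleton]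
      _ = Ideal.span {a} * J * (Ideal.span {b'} * 𝔠 * J') := by ring
      _ = Ideal.span {a * a'} * (I' * J) := by
          rw [← h', ← Ideal.span_singleton_mul_span_singleton]; ring
  have hne : Ideal.span {a * a'} ≠ 0 := by
    rw [Ne, Ideal.zero_eq_bot, Ideal.span_singleton_eq_bot]
    exact mul_ne_zero ha0 ha0'
  have e2 : I * J' = I' * J := mul_left_cancel₀ hne e1
  constructor
  · apply dvd_antisymm
    · exact hco.dvd_of_dvd_mul_right (Dvd.intro _ e2)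
    · exact hco'.dvd_of_dvd_mul_right (Dvd.intro _ e2.symm)
  · apply dvd_antisymm
    · exact hco.symm.dvd_of_dvd_mul_left (Dvd.intro_left _ e2.symm)
    · exact hco'.symm.dvd_of_dvd_mul_left (Dvd.intro_left _ e2)

theorem sep (h𝔭 : Prime 𝔭) (𝔠 I J I' J' : Ideal (𝓞 K)) (hc0 : 𝔠 ≠ ⊥) (hJ : J ≠ ⊥) (hJ' : J' ≠ ⊥)
    (a b a' b' : 𝓞 K) (ha : a ∉ 𝔭) (ha' : a' ∉ 𝔭) (hab : a - b ∈ 𝔭) (hab' : a' - b' ∈ 𝔭)
    (h : Ideal.span {a} * I = Ideal.span {b} * 𝔠 * J)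
    (h' : Ideal.span {a'} * I' = Ideal.span {b'} * 𝔠 * J') (hx : b * a' - b' * a ≠ 0) :
    Ideal.absNorm 𝔭 * Ideal.absNorm (Ideal.span {a * a'}) ≤
      Ideal.absNorm (Ideal.span {b * a' - b' * a}) * Ideal.absNorm 𝔠 * Ideal.absNorm J *
        Ideal.absNorm J' := by
  set x := b * a' - b' * a with hxd
  have h1 : Ideal.span {a * a'} ∣ Ideal.span {x} * (𝔠 * J * J') := by
    rw [Ideal.dvd_iff_le]
    have h2 : Ideal.span {x} ≤ Ideal.span {b * a'} ⊔ Ideal.span {b' * a} := by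
      rw [Ideal.span_singleton_le_iff_mem, hxd]
      exact Ideal.sub_mem _ (Ideal.mem_sup_left (Ideal.mem_span_singleton_self _))
        (Ideal.mem_sup_right (Ideal.mem_span_singleton_self _))
    refine (Ideal.mul_mono_left h2).trans ?_
    rw [Ideal.sup_mul]
    apply sup_le
    · have e : Ideal.span {b * a'} * (𝔠 * J * J') = Ideal.span {a * a'} * (I * J') := by
        calc Ideal.span {b * a'} * (𝔠 * J * J') = Ideal.span {a'} * J' * (Ideal.span {b} * 𝔠 * J) := by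
              rw [← Ideal.span_singleton_mul_span_singleton]; ring
          _ = _ := by
              rw [← h, ← Ideal.span_singleton_mul_span_singleton]; ring
      rw [e]
      exact Ideal.mul_le_left
    · have e : Ideal.span {b' * a} * (𝔠 * J * J') = Ideal.span {a * a'} * (I' * J) := by
        calc Ideal.span {b' * a} * (𝔠 * J * J') = Ideal.span {a} * J * (Ideal.span {b'} * 𝔠 * J') := by
              rw [← Ideal.span_singleton_mul_span_singleton]; ring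
          _ = _ := by
              rw [← h', ← Ideal.span_singleton_mul_span_singleton]; ring
      rw [e]
      exact Ideal.mul_le_left
  obtain ⟨E, hE⟩ := h1
  have hxp : x ∈ 𝔭 := by
    have : x = a * (a' - b') * 1 - a' * (a - b) + 0 := by
      rw [hxd]; ring
    rw [this, mul_one, add_zero]
    exact 𝔭.sub_mem (𝔭.mul_mem_left _ hab') (𝔭.mul_mem_left _ hab)
  have h3 : 𝔭 ∣ Ideal.span {a * a'} * E := by
    rw [← hE]
    apply Dvd.dvd.mul_right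
    rw [Ideal.dvd_span_singleton]
    exact hxp
  have h4 : 𝔭 ∣ E := by
    rcases h𝔭.dvd_or_dvd h3 with h5 | h5
    · rw [Ideal.dvd_span_singleton] at h5
      exact absurd h5 (not_mem_mul h𝔭 ha ha')
    · exact h5
  obtain ⟨F, rfl⟩ := h4
  have hx0 : Ideal.span {x} ≠ (0 : Ideal (𝓞 K)) := by
    rw [Ne, Ideal.zero_eq_bot, Ideal.span_singleton_eq_bot]
    exact hx
  have hne : Ideal.span {x} * (𝔠 * J * J') ≠ 0 :=
    mul_ne_zero hx0 (mul_ne_zero (mul_ne_zero hc0 hJ) hJ')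
  have hF : F ≠ 0 := by
    rintro rfl
    apply hne
    rw [hE, mul_zero, mul_zero]
  have hF1 : 1 ≤ Ideal.absNorm F :=
    Nat.one_le_iff_ne_zero.mpr (fun h5 => hF (Ideal.absNorm_eq_zero_iff.mp h5))
  have h6 := congrArg Ideal.absNorm hE
  simp only [map_mul] at h6
  calc Ideal.absNorm 𝔭 * Ideal.absNorm (Ideal.span {a * a'})
      = Ideal.absNorm (Ideal.span {a * a'}) * (Ideal.absNorm 𝔭 * 1) := by ring
    _ ≤ Ideal.absNorm (Ideal.span {a * a'}) * (Ideal.absNorm 𝔭 * Ideal.absNorm F) :=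
        Nat.mul_le_mul_left _ (Nat.mul_le_mul_left _ hF1)
    _ = _ := by rw [← h6]; ring

theorem slope_ideal [IsTotallyComplex K] (h2 : finrank ℚ K = 2) (h𝔭 : Prime 𝔭) (c : RW 𝔭 h𝔭)
    (hc : c ≠ 0) (P : Finset (Ideal (𝓞 K) × Ideal (𝓞 K))) (X Y c0 : ℝ) (hY : 0 < Y) (hc0 : 0 < c0)
    (hX : 0 ≤ X)
    (hP : ∀ p ∈ P, IsCoprime p.1 p.2 ∧ p.1 ≠ ⊥ ∧ p.2 ≠ ⊥ ∧ (Ideal.absNorm p.1 : ℝ) ≤ X ∧
      Y / c0 ≤ (Ideal.absNorm p.2 : ℝ) ∧ (Ideal.absNorm p.2 : ℝ) ≤ Y ∧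
      rcl 𝔭 h𝔭 p.1 = c * rcl 𝔭 h𝔭 p.2) :
    (P.card : ℝ) ≤ 32 * (1 + c0 * X * Y / (Ideal.absNorm 𝔭 : ℝ)) := by
  classical
  have hfr := h2
  obtain ⟨𝔠, rfl⟩ := rcl_surj c
  have hc' : ¬ 𝔭 ∣ 𝔠 := fun h => hc ((rcl_eq_zero_iff 𝔠).mpr h)
  have hc0' : 𝔠 ≠ ⊥ := by
    rintro rfl
    exact hc' (dvd_zero 𝔭)
  have hP0 : 0 < Ideal.absNorm 𝔭 :=
    Nat.pos_of_ne_zero (fun h5 => h𝔭.ne_zero (Ideal.absNorm_eq_zero_iff.mp h5))
  have hC0 : 0 < Ideal.absNorm 𝔠 :=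
    Nat.pos_of_ne_zero (fun h5 => hc0' (Ideal.absNorm_eq_zero_iff.mp h5))
  have hP0' : (0 : ℝ) < Ideal.absNorm 𝔭 := by exact_mod_cast hP0
  have hC0' : (0 : ℝ) < Ideal.absNorm 𝔠 := by exact_mod_cast hC0
  obtain ⟨σ⟩ : Nonempty (K →+* ℂ) := inferInstance
  have hdat : ∀ p ∈ P, ∃ ab : 𝓞 K × 𝓞 K, ab.1 ∉ 𝔭 ∧ ab.2 ∉ 𝔭 ∧ ab.1 - ab.2 ∈ 𝔭 ∧
      Ideal.span {ab.1} * p.1 = Ideal.span {ab.2} * 𝔠 * p.2 := by
    intro p hp
    obtain ⟨h1, _, _, _, _, _, h2⟩ := hP p hp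
    obtain ⟨a, b, h3⟩ := slope_data h𝔭 𝔠 p.1 p.2 hc' h1 h2
    exact ⟨(a, b), h3⟩
  choose! ab hab using hdat
  have hne : ∀ p ∈ P, (ab p).1 ≠ 0 := by
    intro p hp h1
    apply (hab p hp).1
    rw [h1]
    exact 𝔭.zero_mem
  have hσinj : Function.Injective (fun x : 𝓞 K => σ (x : K)) := by
    intro x y hxy
    exact RingOfIntegers.ext (σ.injective hxy)
  have hσne : ∀ x : 𝓞 K, x ≠ 0 → σ (x : K) ≠ 0 := by
    intro x hx h1
    apply hx
    apply hσinj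
    simp only [h1, map_zero]
  set γ : Ideal (𝓞 K) × Ideal (𝓞 K) → ℂ := fun p => σ ((ab p).2 : K) / σ ((ab p).1 : K) with hγ
  -- separation
  have hsep : ∀ p ∈ P, ∀ q ∈ P, p ≠ q →
      (Ideal.absNorm 𝔭 : ℝ) / (Ideal.absNorm 𝔠 * Y ^ 2) ≤ ‖γ p - γ q‖ ^ 2 := by
    intro p hp q hq hpq
    obtain ⟨h1, h2, h3, h4, h5, h6, h7⟩ := hP p hp
    obtain ⟨k1, k2, k3, k4, k5, k6, k7⟩ := hP q hq
    obtain ⟨a1, a2, a3, a4⟩ := hab p hp
    obtain ⟨b1, b2, b3, b4⟩ := hab q hq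
    set a := (ab p).1 with ha
    set b := (ab p).2 with hb
    set a' := (ab q).1 with ha'
    set b' := (ab q).2 with hb'
    have ha0 : a ≠ 0 := hne p hp
    have ha0' : a' ≠ 0 := hne q hq
    have hx : b * a' - b' * a ≠ 0 := by
      intro hx
      obtain ⟨e1, e2⟩ := sep_ne 𝔠 p.1 p.2 q.1 q.2 h1 k1 hc0' h3 k3 a b a' b' ha0 ha0' a4 b4 hx
      exact hpq (Prod.ext e1 e2)
    have hs := sep h𝔭 𝔠 p.1 p.2 q.1 q.2 hc0' h3 k3 a b a' b' a1 b1 a3 b3 a4 b4 hx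
    have hd : γ p - γ q = σ ((b * a' - b' * a : 𝓞 K) : K) / σ ((a * a' : 𝓞 K) : K) := by
      have n1 : σ (a : K) ≠ 0 := hσne _ ha0
      have n2 : σ (a' : K) ≠ 0 := hσne _ ha0'
      simp only [hγ, ← ha, ← hb, ← ha', ← hb', map_sub, map_mul]
      field_simp
    rw [hd, norm_div, div_pow, norm_sq_eq_absNorm hfr σ, norm_sq_eq_absNorm hfr σ]
    have hN0 : 0 < Ideal.absNorm (Ideal.span {a * a'}) := by
      apply Nat.pos_of_ne_zero
      intro h8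
      rw [Ideal.absNorm_eq_zero_iff, Ideal.span_singleton_eq_bot] at h8
      exact mul_ne_zero ha0 ha0' h8
    have hN0' : (0 : ℝ) < Ideal.absNorm (Ideal.span {a * a'}) := by exact_mod_cast hN0
    rw [div_le_div_iff₀ (by positivity) hN0']
    have hs' : (Ideal.absNorm 𝔭 : ℝ) * Ideal.absNorm (Ideal.span {a * a'}) ≤
      Ideal.absNorm (Ideal.span {b * a' - b' * a}) * Ideal.absNorm 𝔠 * Ideal.absNorm p.2 *
        Ideal.absNorm q.2 := by exact_mod_cast hs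
    refine hs'.trans ?_
    have h9 : (Ideal.absNorm p.2 : ℝ) * Ideal.absNorm q.2 ≤ Y ^ 2 := by
      rw [sq]
      exact mul_le_mul h6 k6 (Nat.cast_nonneg _) hY.le
    calc (Ideal.absNorm (Ideal.span {b * a' - b' * a}) : ℝ) * Ideal.absNorm 𝔠 * Ideal.absNorm p.2 *
        Ideal.absNorm q.2 = (Ideal.absNorm (Ideal.span {b * a' - b' * a}) : ℝ) *
          (Ideal.absNorm 𝔠 * (Ideal.absNorm p.2 * Ideal.absNorm q.2)) := by ring
      _ ≤ (Ideal.absNorm (Ideal.span {b * a' - b' * a}) : ℝ) * (Ideal.absNorm 𝔠 * Y ^ 2) := by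
          gcongr
  -- size
  have hsize : ∀ p ∈ P, ‖γ p‖ ^ 2 ≤ X * c0 / (Ideal.absNorm 𝔠 * Y) := by
    intro p hp
    obtain ⟨h1, h2, h3, h4, h5, h6, h7⟩ := hP p hp
    obtain ⟨a1, a2, a3, a4⟩ := hab p hp
    set a := (ab p).1 with ha
    set b := (ab p).2 with hb
    have ha0 : a ≠ 0 := hne p hp
    have hN0 : 0 < Ideal.absNorm (Ideal.span {a}) := by
      apply Nat.pos_of_ne_zero
      intro h8
      rw [Ideal.absNorm_eq_zero_iff, Ideal.span_singleton_eq_bot] at h8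
      exact ha0 h8
    have hN0' : (0 : ℝ) < Ideal.absNorm (Ideal.span {a}) := by exact_mod_cast hN0
    simp only [hγ, ← ha, ← hb]
    rw [norm_div, div_pow, norm_sq_eq_absNorm hfr σ, norm_sq_eq_absNorm hfr σ,
      div_le_div_iff₀ hN0' (by positivity)]
    have h8 := congrArg Ideal.absNorm a4
    simp only [map_mul] at h8
    have h8' : (Ideal.absNorm (Ideal.span {a}) : ℝ) * Ideal.absNorm p.1 =
      Ideal.absNorm (Ideal.span {b}) * Ideal.absNorm 𝔠 * Ideal.absNorm p.2 := by exact_mod_cast h8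
    rw [div_le_iff₀ hc0] at h5
    calc (Ideal.absNorm (Ideal.span {b}) : ℝ) * (Ideal.absNorm 𝔠 * Y)
        ≤ (Ideal.absNorm (Ideal.span {b}) : ℝ) * (Ideal.absNorm 𝔠 * (Ideal.absNorm p.2 * c0)) := by
          gcongr
      _ = ((Ideal.absNorm (Ideal.span {b}) : ℝ) * Ideal.absNorm 𝔠 * Ideal.absNorm p.2) * c0 := by ring
      _ = (Ideal.absNorm (Ideal.span {a}) : ℝ) * Ideal.absNorm p.1 * c0 := by rw [h8']
      _ ≤ (Ideal.absNorm (Ideal.span {a}) : ℝ) * X * c0 := by gcongr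
      _ = X * c0 * Ideal.absNorm (Ideal.span {a}) := by ring
  have hinj : Set.InjOn γ (P : Set (Ideal (𝓞 K) × Ideal (𝓞 K))) := by
    intro p hp q hq hpq
    by_contra hne'
    have h1 := hsep p hp q hq hne'
    rw [hpq, sub_self, norm_zero] at h1
    have h2 : 0 < (Ideal.absNorm 𝔭 : ℝ) / (Ideal.absNorm 𝔠 * Y ^ 2) := by positivity
    norm_num at h1
    linarith
  have hρ : 0 ≤ X * c0 / (Ideal.absNorm 𝔠 * Y) := by positivity
  have hδ : 0 < (Ideal.absNorm 𝔭 : ℝ) / (Ideal.absNorm 𝔠 * Y ^ 2) := by positivity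
  have hpk := packing (P.image γ) (√(X * c0 / (Ideal.absNorm 𝔠 * Y)))
    (√((Ideal.absNorm 𝔭 : ℝ) / (Ideal.absNorm 𝔠 * Y ^ 2))) (Real.sqrt_nonneg _)
    (Real.sqrt_pos.mpr hδ) (by
      intro z hz
      obtain ⟨p, hp, rfl⟩ := Finset.mem_image.mp hz
      rw [Real.sq_sqrt hρ]
      exact hsize p hp) (by
      intro z hz w hw hzw
      obtain ⟨p, hp, rfl⟩ := Finset.mem_image.mp hz
      obtain ⟨q, hq, rfl⟩ := Finset.mem_image.mp hw
      rw [Real.sq_sqrt hδ.le]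
      exact hsep p hp q hq (fun h => hzw (by rw [h])))
  rw [Finset.card_image_of_injOn hinj, Real.sq_sqrt hρ, Real.sq_sqrt hδ.le] at hpk
  have e : 32 * (X * c0 / (Ideal.absNorm 𝔠 * Y)) / ((Ideal.absNorm 𝔭 : ℝ) / (Ideal.absNorm 𝔠 * Y ^ 2)) =
      32 * (c0 * X * Y / (Ideal.absNorm 𝔭 : ℝ)) := by
    field_simp
  rw [e] at hpk
  linarith

end Pool.Agent.H14.BK
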