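import Pool.Agent.H14.BK.SysK
import Pool.Agent.H14.BK.Slope

/-!
# The ray class group modulo a prime ideal as a modulus (job BK-Md)

* `Md.mono`: all fields are monotone in `K`.
* `exists_md`: `Q = absNorm 𝔭`, `cl = clK ι h𝔭`.
  `Q_two`: as in `exists_sys`.
  `zero`: `r = ι.symm 𝔭`; `iota_prime`, `iota_dvd`, `rcl_eq_zero_iff`.
  `card_le`: `card_RW_le`.  `card_ge`: `le_card_RW` with `units_finite h2`, and `Q ≤ 2 (Q - 1)`.
  `slope`: if `P` is empty the claim is trivial (the right side is `≥ 0`); otherwise `c0 ≥ 1`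
  (`Y / c0 ≤ Y`).  For `c ≠ 0`: `slope_ideal` for the image of `P` under `(m, n) ↦ (ι m, ι n)`
  (`coprime_iff`, `iota_ne_bot`).  For `c = 0`: every `p.1` is `r * m`, `m ≠ 0`, with
  `sz ι m ≤ X / Q` (`s (r m) = Q · s m`), `p.2 ≠ 0`, `sz ι p.2 ≤ Y`, so by `Sys.card_le_real`
  `|P| ≤ (K₀ X / Q) (K₀ Y) ≤ K₀² (1 + c0 X Y / Q)`
  (`P ⊆ image of a product of two finite sets`; `Finset.card_product`).
  The constant depends only on `K` (through the `K₀` of `exists_sys`, the class number and the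
  number of units), not on `𝔭`.
-/

open NumberField Module
open scoped nonZeroDivisors

namespace Pool.Agent.H14.BK

open Pool.Agent.H14.BN

/-- the class of the ideal `ι n` -/
noncomputable def clK {K : Type*} [Field K] [NumberField K] (ι : ℕ ≃* Ideal (𝓞 K))
    {𝔭 : Ideal (𝓞 K)} (h𝔭 : Prime 𝔭) : ℕ →*₀ RW 𝔭 h𝔭 where
  toFun n := rcl 𝔭 h𝔭 (ι n)
  map_zero' := by
    rw [map_zero]
    exact rcl_bot
  map_one' := by rw [map_one, rcl_one]
  map_mul' a b := by rw [map_mul, rcl_mul]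

@[simp] lemma clK_apply {K : Type*} [Field K] [NumberField K] (ι : ℕ ≃* Ideal (𝓞 K))
    {𝔭 : Ideal (𝓞 K)} (h𝔭 : Prime 𝔭) (n : ℕ) : clK ι h𝔭 n = rcl 𝔭 h𝔭 (ι n) := rfl

theorem Md.mono {W : Type*} [CommGroupWithZero W] {s : ℕ →*₀ ℕ} {K K' : ℝ} {cl : ℕ →*₀ W} {Q : ℕ}
    (h : Md s K cl Q) (hK : K ≤ K') : Md s K' cl Q where
  Q_two := h.Q_two
  zero := h.zero
  card_le := h.card_le.trans (by gcongr)
  card_ge := h.card_ge.trans (by gcongr)
  slope := by
    intro c P X Y c0 hY hc0 hX hP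
    refine (h.slope c P X Y c0 hY hc0 hX hP).trans ?_
    have : 0 ≤ 1 + c0 * X * Y / (Q : ℝ) := by positivity
    gcongr

theorem exists_md {K : Type*} [Field K] [NumberField K] [IsTotallyComplex K]
    (h2 : finrank ℚ K = 2) (ι : ℕ ≃* Ideal (𝓞 K)) :
    ∃ K₀ : ℝ, ∀ (𝔭 : Ideal (𝓞 K)) (h𝔭 : Prime 𝔭), Md (sz ι) K₀ (clK ι h𝔭) (Ideal.absNorm 𝔭) := by
  obtain ⟨κ, Ks, hS⟩ := exists_sys h2 ι
  have hU : Finite (𝓞 K)ˣ := Pool.Agent.H92.CG.units_finite h2
  have hKs : 1 ≤ Ks := hS.K_one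
  set hcl : ℝ := (Nat.card (ClassGroup (𝓞 K)) : ℝ) with hhcl
  set w : ℝ := (Nat.card (𝓞 K)ˣ : ℝ) with hw
  have hcl0 : 0 ≤ hcl := Nat.cast_nonneg _
  have hw0 : 0 ≤ w := Nat.cast_nonneg _
  refine ⟨hcl + 2 * w + 32 + Ks ^ 2, fun 𝔭 h𝔭 => ?_⟩
  have hrp : (ι.symm 𝔭).Prime := by
    rw [← iota_prime ι, ι.apply_symm_apply]
    exact h𝔭
  have hsr : sz ι (ι.symm 𝔭) = Ideal.absNorm 𝔭 := by
    rw [sz_apply, ι.apply_symm_apply]
  have hzero : ∀ n : ℕ, clK ι h𝔭 n = 0 ↔ ι.symm 𝔭 ∣ n := by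
    intro n
    rw [clK_apply, rcl_eq_zero_iff, ← iota_dvd ι, ι.apply_symm_apply]
  have hQ2 : 2 ≤ Ideal.absNorm 𝔭 := by
    rw [← hsr]
    exact hS.two_le _ hrp
  have hQ2' : (2 : ℝ) ≤ (Ideal.absNorm 𝔭 : ℝ) := by exact_mod_cast hQ2
  refine ⟨hQ2, ⟨ι.symm 𝔭, hrp, hsr, hzero⟩, ?_, ?_, ?_⟩
  · have h1 := card_RW_le h𝔭
    have h2 : (Nat.card (RW 𝔭 h𝔭)ˣ : ℝ) ≤ hcl * (Ideal.absNorm 𝔭 : ℝ) := by
      rw [hhcl]
      exact_mod_cast h1
    refine h2.trans ?_
    have : hcl ≤ hcl + 2 * w + 32 + Ks ^ 2 := by nlinarith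
    gcongr
  · have h1 := le_card_RW h𝔭 hU
    have h2 : (Ideal.absNorm 𝔭 : ℝ) ≤ w * (Nat.card (RW 𝔭 h𝔭)ˣ : ℝ) + 1 := by
      rw [hw]
      exact_mod_cast h1
    have h3 : (Ideal.absNorm 𝔭 : ℝ) ≤ 2 * w * (Nat.card (RW 𝔭 h𝔭)ˣ : ℝ) := by linarith
    refine h3.trans ?_
    have : 2 * w ≤ hcl + 2 * w + 32 + Ks ^ 2 := by nlinarith
    gcongr
  · intro c P X Y c0 hY hc0 hX hP
    have hnn : 0 ≤ 1 + c0 * X * Y / (Ideal.absNorm 𝔭 : ℝ) := by positivity
    by_cases hc : c = 0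
    · rcases P.eq_empty_or_nonempty with rfl | ⟨p0, hp0⟩
      · rw [Finset.card_empty, Nat.cast_zero]
        positivity
      · have hc1 : 1 ≤ c0 := by
          obtain ⟨-, -, -, -, h5, h6, -⟩ := hP p0 hp0
          have h7 := h5.trans h6
          rw [div_le_iff₀ hc0] at h7
          by_contra hcon
          push Not at hcon
          nlinarith
        have hsub : P ⊆ ((SI (sz ι) ⌊X / (Ideal.absNorm 𝔭 : ℝ)⌋₊) ×ˢ (SI (sz ι) ⌊Y⌋₊)).image
            (fun q : ℕ × ℕ => (ι.symm 𝔭 * q.1, q.2)) := by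
          intro p hp
          obtain ⟨h1, h2, h3, h4, h5, h6, h7⟩ := hP p hp
          rw [hc, zero_mul, hzero] at h7
          obtain ⟨m, hm⟩ := h7
          rw [Finset.mem_image]
          refine ⟨(m, p.2), ?_, ?_⟩
          · rw [Finset.mem_product, hS.mem_SI, hS.mem_SI]
            refine ⟨⟨?_, ?_⟩, h3, Nat.le_floor h6⟩
            · rintro rfl
              rw [mul_zero] at hm
              exact h2 hm
            · apply Nat.le_floor
              rw [hm, map_mul, hsr] at h4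
              push_cast at h4
              rw [le_div_iff₀ (by linarith), mul_comm]
              exact h4
          · ext1
            · exact hm.symm
            · rfl
        have h8 := (Finset.card_le_card hsub).trans Finset.card_image_le
        rw [Finset.card_product] at h8
        have h9 : (P.card : ℝ) ≤ ((SI (sz ι) ⌊X / (Ideal.absNorm 𝔭 : ℝ)⌋₊).card : ℝ) *
            ((SI (sz ι) ⌊Y⌋₊).card : ℝ) := by exact_mod_cast h8
        have h10 : ((SI (sz ι) ⌊X / (Ideal.absNorm 𝔭 : ℝ)⌋₊).card : ℝ) ≤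
            Ks * (X / (Ideal.absNorm 𝔭 : ℝ)) := by
          refine (hS.card_le _).trans ?_
          have := Nat.floor_le (show 0 ≤ X / (Ideal.absNorm 𝔭 : ℝ) by positivity)
          gcongr
        have h11 : ((SI (sz ι) ⌊Y⌋₊).card : ℝ) ≤ Ks * Y := by
          refine (hS.card_le _).trans ?_
          have := Nat.floor_le hY.le
          gcongr
        calc (P.card : ℝ) ≤ _ := h9
          _ ≤ (Ks * (X / (Ideal.absNorm 𝔭 : ℝ))) * (Ks * Y) := by gcongr
          _ = Ks ^ 2 * (1 * X * Y / (Ideal.absNorm 𝔭 : ℝ)) := by ring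
          _ ≤ Ks ^ 2 * (c0 * X * Y / (Ideal.absNorm 𝔭 : ℝ)) := by gcongr
          _ ≤ (hcl + 2 * w + 32 + Ks ^ 2) * (1 + c0 * X * Y / (Ideal.absNorm 𝔭 : ℝ)) := by
              have h12 : 0 ≤ c0 * X * Y / (Ideal.absNorm 𝔭 : ℝ) := by positivity
              apply mul_le_mul _ _ h12 (by positivity)
              · linarith
              · linarith
    · classical
      set P' := P.image (fun p : ℕ × ℕ => (ι p.1, ι p.2)) with hP'
      have hcard : P'.card = P.card := by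
        apply Finset.card_image_of_injective
        intro a b hab
        simp only [Prod.mk.injEq, EmbeddingLike.apply_eq_iff_eq] at hab
        exact Prod.ext hab.1 hab.2
      have h1 := slope_ideal h2 h𝔭 c hc P' X Y c0 hY hc0 hX (by
        intro q hq
        rw [hP', Finset.mem_image] at hq
        obtain ⟨p, hp, rfl⟩ := hq
        obtain ⟨h1, h2, h3, h4, h5, h6, h7⟩ := hP p hp
        exact ⟨(coprime_iff ι _ _).1 h1, (iota_ne_bot ι _).2 h2, (iota_ne_bot ι _).2 h3, h4, h5, h6,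
          h7⟩)
      rw [hcard] at h1
      refine h1.trans ?_
      have : 32 ≤ hcl + 2 * w + 32 + Ks ^ 2 := by nlinarith
      gcongr

end Pool.Agent.H14.BK
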