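import Mathlib

/-!
# Separated points in a disc (job BK-Slope, together with Slope.lean)

Proof.  `S` is a finite set of complex numbers in the disc `|z| ≤ ρ` with pairwise distances at
least `δ`.  The map `z ↦ (⌊2 re z / δ⌋, ⌊2 im z / δ⌋)` is injective on `S`: equal values give
`|re (z - w)| < δ / 2`, `|im (z - w)| < δ / 2`, so `|z - w|² < δ² / 2`.  The values lie in
`Icc (-⌈u⌉ - 1) ⌈u⌉ ×ˢ …` or `Icc ⌊-u⌋ ⌊u⌋`, `u = 2 ρ / δ`, with at most `2 u + 2` integers.  So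
`|S| ≤ (2 u + 2)² ≤ 8 + 8 u² = 8 + 32 ρ² / δ²`.
-/

namespace Pool.Agent.H14.BK

theorem packing (S : Finset ℂ) (ρ δ : ℝ) (hρ : 0 ≤ ρ) (hδ : 0 < δ) (h1 : ∀ z ∈ S, ‖z‖ ^ 2 ≤ ρ ^ 2)
    (h2 : ∀ z ∈ S, ∀ w ∈ S, z ≠ w → δ ^ 2 ≤ ‖z - w‖ ^ 2) :
    (S.card : ℝ) ≤ 8 + 32 * ρ ^ 2 / δ ^ 2 := by
  classical
  set u : ℝ := 2 * ρ / δ with hu
  have hu0 : 0 ≤ u := by positivity
  set J : Finset ℤ := Finset.Icc ⌊-u⌋ ⌊u⌋ with hJ
  have hJc : (J.card : ℝ) ≤ 2 * u + 2 := by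
    rw [hJ, Int.card_Icc]
    have h3 : ⌊-u⌋ ≤ ⌊u⌋ := Int.floor_le_floor (by linarith)
    have h4 : (((⌊u⌋ + 1 - ⌊-u⌋).toNat : ℕ) : ℝ) = ((⌊u⌋ + 1 - ⌊-u⌋ : ℤ) : ℝ) := by
      have : (((⌊u⌋ + 1 - ⌊-u⌋).toNat : ℕ) : ℤ) = ⌊u⌋ + 1 - ⌊-u⌋ := Int.toNat_of_nonneg (by omega)
      exact_mod_cast this
    rw [h4]
    push_cast
    have h5 := Int.floor_le u
    have h6 := Int.lt_floor_add_one (-u)
    linarith
  have hmem : ∀ r : ℝ, r ^ 2 ≤ ρ ^ 2 → ⌊2 * r / δ⌋ ∈ J := by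
    intro r hr
    have h3 := abs_le.mp (abs_le_of_sq_le_sq hr hρ)
    rw [hJ, Finset.mem_Icc]
    constructor
    · apply Int.floor_le_floor
      rw [hu, ← neg_div, div_le_div_iff_of_pos_right hδ]
      linarith [h3.1]
    · apply Int.floor_le_floor
      rw [hu, div_le_div_iff_of_pos_right hδ]
      linarith [h3.2]
  have hns : ∀ z : ℂ, ‖z‖ ^ 2 = z.re ^ 2 + z.im ^ 2 := by
    intro z
    rw [Complex.sq_norm, Complex.normSq_apply]
    ring
  have hcard : S.card ≤ (J ×ˢ J).card := by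
    apply Finset.card_le_card_of_injOn (fun z : ℂ => (⌊2 * z.re / δ⌋, ⌊2 * z.im / δ⌋))
    · intro z hz
      have h3 := h1 z hz
      rw [hns] at h3
      simp only [Finset.coe_product, Set.mem_prod, Finset.mem_coe]
      exact ⟨hmem _ (by linarith [sq_nonneg z.im]), hmem _ (by linarith [sq_nonneg z.re])⟩
    · intro z hz w hw hzw
      by_contra hne
      have h3 := h2 z hz w hw hne
      rw [Prod.mk.injEq] at hzw
      have h4 := Int.abs_sub_lt_one_of_floor_eq_floor hzw.1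
      have h5 := Int.abs_sub_lt_one_of_floor_eq_floor hzw.2
      have key : ∀ r r' : ℝ, |2 * r / δ - 2 * r' / δ| < 1 → (r - r') ^ 2 ≤ δ ^ 2 / 4 := by
        intro r r' h
        have e : 2 * r / δ - 2 * r' / δ = 2 * (r - r') / δ := by ring
        rw [e, abs_div, abs_of_pos hδ, div_lt_one hδ, abs_mul, abs_two] at h
        have h6 : |r - r'| ≤ δ / 2 := by linarith
        have h7 : |r - r'| ^ 2 ≤ (δ / 2) ^ 2 := pow_le_pow_left₀ (abs_nonneg _) h6 2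
        rw [sq_abs] at h7
        linarith [h7]
      have h6 := key _ _ h4
      have h7 := key _ _ h5
      rw [hns, Complex.sub_re, Complex.sub_im] at h3
      have h8 : 0 < δ ^ 2 := by positivity
      linarith
  have h9 : (S.card : ℝ) ≤ (2 * u + 2) * (2 * u + 2) := by
    have h10 : (S.card : ℝ) ≤ (J.card : ℝ) * J.card := by
      rw [Finset.card_product] at hcard
      exact_mod_cast hcard
    exact h10.trans (mul_le_mul hJc hJc (Nat.cast_nonneg _) (by linarith))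
  have h11 : 32 * ρ ^ 2 / δ ^ 2 = 8 * u ^ 2 := by
    rw [hu]
    field_simp
    ring
  rw [h11]
  nlinarith [sq_nonneg (u - 1)]

end Pool.Agent.H14.BK
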