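import Pool.Agent.H14.BK.Pois
import Pool.Agent.H14.BK.Unf

/-!
# A uniform bound for the theta series of the ideals

`unif_bound`: for `L ≠ ⊥` and `t ≥ 1`
`∑_{y ∈ L, y ≠ 0} exp (-π t q_L (σ y)) ≤ C exp (-c t)` with `c, C > 0` independent of `L`.
Proof.  Let `L` be in the class `d` and `c' = d⁻¹`.  By `norm_sq_eq_absNorm` (`H92/CG/Partial.lean`)
`q_L (σ y) = 2 N((y)) / (N L √|D|)`, so by `tsum_class` (with
`F 𝔞 = if 𝔞 = ⊥ then 0 else exp (-2 π t N 𝔞 / (N L √|D|))`, summable by `summable_exp`) the sum is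
`w ∑_{I ∈ c'} exp (-2 π t N I / √|D|)`, `w = Nat.card (𝓞 K)ˣ`, at most
`w ∑_{I ≠ ⊥} exp (-c₀ t N I)`, `c₀ = 2 π / √|D|`.  As `N I ≥ 1`:
`exp (-c₀ t N I) = exp (-c₀ (t - 1) N I) exp (-c₀ N I) ≤ exp (-c₀ (t - 1)) exp (-c₀ N I)`.
So `c = c₀`, `C = w exp c₀ ∑_I exp (-c₀ N I)`.
-/


open NumberField Module
open scoped nonZeroDivisors ComplexConjugate
open Pool.Agent.H92.CG

namespace Pool.Agent.H14.BK

variable {K : Type*} [Field K] [NumberField K]

open Classical in
theorem unif_bound [IsTotallyComplex K] (h2 : finrank ℚ K = 2) (σ : K →+* ℂ) :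
    ∃ c C : ℝ, 0 < c ∧ 0 < C ∧ ∀ L : Ideal (𝓞 K), L ≠ ⊥ → ∀ t : ℝ, 1 ≤ t →
      ∑' y : L, (if (y : 𝓞 K) = 0 then 0 else Real.exp (-Real.pi * t * qJ L (σ (y : 𝓞 K)))) ≤
        C * Real.exp (-(c * t)) := by
  classical
  have hpi := Real.pi_pos
  have hrD : 0 < rD K := rD_pos
  set c : ℝ := 2 * Real.pi / rD K with hc
  have hc0 : 0 < c := by positivity
  have hs := summable_exp (K := K) h2 (c := c) hc0
  set S : ℝ := ∑' I : Ideal (𝓞 K), Real.exp (-(c * (Ideal.absNorm I : ℝ))) with hS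
  have hS0 : 0 ≤ S := tsum_nonneg fun I => (Real.exp_pos _).le
  set w : ℝ := (Nat.card (𝓞 K)ˣ : ℝ) with hw
  have hw0 : 0 ≤ w := Nat.cast_nonneg _
  refine ⟨c, w * (Real.exp c * S) + 1, hc0, by positivity, fun L hL t ht => ?_⟩
  have ht0 : 0 < t := lt_of_lt_of_le one_pos ht
  have hNL := absNorm_pos hL
  obtain ⟨d, hd⟩ := exists_inC (K := K) hL
  have hd' : InC (d⁻¹)⁻¹ L := by rw [inv_inv]; exact hd
  set F : Ideal (𝓞 K) → ℂ := fun 𝔞 => if 𝔞 = ⊥ then 0 else
    ((Real.exp (-(c * t / (Ideal.absNorm L : ℝ) * (Ideal.absNorm 𝔞 : ℝ))) : ℝ) : ℂ) with hF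
  have hFs : Summable F := by
    have h1 := summable_exp (K := K) h2 (c := c * t / (Ideal.absNorm L : ℝ)) (by positivity)
    refine Summable.of_norm_bounded h1 fun 𝔞 => ?_
    rw [hF]
    simp only
    split_ifs
    · rw [norm_zero]
      exact (Real.exp_pos _).le
    · rw [Complex.norm_real, Real.norm_of_nonneg (Real.exp_pos _).le]
  have key := tsum_class h2 hd' F (by rw [hF]; simp) hFs
  have e1 : ∀ y : L, F (Ideal.span {(y : 𝓞 K)}) =
      (((if (y : 𝓞 K) = 0 then 0 else Real.exp (-Real.pi * t * qJ L (σ (y : 𝓞 K)))) : ℝ) : ℂ) := by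
    intro y
    rw [hF]
    simp only [Ideal.span_singleton_eq_bot]
    split_ifs with hy
    · rw [Complex.ofReal_zero]
    · congr 2
      rw [← norm_sq_eq_absNorm h2 σ, qJ, hc]
      field_simp
  rw [tsum_congr e1, ← Complex.ofReal_tsum] at key
  have e2 : ∀ I : Ideal (𝓞 K), (if InC d⁻¹ I then F (I * L) else 0) =
      (((if InC d⁻¹ I then Real.exp (-(c * t * (Ideal.absNorm I : ℝ))) else 0) : ℝ) : ℂ) := by
    intro I
    split_ifs with hI
    · rw [hF]
      simp only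
      have hIL : I * L ≠ ⊥ := mul_ne_zero hI.1 hL
      rw [if_neg hIL, map_mul]
      congr 2
      push_cast
      field_simp
    · rw [Complex.ofReal_zero]
  rw [tsum_congr e2, ← Complex.ofReal_tsum] at key
  have key2 : ∑' y : L, (if (y : 𝓞 K) = 0 then 0 else
      Real.exp (-Real.pi * t * qJ L (σ (y : 𝓞 K)))) =
      w * ∑' I : Ideal (𝓞 K), (if InC d⁻¹ I then Real.exp (-(c * t * (Ideal.absNorm I : ℝ))) else 0) := by
    have h1 : (((∑' y : L, (if (y : 𝓞 K) = 0 then 0 else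
        Real.exp (-Real.pi * t * qJ L (σ (y : 𝓞 K)))) : ℝ)) : ℂ) =
        ((w * ∑' I : Ideal (𝓞 K), (if InC d⁻¹ I then
          Real.exp (-(c * t * (Ideal.absNorm I : ℝ))) else 0) : ℝ) : ℂ) := by
      rw [key, hw]
      push_cast
      rfl
    exact_mod_cast h1
  rw [key2]
  have hbd : ∑' I : Ideal (𝓞 K), (if InC d⁻¹ I then
      Real.exp (-(c * t * (Ideal.absNorm I : ℝ))) else 0) ≤ Real.exp (-(c * (t - 1))) * S := by
    rw [hS, ← tsum_mul_left]
    have hb : ∀ I : Ideal (𝓞 K), (if InC d⁻¹ I then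
        Real.exp (-(c * t * (Ideal.absNorm I : ℝ))) else 0) ≤
        Real.exp (-(c * (t - 1))) * Real.exp (-(c * (Ideal.absNorm I : ℝ))) := by
      intro I
      split_ifs with hI
      · rw [← Real.exp_add, Real.exp_le_exp]
        have h1 := one_le_absNorm hI.1
        have h3 : 0 ≤ c * (t - 1) * ((Ideal.absNorm I : ℝ) - 1) :=
          mul_nonneg (mul_nonneg hc0.le (by linarith)) (by linarith)
        nlinarith
      · positivity
    refine Summable.tsum_le_tsum hb ?_ (hs.mul_left _)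
    refine Summable.of_nonneg_of_le (fun I => ?_) hb (hs.mul_left _)
    split_ifs
    · exact (Real.exp_pos _).le
    · exact le_refl _
  calc w * ∑' I : Ideal (𝓞 K), (if InC d⁻¹ I then
        Real.exp (-(c * t * (Ideal.absNorm I : ℝ))) else 0) ≤
        w * (Real.exp (-(c * (t - 1))) * S) := by gcongr
    _ = w * (Real.exp c * S) * Real.exp (-(c * t)) := by
        have h1 : -(c * (t - 1)) = c + -(c * t) := by ring
        rw [h1, Real.exp_add]
        ring
    _ ≤ (w * (Real.exp c * S) + 1) * Real.exp (-(c * t)) := by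
        have := (Real.exp_pos (-(c * t))).le
        nlinarith

end Pool.Agent.H14.BK
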