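import Pool.Agent.H14.BK.PoisA

/-!
# Poisson summation for an ideal

`J ≠ ⊥` an ideal.  Proofs.

`summable_qJ`, `poisson_ideal`: transport `summable_shift`, `poisson2` (`Pois2.lean`) along
`E : ℤ × ℤ ≃ J` (`Equiv.tsum_eq`, `Equiv.summable_iff`), `ξ = a X + b Y`.

`om_int`: both elements have integer coordinates.

`om_delta`: the integer `k = om J (σ y) (σ x)` satisfies
`N J δ k = τ y x - y τ x` in `𝓞 K` (apply the injective `σ`: the right side is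
`conj(σ y) σ x - σ y conj (σ x) = 2 i Im (conj (σ y) σ x)`, and `σ δ = i √|D|`).
-/


open NumberField Module
open scoped nonZeroDivisors ComplexConjugate
open Pool.Agent.H92.CG

namespace Pool.Agent.H14.BK

variable {K : Type*} [Field K] [NumberField K] [IsTotallyComplex K]

theorem summable_qJ (h2 : finrank ℚ K = 2) (σ : K →+* ℂ) {J : Ideal (𝓞 K)} (hJ : J ≠ ⊥) {t : ℝ}
    (ht : 0 < t) (ξ : ℂ) :
    Summable fun x : J => Real.exp (-Real.pi * t * qJ J (σ (x : 𝓞 K) + ξ)) := by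
  obtain ⟨A, β, X, Y, E, hA, hE, hq, -, hξ⟩ := exists_qf h2 σ hJ
  obtain ⟨a, b, rfl⟩ := hξ ξ
  rw [← E.summable_iff]
  refine (summable_shift hA β ht a b).congr (fun v => ?_)
  have h1 : σ (E v : 𝓞 K) + (a * X + b * Y) =
      (((v.1 : ℝ) + a : ℝ) : ℂ) * X + (((v.2 : ℝ) + b : ℝ) : ℂ) * Y := by
    rw [hE]
    push_cast
    ring
  simp only [Function.comp]
  rw [h1, hq]

theorem poisson_ideal (h2 : finrank ℚ K = 2) (σ : K →+* ℂ) {J : Ideal (𝓞 K)} (hJ : J ≠ ⊥) {t : ℝ}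
    (ht : 0 < t) (ξ : ℂ) :
    ((∑' x : J, Real.exp (-Real.pi * t * qJ J (σ (x : 𝓞 K) + ξ)) : ℝ) : ℂ) =
      (1 / t : ℂ) * ∑' y : J, Complex.exp (2 * Real.pi * Complex.I * (om J (σ (y : 𝓞 K)) ξ : ℝ)) *
        ((Real.exp (-Real.pi * (1 / t) * qJ J (σ (y : 𝓞 K))) : ℝ) : ℂ) := by
  obtain ⟨A, β, X, Y, E, hA, hE, hq, ho, hξ⟩ := exists_qf h2 σ hJ
  obtain ⟨a, b, rfl⟩ := hξ ξ
  rw [← E.tsum_eq, ← E.tsum_eq]
  have e1 : ∀ v : ℤ × ℤ, Real.exp (-Real.pi * t * qJ J (σ (E v : 𝓞 K) + (a * X + b * Y))) =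
      Real.exp (-Real.pi * t * (A * ((v.1 + a) + β * (v.2 + b)) ^ 2 + (v.2 + b) ^ 2 / A)) := by
    intro v
    have h1 : σ (E v : 𝓞 K) + (a * X + b * Y) =
        (((v.1 : ℝ) + a : ℝ) : ℂ) * X + (((v.2 : ℝ) + b : ℝ) : ℂ) * Y := by
      rw [hE]
      push_cast
      ring
    rw [h1, hq]
  rw [tsum_congr e1, poisson2 hA β ht a b]
  congr 1
  refine tsum_congr fun v => ?_
  have h3 : σ (E v : 𝓞 K) = ((v.1 : ℝ) : ℂ) * X + ((v.2 : ℝ) : ℂ) * Y := by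
    rw [hE]
    push_cast
    ring
  rw [h3, ho, hq]
  rfl

theorem om_int (h2 : finrank ℚ K = 2) (σ : K →+* ℂ) {J : Ideal (𝓞 K)} (hJ : J ≠ ⊥) {y x : 𝓞 K}
    (hy : y ∈ J) (hx : x ∈ J) : ∃ k : ℤ, om J (σ (y : K)) (σ (x : K)) = k := by
  obtain ⟨A, β, X, Y, E, hA, hE, hq, ho, -⟩ := exists_qf h2 σ hJ
  obtain ⟨u, hu⟩ := E.surjective ⟨y, hy⟩
  obtain ⟨w, hw⟩ := E.surjective ⟨x, hx⟩
  have h3 : σ (y : K) = ((u.1 : ℝ) : ℂ) * X + ((u.2 : ℝ) : ℂ) * Y := by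
    have := hE u
    rw [hu] at this
    push_cast
    exact this
  have h4 : σ (x : K) = ((w.1 : ℝ) : ℂ) * X + ((w.2 : ℝ) : ℂ) * Y := by
    have := hE w
    rw [hw] at this
    push_cast
    exact this
  refine ⟨u.1 * w.2 - u.2 * w.1, ?_⟩
  rw [h3, h4, ho]
  push_cast
  ring

omit [IsTotallyComplex K] in
theorem om_delta {σ : K →+* ℂ} {τ : 𝓞 K ≃+* 𝓞 K} (hτ : IsTau σ τ) {δ : 𝓞 K}
    (hδ : σ (δ : K) = Complex.I * (rD K : ℝ)) {J : Ideal (𝓞 K)} (hJ : J ≠ ⊥) {y x : 𝓞 K} {k : ℤ}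
    (hk : om J (σ (y : K)) (σ (x : K)) = k) :
    ((Ideal.absNorm J : ℕ) : 𝓞 K) * δ * (k : 𝓞 K) = τ y * x - y * τ x := by
  have hM : 0 < (Ideal.absNorm J : ℝ) * rD K := mul_pos (absNorm_pos hJ) rD_pos
  have hinj : Function.Injective (fun z : 𝓞 K => σ (z : K)) :=
    σ.injective.comp RingOfIntegers.coe_injective
  apply hinj
  have h1 : σ ((((Ideal.absNorm J : ℕ) : 𝓞 K) * δ * (k : 𝓞 K) : 𝓞 K) : K) =
      (Ideal.absNorm J : ℂ) * (Complex.I * (rD K : ℝ)) * (k : ℂ) := by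
    rw [← hδ]
    push_cast
    simp only [map_mul, map_natCast, map_intCast]
  have h2 : σ ((τ y * x - y * τ x : 𝓞 K) : K) =
      conj (σ (y : K)) * σ (x : K) - σ (y : K) * conj (σ (x : K)) := by
    rw [← hτ, ← hτ]
    push_cast
    simp only [map_mul, map_sub]
  show σ ((((Ideal.absNorm J : ℕ) : 𝓞 K) * δ * (k : 𝓞 K) : 𝓞 K) : K) =
    σ ((τ y * x - y * τ x : 𝓞 K) : K)
  rw [h1, h2]
  have h3 : (k : ℝ) * ((Ideal.absNorm J : ℝ) * rD K) =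
      2 * (conj (σ (y : K)) * σ (x : K)).im := by
    rw [← hk, om, div_mul_cancel₀ _ hM.ne']
  have h4 : conj (σ (y : K)) * σ (x : K) - σ (y : K) * conj (σ (x : K)) =
      ((2 * (conj (σ (y : K)) * σ (x : K)).im : ℝ) : ℂ) * Complex.I := by
    apply Complex.ext
    · simp only [Complex.sub_re, Complex.mul_re, Complex.mul_im, Complex.conj_re, Complex.conj_im,
        Complex.ofReal_re, Complex.ofReal_im, Complex.I_re, Complex.I_im]
      ring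
    · simp only [Complex.sub_im, Complex.mul_re, Complex.mul_im, Complex.conj_re, Complex.conj_im,
        Complex.ofReal_re, Complex.ofReal_im, Complex.I_re, Complex.I_im]
      ring
  rw [h4, ← h3]
  push_cast
  ring

end Pool.Agent.H14.BK
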