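import Pool.Agent.H14.BK.Pois2a

/-!
# Poisson summation for a binary form with a shift

`qf A β (m, n) = A (m + β n)² + n² / A` (`H92/CG/Theta.lean`).  Claim, for `A, t > 0`, real `a, b`:

`∑_{m,n} exp (-π t (A ((m + a) + β (n + b))² + (n + b)² / A))`
`= (1 / t) ∑_{l,k} e (l b - k a) exp (-π qf A β (l, k) / t)`,  `e x = exp (2 π i x)`.

Proof (compare `Th_feq` in `H92/CG/Theta.lean`, which is the case `a = b = 0`; copy it).
1. `summable_shift`: with the constant `c` of a lower bound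
   `A (x + β y)² + y² / A ≥ c (x² + y²)` for REAL `x, y` (the proof of `qf_lower` works word by word),
   and `(m + a)² ≥ m² / 2 - a²`, each term is at most
   `exp (π t c (a² + b²)) exp (-π (t c / 2) m²) exp (-π (t c / 2) n²)`; `summable_th`,
   `Summable.mul_of_nonneg`.
2. For fixed `n`: `poisson_shift` (with `t A` for `a`, `a + β (n + b)` for `x`):
   the sum over `m` is `(t A)^(-1/2) exp (-π (t / A) (n + b)²) ∑_k exp (-π k² / (t A)) e ((a + β (n + b)) k)`.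
3. The double series in `(n, k)` is absolutely summable; exchange (`Summable.tsum_comm`).
4. For fixed `k`, with `c = t / A`, `y = β k`:
   `∑_n exp (-π c (n + b)² + 2 π i y (n + b)) = c^(-1/2) ∑_l exp (-π (l - y)² / c) e (l b)`
   (`Complex.tsum_exp_neg_quadratic` with `b := i (y + i c b)`, i.e. expand the square; this is
   `pois_gen` below).
5. `(t A)^(1/2) (t / A)^(1/2) = t` (as in `Th_feq`), and with `v = (l, -k)`:
   `A (l - β k)² + k² / A = qf A β (l, -k)`, `e (a k + l b) = e (v.1 b - v.2 a)`; substitute `k ↦ -k`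
   (`Equiv.neg`), go back to a sum over `ℤ × ℤ` (`Summable.tsum_prod`, `Summable.tsum_comm`).
-/


open Real
open Pool.Agent.H92.CG

namespace Pool.Agent.H14.BK

theorem pois2_summable_line {c : ℝ} (hc : 0 < c) (b : ℝ) :
    Summable fun n : ℤ => Real.exp (-π * c * ((n : ℝ) + b) ^ 2) := by
  have h1 := (summable_th (half_pos hc)).mul_left (Real.exp (π * c * b ^ 2))
  refine Summable.of_nonneg_of_le (fun n => (Real.exp_pos _).le) (fun n => ?_) h1
  rw [← Real.exp_add, Real.exp_le_exp]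
  have h2 : 0 < π * c := mul_pos pi_pos hc
  have h3 : 0 ≤ π * c * ((n : ℝ) + 2 * b) ^ 2 := by positivity
  nlinarith

open Complex in
theorem pois2_norm_G (A t a b β : ℝ) (n k : ℤ) :
    ‖cexp (-π * (t / A : ℝ) * ((n : ℂ) + b) ^ 2) *
      cexp (-π / (t * A : ℝ) * (k : ℂ) ^ 2 + 2 * π * (I * (a + β * (n + b) : ℝ)) * k)‖ =
      rexp (-π * (t / A) * ((n : ℝ) + b) ^ 2) * rexp (-π * (1 / (t * A)) * (k : ℝ) ^ 2) := by
  rw [norm_mul, Complex.norm_exp, Complex.norm_exp]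
  congr 2
  · have : (-π * (t / A : ℝ) * ((n : ℂ) + b) ^ 2 : ℂ) =
        ((-π * (t / A) * ((n : ℝ) + b) ^ 2 : ℝ) : ℂ) := by
      push_cast; ring
    rw [this, Complex.ofReal_re]
  · have : (-π / (t * A : ℝ) * (k : ℂ) ^ 2 + 2 * π * (I * (a + β * (n + b) : ℝ)) * k : ℂ) =
        ((-π * (1 / (t * A)) * (k : ℝ) ^ 2 : ℝ) : ℂ) +
          ((2 * π * (a + β * (n + b)) * k : ℝ) : ℂ) * I := by
      push_cast; ring
    rw [this]
    simp only [Complex.add_re, Complex.ofReal_re, Complex.mul_I_re, Complex.ofReal_im, neg_zero,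
      add_zero]

open Complex in
theorem poisson2 {A t : ℝ} (hA : 0 < A) (β : ℝ) (ht : 0 < t) (a b : ℝ) :
    ((∑' v : ℤ × ℤ,
      Real.exp (-π * t * (A * ((v.1 + a) + β * (v.2 + b)) ^ 2 + (v.2 + b) ^ 2 / A)) : ℝ) : ℂ) =
      (1 / t : ℂ) * ∑' v : ℤ × ℤ, Complex.exp (2 * π * Complex.I * ((v.1 * b - v.2 * a : ℝ) : ℂ)) *
        ((Real.exp (-π * (1 / t) * qf A β v) : ℝ) : ℂ) := by
  have hA' : (A : ℂ) ≠ 0 := by exact_mod_cast hA.ne'
  have ht' : (t : ℂ) ≠ 0 := by exact_mod_cast ht.ne'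
  have hta : 0 < t * A := mul_pos ht hA
  have htb : 0 < t / A := div_pos ht hA
  -- the double series in `(n,k)`
  let G : ℤ → ℤ → ℂ := fun n k => cexp (-π * (t / A : ℝ) * ((n : ℂ) + b) ^ 2) *
    cexp (-π / (t * A : ℝ) * (k : ℂ) ^ 2 + 2 * π * (I * (a + β * (n + b) : ℝ)) * k)
  have hG : Summable (Function.uncurry G) := by
    have h1 : Summable fun v : ℤ × ℤ => rexp (-π * (t / A) * ((v.1 : ℝ) + b) ^ 2) *
        rexp (-π * (1 / (t * A)) * (v.2 : ℝ) ^ 2) :=
      (pois2_summable_line htb b).mul_of_nonneg (summable_th (by positivity))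
        (fun n => (Real.exp_pos _).le) (fun n => (Real.exp_pos _).le)
    refine Summable.of_norm_bounded h1 (fun v => ?_)
    exact (pois2_norm_G A t a b β v.1 v.2).le
  have e0 : ((∑' v : ℤ × ℤ,
      Real.exp (-π * t * (A * ((v.1 + a) + β * (v.2 + b)) ^ 2 + (v.2 + b) ^ 2 / A)) : ℝ) : ℂ) =
      ∑' n : ℤ, ∑' m : ℤ,
        cexp (-π * t * ((A : ℂ) * ((m : ℂ) + (a + β * (n + b) : ℝ)) ^ 2 + (n + b) ^ 2 / A)) := by
    have h1 := summable_shift hA β ht a b
    have h2 : Summable fun v : ℤ × ℤ => ((Real.exp (-π * t * (A * ((v.1 + a) +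
        β * (v.2 + b)) ^ 2 + (v.2 + b) ^ 2 / A)) : ℝ) : ℂ) :=
      Complex.ofRealCLM.summable h1
    rw [Complex.ofReal_tsum, h2.tsum_prod]
    rw [← Summable.tsum_comm (f := fun m n : ℤ => ((Real.exp (-π * t * (A * ((m + a) +
        β * (n + b)) ^ 2 + (n + b) ^ 2 / A)) : ℝ) : ℂ)) h2]
    refine tsum_congr fun n => tsum_congr fun m => ?_
    rw [Complex.ofReal_exp]
    congr 1
    push_cast
    ring
  have e1 : (∑' n : ℤ, ∑' m : ℤ,
        cexp (-π * t * ((A : ℂ) * ((m : ℂ) + (a + β * (n + b) : ℝ)) ^ 2 + (n + b) ^ 2 / A))) =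
      1 / ((t * A : ℝ) : ℂ) ^ (1 / 2 : ℂ) * ∑' n : ℤ, ∑' k : ℤ, G n k := by
    rw [← tsum_mul_left]
    refine tsum_congr fun n => ?_
    have h2 : ∀ m : ℤ, cexp (-π * t * ((A : ℂ) * ((m : ℂ) + (a + β * (n + b) : ℝ)) ^ 2 +
          (n + b) ^ 2 / A)) =
        cexp (-π * (t / A : ℝ) * ((n : ℂ) + b) ^ 2) *
          cexp (-π * (t * A : ℝ) * ((m : ℂ) + (a + β * (n + b) : ℝ)) ^ 2) := by
      intro m
      rw [← Complex.exp_add]
      congr 1
      push_cast
      field_simp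
      ring
    rw [tsum_congr h2, tsum_mul_left, poisson_shift hta (a + β * (n + b)), mul_left_comm,
      ← tsum_mul_left]
  have e2 : ∑' n : ℤ, ∑' k : ℤ, G n k = ∑' k : ℤ, ∑' n : ℤ, G n k :=
    (Summable.tsum_comm (f := G) hG).symm
  have e5 : ∑' v : ℤ × ℤ, cexp (2 * π * I * ((v.1 * b - v.2 * a : ℝ) : ℂ)) *
        ((Real.exp (-π * (1 / t) * qf A β v) : ℝ) : ℂ) =
      ∑' k : ℤ, ∑' l : ℤ, cexp (2 * π * I * ((l * b - k * a : ℝ) : ℂ)) *
        ((Real.exp (-π * (1 / t) * qf A β (l, k)) : ℝ) : ℂ) := by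
    have h2 : Summable fun v : ℤ × ℤ => cexp (2 * π * I * ((v.1 * b - v.2 * a : ℝ) : ℂ)) *
        ((Real.exp (-π * (1 / t) * qf A β v) : ℝ) : ℂ) := by
      refine Summable.of_norm_bounded (summable_Th hA β (one_div_pos.2 ht)) (fun v => ?_)
      rw [norm_mul, Complex.norm_real, Real.norm_eq_abs, Real.abs_exp]
      have h3 : (2 * π * I * ((v.1 * b - v.2 * a : ℝ) : ℂ)) =
          ((2 * π * (v.1 * b - v.2 * a) : ℝ) : ℂ) * I := by
        push_cast; ring
      rw [h3, Complex.norm_exp_ofReal_mul_I, one_mul]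
    rw [h2.tsum_prod]
    exact (Summable.tsum_comm (f := fun l k : ℤ => cexp (2 * π * I * ((l * b - k * a : ℝ) : ℂ)) *
        ((Real.exp (-π * (1 / t) * qf A β (l, k)) : ℝ) : ℂ)) h2).symm
  have e3 : ∑' k : ℤ, ∑' n : ℤ, G n k = 1 / ((t / A : ℝ) : ℂ) ^ (1 / 2 : ℂ) *
      ∑' v : ℤ × ℤ, cexp (2 * π * I * ((v.1 * b - v.2 * a : ℝ) : ℂ)) *
        ((Real.exp (-π * (1 / t) * qf A β v) : ℝ) : ℂ) := by
    rw [e5, ← tsum_mul_left]
    rw [← (Equiv.neg ℤ).tsum_eq]
    refine tsum_congr fun k => ?_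
    have h2 : ∀ n : ℤ, G n ((Equiv.neg ℤ) k) =
        cexp (-π / (t * A : ℝ) * (k : ℂ) ^ 2 - 2 * π * I * a * k) *
        cexp (-π * (t / A : ℝ) * ((n : ℂ) + b) ^ 2 +
          2 * π * Complex.I * ((-(β * k) : ℝ) : ℂ) * (n + b)) := by
      intro n
      simp only [G, Equiv.neg_apply]
      rw [← Complex.exp_add, ← Complex.exp_add]
      congr 1
      push_cast
      ring
    rw [tsum_congr h2, tsum_mul_left, pois_gen htb b (-(β * k)), mul_left_comm, ← tsum_mul_left]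
    congr 1
    refine tsum_congr fun l => ?_
    rw [← Complex.exp_add, Complex.ofReal_exp, ← Complex.exp_add]
    congr 1
    unfold qf
    push_cast
    field_simp
    ring
  have e4 : ((t * A : ℝ) : ℂ) ^ (1 / 2 : ℂ) * ((t / A : ℝ) : ℂ) ^ (1 / 2 : ℂ) = t := by
    rw [← Complex.mul_cpow_ofReal_nonneg hta.le htb.le]
    have h5 : (((t * A : ℝ) : ℂ) * ((t / A : ℝ) : ℂ)) = (t : ℂ) ^ 2 := by
      push_cast; field_simp
    rw [h5, one_div]
    have h6 : ((t : ℂ) ^ 2) ^ (2⁻¹ : ℂ) = t := by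
      have := Complex.pow_cpow_nat_inv (x := (t : ℂ)) (n := 2) two_ne_zero ?_ ?_
      · simpa using this
      · rw [Complex.arg_ofReal_of_nonneg ht.le]
        have := pi_pos
        simp only [Nat.cast_ofNat, Left.neg_neg_iff, gt_iff_lt]
        linarith
      · rw [Complex.arg_ofReal_of_nonneg ht.le]
        have := pi_pos
        positivity
    exact h6
  rw [e0, e1, e2, e3, ← e4]
  have h7 : ((t * A : ℝ) : ℂ) ^ (1 / 2 : ℂ) ≠ 0 := by
    rw [Ne, Complex.cpow_eq_zero_iff]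
    push Not
    intro h
    exact absurd (by exact_mod_cast h) hta.ne'
  have h8 : ((t / A : ℝ) : ℂ) ^ (1 / 2 : ℂ) ≠ 0 := by
    rw [Ne, Complex.cpow_eq_zero_iff]
    push Not
    intro h
    exact absurd (by exact_mod_cast h) htb.ne'
  rw [← mul_assoc, one_div_mul_one_div]

end Pool.Agent.H14.BK
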