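import Pool.Agent.H14.BK.KDef

/-!
# Poisson summation for a binary form with a shift: tools

`qf A β (m, n) = A (m + β n)² + n² / A` (`H92/CG/Theta.lean`).  Claim, for `A, t > 0`, real `a, b`:

`∑_{m,n} exp (-π t (A ((m + a) + β (n + b))² + (n + b)² / A))`
`= (1 / t) ∑_{l,k} e (l b - k a) exp (-π qf A β (l, k) / t)`,  `e x = exp (2 π i x)`.

Proof (compare `Th_feq` in `H92/CG/Theta.lean`, which is the case `a = b = 0`; copy it).
1. `summable_shift`: with the constant `c` of a lower bound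
   `A (x + β y)² + y² / A ≥ c (x² + y²)` for REAL `x, y` (the proof of `qf_lower` works word by word),
   and `(m + a)² ≥ m² / 2 - a²`, each term is at most
   `exp (π t c (a² + b²)) exp (-π (t c / 2) m²) exp (-π (t c / 2) n²)`; `summable_th`,
   `Summable.mul_of_nonneg`.
2. For fixed `n`: `poisson_shift` (with `t A` for `a`, `a + β (n + b)` for `x`):
   the sum over `m` is `(t A)^(-1/2) exp (-π (t / A) (n + b)²) ∑_k exp (-π k² / (t A)) e ((a + β (n + b)) k)`.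
3. The double series in `(n, k)` is absolutely summable; exchange (`Summable.tsum_comm`).
4. For fixed `k`, with `c = t / A`, `y = β k`:
   `∑_n exp (-π c (n + b)² + 2 π i y (n + b)) = c^(-1/2) ∑_l exp (-π (l - y)² / c) e (l b)`
   (`Complex.tsum_exp_neg_quadratic` with `b := i (y + i c b)`, i.e. expand the square; this is
   `pois_gen` below).
5. `(t A)^(1/2) (t / A)^(1/2) = t` (as in `Th_feq`), and with `v = (l, -k)`:
   `A (l - β k)² + k² / A = qf A β (l, -k)`, `e (a k + l b) = e (v.1 b - v.2 a)`; substitute `k ↦ -k`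
   (`Equiv.neg`), go back to a sum over `ℤ × ℤ` (`Summable.tsum_prod`, `Summable.tsum_comm`).


This file: `pois_gen` (step 4) and `summable_shift` (step 1).
-/


open Real
open Pool.Agent.H92.CG

namespace Pool.Agent.H14.BK

theorem pois_gen {c : ℝ} (hc : 0 < c) (b y : ℝ) :
    (∑' n : ℤ, Complex.exp (-π * c * ((n : ℂ) + b) ^ 2 + 2 * π * Complex.I * y * (n + b))) =
      1 / (c : ℂ) ^ (1 / 2 : ℂ) *
        ∑' l : ℤ, Complex.exp (-π / c * ((l : ℂ) - y) ^ 2 + 2 * π * Complex.I * l * b) := by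
  have hc' : (c : ℂ) ≠ 0 := by exact_mod_cast hc.ne'
  have h1 := Complex.tsum_exp_neg_quadratic (a := (c : ℂ)) (by simpa using hc)
    (Complex.I * y - c * b)
  have h2 : ∀ n : ℤ, Complex.exp (-π * c * ((n : ℂ) + b) ^ 2 + 2 * π * Complex.I * y * (n + b)) =
      Complex.exp (-π * c * b ^ 2 + 2 * π * Complex.I * y * b) *
        Complex.exp (-π * c * (n : ℂ) ^ 2 + 2 * π * (Complex.I * y - c * b) * n) := by
    intro n
    rw [← Complex.exp_add]
    congr 1
    ring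
  rw [tsum_congr h2, tsum_mul_left, h1, mul_left_comm, ← tsum_mul_left]
  congr 1
  refine tsum_congr fun l => ?_
  rw [← Complex.exp_add]
  congr 1
  have hI : Complex.I ^ 2 = -1 := Complex.I_sq
  have e1 : (l : ℂ) + Complex.I * (Complex.I * y - c * b) = l - y - Complex.I * (c * b) := by
    linear_combination (y : ℂ) * hI
  rw [e1]
  field_simp
  linear_combination (-(c : ℂ) ^ 2 * b ^ 2) * hI

theorem qf_lower_real {A : ℝ} (hA : 0 < A) (β : ℝ) :
    ∃ c : ℝ, 0 < c ∧ ∀ x y : ℝ, c * (x ^ 2 + y ^ 2) ≤ A * (x + β * y) ^ 2 + y ^ 2 / A := by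
  refine ⟨1 / (2 / A + (2 * β ^ 2 + 1) * A), by positivity, fun m n => ?_⟩
  have hM : 0 < 2 / A + (2 * β ^ 2 + 1) * A := by positivity
  rw [one_div, inv_mul_le_iff₀ hM]
  obtain ⟨x, hx⟩ : ∃ x : ℝ, x = m + β * n := ⟨_, rfl⟩
  have h1 : m = x - β * n := by rw [hx]; ring
  rw [← hx, h1]
  have h2 : (2 / A + (2 * β ^ 2 + 1) * A) * (A * x ^ 2 + n ^ 2 / A) =
      2 * x ^ 2 + (2 * β ^ 2 + 1) * n ^ 2 + (2 * β ^ 2 + 1) * A ^ 2 * x ^ 2 + 2 * n ^ 2 / A ^ 2 := by
    field_simp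
    ring
  rw [h2]
  have h3 : 0 ≤ (2 * β ^ 2 + 1) * A ^ 2 * x ^ 2 := by positivity
  have h4 : 0 ≤ 2 * n ^ 2 / A ^ 2 := by positivity
  nlinarith [sq_nonneg (x + β * n)]

theorem summable_shift {A t : ℝ} (hA : 0 < A) (β : ℝ) (ht : 0 < t) (a b : ℝ) :
    Summable fun v : ℤ × ℤ =>
      Real.exp (-π * t * (A * ((v.1 + a) + β * (v.2 + b)) ^ 2 + (v.2 + b) ^ 2 / A)) := by
  obtain ⟨c, hc, hcq⟩ := qf_lower_real hA β
  have hc2 : 0 < t * (c / 2) := by positivity
  have h1 : Summable fun v : ℤ × ℤ =>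
      exp (-π * (t * (c / 2)) * (v.1 : ℝ) ^ 2) * exp (-π * (t * (c / 2)) * (v.2 : ℝ) ^ 2) :=
    (summable_th hc2).mul_of_nonneg (summable_th hc2)
      (fun n => (exp_pos _).le) (fun n => (exp_pos _).le)
  refine Summable.of_nonneg_of_le (fun n => (exp_pos _).le) (fun v => ?_)
    (h1.mul_left (exp (π * t * c * (a ^ 2 + b ^ 2))))
  rw [← exp_add, ← exp_add, exp_le_exp]
  have h2 := mul_le_mul_of_nonneg_left (hcq ((v.1 : ℝ) + a) ((v.2 : ℝ) + b)) (mul_pos pi_pos ht).le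
  have h3 : (v.1 : ℝ) ^ 2 / 2 - a ^ 2 ≤ ((v.1 : ℝ) + a) ^ 2 := by
    nlinarith [sq_nonneg ((v.1 : ℝ) + 2 * a)]
  have h4 : (v.2 : ℝ) ^ 2 / 2 - b ^ 2 ≤ ((v.2 : ℝ) + b) ^ 2 := by
    nlinarith [sq_nonneg ((v.2 : ℝ) + 2 * b)]
  have h5 : 0 < π * t * c := by positivity
  have h6 := mul_le_mul_of_nonneg_left (add_le_add h3 h4) h5.le
  nlinarith

end Pool.Agent.H14.BK
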