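import Pool.Agent.H14.BK.Pois2

/-!
# Coordinates of an ideal

`J ≠ ⊥` an ideal.  Proofs.

`exists_obasis`: `exists_PB` (`H92/CG/Reduced.lean`) gives a `ℤ`-basis `x, y` of `J` with
`2 |Im (σ y conj σ x)| = N J √|D|`; if the sign is wrong use `PB.swap`.

`exists_qf`: with `X = σ x`, `Y = σ y` put `A = 2 ‖X‖² / (N J √|D|)`, `β = Re (conj X Y) / ‖X‖²`
(`X ≠ 0`).  For REAL `u, v`:
`qJ J (u X + v Y) = A (u + β v)² + v² / A`: expand
`‖u X + v Y‖² = ‖X‖² u² + 2 u v Re (conj X Y) + v² ‖Y‖²` and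
`‖X‖² ‖Y‖² = Re(conj X Y)² + Im(conj X Y)²`, `Im (conj X Y) = N J √|D| / 2`
(compare `alg_aux` and `exists_form` in `H92/CG/Reduced.lean`), and
`om J (u X + v Y) (u' X + v' Y) = u v' - v u'`
(bilinear, alternating, `om J X Y = 1`).  Every `ξ : ℂ` is `a X + b Y` with real `a, b`
(`Im (conj X Y) ≠ 0`: `a = om J ξ Y`, `b = om J X ξ`, or solve the 2 x 2 system).
-/


open NumberField Module
open scoped nonZeroDivisors ComplexConjugate
open Pool.Agent.H92.CG

namespace Pool.Agent.H14.BK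

variable {K : Type*} [Field K] [NumberField K] [IsTotallyComplex K]

theorem exists_obasis (h2 : finrank ℚ K = 2) (σ : K →+* ℂ) {J : Ideal (𝓞 K)} (hJ : J ≠ ⊥) :
    ∃ x y : J, Function.Bijective (fun v : ℤ × ℤ => v.1 • x + v.2 • y) ∧
      2 * (conj (σ (x : 𝓞 K)) * σ (y : 𝓞 K)).im = (Ideal.absNorm J : ℝ) * rD K := by
  obtain ⟨x, y, h⟩ := exists_PB h2 σ J hJ
  rcases le_total 0 (σ (y : 𝓞 K) * conj (σ (x : 𝓞 K))).im with h0 | h0
  · refine ⟨x, y, h.1, ?_⟩
    have h3 := h.2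
    rw [abs_of_nonneg h0] at h3
    rw [mul_comm (conj (σ (x : 𝓞 K)))]
    exact h3
  · refine ⟨y, x, h.swap.1, ?_⟩
    have h3 := h.2
    rw [abs_of_nonpos h0] at h3
    have h4 : (conj (σ (y : 𝓞 K)) * σ (x : 𝓞 K)).im =
        -(σ (y : 𝓞 K) * conj (σ (x : 𝓞 K))).im := by
      simp only [Complex.mul_im, Complex.conj_re, Complex.conj_im]
      ring
    rw [h4]
    exact h3

theorem exists_qf (h2 : finrank ℚ K = 2) (σ : K →+* ℂ) {J : Ideal (𝓞 K)} (hJ : J ≠ ⊥) :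
    ∃ (A β : ℝ) (X Y : ℂ) (E : ℤ × ℤ ≃ J), 0 < A ∧
      (∀ v : ℤ × ℤ, σ (E v : 𝓞 K) = v.1 * X + v.2 * Y) ∧
      (∀ u v : ℝ, qJ J (u * X + v * Y) = A * (u + β * v) ^ 2 + v ^ 2 / A) ∧
      (∀ u v u' v' : ℝ, om J (u * X + v * Y) (u' * X + v' * Y) = u * v' - v * u') ∧
      ∀ ξ : ℂ, ∃ a b : ℝ, ξ = a * X + b * Y := by
  obtain ⟨x, y, hb, hQ⟩ := exists_obasis h2 σ hJ
  set X : ℂ := σ (x : 𝓞 K) with hX
  set Y : ℂ := σ (y : 𝓞 K) with hY
  have hM : 0 < (Ideal.absNorm J : ℝ) * rD K := mul_pos (absNorm_pos hJ) rD_pos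
  set R : ℝ := (conj X * Y).im with hR
  set P : ℝ := (conj X * Y).re with hP
  have hRpos : 0 < R := by linarith
  have hR' : R = X.re * Y.im - X.im * Y.re := by
    rw [hR]
    simp only [Complex.mul_im, Complex.conj_re, Complex.conj_im]
    ring
  have hP' : P = X.re * Y.re + X.im * Y.im := by
    rw [hP]
    simp only [Complex.mul_re, Complex.conj_re, Complex.conj_im]
    ring
  have hn : ∀ z : ℂ, ‖z‖ ^ 2 = z.re ^ 2 + z.im ^ 2 := by
    intro z
    rw [← Complex.normSq_eq_norm_sq, Complex.normSq_apply]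
    ring
  have h6 : P ^ 2 = ‖X‖ ^ 2 * ‖Y‖ ^ 2 - R ^ 2 := by
    rw [hP', hR', hn, hn]
    ring
  have hXpos : 0 < ‖X‖ ^ 2 := by
    rcases eq_or_ne X 0 with h0 | h0
    · exfalso
      rw [hR', h0] at hRpos
      simp at hRpos
    · positivity
  refine ⟨‖X‖ ^ 2 / R, P / ‖X‖ ^ 2, X, Y, Equiv.ofBijective _ hb, by positivity, ?_, ?_, ?_, ?_⟩
  · intro v
    simp [hX, hY]
  · intro u v
    rw [qJ, ← hQ, ← alg_aux _ _ _ _ hXpos.ne' hRpos.ne' h6]
    congr 2
    rw [hn, hn, hn, hP']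
    simp only [Complex.add_re, Complex.add_im, Complex.mul_re, Complex.mul_im, Complex.ofReal_re,
      Complex.ofReal_im]
    ring
  · intro u v u' v'
    rw [om, ← hQ]
    have h7 : (conj (u * X + v * Y) * (u' * X + v' * Y)).im = (u * v' - v * u') * R := by
      rw [hR']
      simp only [Complex.add_re, Complex.add_im, Complex.mul_re, Complex.mul_im, Complex.ofReal_re,
        Complex.ofReal_im, Complex.conj_re, Complex.conj_im]
      ring
    rw [h7]
    field_simp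
  · intro ξ
    refine ⟨(ξ.re * Y.im - ξ.im * Y.re) / R, (X.re * ξ.im - X.im * ξ.re) / R, ?_⟩
    have hR0 : R ≠ 0 := hRpos.ne'
    apply Complex.ext
    · simp only [Complex.add_re, Complex.mul_re, Complex.ofReal_re, Complex.ofReal_im]
      field_simp
      linear_combination ξ.re * hR'
    · simp only [Complex.add_im, Complex.mul_im, Complex.ofReal_re, Complex.ofReal_im]
      field_simp
      linear_combination ξ.im * hR'

end Pool.Agent.H14.BK
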