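import Pool.Agent.H14.BK.Defs

/-!
# The ray class group modulo a prime ideal, with a zero added
-/

open NumberField
open scoped nonZeroDivisors

namespace Pool.Agent.H14.BK

variable {K : Type*} [Field K] [NumberField K]

/-- `I` and `J` are both divisible by `𝔭`, or both prime to `𝔭` and `I = (b / a) J` with
`a ≡ b mod 𝔭` prime to `𝔭`. -/
def RayRel (𝔭 I J : Ideal (𝓞 K)) : Prop :=
  (𝔭 ∣ I ∧ 𝔭 ∣ J) ∨ (¬ 𝔭 ∣ I ∧ ¬ 𝔭 ∣ J ∧ ∃ a b : 𝓞 K, a ∉ 𝔭 ∧ b ∉ 𝔭 ∧ a - b ∈ 𝔭 ∧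
    Ideal.span {a} * I = Ideal.span {b} * J)

lemma not_mem_mul {𝔭 : Ideal (𝓞 K)} (h𝔭 : Prime 𝔭) {a b : 𝓞 K} (ha : a ∉ 𝔭) (hb : b ∉ 𝔭) :
    a * b ∉ 𝔭 := by
  have := Ideal.isPrime_of_prime h𝔭
  intro h
  rcases this.mem_or_mem h with h | h
  · exact ha h
  · exact hb h

/-- the congruence relation `RayRel` on the monoid of ideals -/
def rayCon (𝔭 : Ideal (𝓞 K)) (h𝔭 : Prime 𝔭) : Con (Ideal (𝓞 K)) where
  r := RayRel 𝔭
  iseqv := by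
    have hP := Ideal.isPrime_of_prime h𝔭
    refine ⟨?_, ?_, ?_⟩
    · intro I
      by_cases h : 𝔭 ∣ I
      · exact Or.inl ⟨h, h⟩
      · refine Or.inr ⟨h, h, 1, 1, ?_, ?_, by simp, rfl⟩ <;>
        exact fun h1 => hP.ne_top ((Ideal.eq_top_iff_one 𝔭).mpr h1)
    · rintro I J (⟨h1, h2⟩ | ⟨h1, h2, a, b, ha, hb, hab, h⟩)
      · exact Or.inl ⟨h2, h1⟩
      · refine Or.inr ⟨h2, h1, b, a, hb, ha, ?_, h.symm⟩
        rw [← neg_sub]
        exact 𝔭.neg_mem hab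
    · rintro I J L (⟨h1, h2⟩ | ⟨h1, h2, a, b, ha, hb, hab, h⟩)
        (⟨h1', h2'⟩ | ⟨h1', h2', a', b', ha', hb', hab', h'⟩)
      · exact Or.inl ⟨h1, h2'⟩
      · exact absurd h2 h1'
      · exact absurd h1' h2
      · refine Or.inr ⟨h1, h2', a * a', b * b', not_mem_mul h𝔭 ha ha', not_mem_mul h𝔭 hb hb', ?_, ?_⟩
        · have : a * a' - b * b' = a * (a' - b') + b' * (a - b) := by ring
          rw [this]
          exact 𝔭.add_mem (𝔭.mul_mem_left _ hab') (𝔭.mul_mem_left _ hab)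
        · rw [← Ideal.span_singleton_mul_span_singleton, ← Ideal.span_singleton_mul_span_singleton]
          calc Ideal.span {a} * Ideal.span {a'} * I = Ideal.span {a'} * (Ideal.span {a} * I) := by
                ring
            _ = Ideal.span {b} * (Ideal.span {a'} * J) := by rw [h]; ring
            _ = _ := by rw [h']; ring
  mul' := by
    rintro I J I' J' (⟨h1, h2⟩ | ⟨h1, h2, a, b, ha, hb, hab, h⟩) h'
    · exact Or.inl ⟨h1.mul_right _, h2.mul_right _⟩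
    · rcases h' with ⟨h1', h2'⟩ | ⟨h1', h2', a', b', ha', hb', hab', h'⟩
      · exact Or.inl ⟨h1'.mul_left _, h2'.mul_left _⟩
      · refine Or.inr ⟨?_, ?_, a * a', b * b', not_mem_mul h𝔭 ha ha', not_mem_mul h𝔭 hb hb', ?_, ?_⟩
        · intro h3
          rcases h𝔭.dvd_or_dvd h3 with h3 | h3
          · exact h1 h3
          · exact h1' h3
        · intro h3
          rcases h𝔭.dvd_or_dvd h3 with h3 | h3
          · exact h2 h3
          · exact h2' h3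
        · have : a * a' - b * b' = a * (a' - b') + b' * (a - b) := by ring
          rw [this]
          exact 𝔭.add_mem (𝔭.mul_mem_left _ hab') (𝔭.mul_mem_left _ hab)
        · rw [← Ideal.span_singleton_mul_span_singleton, ← Ideal.span_singleton_mul_span_singleton]
          calc Ideal.span {a} * Ideal.span {a'} * (I * I') =
                (Ideal.span {a} * I) * (Ideal.span {a'} * I') := by ring
            _ = (Ideal.span {b} * J) * (Ideal.span {b'} * J') := by rw [h, h']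
            _ = _ := by ring

/-- The ray class group modulo `𝔭` with a zero added. -/
def RW (𝔭 : Ideal (𝓞 K)) (h𝔭 : Prime 𝔭) : Type _ := (rayCon 𝔭 h𝔭).Quotient

/-- the class of an ideal -/
def rcl (𝔭 : Ideal (𝓞 K)) (h𝔭 : Prime 𝔭) (I : Ideal (𝓞 K)) : RW 𝔭 h𝔭 :=
  ((I : (rayCon 𝔭 h𝔭).Quotient))

variable {𝔭 : Ideal (𝓞 K)} {h𝔭 : Prime 𝔭}

noncomputable instance : CommMonoid (RW 𝔭 h𝔭) :=
  inferInstanceAs (CommMonoid (rayCon 𝔭 h𝔭).Quotient)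

lemma rcl_mul (I J : Ideal (𝓞 K)) : rcl 𝔭 h𝔭 (I * J) = rcl 𝔭 h𝔭 I * rcl 𝔭 h𝔭 J := rfl

lemma rcl_one : rcl 𝔭 h𝔭 1 = 1 := rfl

lemma rcl_surj (x : RW 𝔭 h𝔭) : ∃ I, rcl 𝔭 h𝔭 I = x := by
  induction x using Con.induction_on with
  | H I => exact ⟨I, rfl⟩

lemma rcl_eq_iff (I J : Ideal (𝓞 K)) : rcl 𝔭 h𝔭 I = rcl 𝔭 h𝔭 J ↔ RayRel 𝔭 I J :=
  (rayCon 𝔭 h𝔭).eq

noncomputable instance : CommMonoidWithZero (RW 𝔭 h𝔭) :=
  { (inferInstance : CommMonoid (RW 𝔭 h𝔭)) with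
    zero := rcl 𝔭 h𝔭 ⊥
    zero_mul := by
      intro a
      obtain ⟨I, rfl⟩ := rcl_surj a
      change rcl 𝔭 h𝔭 ⊥ * rcl 𝔭 h𝔭 I = rcl 𝔭 h𝔭 ⊥
      rw [← rcl_mul, Ideal.bot_mul]
    mul_zero := by
      intro a
      obtain ⟨I, rfl⟩ := rcl_surj a
      change rcl 𝔭 h𝔭 I * rcl 𝔭 h𝔭 ⊥ = rcl 𝔭 h𝔭 ⊥
      rw [← rcl_mul, Ideal.mul_bot] }

lemma rcl_bot : rcl 𝔭 h𝔭 ⊥ = 0 := rfl

lemma rcl_eq_zero_iff (I : Ideal (𝓞 K)) : rcl 𝔭 h𝔭 I = 0 ↔ 𝔭 ∣ I := by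
  rw [← rcl_bot, rcl_eq_iff]
  constructor
  · rintro (⟨h, _⟩ | ⟨_, h, _⟩)
    · exact h
    · exact absurd (dvd_zero 𝔭) h
  · intro h
    exact Or.inl ⟨h, dvd_zero 𝔭⟩

/-- every ideal prime to `𝔭` has an inverse modulo `RayRel` -/
lemma exists_inv (h𝔭 : Prime 𝔭) (I : Ideal (𝓞 K)) (hI : ¬ 𝔭 ∣ I) :
    ∃ J, rcl 𝔭 h𝔭 I * rcl 𝔭 h𝔭 J = 1 := by
  have hP := Ideal.isPrime_of_prime h𝔭
  have hmax : 𝔭.IsMaximal := hP.isMaximal h𝔭.ne_zero
  have hI0 : I ≠ 0 := fun h => hI (h ▸ dvd_zero 𝔭)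
  set h : ℕ := Fintype.card (ClassGroup (𝓞 K)) with hh
  have hpos : 0 < h := Fintype.card_pos
  -- `I^h` is principal
  have h1 : (I ^ h).IsPrincipal := by
    have hmem : I ^ h ∈ (Ideal (𝓞 K))⁰ := mem_nonZeroDivisors_of_ne_zero (pow_ne_zero _ hI0)
    rw [← ClassGroup.mk0_eq_one_iff hmem]
    have : (⟨I ^ h, hmem⟩ : (Ideal (𝓞 K))⁰) = ⟨I, mem_nonZeroDivisors_of_ne_zero hI0⟩ ^ h := by
      ext1
      rfl
    rw [this, map_pow, pow_card_eq_one]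
  obtain ⟨c, hc⟩ := h1
  have hc' : I ^ h = Ideal.span {c} := hc
  have hcp : c ∉ 𝔭 := by
    intro hmem
    have : 𝔭 ∣ I ^ h := by
      rw [hc', Ideal.dvd_span_singleton]
      exact hmem
    exact hI (h𝔭.dvd_of_dvd_pow this)
  obtain ⟨d, hd⟩ : ∃ d : 𝓞 K, c * d - 1 ∈ 𝔭 := by
    obtain ⟨d, hd⟩ := hmax.exists_inv hcp
    obtain ⟨i, hi, hdi⟩ := hd
    refine ⟨d, ?_⟩
    have : c * d - 1 = - i := by linear_combination hdi
    rw [this]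
    exact 𝔭.neg_mem hi
  have hdp : c * d ∉ 𝔭 := by
    intro hmem
    apply hP.ne_top
    rw [Ideal.eq_top_iff_one]
    have := 𝔭.sub_mem hmem hd
    simpa using this
  refine ⟨Ideal.span {d} * I ^ (h - 1), ?_⟩
  rw [← rcl_mul, ← rcl_one, rcl_eq_iff]
  have e : I * (Ideal.span {d} * I ^ (h - 1)) = Ideal.span {c * d} := by
    rw [← Ideal.span_singleton_mul_span_singleton, ← hc']
    calc I * (Ideal.span {d} * I ^ (h - 1)) = (I ^ (h - 1) * I) * Ideal.span {d} := by ring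
      _ = _ := by rw [← pow_succ, Nat.sub_add_cancel hpos]
  rw [e]
  refine Or.inr ⟨?_, ?_, 1, c * d, ?_, hdp, ?_, ?_⟩
  · rw [Ideal.dvd_span_singleton]
    exact hdp
  · intro h3
    exact h𝔭.not_isUnit (isUnit_of_dvd_one h3)
  · exact fun h1 => hP.ne_top ((Ideal.eq_top_iff_one 𝔭).mpr h1)
  · rw [← neg_sub]
    exact 𝔭.neg_mem hd
  · rw [Ideal.span_singleton_one, Ideal.one_eq_top, Ideal.mul_top, Ideal.top_mul]

instance : Nontrivial (RW 𝔭 h𝔭) := by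
  refine ⟨⟨1, 0, ?_⟩⟩
  rw [← rcl_one, Ne, rcl_eq_zero_iff]
  intro h3
  exact h𝔭.not_isUnit (isUnit_of_dvd_one h3)

noncomputable instance : CommGroupWithZero (RW 𝔭 h𝔭) :=
  commGroupWithZeroOfIsUnitOrEqZero (by
    intro a
    obtain ⟨I, rfl⟩ := rcl_surj a
    by_cases h : 𝔭 ∣ I
    · right
      exact (rcl_eq_zero_iff I).mpr h
    · left
      obtain ⟨J, hJ⟩ := exists_inv h𝔭 I h
      exact IsUnit.of_mul_eq_one _ hJ)

/-- the class map as a homomorphism of monoids with zero -/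
noncomputable def rclHom (𝔭 : Ideal (𝓞 K)) (h𝔭 : Prime 𝔭) : Ideal (𝓞 K) →*₀ RW 𝔭 h𝔭 where
  toFun := rcl 𝔭 h𝔭
  map_zero' := rcl_bot
  map_one' := rcl_one
  map_mul' := rcl_mul

@[simp] lemma rclHom_apply (I : Ideal (𝓞 K)) : rclHom 𝔭 h𝔭 I = rcl 𝔭 h𝔭 I := rfl

end Pool.Agent.H14.BK
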