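import Pool.Agent.H14.BN.Base
import Pool.Agent.H14.BK.Iso
import Pool.Agent.H14.BK.Count
import Pool.Agent.H14.BK.Cheb

/-!
# The ideals of an imaginary quadratic field as sized numbers (job BK-Sys)

* `Sys.mono`: all fields are monotone in `K` (`card_sub`, `card_le`, `cheb`: the right hand sides
  increase; `κ_inv`: `1 ≤ K κ`, `κ > 0`).
* `card_SI`: `(SI (sz ι) N).card = Nat.card {I : (Ideal (𝓞 K))⁰ // absNorm I ≤ N}`: `SI` is the finite
  set of the `n ≠ 0` with `absNorm (ι n) ≤ N`; the bijection is `n ↦ ι n`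
  (`iota_ne_bot`, `mem_nonZeroDivisors_iff_ne_zero`); the set is finite
  (`Ideal.finite_setOfPred_absNorm_le₀`, `Set.Finite.preimage`).
* `exists_sys`: `κ, C` from `card_ideals`.
  `two_le`: `absNorm (ι p) ≠ 0` (`Ideal.absNorm_eq_zero_iff`) and `≠ 1` (`Ideal.absNorm_eq_one_iff`;
  `ι p` is prime by `iota_prime`, so not `⊤`).
  `card_le`: `κ N + C √N ≤ (κ + C) N`.
  `cheb`: `chebyshev_ideals` for `T = (SP (sz ι) N).image ι` (`Finset.sum_image`, `ι` injective).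
  `K₀ = max` of `1, κ, 1/κ, C, κ + C, 2 log 4` (sum them up).
-/

open NumberField Module
open scoped nonZeroDivisors

namespace Pool.Agent.H14.BK

open Pool.Agent.H14.BN

theorem Sys.mono {s : ℕ →*₀ ℕ} {κ K K' : ℝ} (h : Sys s κ K) (hK : K ≤ K') : Sys s κ K' where
  two_le := h.two_le
  fin := h.fin
  κ_pos := h.κ_pos
  K_one := h.K_one.trans hK
  κ_le := h.κ_le.trans hK
  κ_inv := h.κ_inv.trans (mul_le_mul_of_nonneg_right hK h.κ_pos.le)
  card_sub := fun N => (h.card_sub N).trans (mul_le_mul_of_nonneg_right hK (Real.sqrt_nonneg _))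
  card_le := fun N => (h.card_le N).trans (mul_le_mul_of_nonneg_right hK (Nat.cast_nonneg _))
  cheb := fun N => (h.cheb N).trans (mul_le_mul_of_nonneg_right hK (Nat.cast_nonneg _))

theorem finite_sz {K : Type*} [Field K] [NumberField K] (ι : ℕ ≃* Ideal (𝓞 K)) (N : ℕ) :
    {n : ℕ | n ≠ 0 ∧ sz ι n ≤ N}.Finite := by
  refine ((Ideal.finite_setOfPred_absNorm_le (S := 𝓞 K) N).preimage
    (f := fun n : ℕ => ι n) ι.injective.injOn).subset ?_
  intro n hn
  exact hn.2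

theorem SysK_mem_SI {K : Type*} [Field K] [NumberField K] (ι : ℕ ≃* Ideal (𝓞 K)) (N n : ℕ) :
    n ∈ SI (sz ι) N ↔ n ≠ 0 ∧ Ideal.absNorm (ι n) ≤ N := by
  unfold SI
  rw [dif_pos (finite_sz ι N), Set.Finite.mem_toFinset]
  rfl

theorem card_SI {K : Type*} [Field K] [NumberField K] (ι : ℕ ≃* Ideal (𝓞 K)) (N : ℕ) :
    (SI (sz ι) N).card =
      Nat.card {I : (Ideal (𝓞 K))⁰ // Ideal.absNorm (I : Ideal (𝓞 K)) ≤ N} := by
  have h1 : (SI (sz ι) N).card = Nat.card {x // x ∈ SI (sz ι) N} := by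
    rw [Nat.card_eq_fintype_card, Fintype.card_coe]
  rw [h1]
  have hne : ∀ x : {x // x ∈ SI (sz ι) N}, ι x.1 ∈ (Ideal (𝓞 K))⁰ := by
    intro x
    rw [mem_nonZeroDivisors_iff_ne_zero]
    exact (iota_ne_bot ι x.1).2 ((SysK_mem_SI ι N x.1).1 x.2).1
  refine Nat.card_eq_of_bijective
    (fun x : {x // x ∈ SI (sz ι) N} =>
      (⟨⟨ι x.1, hne x⟩, ((SysK_mem_SI ι N x.1).1 x.2).2⟩ :
        {I : (Ideal (𝓞 K))⁰ // Ideal.absNorm (I : Ideal (𝓞 K)) ≤ N})) ⟨?_, ?_⟩
  · intro x y hxy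
    have h2 : ι x.1 = ι y.1 := congrArg (fun z => ((z.1 : (Ideal (𝓞 K))⁰) : Ideal (𝓞 K))) hxy
    exact Subtype.ext (ι.injective h2)
  · rintro ⟨⟨I, hI⟩, hIN⟩
    obtain ⟨n, rfl⟩ := ι.surjective I
    have hn : n ∈ SI (sz ι) N := by
      rw [SysK_mem_SI]
      refine ⟨(iota_ne_bot ι n).1 ?_, hIN⟩
      rw [mem_nonZeroDivisors_iff_ne_zero] at hI
      exact hI
    exact ⟨⟨n, hn⟩, rfl⟩

theorem exists_sys {K : Type*} [Field K] [NumberField K] [IsTotallyComplex K]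
    (h2 : finrank ℚ K = 2) (ι : ℕ ≃* Ideal (𝓞 K)) : ∃ κ K₀ : ℝ, Sys (sz ι) κ K₀ := by
  classical
  obtain ⟨κ, C, hκ, hC, hcard⟩ := card_ideals K h2
  have hlog4 : 0 ≤ 2 * Real.log 4 := by positivity
  have hinv : 0 < 1 / κ := by positivity
  set K₀ : ℝ := 1 + κ + 1 / κ + C + (κ + C) + 2 * Real.log 4 with hK₀
  have hcard' : ∀ N : ℕ, |((SI (sz ι) N).card : ℝ) - κ * N| ≤ C * √(N : ℝ) := by
    intro N
    rw [card_SI]
    exact hcard N
  refine ⟨κ, K₀, ?_, ?_, hκ, ?_, ?_, ?_, ?_, ?_, ?_⟩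
  · intro p hp
    rw [sz_apply]
    have hprime : Prime (ι p) := (iota_prime ι p).2 hp
    have h0 : Ideal.absNorm (ι p) ≠ 0 := by
      rw [Ne, Ideal.absNorm_eq_zero_iff]
      exact (iota_ne_bot ι p).2 hp.ne_zero
    have h1 : Ideal.absNorm (ι p) ≠ 1 := by
      rw [Ne, Ideal.absNorm_eq_one_iff]
      intro h
      apply hprime.not_unit
      rw [h, ← Ideal.one_eq_top]
      exact isUnit_one
    omega
  · exact finite_sz ι
  · rw [hK₀]; linarith
  · rw [hK₀]; linarith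
  · have h1 : (1 / κ) * κ ≤ K₀ * κ := by
      apply mul_le_mul_of_nonneg_right _ hκ.le
      rw [hK₀]; linarith
    rwa [one_div, inv_mul_cancel₀ hκ.ne'] at h1
  · intro N
    refine (hcard' N).trans (mul_le_mul_of_nonneg_right ?_ (Real.sqrt_nonneg _))
    rw [hK₀]; linarith
  · intro N
    have h1 := (abs_le.1 (hcard' N)).2
    have h2' : √(N : ℝ) ≤ N := by
      rcases Nat.eq_zero_or_pos N with rfl | hN
      · simp
      · have : (1 : ℝ) ≤ N := by exact_mod_cast hN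
        rw [Real.sqrt_le_left (by linarith)]
        nlinarith
    have h3 : C * √(N : ℝ) ≤ C * N := mul_le_mul_of_nonneg_left h2' hC
    have h4 : (κ + C) * N ≤ K₀ * N := by
      apply mul_le_mul_of_nonneg_right _ (Nat.cast_nonneg _)
      rw [hK₀]; linarith
    linarith
  · intro N
    have h1 : ∑ p ∈ SP (sz ι) N, Real.log ((sz ι p : ℕ) : ℝ)
        = ∑ P ∈ (SP (sz ι) N).image (fun p => ι p), Real.log (Ideal.absNorm P : ℝ) := by
      rw [Finset.sum_image (fun a _ b _ h => ι.injective h)]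
      rfl
    rw [h1]
    have h3 := chebyshev_ideals (K := K) N ((SP (sz ι) N).image (fun p => ι p)) (by
      intro P hP
      obtain ⟨p, hp, rfl⟩ := Finset.mem_image.1 hP
      unfold SP at hp
      rw [Finset.mem_filter, SysK_mem_SI] at hp
      exact ⟨(iota_prime ι p).2 hp.2, hp.1.2⟩)
    refine h3.trans (mul_le_mul_of_nonneg_right ?_ (Nat.cast_nonneg _))
    rw [h2, hK₀]
    push_cast
    linarith

end Pool.Agent.H14.BK
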