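import Pool.Agent.H14.BK.KDef

/-!
# Ideal classes

`InC c I`: the nonzero ideal `I` is in the class `c` (`KDef.lean`).

Proofs.

`inC_mul`, `inC_unique`, `exists_inC`: unfold (`map_mul`; the product of the subtypes is
`Subtype.ext rfl`).

`exists_rep`: choose `J₁` in the class `c⁻¹` (`ClassGroup.mk0_surjective`).  Choose `x ∈ J₁` with
`x ∉ J₁ P` and `x ∉ J₁ P'`: there are `a ∈ J₁ ∖ J₁ P` and `b ∈ J₁ ∖ J₁ P'`
(`J₁ P ≠ J₁` as `P ≠ 1`, cancellation); if `a ∉ J₁ P'` take `a`, if `b ∉ J₁ P` take `b`, otherwise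
`a + b` (and if `P = P'` then `a`, covered by the first case).  Then `(x) = J₁ J`
(`Ideal.dvd_span_singleton`), `J` is in the class `c` (the class of `(x)` is `1`), and `P ∣ J` would
give `x ∈ J₁ P`.

`sum_class`: for each `I ≠ ⊥` exactly one `c` has `InC c I` (`Finset.sum_ite_eq` after
`Summable.tsum_finsetSum`, i.e. exchange the finite sum with the series; each series is summable,
`Summable.of_norm_bounded` by `‖F I‖`); `F ⊥ = 0`.
-/


open NumberField Module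
open scoped nonZeroDivisors ComplexConjugate
open Pool.Agent.H92.CG

namespace Pool.Agent.H14.BK

variable {K : Type*} [Field K] [NumberField K]

theorem inC_mul {c d : ClassGroup (𝓞 K)} {I J : Ideal (𝓞 K)} (hI : InC c I) (hJ : InC d J) :
    InC (c * d) (I * J) := by
  obtain ⟨h1, rfl⟩ := hI
  obtain ⟨h2, rfl⟩ := hJ
  refine ⟨mul_ne_zero h1 h2, ?_⟩
  rw [← _root_.map_mul]
  rfl

theorem inC_unique {c d : ClassGroup (𝓞 K)} {I : Ideal (𝓞 K)} (h : InC c I) (h' : InC d I) :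
    c = d := by
  obtain ⟨h1, rfl⟩ := h
  obtain ⟨h2, rfl⟩ := h'
  rfl

theorem exists_inC {I : Ideal (𝓞 K)} (hI : I ≠ ⊥) : ∃ c, InC c I := ⟨_, hI, rfl⟩

/-- an element of `J₁` outside `J₁ P` -/
theorem unfa_exists_notMem {J₁ P : Ideal (𝓞 K)} (hJ : J₁ ≠ ⊥) (hP : Prime P) :
    ∃ a ∈ J₁, a ∉ J₁ * P := by
  by_contra hcon
  push Not at hcon
  have h1 : J₁ * P = J₁ := le_antisymm Ideal.mul_le_left hcon
  have h2 : J₁ * P = J₁ * 1 := by rw [h1, mul_one]
  have h3 : P = 1 := mul_left_cancel₀ hJ h2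
  exact hP.not_isUnit (h3 ▸ isUnit_one)

/-- every ideal class contains an ideal prime to two given prime ideals -/
theorem exists_rep (c : ClassGroup (𝓞 K)) {P P' : Ideal (𝓞 K)} (hP : Prime P) (hP' : Prime P') :
    ∃ J, InC c J ∧ ¬ P ∣ J ∧ ¬ P' ∣ J := by
  obtain ⟨⟨J₁, hJ₁⟩, hc⟩ := ClassGroup.mk0_surjective c⁻¹
  have hJ0 : J₁ ≠ ⊥ := nonZeroDivisors.ne_zero hJ₁
  obtain ⟨a, ha, haP⟩ := unfa_exists_notMem hJ0 hP
  obtain ⟨b, hb, hbP⟩ := unfa_exists_notMem hJ0 hP'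
  obtain ⟨x, hx, hxP, hxP'⟩ : ∃ x ∈ J₁, x ∉ J₁ * P ∧ x ∉ J₁ * P' := by
    by_cases h1 : a ∈ J₁ * P'
    · by_cases h2 : b ∈ J₁ * P
      · refine ⟨a + b, J₁.add_mem ha hb, ?_, ?_⟩
        · intro h3
          exact haP ((Ideal.add_mem_iff_left _ h2).mp h3)
        · intro h3
          exact hbP ((Ideal.add_mem_iff_right _ h1).mp h3)
      · exact ⟨b, hb, h2, hbP⟩
    · exact ⟨a, ha, haP, h1⟩
  have hx0 : x ≠ 0 := by
    rintro rfl
    exact hxP (Ideal.zero_mem _)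
  obtain ⟨J, hJ⟩ : J₁ ∣ Ideal.span {x} := by
    rw [Ideal.dvd_span_singleton]
    exact hx
  have hs0 : Ideal.span {x} ≠ ⊥ := by
    rw [Ne, Ideal.span_singleton_eq_bot]
    exact hx0
  have hJne : J ≠ ⊥ := by
    rintro rfl
    rw [Ideal.mul_bot] at hJ
    exact hs0 hJ
  refine ⟨J, ⟨hJne, ?_⟩, ?_, ?_⟩
  · have h1 : ClassGroup.mk0 ⟨Ideal.span {x}, mem_nonZeroDivisors_of_ne_zero hs0⟩ = 1 := by
      rw [ClassGroup.mk0_eq_one_iff]
      exact ⟨x, rfl⟩
    have h2 : (⟨Ideal.span {x}, mem_nonZeroDivisors_of_ne_zero hs0⟩ : (Ideal (𝓞 K))⁰) =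
        ⟨J₁, hJ₁⟩ * ⟨J, mem_nonZeroDivisors_of_ne_zero hJne⟩ := Subtype.ext hJ
    rw [h2, _root_.map_mul, hc] at h1
    exact (inv_mul_eq_one.mp h1).symm
  · intro h1
    apply hxP
    rw [← Ideal.dvd_span_singleton, hJ]
    exact mul_dvd_mul_left _ h1
  · intro h1
    apply hxP'
    rw [← Ideal.dvd_span_singleton, hJ]
    exact mul_dvd_mul_left _ h1

open Classical in
theorem sum_class (F : Ideal (𝓞 K) → ℂ) (h0 : F ⊥ = 0) (hF : Summable F) :
    ∑ c : ClassGroup (𝓞 K), ∑' I : Ideal (𝓞 K), (if InC c I then F I else 0) =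
      ∑' I : Ideal (𝓞 K), F I := by
  have h1 : ∀ c : ClassGroup (𝓞 K), Summable (fun I : Ideal (𝓞 K) => if InC c I then F I else 0) := by
    intro c
    refine Summable.of_norm_bounded hF.norm ?_
    intro I
    split_ifs
    · exact le_rfl
    · rw [norm_zero]
      exact norm_nonneg _
  rw [← Summable.tsum_finsetSum (fun c _ => h1 c)]
  congr 1
  funext I
  by_cases hI : I = ⊥
  · subst hI
    rw [h0]
    simp
  · obtain ⟨d, hd⟩ := exists_inC hI
    rw [Finset.sum_eq_single d]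
    · rw [if_pos hd]
    · intro c _ hc
      rw [if_neg]
      intro h
      exact hc (inC_unique h hd)
    · intro h
      exact absurd (Finset.mem_univ d) h

end Pool.Agent.H14.BK
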